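import Mathlib
import Pool.Agent.R528.RM.TupQ

set_option autoImplicit false
set_option linter.unusedSectionVars false

/-! # An exponential inequality for predictable sums with varying bounds -/

open MeasureTheory Filter Set
open scoped ENNReal Topology

namespace Pool.Agent.R960.Fam

open Pool.Agent.R528.RM

variable {Ω : Type} {m0 : MeasurableSpace Ω} {μ : Measure Ω} [IsProbabilityMeasure μ]
  {ℱ : Filtration ℕ m0} {A : ℕ → Set Ω}

/-- the sum of weighted martingale differences -/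
noncomputable def Sb (μ : Measure Ω) (ℱ : Filtration ℕ m0) (A : ℕ → Set Ω) (b : ℕ → ℝ) (w : ℕ → Ω → ℝ)
    (M : ℕ) (ω : Ω) : ℝ :=
  ∑ k ∈ Finset.range M, b k * (w k ω * ((A (k + 1)).indicator (fun _ => (1 : ℝ)) ω - dens μ ℱ A k ω))

lemma Sb_meas (hA : ∀ n, MeasurableSet[ℱ n] (A n)) (b : ℕ → ℝ) (w : ℕ → Ω → ℝ)
    (hw : ∀ k, StronglyMeasurable[ℱ k] (w k)) (M : ℕ) :
    StronglyMeasurable[ℱ M] (Sb μ ℱ A b w M) := by
  have h1 : Sb μ ℱ A b w M = ∑ k ∈ Finset.range M, (fun _ : Ω => b k) *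
      (w k * ((A (k + 1)).indicator (fun _ => (1 : ℝ)) - dens μ ℱ A k)) := by
    funext ω
    simp [Sb]
  rw [h1]
  refine Finset.stronglyMeasurable_sum _ fun k hk => ?_
  have hk' := Finset.mem_range.1 hk
  have h2 : StronglyMeasurable[ℱ M] (w k) := (hw k).mono (ℱ.mono (by omega))
  have h3 : StronglyMeasurable[ℱ M] ((A (k + 1)).indicator (fun _ => (1 : ℝ))) :=
    (@stronglyMeasurable_const _ _ (ℱ M) _ _).indicator (ℱ.mono (by omega) _ (hA (k + 1)))
  have h4 : StronglyMeasurable[ℱ M] (dens μ ℱ A k) := (dens_meas _).mono (ℱ.mono (by omega))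
  have h5 : StronglyMeasurable[ℱ M] ((A (k + 1)).indicator (fun _ => (1 : ℝ)) - dens μ ℱ A k) :=
    @StronglyMeasurable.sub _ _ _ _ (ℱ M) _ _ _ h3 h4
  have h6 : StronglyMeasurable[ℱ M] (w k * ((A (k + 1)).indicator (fun _ => (1 : ℝ)) - dens μ ℱ A k)) :=
    @StronglyMeasurable.mul _ _ _ _ (ℱ M) _ _ _ h2 h5
  exact @StronglyMeasurable.mul _ _ _ _ (ℱ M) _ _ _ (@stronglyMeasurable_const _ _ (ℱ M) _ _) h6

lemma Sb_bound (hA : ∀ n, MeasurableSet[ℱ n] (A n)) (b : ℕ → ℝ) (hb : ∀ k, 0 ≤ b k) (w : ℕ → Ω → ℝ)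
    (hw1 : ∀ k ω, |w k ω| ≤ 1) (M : ℕ) : ∀ᵐ ω ∂μ, |Sb μ ℱ A b w M ω| ≤ ∑ k ∈ Finset.range M, b k := by
  have h1 : ∀ᵐ ω ∂μ, ∀ n, 0 ≤ dens μ ℱ A n ω ∧ dens μ ℱ A n ω ≤ 1 := ae_all_iff.2 fun n => dens01 hA n
  filter_upwards [h1] with ω hω
  unfold Sb
  refine (Finset.abs_sum_le_sum_abs _ _).trans ?_
  refine Finset.sum_le_sum fun k _ => ?_
  rw [abs_mul, abs_mul, abs_of_nonneg (hb k)]
  have h5 : |w k ω| * |(A (k + 1)).indicator (fun _ => (1 : ℝ)) ω - dens μ ℱ A k ω| ≤ 1 := by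
    refine mul_le_one₀ (hw1 k ω) (abs_nonneg _) ?_
    have h2 := hω k
    have h3 : (0 : ℝ) ≤ (A (k + 1)).indicator (fun _ => (1 : ℝ)) ω := indicator_nonneg (fun _ _ => zero_le_one) _
    have h4 : (A (k + 1)).indicator (fun _ => (1 : ℝ)) ω ≤ 1 := indicator_le_self' (fun _ _ => zero_le_one) ω
    rw [abs_le]
    constructor <;> linarith
  calc b k * _ ≤ b k * 1 := mul_le_mul_of_nonneg_left h5 (hb k)
    _ = b k := mul_one _

theorem Sb_mgf (hA : ∀ n, MeasurableSet[ℱ n] (A n)) (b : ℕ → ℝ) (hb : ∀ k, 0 ≤ b k) (w : ℕ → Ω → ℝ)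
    (hw : ∀ k, StronglyMeasurable[ℱ k] (w k)) (hw1 : ∀ k ω, |w k ω| ≤ 1) (t : ℝ) (M : ℕ) :
    ∫ ω, Real.exp (t * Sb μ ℱ A b w M ω) ∂μ ≤ Real.exp ((∑ k ∈ Finset.range M, b k ^ 2) * (t ^ 2 / 2)) := by
  have hint : ∀ M, Integrable (fun ω => Real.exp (t * Sb μ ℱ A b w M ω)) μ := by
    intro M
    have hm : AEStronglyMeasurable (fun ω => Real.exp (t * Sb μ ℱ A b w M ω)) μ :=
      Real.continuous_exp.comp_aestronglyMeasurable
        ((((Sb_meas (μ := μ) hA b w hw M).mono (ℱ.le _)).aestronglyMeasurable).const_mul t)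
    refine Integrable.of_bound hm (Real.exp (|t| * ∑ k ∈ Finset.range M, b k)) ?_
    filter_upwards [Sb_bound (μ := μ) (ℱ := ℱ) hA b hb w hw1 M] with ω hω
    rw [Real.norm_eq_abs, abs_of_pos (Real.exp_pos _)]
    apply Real.exp_le_exp.2
    refine (le_abs_self _).trans ?_
    rw [abs_mul]
    exact mul_le_mul_of_nonneg_left hω (abs_nonneg t)
  induction M with
  | zero => simp [Sb]
  | succ M ih =>
    set D := dens μ ℱ A M with hD
    set I := (A (M + 1)).indicator (fun _ => (1 : ℝ)) with hI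
    set E : Ω → ℝ := fun ω => Real.exp (t * Sb μ ℱ A b w M ω) with hE
    set BM : ℝ := ∑ k ∈ Finset.range M, b k with hBM
    have hs : ∀ ω, Sb μ ℱ A b w (M + 1) ω = Sb μ ℱ A b w M ω + b M * (w M ω * (I ω - D ω)) := by
      intro ω
      unfold Sb
      rw [Finset.sum_range_succ]
    have h01 := dens01 (μ := μ) (ℱ := ℱ) hA M
    have hpt : ∀ᵐ ω ∂μ, Real.exp (t * Sb μ ℱ A b w (M + 1) ω) ≤
        Real.cosh (t * b M) * E ω + Real.sinh (t * b M) * (E ω * w M ω * I ω - E ω * w M ω * D ω) := by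
      filter_upwards [h01] with ω hω
      have hI0 : 0 ≤ I ω := indicator_nonneg (fun _ _ => zero_le_one) _
      have hI1 : I ω ≤ 1 := indicator_le_self' (fun _ _ => zero_le_one) ω
      have hx : |w M ω * (I ω - D ω)| ≤ 1 := by
        rw [abs_mul]
        refine mul_le_one₀ (hw1 M ω) (abs_nonneg _) ?_
        rw [abs_le]
        constructor <;> linarith [hω.1, hω.2]
      have h2 := Real.exp_mul_le_cosh_add_mul_sinh hx (t * b M)
      rw [hs, mul_add, Real.exp_add]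
      have h3 : Real.exp (t * (b M * (w M ω * (I ω - D ω)))) ≤
          Real.cosh (t * b M) + w M ω * (I ω - D ω) * Real.sinh (t * b M) := by
        rw [show t * (b M * (w M ω * (I ω - D ω))) = (t * b M) * (w M ω * (I ω - D ω)) by ring]
        rw [mul_comm (t * b M) (w M ω * (I ω - D ω))] 
        rw [mul_comm (w M ω * (I ω - D ω)) (t * b M)] at *
        exact h2
      calc Real.exp (t * Sb μ ℱ A b w M ω) * Real.exp (t * (b M * (w M ω * (I ω - D ω))))
          ≤ Real.exp (t * Sb μ ℱ A b w M ω) * (Real.cosh (t * b M) + w M ω * (I ω - D ω) * Real.sinh (t * b M)) :=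
            mul_le_mul_of_nonneg_left h3 (Real.exp_pos _).le
        _ = _ := by simp only [hE]; ring
    -- the mixed term vanishes
    have hEm : StronglyMeasurable[ℱ M] E :=
      Real.continuous_exp.comp_stronglyMeasurable ((Sb_meas (μ := μ) hA b w hw M).const_mul t)
    have hfm : StronglyMeasurable[ℱ M] (fun ω => E ω * w M ω) :=
      @StronglyMeasurable.mul _ _ _ _ (ℱ M) _ _ _ hEm (hw M)
    have hfb : ∀ᵐ ω ∂μ, ‖E ω * w M ω‖ ≤ Real.exp (|t| * BM) := by
      filter_upwards [Sb_bound (μ := μ) (ℱ := ℱ) hA b hb w hw1 M] with ω hω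
      rw [norm_mul]
      have h2 : ‖E ω‖ ≤ Real.exp (|t| * BM) := by
        simp only [hE]
        rw [Real.norm_eq_abs, abs_of_pos (Real.exp_pos _)]
        apply Real.exp_le_exp.2
        refine (le_abs_self _).trans ?_
        rw [abs_mul]
        exact mul_le_mul_of_nonneg_left hω (abs_nonneg t)
      calc ‖E ω‖ * ‖w M ω‖ ≤ Real.exp (|t| * BM) * 1 := mul_le_mul h2 (hw1 M ω) (norm_nonneg _) (Real.exp_pos _).le
        _ = _ := mul_one _
    have hpull := pull_A (μ := μ) hA M hfm (Real.exp (|t| * BM)) hfb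
    have hfam : AEStronglyMeasurable (fun ω => E ω * w M ω) μ := (hfm.mono (ℱ.le _)).aestronglyMeasurable
    have hIam : AEStronglyMeasurable I μ :=
      ((stronglyMeasurable_const.indicator (ℱ.le _ _ (hA (M + 1))))).aestronglyMeasurable
    have hDam : AEStronglyMeasurable D μ := ((dens_meas M).mono (ℱ.le _)).aestronglyMeasurable
    have i1 : Integrable (fun ω => E ω * w M ω * I ω) μ := by
      refine Integrable.of_bound (hfam.mul hIam) (Real.exp (|t| * BM)) ?_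
      filter_upwards [hfb] with ω hω
      rw [norm_mul]
      have hI1 : ‖I ω‖ ≤ 1 := by
        rw [Real.norm_eq_abs, abs_of_nonneg (indicator_nonneg (fun _ _ => zero_le_one) _)]
        exact indicator_le_self' (fun _ _ => zero_le_one) ω
      calc _ ≤ Real.exp (|t| * BM) * 1 := mul_le_mul hω hI1 (norm_nonneg _) (Real.exp_pos _).le
        _ = _ := mul_one _
    have i2 : Integrable (fun ω => E ω * w M ω * D ω) μ := by
      refine Integrable.of_bound (hfam.mul hDam) (Real.exp (|t| * BM)) ?_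
      filter_upwards [hfb, h01] with ω hω h2
      rw [norm_mul]
      have hD1 : ‖D ω‖ ≤ 1 := by
        rw [Real.norm_eq_abs, abs_of_nonneg h2.1]
        exact h2.2
      calc _ ≤ Real.exp (|t| * BM) * 1 := mul_le_mul hω hD1 (norm_nonneg _) (Real.exp_pos _).le
        _ = _ := mul_one _
    have i3 : Integrable (fun ω => Real.cosh (t * b M) * E ω +
        Real.sinh (t * b M) * (E ω * w M ω * I ω - E ω * w M ω * D ω)) μ :=
      ((hint M).const_mul _).add ((i1.sub i2).const_mul _)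
    have h4 : ∫ ω, (Real.cosh (t * b M) * E ω + Real.sinh (t * b M) * (E ω * w M ω * I ω - E ω * w M ω * D ω)) ∂μ =
        Real.cosh (t * b M) * ∫ ω, E ω ∂μ := by
      have i12 : Integrable (fun ω => E ω * w M ω * I ω - E ω * w M ω * D ω) μ := i1.sub i2
      rw [integral_add ((hint M).const_mul _) (i12.const_mul _), integral_const_mul, integral_const_mul,
        integral_sub i1 i2, hpull, sub_self, mul_zero, add_zero]
    have h5 := integral_mono_ae (hint (M + 1)) i3 hpt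
    rw [h4] at h5
    have h6 : Real.cosh (t * b M) * ∫ ω, E ω ∂μ ≤
        Real.exp ((t * b M) ^ 2 / 2) * Real.exp ((∑ k ∈ Finset.range M, b k ^ 2) * (t ^ 2 / 2)) := by
      apply mul_le_mul (Real.cosh_le_exp_half_sq (t * b M)) ih (integral_nonneg fun ω => (Real.exp_pos _).le)
        (Real.exp_pos _).le
    rw [← Real.exp_add] at h6
    refine (h5.trans h6).trans (le_of_eq ?_)
    congr 1
    rw [Finset.sum_range_succ]
    ring

/-- one-sided exponential inequality -/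
theorem Sb_tail1 (hA : ∀ n, MeasurableSet[ℱ n] (A n)) (b : ℕ → ℝ) (hb : ∀ k, 0 ≤ b k) (w : ℕ → Ω → ℝ)
    (hw : ∀ k, StronglyMeasurable[ℱ k] (w k)) (hw1 : ∀ k ω, |w k ω| ≤ 1) (M : ℕ) {B : ℝ} (hB : 0 < B)
    (hBb : ∑ k ∈ Finset.range M, b k ^ 2 ≤ B) {lam : ℝ} (hlam : 0 ≤ lam) :
    μ.real {ω | lam ≤ Sb μ ℱ A b w M ω} ≤ Real.exp (-(lam ^ 2 / (2 * B))) := by
  set t : ℝ := lam / B with ht
  have ht0 : 0 ≤ t := div_nonneg hlam hB.le
  have h1 := Sb_mgf (μ := μ) hA b hb w hw hw1 t M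
  have h1' : ∫ ω, Real.exp (t * Sb μ ℱ A b w M ω) ∂μ ≤ Real.exp (B * (t ^ 2 / 2)) :=
    h1.trans (Real.exp_le_exp.2 (mul_le_mul_of_nonneg_right hBb (by positivity)))
  have hm : AEStronglyMeasurable (fun ω => Real.exp (t * Sb μ ℱ A b w M ω)) μ :=
    Real.continuous_exp.comp_aestronglyMeasurable
      ((((Sb_meas (μ := μ) hA b w hw M).mono (ℱ.le _)).aestronglyMeasurable).const_mul t)
  have hint : Integrable (fun ω => Real.exp (t * Sb μ ℱ A b w M ω)) μ := by
    refine Integrable.of_bound hm (Real.exp (|t| * ∑ k ∈ Finset.range M, b k)) ?_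
    filter_upwards [Sb_bound (μ := μ) (ℱ := ℱ) hA b hb w hw1 M] with ω hω
    rw [Real.norm_eq_abs, abs_of_pos (Real.exp_pos _)]
    apply Real.exp_le_exp.2
    refine (le_abs_self _).trans ?_
    rw [abs_mul]
    exact mul_le_mul_of_nonneg_left hω (abs_nonneg t)
  have h2 := mul_meas_ge_le_integral_of_nonneg (μ := μ) (Eventually.of_forall fun ω => (Real.exp_pos (t * Sb μ ℱ A b w M ω)).le)
    hint (Real.exp (t * lam))
  have h3 : μ.real {ω | lam ≤ Sb μ ℱ A b w M ω} ≤ μ.real {ω | Real.exp (t * lam) ≤ Real.exp (t * Sb μ ℱ A b w M ω)} := by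
    apply measureReal_mono _ (measure_ne_top _ _)
    intro ω hω
    exact Real.exp_le_exp.2 (mul_le_mul_of_nonneg_left hω ht0)
  have h4 : Real.exp (t * lam) * μ.real {ω | lam ≤ Sb μ ℱ A b w M ω} ≤ Real.exp (B * (t ^ 2 / 2)) :=
    (mul_le_mul_of_nonneg_left h3 (Real.exp_pos _).le).trans (h2.trans h1')
  have h5 : μ.real {ω | lam ≤ Sb μ ℱ A b w M ω} ≤ Real.exp (B * (t ^ 2 / 2)) / Real.exp (t * lam) := by
    rw [le_div_iff₀ (Real.exp_pos _), mul_comm]
    exact h4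
  rw [← Real.exp_sub] at h5
  refine h5.trans (le_of_eq ?_)
  congr 1
  rw [ht]
  field_simp
  ring

/-- two-sided exponential inequality -/
theorem Sb_tail (hA : ∀ n, MeasurableSet[ℱ n] (A n)) (b : ℕ → ℝ) (hb : ∀ k, 0 ≤ b k) (w : ℕ → Ω → ℝ)
    (hw : ∀ k, StronglyMeasurable[ℱ k] (w k)) (hw1 : ∀ k ω, |w k ω| ≤ 1) (M : ℕ) {B : ℝ} (hB : 0 < B)
    (hBb : ∑ k ∈ Finset.range M, b k ^ 2 ≤ B) {lam : ℝ} (hlam : 0 ≤ lam) :
    μ.real {ω | lam ≤ |Sb μ ℱ A b w M ω|} ≤ 2 * Real.exp (-(lam ^ 2 / (2 * B))) := by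
  have h1 := Sb_tail1 (μ := μ) hA b hb w hw hw1 M hB hBb hlam
  have h2 := Sb_tail1 (μ := μ) hA b hb (fun k ω => - w k ω) (fun k => (hw k).neg) (fun k ω => by
    rw [abs_neg]; exact hw1 k ω) M hB hBb hlam
  have h3 : ∀ ω, Sb μ ℱ A b (fun k ω => - w k ω) M ω = - Sb μ ℱ A b w M ω := by
    intro ω
    unfold Sb
    rw [← Finset.sum_neg_distrib]
    refine Finset.sum_congr rfl fun k _ => ?_
    ring
  simp_rw [h3] at h2
  have h4 : {ω | lam ≤ |Sb μ ℱ A b w M ω|} ⊆ {ω | lam ≤ Sb μ ℱ A b w M ω} ∪ {ω | lam ≤ - Sb μ ℱ A b w M ω} := by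
    intro ω hω
    rcases le_abs.1 (show lam ≤ |Sb μ ℱ A b w M ω| from hω) with h | h
    · exact Or.inl h
    · exact Or.inr h
  calc μ.real {ω | lam ≤ |Sb μ ℱ A b w M ω|} ≤ μ.real ({ω | lam ≤ Sb μ ℱ A b w M ω} ∪ {ω | lam ≤ - Sb μ ℱ A b w M ω}) :=
        measureReal_mono h4 (measure_ne_top _ _)
    _ ≤ _ := measureReal_union_le _ _
    _ ≤ _ := by linarith

end Pool.Agent.R960.Fam
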