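import Mathlib
import Pool.Agent.R960.Fam.Azb

set_option autoImplicit false
set_option linter.unusedSectionVars false

/-! # Counting the edges of a hypergraph all of whose vertices are chosen -/

open MeasureTheory Filter Set
open scoped ENNReal Topology

namespace Pool.Agent.R960.Fam

open Pool.Agent.R528.RM

variable {Ω : Type} {m0 : MeasurableSpace Ω} {μ : Measure Ω} [IsProbabilityMeasure μ]
  {ℱ : Filtration ℕ m0} {A : ℕ → Set Ω} {k : ℕ} {β : Type}

/-- mixed product: choices below rank `r`, profile from rank `r` on -/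
noncomputable def mix (A : ℕ → Set Ω) (ρ : ℕ → ℝ) (v : Fin k → ℕ) (r : ℕ) (ω : Ω) : ℝ :=
  ∏ j : Fin k, if (j : ℕ) < r then In A (v j) ω else ρ (v j)

/-- the same product without the factor of rank `r` -/
noncomputable def coef (A : ℕ → Set Ω) (ρ : ℕ → ℝ) (v : Fin k → ℕ) (r : Fin k) (ω : Ω) : ℝ :=
  ∏ j : Fin k, if j < r then In A (v j) ω else if j = r then 1 else ρ (v j)

lemma mix_succ (ρ : ℕ → ℝ) (v : Fin k → ℕ) (r : Fin k) (ω : Ω) :
    mix A ρ v (r + 1) ω = coef A ρ v r ω * In A (v r) ω := by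
  unfold mix coef
  rw [Fintype.prod_eq_mul_prod_compl r, Fintype.prod_eq_mul_prod_compl r (fun j => if j < r then In A (v j) ω else if j = r then 1 else ρ (v j))]
  rw [if_pos (by omega), if_neg (lt_irrefl r), if_pos rfl, one_mul, mul_comm]
  congr 1
  refine Finset.prod_congr rfl fun j hj => ?_
  have hj' : j ≠ r := by simpa using hj
  have hj2 : (j : ℕ) ≠ (r : ℕ) := fun h => hj' (Fin.ext h)
  by_cases h : j < r
  · have : (j : ℕ) < (r : ℕ) := h
    rw [if_pos (by omega), if_pos h]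
  · have : ¬ (j : ℕ) < (r : ℕ) := h
    rw [if_neg (by omega), if_neg h, if_neg hj']

lemma mix_same (ρ : ℕ → ℝ) (v : Fin k → ℕ) (r : Fin k) (ω : Ω) :
    mix A ρ v r ω = coef A ρ v r ω * ρ (v r) := by
  unfold mix coef
  rw [Fintype.prod_eq_mul_prod_compl r, Fintype.prod_eq_mul_prod_compl r (fun j => if j < r then In A (v j) ω else if j = r then 1 else ρ (v j))]
  rw [if_neg (lt_irrefl _), if_neg (lt_irrefl r), if_pos rfl, one_mul, mul_comm]
  congr 1
  refine Finset.prod_congr rfl fun j hj => ?_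
  have hj' : j ≠ r := by simpa using hj
  have hj2 : (j : ℕ) ≠ (r : ℕ) := fun h => hj' (Fin.ext h)
  by_cases h : j < r
  · have : (j : ℕ) < (r : ℕ) := h
    rw [if_pos this, if_pos h]
  · have : ¬ (j : ℕ) < (r : ℕ) := h
    rw [if_neg this, if_neg h, if_neg hj']

lemma coef_nonneg {ρ : ℕ → ℝ} (hρ : ∀ n, 0 ≤ ρ n ∧ ρ n ≤ 1) (v : Fin k → ℕ) (r : Fin k) (ω : Ω) :
    0 ≤ coef A ρ v r ω := by
  refine Finset.prod_nonneg fun j _ => ?_
  split_ifs
  · exact In_nonneg _ _
  · exact zero_le_one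
  · exact (hρ _).1

lemma coef_le {ρ : ℕ → ℝ} (hρ : ∀ n, 0 ≤ ρ n ∧ ρ n ≤ 1) (v : Fin k → ℕ) (r : Fin k) (ω : Ω) :
    coef A ρ v r ω ≤ 1 := by
  refine Finset.prod_le_one (fun j _ => ?_) fun j _ => ?_
  · split_ifs
    · exact In_nonneg _ _
    · exact zero_le_one
    · exact (hρ _).1
  · split_ifs
    · exact In_le _ _
    · exact le_rfl
    · exact (hρ _).2

lemma mix_nonneg {ρ : ℕ → ℝ} (hρ : ∀ n, 0 ≤ ρ n ∧ ρ n ≤ 1) (v : Fin k → ℕ) (r : ℕ) (ω : Ω) :
    0 ≤ mix A ρ v r ω := by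
  refine Finset.prod_nonneg fun j _ => ?_
  split_ifs
  · exact In_nonneg _ _
  · exact (hρ _).1

lemma coef_meas (hA : ∀ n, MeasurableSet[ℱ n] (A n)) (ρ : ℕ → ℝ) {v : Fin k → ℕ} (hv : StrictMono v)
    (r : Fin k) {m : ℕ} (hm : v r ≤ m + 1) : StronglyMeasurable[ℱ m] (coef A ρ v r) := by
  have h1 : coef A ρ v r = ∏ j : Fin k, (fun ω => if j < r then In A (v j) ω else if j = r then 1 else ρ (v j)) := by
    funext ω
    simp [coef]
  rw [h1]
  refine Finset.stronglyMeasurable_prod _ fun j _ => ?_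
  by_cases h : j < r
  · simp only [if_pos h]
    have := hv h
    exact In_meas hA (by omega)
  · simp only [if_neg h]
    exact @stronglyMeasurable_const _ _ (ℱ m) _ _

/-- the martingale of rank `r` -/
noncomputable def DR (μ : Measure Ω) (ℱ : Filtration ℕ m0) (A : ℕ → Set Ω) (ρ : ℕ → ℝ) (I : Finset β)
    (v : β → Fin k → ℕ) (r : Fin k) (ω : Ω) : ℝ :=
  ∑ i ∈ I, coef A ρ (v i) r ω * (In A (v i r) ω - dens μ ℱ A (v i r - 1) ω)

theorem DR_tail (hA : ∀ n, MeasurableSet[ℱ n] (A n)) {ρ : ℕ → ℝ} (hρ : ∀ n, 0 ≤ ρ n ∧ ρ n ≤ 1) (I : Finset β)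
    (v : β → Fin k → ℕ) (hmono : ∀ i ∈ I, StrictMono (v i)) (hpos : ∀ i ∈ I, ∀ j, 1 ≤ v i j)
    {κ : ℕ} (hκ : 0 < κ) (r : Fin k) (hmult : ∀ m, {i | i ∈ I ∧ v i r = m}.ncard ≤ κ) {L : ℝ} (hL : 0 ≤ L) :
    μ.real {ω | κ * √(2 * L * I.card) < |DR μ ℱ A ρ I v r ω|} ≤ 2 * Real.exp (-L) := by
  classical
  rcases I.eq_empty_or_nonempty with hI | hI
  · have : {ω | κ * √(2 * L * I.card) < |DR μ ℱ A ρ I v r ω|} = ∅ := by
      ext ω
      simp only [Set.mem_ofPred_eq, Set.mem_empty_iff_false, iff_false, not_lt]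
      rw [hI]
      simp [DR]
    rw [this]
    simp only [measureReal_empty]
    positivity
  have hIc : (0 : ℝ) < I.card := by exact_mod_cast hI.card_pos
  have hκr : (0 : ℝ) < κ := by exact_mod_cast hκ
  set J : ℕ → Finset β := fun m => I.filter (fun i => v i r - 1 = m) with hJ
  have hJc : ∀ m, (J m).card ≤ κ := by
    intro m
    have h1 := hmult (m + 1)
    have h2 : {i | i ∈ I ∧ v i r = m + 1} = (J m : Set β) := by
      ext i
      simp only [hJ, Set.mem_ofPred_eq, Finset.coe_filter]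
      constructor
      · rintro ⟨h3, h4⟩
        exact ⟨h3, by omega⟩
      · rintro ⟨h3, h4⟩
        have := hpos i h3 r
        exact ⟨h3, by omega⟩
    rwa [h2, Set.ncard_coe_finset] at h1
  set b : ℕ → ℝ := fun m => if (J m).Nonempty then (κ : ℝ) else 0 with hb
  set w : ℕ → Ω → ℝ := fun m ω => (∑ i ∈ J m, coef A ρ (v i) r ω) / κ with hw
  have hb0 : ∀ m, 0 ≤ b m := by
    intro m
    simp only [hb]
    split_ifs
    · exact hκr.le
    · exact le_rfl
  have hwm : ∀ m, StronglyMeasurable[ℱ m] (w m) := by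
    intro m
    have h1 : w m = (∑ i ∈ J m, coef A ρ (v i) r) * (fun _ => (κ : ℝ)⁻¹) := by
      funext ω
      simp [hw, div_eq_mul_inv]
    rw [h1]
    refine @StronglyMeasurable.mul _ _ _ _ (ℱ m) _ _ _ ?_ (@stronglyMeasurable_const _ _ (ℱ m) _ _)
    refine Finset.stronglyMeasurable_sum _ fun i hi => ?_
    have hi' := Finset.mem_filter.1 hi
    exact coef_meas hA ρ (hmono i hi'.1) r (by omega)
  have hw1 : ∀ m ω, |w m ω| ≤ 1 := by
    intro m ω
    simp only [hw]
    rw [abs_div, abs_of_pos hκr, div_le_one hκr]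
    have h1 : 0 ≤ ∑ i ∈ J m, coef A ρ (v i) r ω := Finset.sum_nonneg fun i _ => coef_nonneg hρ _ _ _
    rw [abs_of_nonneg h1]
    calc ∑ i ∈ J m, coef A ρ (v i) r ω ≤ ∑ i ∈ J m, (1 : ℝ) := Finset.sum_le_sum fun i _ => coef_le hρ _ _ _
      _ = (J m).card := by simp
      _ ≤ κ := by exact_mod_cast hJc m
  -- the range of times
  obtain ⟨M, hM⟩ : ∃ M : ℕ, ∀ i ∈ I, v i r - 1 < M :=
    ⟨(I.sup fun i => v i r) + 1, fun i hi => by
      have : v i r ≤ I.sup fun i => v i r := Finset.le_sup (f := fun i => v i r) hi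
      omega⟩
  have hS : ∀ ω, Sb μ ℱ A b w M ω = DR μ ℱ A ρ I v r ω := by
    intro ω
    unfold Sb DR
    rw [← Finset.sum_fiberwise_of_maps_to (s := I) (t := Finset.range M) (g := fun i => v i r - 1)
      (fun i hi => Finset.mem_range.2 (hM i hi))]
    refine Finset.sum_congr rfl fun m _ => ?_
    have h1 : ∀ i ∈ I.filter (fun i => v i r - 1 = m), coef A ρ (v i) r ω * (In A (v i r) ω - dens μ ℱ A (v i r - 1) ω) =
        coef A ρ (v i) r ω * ((A (m + 1)).indicator (fun _ => (1 : ℝ)) ω - dens μ ℱ A m ω) := by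
      intro i hi
      have hi' := Finset.mem_filter.1 hi
      have hp := hpos i hi'.1 r
      have e : v i r = m + 1 := by omega
      rw [hi'.2, e]
      rfl
    rw [Finset.sum_congr rfl h1, ← Finset.sum_mul]
    simp only [hw, hb]
    by_cases hne : (J m).Nonempty
    · rw [if_pos hne]
      have e5 : J m = I.filter (fun i => v i r - 1 = m) := rfl
      rw [← e5]
      field_simp
    · rw [if_neg hne, zero_mul]
      have h0 : J m = ∅ := Finset.not_nonempty_iff_eq_empty.1 hne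
      have h0' : I.filter (fun i => v i r - 1 = m) = ∅ := h0
      rw [h0']
      simp
  have hB : ∑ m ∈ Finset.range M, b m ^ 2 ≤ (κ : ℝ) ^ 2 * I.card := by
    have h1 : ∀ m ∈ Finset.range M, b m ^ 2 ≤ (κ : ℝ) ^ 2 * (J m).card := by
      intro m _
      simp only [hb]
      split_ifs with h
      · have : (1 : ℝ) ≤ (J m).card := by exact_mod_cast h.card_pos
        nlinarith [sq_nonneg (κ : ℝ)]
      · rw [zero_pow two_ne_zero]
        positivity
    refine (Finset.sum_le_sum h1).trans ?_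
    rw [← Finset.mul_sum]
    apply mul_le_mul_of_nonneg_left _ (by positivity)
    have h2 := Finset.card_eq_sum_card_fiberwise (s := I) (t := Finset.range M) (f := fun i => v i r - 1)
      (fun i hi => Finset.mem_coe.2 (Finset.mem_range.2 (hM i hi)))
    rw [h2]
    push_cast
    rfl
  have hlam : (0 : ℝ) ≤ κ * √(2 * L * I.card) := by positivity
  have h1 := Sb_tail (μ := μ) hA b hb0 w hwm hw1 M (B := (κ : ℝ) ^ 2 * I.card) (by positivity) hB hlam
  have h2 : (κ * √(2 * L * I.card)) ^ 2 / (2 * ((κ : ℝ) ^ 2 * I.card)) = L := by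
    rw [mul_pow, Real.sq_sqrt (by positivity)]
    field_simp
  rw [h2] at h1
  refine le_trans (measureReal_mono ?_ (measure_ne_top _ _)) h1
  intro ω hω
  simp only [Set.mem_ofPred_eq] at hω ⊢
  rw [hS ω]
  exact hω.le

/-- the deterministic part -/
theorem det_bound {ρ : ℕ → ℝ} (hρ : ∀ n, 0 ≤ ρ n ∧ ρ n ≤ 1) (I : Finset β) (v : β → Fin k → ℕ) {ω : Ω} {δ lam : ℝ}
    (hδ : 0 ≤ δ) (hlam : 0 ≤ lam)
    (hd : ∀ i ∈ I, ∀ j, |dens μ ℱ A (v i j - 1) ω - ρ (v i j)| ≤ δ * ρ (v i j))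
    (hD : ∀ r : Fin k, |DR μ ℱ A ρ I v r ω| ≤ lam) :
    |∑ i ∈ I, mix A ρ (v i) k ω - ∑ i ∈ I, mix A ρ (v i) 0 ω| ≤
      ((1 + δ) ^ k - 1) * ∑ i ∈ I, mix A ρ (v i) 0 ω + (1 + δ) ^ k * k * lam := by
  set T : ℕ → ℝ := fun r => ∑ i ∈ I, mix A ρ (v i) r ω with hT
  have hT0 : ∀ r, 0 ≤ T r := fun r => Finset.sum_nonneg fun i _ => mix_nonneg hρ _ _ _
  have step : ∀ r : Fin k, |T (r + 1) - T r| ≤ lam + δ * T r := by
    intro r
    have e1 : T (r + 1) - T r = DR μ ℱ A ρ I v r ω +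
        ∑ i ∈ I, coef A ρ (v i) r ω * (dens μ ℱ A (v i r - 1) ω - ρ (v i r)) := by
      simp only [hT, DR]
      rw [← Finset.sum_sub_distrib, ← Finset.sum_add_distrib]
      refine Finset.sum_congr rfl fun i _ => ?_
      rw [mix_succ, mix_same]
      ring
    have e2 : |∑ i ∈ I, coef A ρ (v i) r ω * (dens μ ℱ A (v i r - 1) ω - ρ (v i r))| ≤ δ * T r := by
      refine (Finset.abs_sum_le_sum_abs _ _).trans ?_
      simp only [hT]
      rw [Finset.mul_sum]
      refine Finset.sum_le_sum fun i hi => ?_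
      rw [abs_mul, abs_of_nonneg (coef_nonneg hρ _ _ _), mix_same]
      calc coef A ρ (v i) r ω * |dens μ ℱ A (v i r - 1) ω - ρ (v i r)| ≤
          coef A ρ (v i) r ω * (δ * ρ (v i r)) := mul_le_mul_of_nonneg_left (hd i hi r) (coef_nonneg hρ _ _ _)
        _ = _ := by ring
    rw [e1]
    exact (abs_add_le _ _).trans (add_le_add (hD r) e2)
  have main : ∀ r : ℕ, r ≤ k → T r ≤ (1 + δ) ^ r * (T 0 + r * lam) ∧
      |T r - T 0| ≤ ((1 + δ) ^ r - 1) * T 0 + (1 + δ) ^ r * r * lam := by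
    intro r
    induction r with
    | zero => intro _; simp
    | succ r ih =>
      intro hr
      obtain ⟨h1, h2⟩ := ih (by omega)
      have h3 := step ⟨r, by omega⟩
      simp only at h3
      have hp : 1 ≤ (1 + δ) ^ (r + 1) := one_le_pow₀ (by linarith)
      have h4 := abs_le.1 h3
      have hp' : (1 + δ) ^ (r + 1) = (1 + δ) ^ r * (1 + δ) := pow_succ _ _
      have h5 : (1 + δ) * T r ≤ (1 + δ) * ((1 + δ) ^ r * (T 0 + r * lam)) :=
        mul_le_mul_of_nonneg_left h1 (by linarith)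
      have h6 : δ * T r ≤ δ * ((1 + δ) ^ r * (T 0 + r * lam)) := mul_le_mul_of_nonneg_left h1 hδ
      have h7 : lam ≤ (1 + δ) ^ (r + 1) * lam := le_mul_of_one_le_left hlam hp
      constructor
      · push_cast
        calc T (r + 1) ≤ (1 + δ) * T r + lam := by linarith [h4.2]
          _ ≤ (1 + δ) * ((1 + δ) ^ r * (T 0 + r * lam)) + (1 + δ) ^ (r + 1) * lam := by linarith
          _ = _ := by rw [hp']; ring
      · push_cast
        calc |T (r + 1) - T 0| = |(T (r + 1) - T r) + (T r - T 0)| := by ring_nf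
          _ ≤ |T (r + 1) - T r| + |T r - T 0| := abs_add_le _ _
          _ ≤ (lam + δ * ((1 + δ) ^ r * (T 0 + r * lam))) + (((1 + δ) ^ r - 1) * T 0 + (1 + δ) ^ r * r * lam) := by
            linarith
          _ ≤ ((1 + δ) ^ (r + 1) * lam + δ * ((1 + δ) ^ r * (T 0 + r * lam))) +
              (((1 + δ) ^ r - 1) * T 0 + (1 + δ) ^ r * r * lam) := by linarith
          _ = _ := by rw [hp']; ring
  exact (main k le_rfl).2

end Pool.Agent.R960.Fam
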