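import Mathlib
import Pool.Agent.R960.Fam.Edge

set_option autoImplicit false
set_option linter.unusedSectionVars false

/-! # The law of large numbers for families of hypergraphs -/

open MeasureTheory Filter Set
open scoped ENNReal Topology

namespace Pool.Agent.R960.Fam

open Pool.Agent.R528.RM

variable {Ω : Type} {m0 : MeasurableSpace Ω} {μ : Measure Ω} [IsProbabilityMeasure μ]
  {ℱ : Filtration ℕ m0} {A : ℕ → Set Ω} {α β : Type}

/-- the increasing enumeration of a set of `k` integers -/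
noncomputable def enum (k : ℕ) (V : Finset ℕ) : Fin k → ℕ :=
  if h : V.card = k then ⇑(V.orderEmbOfFin h) else fun _ => 0

lemma enum_mono {k : ℕ} {V : Finset ℕ} (h : V.card = k) : StrictMono (enum k V) := by
  unfold enum
  rw [dif_pos h]
  exact (V.orderEmbOfFin h).strictMono

lemma enum_mem {k : ℕ} {V : Finset ℕ} (h : V.card = k) (j : Fin k) : enum k V j ∈ V := by
  unfold enum
  rw [dif_pos h]
  exact Finset.orderEmbOfFin_mem _ _ _

lemma enum_prod {k : ℕ} {V : Finset ℕ} (h : V.card = k) (f : ℕ → ℝ) : ∏ j : Fin k, f (enum k V j) = ∏ m ∈ V, f m := by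
  classical
  have h1 : (Finset.univ : Finset (Fin k)).image (enum k V) = V := by
    unfold enum
    rw [dif_pos h]
    exact Finset.image_orderEmbOfFin_univ _ _
  conv_rhs => rw [← h1]
  rw [Finset.prod_image fun a _ b _ hab => (enum_mono h).injective hab]

theorem fam_law (hA : ∀ n, MeasurableSet[ℱ n] (A n)) {ρ : ℕ → ℝ} (hρ : ∀ n, 0 ≤ ρ n ∧ ρ n ≤ 1)
    (hd : ∀ᵐ ω ∂μ, ∀ ε : ℝ, 0 < ε → ∀ᶠ n : ℕ in atTop, |dens μ ℱ A n ω - ρ (n + 1)| ≤ ε * ρ (n + 1))
    (k κ C : ℕ) (hκ : 0 < κ) (Φ : ℕ → Finset α) (hΦ : ∀ᶠ x in atTop, (Φ x).card ≤ x ^ C)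
    (I : α → Finset β) (V : α → β → Finset ℕ) (mn : ℕ → ℕ) (hmn : Tendsto mn atTop atTop)
    (hmin : ∀ᶠ x in atTop, ∀ a ∈ Φ x, ∀ i ∈ I a, (V a i).card = k ∧ ∀ m ∈ V a i, mn x ≤ m)
    (hmult : ∀ᶠ x in atTop, ∀ a ∈ Φ x, ∀ m, {i | i ∈ I a ∧ m ∈ V a i}.ncard ≤ κ) :
    ∀ᵐ ω ∂μ, ∀ ε : ℝ, 0 < ε → ∀ᶠ x : ℕ in atTop, ∀ a ∈ Φ x,
      |∑ i ∈ I a, ∏ m ∈ V a i, In A m ω - ∑ i ∈ I a, ∏ m ∈ V a i, ρ m| ≤
        2 * k * κ * √(2 * (C + 2) * Real.log x * (I a).card) + ε * ∑ i ∈ I a, ∏ m ∈ V a i, ρ m := by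
  classical
  set v : α → β → Fin k → ℕ := fun a i => enum k (V a i) with hv
  set L : ℕ → ℝ := fun x => (C + 2) * Real.log x with hL
  set bad : ℕ → α × Fin k → Set Ω := fun x p =>
    {ω | κ * √(2 * L x * (I p.1).card) < |DR μ ℱ A ρ (I p.1) (v p.1) p.2 ω|} with hbad
  set s : ℕ → Set Ω := fun x => ⋃ p ∈ (Φ x) ×ˢ (Finset.univ : Finset (Fin k)), bad x p with hs
  have hprob : ∀ᶠ x : ℕ in atTop, μ.real (s x) ≤ 2 * k * (1 / (x : ℝ) ^ 2) := by
    filter_upwards [hΦ, hmin, hmult, hmn.eventually_ge_atTop 1, eventually_ge_atTop 1] with x h1 h2 h3 h4 h5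
    have hx : (0 : ℝ) < x := by exact_mod_cast h5
    have hLx : 0 ≤ L x := mul_nonneg (by positivity) (Real.log_natCast_nonneg x)
    have hb : ∀ p ∈ (Φ x) ×ˢ (Finset.univ : Finset (Fin k)), μ.real (bad x p) ≤ 2 * Real.exp (-(L x)) := by
      intro p hp
      have hp1 := (Finset.mem_product.1 hp).1
      refine DR_tail hA hρ (I p.1) (v p.1) (fun i hi => enum_mono (h2 p.1 hp1 i hi).1) ?_ hκ p.2 ?_ hLx
      · intro i hi j
        have := (h2 p.1 hp1 i hi).2 _ (enum_mem (h2 p.1 hp1 i hi).1 j)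
        show 1 ≤ enum k (V p.1 i) j
        omega
      · intro m
        refine le_trans (Set.ncard_le_ncard ?_ ?_) (h3 p.1 hp1 m)
        · rintro i ⟨hi, hm⟩
          refine ⟨hi, ?_⟩
          rw [← hm]
          exact enum_mem (h2 p.1 hp1 i hi).1 p.2
        · exact (I p.1).finite_toSet.subset fun i hi => hi.1
    have h6 : μ.real (s x) ≤ ∑ p ∈ (Φ x) ×ˢ (Finset.univ : Finset (Fin k)), μ.real (bad x p) :=
      measureReal_biUnion_finset_le _ _
    refine h6.trans ((Finset.sum_le_sum hb).trans ?_)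
    rw [Finset.sum_const, nsmul_eq_mul, Finset.card_product, Finset.card_univ, Fintype.card_fin]
    have h7 : Real.exp (-(L x)) = 1 / (x : ℝ) ^ (C + 2) := by
      simp only [hL]
      rw [Real.exp_neg, show ((C : ℝ) + 2) * Real.log x = Real.log ((x : ℝ) ^ (C + 2)) by
        rw [Real.log_pow]; push_cast; ring, Real.exp_log (by positivity), one_div]
    rw [h7]
    have h8 : ((Φ x).card : ℝ) ≤ (x : ℝ) ^ C := by exact_mod_cast h1
    have h9 : ((Φ x).card : ℝ) * (1 / (x : ℝ) ^ (C + 2)) ≤ 1 / (x : ℝ) ^ 2 := by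
      rw [pow_add, ← one_div_mul_one_div, ← mul_assoc]
      refine mul_le_of_le_one_left (by positivity) ?_
      rw [mul_one_div, div_le_one (by positivity)]
      exact h8
    push_cast
    calc (((Φ x).card : ℝ) * k) * (2 * (1 / (x : ℝ) ^ (C + 2))) = 2 * k * (((Φ x).card : ℝ) * (1 / (x : ℝ) ^ (C + 2))) := by ring
      _ ≤ 2 * k * (1 / (x : ℝ) ^ 2) := mul_le_mul_of_nonneg_left h9 (by positivity)
  have hsum : Summable (fun x : ℕ => 2 * (k : ℝ) * (1 / (x : ℝ) ^ 2)) :=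
    (Real.summable_one_div_nat_pow.2 (by norm_num)).mul_left _
  filter_upwards [bc_real hsum hprob, hd] with ω hω1 hω2 ε hε
  -- choice of delta
  obtain ⟨δ, hδ0, hδ⟩ : ∃ δ : ℝ, 0 < δ ∧ (1 + δ) ^ k ≤ 1 + min ε 1 := by
    have hc : Tendsto (fun δ : ℝ => (1 + δ) ^ k) (𝓝[>] 0) (𝓝 1) := by
      have : ContinuousAt (fun δ : ℝ => (1 + δ) ^ k) 0 := by fun_prop
      have h2 := this.tendsto
      simp only [add_zero, one_pow] at h2
      exact h2.mono_left nhdsWithin_le_nhds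
    have hpos : (1 : ℝ) < 1 + min ε 1 := by
      have : 0 < min ε 1 := lt_min hε one_pos
      linarith
    obtain ⟨δ, h1, h2⟩ := ((hc.eventually_le_const hpos).and self_mem_nhdsWithin).exists
    exact ⟨δ, h2, h1⟩
  obtain ⟨N, hN⟩ := eventually_atTop.1 (hω2 δ hδ0)
  filter_upwards [hω1, hmin, hmn.eventually_ge_atTop (N + 1), eventually_ge_atTop 1] with x g1 g2 g3 g4 a ha
  have hlam0 : (0 : ℝ) ≤ κ * √(2 * L x * (I a).card) := by positivity
  have hDd : ∀ r : Fin k, |DR μ ℱ A ρ (I a) (v a) r ω| ≤ κ * √(2 * L x * (I a).card) := by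
    intro r
    by_contra hcon
    push Not at hcon
    apply g1
    simp only [hs, Set.mem_iUnion]
    exact ⟨(a, r), Finset.mem_product.2 ⟨ha, Finset.mem_univ _⟩, hcon⟩
  have hdd : ∀ i ∈ I a, ∀ j, |dens μ ℱ A (v a i j - 1) ω - ρ (v a i j)| ≤ δ * ρ (v a i j) := by
    intro i hi j
    have h1 := (g2 a ha i hi).2 _ (enum_mem (g2 a ha i hi).1 j)
    have h1' : mn x ≤ v a i j := h1
    have h2 := hN (v a i j - 1) (by omega)
    rwa [show v a i j - 1 + 1 = v a i j by omega] at h2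
  have h1 := det_bound hρ (I a) (v a) hδ0.le hlam0 hdd hDd
  have e1 : ∑ i ∈ I a, mix A ρ (v a i) k ω = ∑ i ∈ I a, ∏ m ∈ V a i, In A m ω := by
    refine Finset.sum_congr rfl fun i hi => ?_
    rw [← enum_prod (g2 a ha i hi).1]
    unfold mix
    refine Finset.prod_congr rfl fun j _ => ?_
    rw [if_pos j.2]
  have e2 : ∑ i ∈ I a, mix A ρ (v a i) 0 ω = ∑ i ∈ I a, ∏ m ∈ V a i, ρ m := by
    refine Finset.sum_congr rfl fun i hi => ?_
    rw [← enum_prod (g2 a ha i hi).1]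
    unfold mix
    refine Finset.prod_congr rfl fun j _ => ?_
    rw [if_neg (Nat.not_lt_zero _)]
  rw [e1, e2] at h1
  have hE0 : 0 ≤ ∑ i ∈ I a, ∏ m ∈ V a i, ρ m := Finset.sum_nonneg fun i _ => Finset.prod_nonneg fun m _ => (hρ m).1
  have h2 : (1 + δ) ^ k - 1 ≤ ε := by
    have := min_le_left ε 1
    linarith
  have h3 : (1 + δ) ^ k ≤ 2 := by
    have := min_le_right ε 1
    linarith
  have e3 : (2 : ℝ) * (C + 2) * Real.log x * (I a).card = 2 * L x * (I a).card := by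
    simp only [hL]
    ring
  rw [e3]
  calc _ ≤ _ := h1
    _ ≤ ε * ∑ i ∈ I a, ∏ m ∈ V a i, ρ m + 2 * k * (κ * √(2 * L x * (I a).card)) := by
      apply add_le_add
      · exact mul_le_mul_of_nonneg_right h2 hE0
      · apply mul_le_mul_of_nonneg_right _ hlam0
        exact mul_le_mul_of_nonneg_right h3 (Nat.cast_nonneg k)
    _ = _ := by ring

end Pool.Agent.R960.Fam
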