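import Mathlib
import Pool.Agent.R960.Fam.Law

set_option autoImplicit false
set_option linter.unusedSectionVars false

/-! # A variance sensitive exponential inequality for predictable weights in `[0, 1]` -/

open MeasureTheory Filter Set
open scoped ENNReal Topology

namespace Pool.Agent.R960.Fam

open Pool.Agent.R528.RM

variable {Ω : Type} {m0 : MeasurableSpace Ω} {μ : Measure Ω} [IsProbabilityMeasure μ]
  {ℱ : Filtration ℕ m0} {A : ℕ → Set Ω} {α β : Type}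

/-- the weighted sum of the martingale differences -/
noncomputable def Sp (μ : Measure Ω) (ℱ : Filtration ℕ m0) (A : ℕ → Set Ω) (w : ℕ → Ω → ℝ) (M : ℕ) (ω : Ω) : ℝ :=
  ∑ k ∈ Finset.range M, w k ω * ((A (k + 1)).indicator (fun _ => (1 : ℝ)) ω - dens μ ℱ A k ω)

/-- the compensator -/
noncomputable def Vp (μ : Measure Ω) (ℱ : Filtration ℕ m0) (A : ℕ → Set Ω) (w : ℕ → Ω → ℝ) (M : ℕ) (ω : Ω) : ℝ :=
  ∑ k ∈ Finset.range M, w k ω * dens μ ℱ A k ω

lemma Sp_meas (hA : ∀ n, MeasurableSet[ℱ n] (A n)) (w : ℕ → Ω → ℝ)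
    (hw : ∀ k, StronglyMeasurable[ℱ k] (w k)) (M : ℕ) : StronglyMeasurable[ℱ M] (Sp μ ℱ A w M) := by
  have h := Sb_meas (μ := μ) hA (fun _ => 1) w hw M
  have e : Sb μ ℱ A (fun _ => 1) w M = Sp μ ℱ A w M := by
    funext ω
    simp [Sb, Sp]
  rwa [e] at h

lemma Vp_meas (w : ℕ → Ω → ℝ) (hw : ∀ k, StronglyMeasurable[ℱ k] (w k)) (M : ℕ) :
    StronglyMeasurable[ℱ M] (Vp μ ℱ A w M) := by
  have h1 : Vp μ ℱ A w M = ∑ k ∈ Finset.range M, w k * dens μ ℱ A k := by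
    funext ω
    simp [Vp]
  rw [h1]
  refine Finset.stronglyMeasurable_sum _ fun k hk => ?_
  have hk' := Finset.mem_range.1 hk
  have h2 : StronglyMeasurable[ℱ M] (w k) := (hw k).mono (ℱ.mono (by omega))
  have h4 : StronglyMeasurable[ℱ M] (dens μ ℱ A k) := (dens_meas _).mono (ℱ.mono (by omega))
  exact @StronglyMeasurable.mul _ _ _ _ (ℱ M) _ _ _ h2 h4

lemma exp_quad {x : ℝ} (hx : |x| ≤ 1) : Real.exp x ≤ 1 + (x + x ^ 2) := by
  have h := Real.abs_exp_sub_one_sub_id_le hx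
  have h1 := abs_le.1 h
  linarith [h1.2]

lemma SV_bound (hA : ∀ n, MeasurableSet[ℱ n] (A n)) (w : ℕ → Ω → ℝ) (h01 : ∀ k ω, 0 ≤ w k ω ∧ w k ω ≤ 1) {t : ℝ}
    (ht : |t| ≤ 1) (M : ℕ) : ∀ᵐ ω ∂μ, Real.exp (t * Sp μ ℱ A w M ω - t ^ 2 * Vp μ ℱ A w M ω) ≤ Real.exp M := by
  have h1 : ∀ᵐ ω ∂μ, ∀ n, 0 ≤ dens μ ℱ A n ω ∧ dens μ ℱ A n ω ≤ 1 := ae_all_iff.2 fun n => dens01 hA n
  filter_upwards [h1, Sb_bound (μ := μ) (ℱ := ℱ) hA (fun _ => 1) (fun _ => zero_le_one) w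
    (fun k ω => by rw [abs_of_nonneg (h01 k ω).1]; exact (h01 k ω).2) M] with ω hω hS
  apply Real.exp_le_exp.2
  have e : Sb μ ℱ A (fun _ => 1) w M ω = Sp μ ℱ A w M ω := by simp [Sb, Sp]
  rw [e] at hS
  have h2 : ∑ k ∈ Finset.range M, (1 : ℝ) = M := by simp
  rw [h2] at hS
  have h3 : 0 ≤ Vp μ ℱ A w M ω := Finset.sum_nonneg fun k _ => mul_nonneg (h01 k ω).1 (hω k).1
  have h4 : t * Sp μ ℱ A w M ω ≤ M := by
    refine (le_abs_self _).trans ?_
    rw [abs_mul]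
    calc |t| * |Sp μ ℱ A w M ω| ≤ 1 * M := mul_le_mul ht hS (abs_nonneg _) zero_le_one
      _ = M := one_mul _
  have h5 : 0 ≤ t ^ 2 * Vp μ ℱ A w M ω := mul_nonneg (sq_nonneg t) h3
  linarith

theorem exp_super (hA : ∀ n, MeasurableSet[ℱ n] (A n)) (w : ℕ → Ω → ℝ)
    (hw : ∀ k, StronglyMeasurable[ℱ k] (w k)) (h01 : ∀ k ω, 0 ≤ w k ω ∧ w k ω ≤ 1) {t : ℝ} (ht : |t| ≤ 1) (M : ℕ) :
    Integrable (fun ω => Real.exp (t * Sp μ ℱ A w M ω - t ^ 2 * Vp μ ℱ A w M ω)) μ ∧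
    ∫ ω, Real.exp (t * Sp μ ℱ A w M ω - t ^ 2 * Vp μ ℱ A w M ω) ∂μ ≤ 1 := by
  have hmeas : ∀ M, StronglyMeasurable[ℱ M] (fun ω => Real.exp (t * Sp μ ℱ A w M ω - t ^ 2 * Vp μ ℱ A w M ω)) := by
    intro M
    have h1 : StronglyMeasurable[ℱ M] (fun ω => t * Sp μ ℱ A w M ω) := (Sp_meas (μ := μ) hA w hw M).const_mul t
    have h2 : StronglyMeasurable[ℱ M] (fun ω => t ^ 2 * Vp μ ℱ A w M ω) := (Vp_meas (μ := μ) (A := A) w hw M).const_mul (t ^ 2)
    exact Real.continuous_exp.comp_stronglyMeasurable (@StronglyMeasurable.sub _ _ _ _ (ℱ M) _ _ _ h1 h2)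
  have hint : ∀ M, Integrable (fun ω => Real.exp (t * Sp μ ℱ A w M ω - t ^ 2 * Vp μ ℱ A w M ω)) μ := by
    intro M
    refine Integrable.of_bound ((hmeas M).mono (ℱ.le _)).aestronglyMeasurable (Real.exp M) ?_
    filter_upwards [SV_bound (μ := μ) (ℱ := ℱ) hA w h01 ht M] with ω hω
    rw [Real.norm_eq_abs, abs_of_pos (Real.exp_pos _)]
    exact hω
  refine ⟨hint M, ?_⟩
  induction M with
  | zero => simp [Sp, Vp]
  | succ M ih =>
    set D := dens μ ℱ A M with hD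
    set I := (A (M + 1)).indicator (fun _ => (1 : ℝ)) with hI
    set G : Ω → ℝ := fun ω => Real.exp (t * Sp μ ℱ A w M ω - t ^ 2 * Vp μ ℱ A w M ω) with hG
    set y : Ω → ℝ := fun ω => t * w M ω + (t * w M ω) ^ 2 with hy
    set H : Ω → ℝ := fun ω => Real.exp (-(y ω * D ω)) with hH
    have hd01 := dens01 (μ := μ) (ℱ := ℱ) hA M
    have hx : ∀ ω, |t * w M ω| ≤ 1 := by
      intro ω
      rw [abs_mul, abs_of_nonneg (h01 M ω).1]
      exact mul_le_one₀ ht (h01 M ω).1 (h01 M ω).2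
    have hyb : ∀ ω, |y ω| ≤ 2 := by
      intro ω
      have h1 := abs_le.1 (hx ω)
      simp only [hy]
      rw [abs_le]
      constructor <;> nlinarith [h1.1, h1.2, sq_nonneg (t * w M ω)]
    have hy1 : ∀ ω, -1 ≤ y ω := by
      intro ω
      simp only [hy]
      nlinarith [sq_nonneg (t * w M ω + 1 / 2)]
    have hpt : ∀ᵐ ω ∂μ, Real.exp (t * Sp μ ℱ A w (M + 1) ω - t ^ 2 * Vp μ ℱ A w (M + 1) ω) ≤
        G ω * H ω + G ω * H ω * y ω * I ω := by
      filter_upwards [hd01] with ω hω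
      have hIv : I ω = 0 ∨ I ω = 1 := by
        simp only [hI]
        by_cases h : ω ∈ A (M + 1)
        · right
          rw [indicator_of_mem h]
        · left
          rw [indicator_of_notMem h]
      have hs : t * Sp μ ℱ A w (M + 1) ω - t ^ 2 * Vp μ ℱ A w (M + 1) ω =
          (t * Sp μ ℱ A w M ω - t ^ 2 * Vp μ ℱ A w M ω) + ((t * w M ω) * I ω + (-((t * w M ω) * D ω) - t ^ 2 * w M ω * D ω)) := by
        unfold Sp Vp
        rw [Finset.sum_range_succ, Finset.sum_range_succ]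
        ring
      rw [hs, Real.exp_add, Real.exp_add]
      have h2 : Real.exp (t * w M ω * I ω) ≤ 1 + I ω * y ω := by
        rcases hIv with h | h
        · rw [h]
          simp
        · rw [h]
          simp only [mul_one, one_mul, hy]
          exact exp_quad (hx ω)
      have h3 : Real.exp (-(t * w M ω * D ω) - t ^ 2 * w M ω * D ω) ≤ H ω := by
        apply Real.exp_le_exp.2
        simp only [hy]
        have h4 : (t * w M ω) ^ 2 ≤ t ^ 2 * w M ω := by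
          rw [mul_pow]
          refine mul_le_mul_of_nonneg_left ?_ (sq_nonneg t)
          have := h01 M ω
          nlinarith
        have h5 := mul_le_mul_of_nonneg_right h4 hω.1
        have h5' : (t * w M ω) ^ 2 * D ω ≤ t ^ 2 * w M ω * D ω := h5
        nlinarith
      have h6 : 0 ≤ 1 + I ω * y ω := by
        have := hy1 ω
        rcases hIv with h | h <;> rw [h] <;> linarith
      calc G ω * (Real.exp (t * w M ω * I ω) * Real.exp (-(t * w M ω * D ω) - t ^ 2 * w M ω * D ω))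
          ≤ G ω * ((1 + I ω * y ω) * H ω) :=
            mul_le_mul_of_nonneg_left (mul_le_mul h2 h3 (Real.exp_pos _).le h6) (Real.exp_pos _).le
        _ = _ := by ring
    -- measurability and bounds
    have hym : StronglyMeasurable[ℱ M] y := by
      have h1 : StronglyMeasurable[ℱ M] (fun ω => t * w M ω) := (hw M).const_mul t
      have h2 : StronglyMeasurable[ℱ M] (fun ω => (t * w M ω) ^ 2) := h1.pow 2
      exact @StronglyMeasurable.add _ _ _ _ (ℱ M) _ _ _ h1 h2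
    have hHm : StronglyMeasurable[ℱ M] H := by
      have h1 : StronglyMeasurable[ℱ M] (fun ω => y ω * D ω) := @StronglyMeasurable.mul _ _ _ _ (ℱ M) _ _ _ hym (dens_meas M)
      exact Real.continuous_exp.comp_stronglyMeasurable h1.neg
    have hGHm : StronglyMeasurable[ℱ M] (fun ω => G ω * H ω) := @StronglyMeasurable.mul _ _ _ _ (ℱ M) _ _ _ (hmeas M) hHm
    have hfm : StronglyMeasurable[ℱ M] (fun ω => G ω * H ω * y ω) := @StronglyMeasurable.mul _ _ _ _ (ℱ M) _ _ _ hGHm hym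
    have hGb := SV_bound (μ := μ) (ℱ := ℱ) hA w h01 ht M
    have hHb : ∀ᵐ ω ∂μ, |H ω| ≤ Real.exp 2 := by
      filter_upwards [hd01] with ω hω
      simp only [hH]
      rw [abs_of_pos (Real.exp_pos _)]
      apply Real.exp_le_exp.2
      refine (le_abs_self _).trans ?_
      rw [abs_neg, abs_mul]
      have h1 : |D ω| ≤ 1 := by
        rw [abs_of_nonneg hω.1]
        exact hω.2
      calc |y ω| * |D ω| ≤ 2 * 1 := mul_le_mul (hyb ω) h1 (abs_nonneg _) (by norm_num)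
        _ = 2 := by norm_num
    have hGHb : ∀ᵐ ω ∂μ, ‖G ω * H ω‖ ≤ Real.exp M * Real.exp 2 := by
      filter_upwards [hGb, hHb] with ω h1 h2
      rw [norm_mul, Real.norm_eq_abs, Real.norm_eq_abs]
      refine mul_le_mul ?_ h2 (abs_nonneg _) (Real.exp_pos _).le
      simp only [hG]
      rw [abs_of_pos (Real.exp_pos _)]
      exact h1
    have hfb : ∀ᵐ ω ∂μ, ‖G ω * H ω * y ω‖ ≤ Real.exp M * Real.exp 2 * 2 := by
      filter_upwards [hGHb] with ω h1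
      rw [norm_mul]
      exact mul_le_mul h1 (hyb ω) (norm_nonneg _) (by positivity)
    have hpull := pull_A (μ := μ) hA M hfm (Real.exp M * Real.exp 2 * 2) hfb
    have hfam : AEStronglyMeasurable (fun ω => G ω * H ω * y ω) μ := (hfm.mono (ℱ.le _)).aestronglyMeasurable
    have hGHam : AEStronglyMeasurable (fun ω => G ω * H ω) μ := (hGHm.mono (ℱ.le _)).aestronglyMeasurable
    have hIam : AEStronglyMeasurable I μ :=
      ((stronglyMeasurable_const.indicator (ℱ.le _ _ (hA (M + 1))))).aestronglyMeasurable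
    have hDam : AEStronglyMeasurable D μ := ((dens_meas M).mono (ℱ.le _)).aestronglyMeasurable
    have i0 : Integrable (fun ω => G ω * H ω) μ := Integrable.of_bound hGHam _ hGHb
    have i1 : Integrable (fun ω => G ω * H ω * y ω * I ω) μ := by
      refine Integrable.of_bound (hfam.mul hIam) (Real.exp M * Real.exp 2 * 2) ?_
      filter_upwards [hfb] with ω hω
      rw [norm_mul]
      have hI1 : ‖I ω‖ ≤ 1 := by
        rw [Real.norm_eq_abs, abs_of_nonneg (indicator_nonneg (fun _ _ => zero_le_one) _)]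
        exact indicator_le_self' (fun _ _ => zero_le_one) ω
      calc _ ≤ (Real.exp M * Real.exp 2 * 2) * 1 := mul_le_mul hω hI1 (norm_nonneg _) (by positivity)
        _ = _ := mul_one _
    have i2 : Integrable (fun ω => G ω * H ω * y ω * D ω) μ := by
      refine Integrable.of_bound (hfam.mul hDam) (Real.exp M * Real.exp 2 * 2) ?_
      filter_upwards [hfb, hd01] with ω hω h2
      rw [norm_mul]
      have hD1 : ‖D ω‖ ≤ 1 := by
        rw [Real.norm_eq_abs, abs_of_nonneg h2.1]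
        exact h2.2
      calc _ ≤ (Real.exp M * Real.exp 2 * 2) * 1 := mul_le_mul hω hD1 (norm_nonneg _) (by positivity)
        _ = _ := mul_one _
    have h5 := integral_mono_ae (hint (M + 1)) (i0.add i1) hpt
    have h6 : ∫ ω, (fun ω => G ω * H ω) ω + (fun ω => G ω * H ω * y ω * I ω) ω ∂μ =
        ∫ ω, (G ω * H ω + G ω * H ω * y ω * D ω) ∂μ := by
      rw [integral_add i0 i1, integral_add i0 i2, hpull]
    have h7 : ∫ ω, (G ω * H ω + G ω * H ω * y ω * D ω) ∂μ ≤ ∫ ω, G ω ∂μ := by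
      refine integral_mono_ae (i0.add i2) (hint M) ?_
      filter_upwards with ω
      show G ω * H ω + G ω * H ω * y ω * D ω ≤ G ω
      have h8 : H ω * (1 + y ω * D ω) ≤ 1 := by
        have h9 : 1 + y ω * D ω ≤ Real.exp (y ω * D ω) := by
          have := Real.add_one_le_exp (y ω * D ω)
          linarith
        calc H ω * (1 + y ω * D ω) ≤ H ω * Real.exp (y ω * D ω) := mul_le_mul_of_nonneg_left h9 (Real.exp_pos _).le
          _ = 1 := by
            simp only [hH]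
            rw [← Real.exp_add]
            simp
      calc G ω * H ω + G ω * H ω * y ω * D ω = G ω * (H ω * (1 + y ω * D ω)) := by ring
        _ ≤ G ω * 1 := mul_le_mul_of_nonneg_left h8 (Real.exp_pos _).le
        _ = G ω := mul_one _
    refine le_trans h5 ?_
    refine le_trans (le_of_eq ?_) (h7.trans ih)
    exact h6

/-- one side -/
lemma Sp_tail1 (hA : ∀ n, MeasurableSet[ℱ n] (A n)) (w : ℕ → Ω → ℝ)
    (hw : ∀ k, StronglyMeasurable[ℱ k] (w k)) (h01 : ∀ k ω, 0 ≤ w k ω ∧ w k ω ≤ 1) {t : ℝ} (ht : |t| ≤ 1) (M : ℕ) (L : ℝ) :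
    μ.real {ω | L ≤ t * Sp μ ℱ A w M ω - t ^ 2 * Vp μ ℱ A w M ω} ≤ Real.exp (-L) := by
  obtain ⟨h1, h2⟩ := exp_super (μ := μ) hA w hw h01 ht M
  have h3 := mul_meas_ge_le_integral_of_nonneg (μ := μ)
    (Eventually.of_forall fun ω => (Real.exp_pos (t * Sp μ ℱ A w M ω - t ^ 2 * Vp μ ℱ A w M ω)).le) h1 (Real.exp L)
  have h4 : μ.real {ω | L ≤ t * Sp μ ℱ A w M ω - t ^ 2 * Vp μ ℱ A w M ω} ≤
      μ.real {ω | Real.exp L ≤ Real.exp (t * Sp μ ℱ A w M ω - t ^ 2 * Vp μ ℱ A w M ω)} := by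
    apply measureReal_mono _ (measure_ne_top _ _)
    intro ω hω
    exact Real.exp_le_exp.2 hω
  have h5 : Real.exp L * μ.real {ω | L ≤ t * Sp μ ℱ A w M ω - t ^ 2 * Vp μ ℱ A w M ω} ≤ 1 :=
    (mul_le_mul_of_nonneg_left h4 (Real.exp_pos _).le).trans (h3.trans h2)
  rw [Real.exp_neg, ← one_div, le_div_iff₀ (Real.exp_pos _), mul_comm]
  exact h5

/-- two sides -/
theorem Sp_tail (hA : ∀ n, MeasurableSet[ℱ n] (A n)) (w : ℕ → Ω → ℝ)
    (hw : ∀ k, StronglyMeasurable[ℱ k] (w k)) (h01 : ∀ k ω, 0 ≤ w k ω ∧ w k ω ≤ 1) {t : ℝ} (ht0 : 0 < t) (ht : t ≤ 1)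
    (M : ℕ) (L : ℝ) :
    μ.real {ω | t * Vp μ ℱ A w M ω + L / t < |Sp μ ℱ A w M ω|} ≤ 2 * Real.exp (-L) := by
  have h1 := Sp_tail1 (μ := μ) hA w hw h01 (t := t) (by rw [abs_of_pos ht0]; exact ht) M L
  have h2 := Sp_tail1 (μ := μ) hA w hw h01 (t := -t) (by rw [abs_neg, abs_of_pos ht0]; exact ht) M L
  have h4 : {ω | t * Vp μ ℱ A w M ω + L / t < |Sp μ ℱ A w M ω|} ⊆
      {ω | L ≤ t * Sp μ ℱ A w M ω - t ^ 2 * Vp μ ℱ A w M ω} ∪ {ω | L ≤ (-t) * Sp μ ℱ A w M ω - (-t) ^ 2 * Vp μ ℱ A w M ω} := by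
    intro ω hω
    have h5 : t * Vp μ ℱ A w M ω + L / t < |Sp μ ℱ A w M ω| := hω
    rcases lt_abs.1 h5 with h | h
    · left
      show L ≤ t * Sp μ ℱ A w M ω - t ^ 2 * Vp μ ℱ A w M ω
      have h6 := mul_lt_mul_of_pos_left h ht0
      have h7 : t * (t * Vp μ ℱ A w M ω + L / t) = t ^ 2 * Vp μ ℱ A w M ω + L := by field_simp
      linarith
    · right
      show L ≤ (-t) * Sp μ ℱ A w M ω - (-t) ^ 2 * Vp μ ℱ A w M ω
      have h6 := mul_lt_mul_of_pos_left h ht0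
      have h7 : t * (t * Vp μ ℱ A w M ω + L / t) = t ^ 2 * Vp μ ℱ A w M ω + L := by field_simp
      nlinarith
  calc _ ≤ μ.real ({ω | L ≤ t * Sp μ ℱ A w M ω - t ^ 2 * Vp μ ℱ A w M ω} ∪
        {ω | L ≤ (-t) * Sp μ ℱ A w M ω - (-t) ^ 2 * Vp μ ℱ A w M ω}) := measureReal_mono h4 (measure_ne_top _ _)
    _ ≤ _ := measureReal_union_le _ _
    _ ≤ _ := by linarith

/-- uniformly in a family of predictable weights -/
theorem pred_law (hA : ∀ n, MeasurableSet[ℱ n] (A n)) (C : ℕ) (Φ : ℕ → Finset α) (hΦ : ∀ᶠ x in atTop, (Φ x).card ≤ x ^ C)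
    (w : α → ℕ → Ω → ℝ) (M : α → ℕ) (hw : ∀ a k, StronglyMeasurable[ℱ k] (w a k))
    (h01 : ∀ a k ω, 0 ≤ w a k ω ∧ w a k ω ≤ 1) :
    ∀ᵐ ω ∂μ, ∀ ε : ℝ, 0 < ε → ∃ K : ℝ, 0 < K ∧ ∀ᶠ x : ℕ in atTop, ∀ a ∈ Φ x,
      |Sp μ ℱ A (w a) (M a) ω| ≤ ε * Vp μ ℱ A (w a) (M a) ω + K * Real.log x := by
  classical
  have main : ∀ j : ℕ, ∀ᵐ ω ∂μ, ∀ᶠ x : ℕ in atTop, ∀ a ∈ Φ x,
      |Sp μ ℱ A (w a) (M a) ω| ≤ (1 / ((j : ℝ) + 1)) * Vp μ ℱ A (w a) (M a) ω + ((C + 2) * ((j : ℝ) + 1)) * Real.log x := by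
    intro j
    set t : ℝ := 1 / ((j : ℝ) + 1) with ht
    have hj0 : (0 : ℝ) < (j : ℝ) + 1 := by positivity
    have ht0 : 0 < t := by positivity
    have ht1 : t ≤ 1 := by
      rw [ht, div_le_one hj0]
      linarith [(Nat.cast_nonneg j : (0 : ℝ) ≤ j)]
    set L : ℕ → ℝ := fun x => (C + 2) * Real.log x with hL
    set bad : ℕ → α → Set Ω := fun x a =>
      {ω | t * Vp μ ℱ A (w a) (M a) ω + L x / t < |Sp μ ℱ A (w a) (M a) ω|} with hbad
    set s : ℕ → Set Ω := fun x => ⋃ a ∈ Φ x, bad x a with hs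
    have hprob : ∀ᶠ x : ℕ in atTop, μ.real (s x) ≤ 2 * (1 / (x : ℝ) ^ 2) := by
      filter_upwards [hΦ, eventually_ge_atTop 1] with x h1 h5
      have hx : (0 : ℝ) < x := by exact_mod_cast h5
      have hb : ∀ a ∈ Φ x, μ.real (bad x a) ≤ 2 * Real.exp (-(L x)) := fun a _ =>
        Sp_tail (μ := μ) hA (w a) (hw a) (h01 a) ht0 ht1 (M a) (L x)
      have h6 : μ.real (s x) ≤ ∑ a ∈ Φ x, μ.real (bad x a) := measureReal_biUnion_finset_le _ _
      refine h6.trans ((Finset.sum_le_sum hb).trans ?_)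
      rw [Finset.sum_const, nsmul_eq_mul]
      have h7 : Real.exp (-(L x)) = 1 / (x : ℝ) ^ (C + 2) := by
        simp only [hL]
        rw [Real.exp_neg, show ((C : ℝ) + 2) * Real.log x = Real.log ((x : ℝ) ^ (C + 2)) by
          rw [Real.log_pow]; push_cast; ring, Real.exp_log (by positivity), one_div]
      rw [h7]
      have h8 : ((Φ x).card : ℝ) ≤ (x : ℝ) ^ C := by exact_mod_cast h1
      have h9 : ((Φ x).card : ℝ) * (1 / (x : ℝ) ^ (C + 2)) ≤ 1 / (x : ℝ) ^ 2 := by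
        rw [pow_add, ← one_div_mul_one_div, ← mul_assoc]
        refine mul_le_of_le_one_left (by positivity) ?_
        rw [mul_one_div, div_le_one (by positivity)]
        exact h8
      linarith
    have hsum : Summable (fun x : ℕ => 2 * (1 / (x : ℝ) ^ 2)) :=
      (Real.summable_one_div_nat_pow.2 (by norm_num)).mul_left _
    filter_upwards [bc_real hsum hprob] with ω hω1
    filter_upwards [hω1] with x g1 a ha
    by_contra hcon
    push Not at hcon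
    apply g1
    simp only [hs, Set.mem_iUnion]
    refine ⟨a, ha, ?_⟩
    show t * Vp μ ℱ A (w a) (M a) ω + L x / t < |Sp μ ℱ A (w a) (M a) ω|
    refine lt_of_le_of_lt (le_of_eq ?_) hcon
    simp only [hL, ht]
    field_simp
  have h01' : ∀ᵐ ω ∂μ, ∀ n, 0 ≤ dens μ ℱ A n ω ∧ dens μ ℱ A n ω ≤ 1 := ae_all_iff.2 fun n => dens01 hA n
  filter_upwards [ae_all_iff.2 main, h01'] with ω hω hdn ε hε
  obtain ⟨j, hj⟩ := exists_nat_one_div_lt hε
  refine ⟨(C + 2) * ((j : ℝ) + 1), by positivity, ?_⟩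
  filter_upwards [hω j] with x hx a ha
  refine (hx a ha).trans ?_
  have h1 : 0 ≤ Vp μ ℱ A (w a) (M a) ω := Finset.sum_nonneg fun k _ => mul_nonneg (h01 a k ω).1 (hdn k).1
  have h2 := mul_le_mul_of_nonneg_right hj.le h1
  linarith

/-- comparison with the profile -/
theorem pred_prof (hA : ∀ n, MeasurableSet[ℱ n] (A n)) {ρ : ℕ → ℝ} (hρ : ∀ n, 0 ≤ ρ n ∧ ρ n ≤ 1)
    (hd : ∀ᵐ ω ∂μ, ∀ ε : ℝ, 0 < ε → ∀ᶠ n : ℕ in atTop, |dens μ ℱ A n ω - ρ (n + 1)| ≤ ε * ρ (n + 1))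
    (C : ℕ) (Φ : ℕ → Finset α) (hΦ : ∀ᶠ x in atTop, (Φ x).card ≤ x ^ C)
    (w : α → ℕ → Ω → ℝ) (M : α → ℕ) (hw : ∀ a k, StronglyMeasurable[ℱ k] (w a k))
    (h01 : ∀ a k ω, 0 ≤ w a k ω ∧ w a k ω ≤ 1) (mn : ℕ → ℕ) (hmn : Tendsto mn atTop atTop)
    (hmin : ∀ᶠ x in atTop, ∀ a ∈ Φ x, ∀ k < mn x, ∀ ω, w a k ω = 0) :
    ∀ᵐ ω ∂μ, ∀ ε : ℝ, 0 < ε → ∃ K : ℝ, 0 < K ∧ ∀ᶠ x : ℕ in atTop, ∀ a ∈ Φ x,
      |∑ k ∈ Finset.range (M a), w a k ω * In A (k + 1) ω - ∑ k ∈ Finset.range (M a), w a k ω * ρ (k + 1)| ≤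
        ε * ∑ k ∈ Finset.range (M a), w a k ω * ρ (k + 1) + K * Real.log x := by
  filter_upwards [pred_law (μ := μ) hA C Φ hΦ w M hw h01, hd] with ω hω hdω ε hε
  set δ : ℝ := min (ε / 4) 1 with hδ
  have hδ0 : 0 < δ := lt_min (by positivity) one_pos
  obtain ⟨K, hK0, hK⟩ := hω δ hδ0
  refine ⟨K, hK0, ?_⟩
  obtain ⟨n₀, hn₀⟩ := eventually_atTop.1 (hdω δ hδ0)
  filter_upwards [hK, hmin, hmn.eventually_ge_atTop n₀] with x h1 h2 h3 a ha
  have h4 := h1 a ha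
  set E := ∑ k ∈ Finset.range (M a), w a k ω * ρ (k + 1) with hE
  have hE0 : 0 ≤ E := Finset.sum_nonneg fun k _ => mul_nonneg (h01 a k ω).1 (hρ _).1
  have h5 : |Vp μ ℱ A (w a) (M a) ω - E| ≤ δ * E := by
    simp only [Vp, hE]
    rw [← Finset.sum_sub_distrib, Finset.mul_sum]
    refine (Finset.abs_sum_le_sum_abs _ _).trans (Finset.sum_le_sum fun k _ => ?_)
    by_cases hk : k < mn x
    · rw [h2 a ha k hk ω]
      simp
    · have h6 := hn₀ k (by omega)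
      rw [← mul_sub, abs_mul, abs_of_nonneg (h01 a k ω).1]
      calc w a k ω * |dens μ ℱ A k ω - ρ (k + 1)| ≤ w a k ω * (δ * ρ (k + 1)) := mul_le_mul_of_nonneg_left h6 (h01 a k ω).1
        _ = _ := by ring
  have h7 : Sp μ ℱ A (w a) (M a) ω = ∑ k ∈ Finset.range (M a), w a k ω * In A (k + 1) ω - Vp μ ℱ A (w a) (M a) ω := by
    unfold Sp Vp In
    rw [← Finset.sum_sub_distrib]
    refine Finset.sum_congr rfl fun k _ => ?_
    ring
  have h8 : ∑ k ∈ Finset.range (M a), w a k ω * In A (k + 1) ω - E =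
      Sp μ ℱ A (w a) (M a) ω + (Vp μ ℱ A (w a) (M a) ω - E) := by
    rw [h7]
    ring
  rw [h8]
  have h9 := abs_le.1 h5
  have h10 : Vp μ ℱ A (w a) (M a) ω ≤ 2 * E := by
    have : δ ≤ 1 := min_le_right _ _
    nlinarith [h9.2]
  have h11 : δ * Vp μ ℱ A (w a) (M a) ω ≤ δ * (2 * E) := mul_le_mul_of_nonneg_left h10 hδ0.le
  have h12 : δ * E ≤ ε / 4 * E := mul_le_mul_of_nonneg_right (min_le_left _ _) hE0
  calc _ ≤ |Sp μ ℱ A (w a) (M a) ω| + |Vp μ ℱ A (w a) (M a) ω - E| := abs_add_le _ _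
    _ ≤ (δ * Vp μ ℱ A (w a) (M a) ω + K * Real.log x) + δ * E := add_le_add h4 h5
    _ ≤ _ := by nlinarith

end Pool.Agent.R960.Fam
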