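import Mathlib

set_option autoImplicit false
set_option linter.unusedSectionVars false

/-! # Residue classes of consecutive elements of a set of integers -/

open Filter Set

namespace Pool.Agent.R960.Fam

/-- the classes modulo `q` of the last elements of `T` below `n`, the latest first, are the given ones -/
def hist (q : ℕ) : List ℕ → Set ℕ → ℕ → Prop
  | [], _, _ => True
  | a :: as, T, n => ∃ t, t < n ∧ t ∈ T ∧ (∀ s, t < s → s < n → s ∉ T) ∧ t % q = a ∧ hist q as T t

lemma hist_step {q : ℕ} {as : List ℕ} {T : Set ℕ} {n : ℕ} (hn : n ∉ T) : hist q as T (n + 1) ↔ hist q as T n := by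
  cases as with
  | nil => simp [hist]
  | cons a as =>
    simp only [hist]
    constructor
    · rintro ⟨t, h1, h2, h3, h4⟩
      have h5 : t ≠ n := fun h => hn (h ▸ h2)
      exact ⟨t, by omega, h2, fun s hs1 hs2 => h3 s hs1 (by omega), h4⟩
    · rintro ⟨t, h1, h2, h3, h4⟩
      refine ⟨t, by omega, h2, fun s hs1 hs2 => ?_, h4⟩
      rcases Nat.lt_succ_iff_lt_or_eq.1 hs2 with h | h
      · exact h3 s hs1 h
      · exact h ▸ hn

/-- the enumeration of an infinite set -/
noncomputable def en (T : Set ℕ) (n : ℕ) : ℕ := Nat.nth (· ∈ T) n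

lemma en_mem {T : Set ℕ} (hT : T.Infinite) (n : ℕ) : en T n ∈ T := Nat.nth_mem_of_infinite (p := (· ∈ T)) hT n

lemma en_mono {T : Set ℕ} (hT : T.Infinite) : StrictMono (en T) := Nat.nth_strictMono (p := (· ∈ T)) hT

lemma en_surj {T : Set ℕ} {k : ℕ} (hk : k ∈ T) : ∃ n, en T n = k := by
  classical
  exact ⟨Nat.count (· ∈ T) k, Nat.nth_count (p := (· ∈ T)) hk⟩

lemma hist_cons_en {q : ℕ} {a : ℕ} {as : List ℕ} {T : Set ℕ} (hT : T.Infinite) (j : ℕ) :
    hist q (a :: as) T (en T (j + 1)) ↔ en T j % q = a ∧ hist q as T (en T j) := by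
  simp only [hist]
  constructor
  · rintro ⟨t, h1, h2, h3, h4, h5⟩
    obtain ⟨i, rfl⟩ := en_surj h2
    have h6 : i < j + 1 := (en_mono hT).lt_iff_lt.1 h1
    have h7 : ¬ i < j := by
      intro h
      exact h3 (en T j) ((en_mono hT) h) ((en_mono hT) (Nat.lt_succ_self j)) (en_mem hT j)
    have h8 : i = j := by omega
    subst h8
    exact ⟨h4, h5⟩
  · rintro ⟨h1, h2⟩
    refine ⟨en T j, (en_mono hT) (Nat.lt_succ_self j), en_mem hT j, ?_, h1, h2⟩
    intro s hs1 hs2 hs
    obtain ⟨i, rfl⟩ := en_surj hs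
    have h3 := (en_mono hT).lt_iff_lt.1 hs1
    have h4 := (en_mono hT).lt_iff_lt.1 hs2
    omega

lemma hist_cons_zero {q : ℕ} {a : ℕ} {as : List ℕ} {T : Set ℕ} (hT : T.Infinite) :
    ¬ hist q (a :: as) T (en T 0) := by
  simp only [hist]
  rintro ⟨t, h1, h2, _⟩
  obtain ⟨i, rfl⟩ := en_surj h2
  have := (en_mono hT).lt_iff_lt.1 h1
  omega

/-- number of elements of `T` below `x` with a property -/
noncomputable def num (T : Set ℕ) (P : ℕ → Prop) (x : ℕ) : ℕ := {n | n < x ∧ n ∈ T ∧ P n}.ncard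

lemma num_en {T : Set ℕ} (hT : T.Infinite) (P : ℕ → Prop) (c : ℕ) :
    num T P (en T c) = {j | j < c ∧ P (en T j)}.ncard := by
  unfold num
  have h1 : {n | n < en T c ∧ n ∈ T ∧ P n} = (en T) '' {j | j < c ∧ P (en T j)} := by
    ext n
    constructor
    · rintro ⟨h2, h3, h4⟩
      obtain ⟨i, rfl⟩ := en_surj h3
      exact ⟨i, ⟨(en_mono hT).lt_iff_lt.1 h2, h4⟩, rfl⟩
    · rintro ⟨i, ⟨h2, h3⟩, rfl⟩
      exact ⟨(en_mono hT) h2, en_mem hT i, h3⟩
  rw [h1, Set.ncard_image_of_injective _ (en_mono hT).injective]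

lemma num_index {T : Set ℕ} (hT : T.Infinite) (P : ℕ → Prop) (x : ℕ) :
    num T P x = {j | j < num T (fun _ => True) x ∧ P (en T j)}.ncard := by
  classical
  -- replace `x` by the next element of `T`
  set c := Nat.count (· ∈ T) x with hc
  have h1 : ∀ P : ℕ → Prop, num T P x = num T P (en T c) := by
    intro P
    unfold num
    congr 1
    ext n
    simp only [Set.mem_ofPred_eq]
    constructor
    · rintro ⟨h2, h3, h4⟩
      refine ⟨?_, h3, h4⟩
      have h5 : x ≤ en T c := Nat.le_nth_count (p := (· ∈ T)) hT x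
      omega
    · rintro ⟨h2, h3, h4⟩
      refine ⟨?_, h3, h4⟩
      obtain ⟨i, rfl⟩ := en_surj h3
      have h5 : i < c := (en_mono hT).lt_iff_lt.1 h2
      exact Nat.nth_lt_of_lt_count h5
  have h2 : num T (fun _ => True) x = c := by
    rw [h1, num_en hT]
    have : {j | j < c ∧ True} = ((Finset.range c : Finset ℕ) : Set ℕ) := by
      ext j
      simp
    rw [this, Set.ncard_coe_finset, Finset.card_range]
  rw [h2, h1, num_en hT]

lemma num_cons {q : ℕ} {a : ℕ} {as : List ℕ} {T : Set ℕ} (hT : T.Infinite) (x : ℕ) :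
    num T (hist q (a :: as) T) x ≤ num T (fun n => n % q = a ∧ hist q as T n) x ∧
    num T (fun n => n % q = a ∧ hist q as T n) x ≤ num T (hist q (a :: as) T) x + 1 := by
  classical
  rw [num_index hT, num_index hT (fun n => n % q = a ∧ hist q as T n)]
  set c := num T (fun _ => True) x with hc
  set G : ℕ → Prop := fun j => en T j % q = a ∧ hist q as T (en T j) with hG
  have h1 : {j | j < c ∧ hist q (a :: as) T (en T j)} = Nat.succ '' {j | j + 1 < c ∧ G j} := by
    ext j
    constructor
    · rintro ⟨h2, h3⟩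
      cases j with
      | zero => exact absurd h3 (hist_cons_zero hT)
      | succ j => exact ⟨j, ⟨h2, (hist_cons_en hT j).1 h3⟩, rfl⟩
    · rintro ⟨i, ⟨h2, h3⟩, rfl⟩
      exact ⟨h2, (hist_cons_en hT i).2 h3⟩
  rw [h1, Set.ncard_image_of_injective _ Nat.succ_injective]
  have hfin : {j | j < c ∧ G j}.Finite := (Set.finite_lt_nat c).subset fun j hj => hj.1
  constructor
  · refine Set.ncard_le_ncard ?_ hfin
    rintro j ⟨h2, h3⟩
    exact ⟨by omega, h3⟩
  · have h2 : {j | j < c ∧ G j} ⊆ insert (c - 1) {j | j + 1 < c ∧ G j} := by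
      rintro j ⟨h2, h3⟩
      by_cases h4 : j + 1 < c
      · exact Set.mem_insert_of_mem _ ⟨h4, h3⟩
      · left
        omega
    exact (Set.ncard_le_ncard h2 ((hfin.subset fun j hj => ⟨by have := hj.1; omega, hj.2⟩).insert _)).trans
      (Set.ncard_insert_le _ _)

/-- strings in terms of the enumeration -/
lemma hist_en {q : ℕ} {T : Set ℕ} (hT : T.Infinite) (as : List ℕ) (n : ℕ) :
    hist q as T (en T (n + as.length)) ↔ ∀ i, i < as.length → en T (n + as.length - 1 - i) % q = as.getD i 0 := by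
  induction as generalizing n with
  | nil => simp [hist]
  | cons a as ih =>
    have e : ∀ i, n + (a :: as).length - 1 - (i + 1) = n + as.length - 1 - i := by
      intro i
      simp only [List.length_cons]
      omega
    show hist q (a :: as) T (en T ((n + as.length) + 1)) ↔ _
    rw [hist_cons_en hT, ih]
    constructor
    · rintro ⟨h1, h2⟩ i hi
      cases i with
      | zero => simpa using h1
      | succ i =>
        rw [e, List.getD_cons_succ]
        exact h2 i (by simpa using hi)
    · intro h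
      refine ⟨?_, fun i hi => ?_⟩
      · have := h 0 (by simp)
        simpa using this
      · have h3 := h (i + 1) (by simpa using hi)
        rw [e, List.getD_cons_succ] at h3
        exact h3

lemma num_mono_P {T : Set ℕ} {P P' : ℕ → Prop} {x : ℕ} (h : ∀ n ∈ T, P n → P' n) : num T P x ≤ num T P' x := by
  unfold num
  refine Set.ncard_le_ncard ?_ ((Set.finite_lt_nat x).subset fun n hn => hn.1)
  rintro n ⟨h1, h2, h3⟩
  exact ⟨h1, h2, h n h2 h3⟩

end Pool.Agent.R960.Fam
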