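import Mathlib
import Pool.Agent.R960.Fam.Law

set_option autoImplicit false
set_option linter.unusedSectionVars false

/-! # Families of hypergraphs in the sieved models -/

open MeasureTheory Filter Set
open scoped ENNReal Topology

namespace Pool.Agent.R960.Fam

open Pool.Agent.R528.RM

variable {Ω : Type} {m0 : MeasurableSpace Ω} {μ : Measure Ω} [IsProbabilityMeasure μ]
  {ℱ : Filtration ℕ m0} {A : ℕ → Set Ω} {α β : Type}

/-- the profile of the sieved model -/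
lemma prof (hA : ∀ n, MeasurableSet[ℱ n] (A n)) (Q : Finset ℕ) (hQ : ∀ p ∈ Q, p.Prime)
    (hcop : ∀ n, (∃ p ∈ Q, p ∣ n) → A n = ∅)
    (hd : ∀ᵐ ω ∂μ, Tendsto (fun n : ℕ => dens μ ℱ A n ω * Real.log n)
      (atTop ⊓ 𝓟 {n : ℕ | ∀ p ∈ Q, ¬ p ∣ n + 1}) (𝓝 (∏ p ∈ Q, (1 - 1 / (p : ℝ))⁻¹))) :
    ∀ᵐ ω ∂μ, ∀ ε : ℝ, 0 < ε → ∀ᶠ n : ℕ in atTop,
      |dens μ ℱ A n ω - rhoW (∏ p ∈ Q, p) (n + 1)| ≤ ε * rhoW (∏ p ∈ Q, p) (n + 1) := by
  classical
  set W := ∏ p ∈ Q, p with hWdef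
  have hW : 0 < W := Finset.prod_pos fun q hq => (hQ q hq).pos
  have hc : ∀ n, Nat.Coprime n W ↔ ∀ p ∈ Q, ¬ p ∣ n := by
    intro n
    rw [hWdef, Nat.coprime_prod_right_iff]
    refine forall₂_congr fun p hp => ?_
    rw [Nat.coprime_comm]
    exact Nat.Prime.coprime_iff_not_dvd (hQ p hp)
  exact dens_profile (μ := μ) hA W hW (fun n hn => hcop n (by
    rw [hc] at hn
    push Not at hn
    exact hn)) (by
    rw [totient_prod Q hQ]
    simp_rw [hc]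
    exact hd)

/-- number of edges all of whose vertices are in `S` -/
noncomputable def full (S : Set ℕ) (I : Finset β) (V : β → Finset ℕ) : ℕ := {i | i ∈ I ∧ ∀ m ∈ V i, m ∈ S}.ncard

/-- number of edges all of whose vertices are coprime to `W` -/
noncomputable def gd (W : ℕ) (I : Finset β) (V : β → Finset ℕ) : ℕ := full {m | Nat.Coprime m W} I V

lemma full_eq (S : Set ℕ) [DecidablePred (· ∈ S)] (I : Finset β) (V : β → Finset ℕ) :
    full S I V = (I.filter fun i => ∀ m ∈ V i, m ∈ S).card := by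
  unfold full
  rw [← Set.ncard_coe_finset]
  congr 1
  ext i
  simp

lemma full_sum (I : Finset β) (V : β → Finset ℕ) (ω : Ω) :
    ∑ i ∈ I, ∏ m ∈ V i, In A m ω = full {m | ω ∈ A m} I V := by
  classical
  have h1 : ∀ m, In A m ω = if ω ∈ A m then 1 else 0 := by
    intro m
    unfold In
    by_cases h : ω ∈ A m
    · rw [if_pos h, Set.indicator_of_mem h]
    · rw [if_neg h, Set.indicator_of_notMem h]
  simp_rw [h1, Finset.prod_ite_zero, Finset.prod_const_one]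
  rw [Finset.sum_boole, full_eq]
  congr 1

lemma full_le (S : Set ℕ) (I : Finset β) (V : β → Finset ℕ) : full S I V ≤ I.card := by
  classical
  rw [full_eq]
  exact Finset.card_filter_le _ _

lemma prod_rho {W : ℕ} (hW : 0 < W) {V : Finset ℕ} {k : ℕ} (hk : V.card = k) {ℓ η : ℝ} (hη0 : 0 ≤ η) (hη1 : η < 1) (hℓ : 0 < ℓ)
    (hc : (W : ℝ) / Nat.totient W ≤ (1 - η) * ℓ) (hlog : ∀ m ∈ V, |Real.log m - ℓ| ≤ η * ℓ)
    (hcop : ∀ m ∈ V, Nat.Coprime m W) :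
    ((W : ℝ) / Nat.totient W / ℓ) ^ k * ((1 + η) ^ k)⁻¹ ≤ ∏ m ∈ V, rhoW W m ∧
      ∏ m ∈ V, rhoW W m ≤ ((W : ℝ) / Nat.totient W / ℓ) ^ k * ((1 - η) ^ k)⁻¹ := by
  set c := (W : ℝ) / Nat.totient W with hcdef
  have hcpos : 0 < c := div_pos (by exact_mod_cast hW) (by exact_mod_cast Nat.totient_pos.2 hW)
  have h1 : ∀ m ∈ V, rhoW W m = c / Real.log m := by
    intro m hm
    have h2 := abs_le.1 (hlog m hm)
    have h3 : c ≤ Real.log m := by linarith [h2.1]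
    unfold rhoW
    rw [if_pos (hcop m hm), min_eq_right]
    rw [div_le_one (lt_of_lt_of_le hcpos h3)]
    exact h3
  rw [Finset.prod_congr rfl h1]
  have e1 : (c / ℓ) ^ k * ((1 + η) ^ k)⁻¹ = ∏ _m ∈ V, (c / ((1 + η) * ℓ)) := by
    rw [Finset.prod_const, hk, ← inv_pow, ← mul_pow]
    congr 1
    have : 1 + η ≠ 0 := by linarith
    field_simp
  have e2 : (c / ℓ) ^ k * ((1 - η) ^ k)⁻¹ = ∏ _m ∈ V, (c / ((1 - η) * ℓ)) := by
    rw [Finset.prod_const, hk, ← inv_pow, ← mul_pow]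
    congr 1
    have : 1 - η ≠ 0 := by linarith
    field_simp
  rw [e1, e2]
  constructor
  · refine Finset.prod_le_prod (fun m _ => by positivity) fun m hm => ?_
    have h2 := abs_le.1 (hlog m hm)
    have h3 : 0 < Real.log m := by
      have : 0 < (1 - η) * ℓ := mul_pos (by linarith) hℓ
      linarith [h2.1]
    exact div_le_div_of_nonneg_left hcpos.le h3 (by linarith [h2.2])
  · refine Finset.prod_le_prod (fun m hm => ?_) fun m hm => ?_
    · have h2 := abs_le.1 (hlog m hm)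
      have : 0 < (1 - η) * ℓ := mul_pos (by linarith) hℓ
      exact div_nonneg hcpos.le (by linarith [h2.1])
    · have h2 := abs_le.1 (hlog m hm)
      have h3 : 0 < (1 - η) * ℓ := mul_pos (by linarith) hℓ
      exact div_le_div_of_nonneg_left hcpos.le h3 (by linarith [h2.1])

lemma sum_rho {W : ℕ} (hW : 0 < W) {k : ℕ} (I : Finset β) (V : β → Finset ℕ) (hk : ∀ i ∈ I, (V i).card = k)
    {ℓ η : ℝ} (hη0 : 0 ≤ η) (hη1 : η < 1) (hℓ : 0 < ℓ)
    (hc : (W : ℝ) / Nat.totient W ≤ (1 - η) * ℓ) (hlog : ∀ i ∈ I, ∀ m ∈ V i, |Real.log m - ℓ| ≤ η * ℓ) :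
    gd W I V * (((W : ℝ) / Nat.totient W / ℓ) ^ k * ((1 + η) ^ k)⁻¹) ≤ ∑ i ∈ I, ∏ m ∈ V i, rhoW W m ∧
      ∑ i ∈ I, ∏ m ∈ V i, rhoW W m ≤ gd W I V * (((W : ℝ) / Nat.totient W / ℓ) ^ k * ((1 - η) ^ k)⁻¹) := by
  classical
  have h1 : ∑ i ∈ I, ∏ m ∈ V i, rhoW W m = ∑ i ∈ I.filter (fun i => ∀ m ∈ V i, m ∈ {m | Nat.Coprime m W}), ∏ m ∈ V i, rhoW W m := by
    symm
    apply Finset.sum_subset (Finset.filter_subset _ _)
    intro i hi hn
    simp only [Finset.mem_filter, not_and] at hn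
    have := hn hi
    push Not at this
    obtain ⟨m, hm, hn⟩ := this
    refine Finset.prod_eq_zero hm ?_
    unfold rhoW
    exact if_neg (fun h => hn h)
  rw [h1]
  unfold gd
  rw [full_eq, ← nsmul_eq_mul, ← nsmul_eq_mul]
  constructor
  · refine Finset.card_nsmul_le_sum _ _ _ fun i hi => ?_
    obtain ⟨h2, h3⟩ := Finset.mem_filter.1 hi
    exact (prod_rho hW (hk i h2) hη0 hη1 hℓ hc (hlog i h2) h3).1
  · refine Finset.sum_le_card_nsmul _ _ _ fun i hi => ?_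
    obtain ⟨h2, h3⟩ := Finset.mem_filter.1 hi
    exact (prod_rho hW (hk i h2) hη0 hη1 hℓ hc (hlog i h2) h3).2

theorem siev_fam (hA : ∀ n, MeasurableSet[ℱ n] (A n)) (Q : Finset ℕ) (hQ : ∀ p ∈ Q, p.Prime)
    (hcop : ∀ n, (∃ p ∈ Q, p ∣ n) → A n = ∅)
    (hd : ∀ᵐ ω ∂μ, Tendsto (fun n : ℕ => dens μ ℱ A n ω * Real.log n)
      (atTop ⊓ 𝓟 {n : ℕ | ∀ p ∈ Q, ¬ p ∣ n + 1}) (𝓝 (∏ p ∈ Q, (1 - 1 / (p : ℝ))⁻¹)))
    (k κ C : ℕ) (hκ : 0 < κ) (Φ : ℕ → Finset α) (hΦ : ∀ᶠ x in atTop, (Φ x).card ≤ x ^ C)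
    (I : α → Finset β) (V : α → β → Finset ℕ) (ℓ : α → ℝ) (mn : ℕ → ℕ) (hmn : Tendsto mn atTop atTop)
    (hmin : ∀ᶠ x in atTop, ∀ a ∈ Φ x, ∀ i ∈ I a, (V a i).card = k ∧ ∀ m ∈ V a i, mn x ≤ m)
    (hmult : ∀ᶠ x in atTop, ∀ a ∈ Φ x, ∀ m, {i | i ∈ I a ∧ m ∈ V a i}.ncard ≤ κ)
    (hlog : ∀ η : ℝ, 0 < η → ∀ᶠ x in atTop, ∀ a ∈ Φ x, ∀ i ∈ I a, ∀ m ∈ V a i, |Real.log m - ℓ a| ≤ η * ℓ a)
    (hℓ : ∀ K : ℝ, ∀ᶠ x in atTop, ∀ a ∈ Φ x, K ≤ ℓ a)
    (hbig : ∀ K : ℝ, 0 < K → ∀ᶠ x : ℕ in atTop, ∀ a ∈ Φ x, K * (ℓ a ^ (2 * k) * Real.log x) ≤ (I a).card) :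
    ∀ᵐ ω ∂μ, ∀ ε : ℝ, 0 < ε → ∀ᶠ x : ℕ in atTop, ∀ a ∈ Φ x,
      |(full {m | ω ∈ A m} (I a) (V a) : ℝ) * ℓ a ^ k / (I a).card -
        (((∏ p ∈ Q, p : ℕ) : ℝ) / Nat.totient (∏ p ∈ Q, p)) ^ k * (gd (∏ p ∈ Q, p) (I a) (V a) / (I a).card)| ≤ ε := by
  classical
  set W := ∏ p ∈ Q, p with hWdef
  have hW : 0 < W := Finset.prod_pos fun q hq => (hQ q hq).pos
  set c := (W : ℝ) / Nat.totient W with hc
  have hcpos : 0 < c := div_pos (by exact_mod_cast hW) (by exact_mod_cast Nat.totient_pos.2 hW)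
  have hρ : ∀ n, 0 ≤ rhoW W n ∧ rhoW W n ≤ 1 := fun n => ⟨rhoW_nonneg W n, rhoW_le W n⟩
  filter_upwards [fam_law (μ := μ) hA hρ (prof hA Q hQ hcop hd) k κ C hκ Φ hΦ I V mn hmn hmin hmult] with ω hω ε hε
  -- choice of constants
  set D : ℝ := c ^ k + 1 with hD
  have hD0 : 0 < D := by positivity
  have hDk : c ^ k ≤ D := by linarith
  obtain ⟨e, he0, he1, he2⟩ : ∃ e : ℝ, 0 < e ∧ e ≤ 1 ∧ 4 * e * D ≤ ε := by
    refine ⟨min 1 (ε / (4 * D)), lt_min one_pos (by positivity), min_le_left _ _, ?_⟩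
    have := min_le_right 1 (ε / (4 * D))
    calc 4 * min 1 (ε / (4 * D)) * D ≤ 4 * (ε / (4 * D)) * D := by gcongr
      _ = ε := by field_simp
  obtain ⟨η, hη0, hη1, hηa, hηb⟩ : ∃ η : ℝ, 0 < η ∧ η < 1 ∧ ((1 - η) ^ k)⁻¹ ≤ 1 + e ∧ 1 - e ≤ ((1 + η) ^ k)⁻¹ := by
    have c1 : Tendsto (fun η : ℝ => ((1 - η) ^ k)⁻¹) (𝓝[>] 0) (𝓝 1) := by
      have h1 : ContinuousAt (fun η : ℝ => ((1 - η) ^ k)⁻¹) 0 :=
        ContinuousAt.inv₀ (by fun_prop) (by simp)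
      have h2 := h1.tendsto
      simp only [sub_zero, one_pow, inv_one] at h2
      exact h2.mono_left nhdsWithin_le_nhds
    have c2 : Tendsto (fun η : ℝ => ((1 + η) ^ k)⁻¹) (𝓝[>] 0) (𝓝 1) := by
      have h1 : ContinuousAt (fun η : ℝ => ((1 + η) ^ k)⁻¹) 0 :=
        ContinuousAt.inv₀ (by fun_prop) (by simp)
      have h2 := h1.tendsto
      simp only [add_zero, one_pow, inv_one] at h2
      exact h2.mono_left nhdsWithin_le_nhds
    have c3 : ∀ᶠ η : ℝ in 𝓝[>] 0, η < 1 :=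
      nhdsWithin_le_nhds (gt_mem_nhds one_pos)
    obtain ⟨η, ⟨⟨h1, h2⟩, h3⟩, h4⟩ := (((c1.eventually_le_const (show (1 : ℝ) < 1 + e by linarith)).and
      (c2.eventually_const_le (show 1 - e < (1 : ℝ) by linarith))).and c3 |>.and self_mem_nhdsWithin).exists
    exact ⟨η, h4, h3, h1, h2⟩
  set K : ℝ := 2 * (C + 2) * (2 * k * κ / e) ^ 2 + 1 with hK
  have hK0 : 0 < K := by positivity
  filter_upwards [hω e he0, hlog η hη0, hℓ (c / (1 - η) + 1), hbig K hK0, hmin, eventually_gt_atTop 1] with x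
    x1 x2 x3 x4 x5 x6 a ha
  have hlx : 0 < Real.log (x : ℝ) := Real.log_pos (by exact_mod_cast x6)
  have hη1' : 0 < 1 - η := by linarith
  have hl3 := x3 a ha
  have hl0 : 0 < ℓ a := lt_of_lt_of_le (by positivity) hl3
  have hcl : c ≤ (1 - η) * ℓ a := by
    have h1 : c / (1 - η) ≤ ℓ a := by linarith
    rw [div_le_iff₀ hη1'] at h1
    linarith
  have hI0 : (0 : ℝ) < (I a).card := lt_of_lt_of_le (by positivity) (x4 a ha)
  have hs := sum_rho hW (I a) (V a) (fun i hi => (x5 a ha i hi).1) hη0.le hη1 hl0 hcl (x2 a ha)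
  have h1 := x1 a ha
  rw [full_sum] at h1
  set N : ℝ := (full {m | ω ∈ A m} (I a) (V a) : ℝ) with hN
  set E : ℝ := ∑ i ∈ I a, ∏ m ∈ V a i, rhoW W m with hE
  set G : ℝ := (gd W (I a) (V a) : ℝ) with hG
  have hG0 : 0 ≤ G := Nat.cast_nonneg _
  have hGI : G ≤ (I a).card := by
    simp only [hG, gd]
    exact_mod_cast full_le _ _ _
  have hlk : 0 < ℓ a ^ k := by positivity
  -- E against G
  have hE1 : E * ℓ a ^ k ≤ G * c ^ k * (1 + e) := by
    have h2 : E * ℓ a ^ k ≤ (G * ((c / ℓ a) ^ k * ((1 - η) ^ k)⁻¹)) * ℓ a ^ k := mul_le_mul_of_nonneg_right hs.2 hlk.le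
    have h3 : (G * ((c / ℓ a) ^ k * ((1 - η) ^ k)⁻¹)) * ℓ a ^ k = G * c ^ k * ((1 - η) ^ k)⁻¹ := by
      rw [div_pow]
      field_simp
    rw [h3] at h2
    exact h2.trans (mul_le_mul_of_nonneg_left hηa (by positivity))
  have hE2 : G * c ^ k * (1 - e) ≤ E * ℓ a ^ k := by
    have h2 : (G * ((c / ℓ a) ^ k * ((1 + η) ^ k)⁻¹)) * ℓ a ^ k ≤ E * ℓ a ^ k := mul_le_mul_of_nonneg_right hs.1 hlk.le
    have h3 : (G * ((c / ℓ a) ^ k * ((1 + η) ^ k)⁻¹)) * ℓ a ^ k = G * c ^ k * ((1 + η) ^ k)⁻¹ := by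
      rw [div_pow]
      field_simp
    rw [h3] at h2
    exact (mul_le_mul_of_nonneg_left hηb (by positivity)).trans h2
  have hGc : G * c ^ k ≤ (I a).card * D := mul_le_mul hGI hDk (by positivity) hI0.le
  -- the square root
  have hroot : 2 * k * κ * √(2 * (C + 2) * Real.log x * (I a).card) * ℓ a ^ k ≤ e * (I a).card := by
    rcases Nat.eq_zero_or_pos k with hk0 | hk0
    · rw [hk0]
      simp only [Nat.cast_zero, mul_zero, zero_mul]
      positivity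
    have hkκ : (0 : ℝ) < 2 * k * κ := by
      have : (0 : ℝ) < k := by exact_mod_cast hk0
      have : (0 : ℝ) < κ := by exact_mod_cast hκ
      positivity
    have h2 : √(2 * (C + 2) * Real.log x * (I a).card) * ℓ a ^ k ≤ (e / (2 * k * κ)) * (I a).card := by
      rw [← Real.sqrt_sq hlk.le, ← Real.sqrt_mul (by positivity)]
      apply Real.sqrt_le_iff.2
      refine ⟨by positivity, ?_⟩
      have h3 := x4 a ha
      have h4 : (2 * (C + 2) * (2 * k * κ / e) ^ 2) * (ℓ a ^ (2 * k) * Real.log x) ≤ (I a).card := by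
        refine le_trans (mul_le_mul_of_nonneg_right ?_ (by positivity)) h3
        rw [hK]
        linarith
      have e5 : (ℓ a ^ k) ^ 2 = ℓ a ^ (2 * k) := by rw [← pow_mul, mul_comm]
      rw [e5]
      have h5 : 2 * (C + 2) * Real.log x * (I a).card * ℓ a ^ (2 * k) =
          (e / (2 * k * κ)) ^ 2 * ((2 * (C + 2) * (2 * k * κ / e) ^ 2) * (ℓ a ^ (2 * k) * Real.log x)) * (I a).card := by
        field_simp
      rw [h5, mul_pow, sq ((I a).card : ℝ), ← mul_assoc ((e / (2 * k * κ)) ^ 2) ((I a).card : ℝ)]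
      apply mul_le_mul_of_nonneg_right _ hI0.le
      exact mul_le_mul_of_nonneg_left h4 (by positivity)
    calc 2 * k * κ * √(2 * (C + 2) * Real.log x * (I a).card) * ℓ a ^ k
        = (2 * k * κ) * (√(2 * (C + 2) * Real.log x * (I a).card) * ℓ a ^ k) := by ring
      _ ≤ (2 * k * κ) * ((e / (2 * k * κ)) * (I a).card) := mul_le_mul_of_nonneg_left h2 hkκ.le
      _ = e * (I a).card := by field_simp
  have h6 : |N - E| * ℓ a ^ k ≤ e * (I a).card + e * (G * c ^ k * (1 + e)) := by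
    have h7 := mul_le_mul_of_nonneg_right h1 hlk.le
    calc |N - E| * ℓ a ^ k ≤ _ := h7
      _ = 2 * k * κ * √(2 * (C + 2) * Real.log x * (I a).card) * ℓ a ^ k + e * (E * ℓ a ^ k) := by ring
      _ ≤ _ := add_le_add hroot (mul_le_mul_of_nonneg_left hE1 he0.le)
  have h7 : |E * ℓ a ^ k - G * c ^ k| ≤ e * (G * c ^ k) := by
    rw [abs_le]
    constructor <;> nlinarith
  have h8 : N * ℓ a ^ k / (I a).card - c ^ k * (G / (I a).card) =
      ((N - E) * ℓ a ^ k + (E * ℓ a ^ k - G * c ^ k)) / (I a).card := by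
    field_simp
    ring
  rw [h8, abs_div, abs_of_pos hI0, div_le_iff₀ hI0]
  refine (abs_add_le _ _).trans ?_
  rw [abs_mul, abs_of_pos hlk]
  have h9 : G * c ^ k * (1 + e) ≤ (I a).card * D * 2 := by
    apply mul_le_mul hGc (by linarith) (by linarith) (by positivity)
  have hD1 : 1 ≤ D := by
    rw [hD]
    linarith [pow_pos hcpos k]
  have e10 : e * (I a).card ≤ e * ((I a).card * D) :=
    mul_le_mul_of_nonneg_left (le_mul_of_one_le_right hI0.le hD1) he0.le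
  have e11 : e * (G * c ^ k * (1 + e)) ≤ e * ((I a).card * D * 2) := mul_le_mul_of_nonneg_left h9 he0.le
  have e12 : e * (G * c ^ k) ≤ e * ((I a).card * D) := mul_le_mul_of_nonneg_left hGc he0.le
  calc |N - E| * ℓ a ^ k + |E * ℓ a ^ k - G * c ^ k| ≤
      (e * (I a).card + e * (G * c ^ k * (1 + e))) + e * (G * c ^ k) := add_le_add h6 h7
    _ ≤ 4 * e * D * (I a).card := by nlinarith
    _ ≤ ε * (I a).card := mul_le_mul_of_nonneg_right he2 hI0.le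

end Pool.Agent.R960.Fam
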