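import Mathlib
import Pool.Agent.R960.Fam.Frd
import Pool.Agent.R960.Fam.Hist
import Pool.Agent.R960.Fam.Siev

set_option autoImplicit false
set_option linter.unusedSectionVars false

/-! # Predictable weights and pairs `n`, `n + 2` -/

open MeasureTheory Filter Set
open scoped ENNReal Topology

namespace Pool.Agent.R960.Fam

open Pool.Agent.R528.RM

variable {Ω : Type} {m0 : MeasurableSpace Ω} {μ : Measure Ω} [IsProbabilityMeasure μ]
  {ℱ : Filtration ℕ m0} {A : ℕ → Set Ω} {α β : Type}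

theorem pred_prof' (hA : ∀ n, MeasurableSet[ℱ n] (A n)) {ρ : ℕ → ℝ} (hρ : ∀ n, 0 ≤ ρ n ∧ ρ n ≤ 1)
    (hd : ∀ᵐ ω ∂μ, ∀ ε : ℝ, 0 < ε → ∀ᶠ n : ℕ in atTop, |dens μ ℱ A n ω - ρ (n + 1)| ≤ ε * ρ (n + 1))
    (C : ℕ) (Φ : ℕ → Finset α) (hΦ : ∀ᶠ x in atTop, (Φ x).card ≤ x ^ C)
    (w : α → ℕ → Ω → ℝ) (M : α → ℕ) (hw : ∀ a k, StronglyMeasurable[ℱ k] (w a k))
    (h01 : ∀ a k ω, 0 ≤ w a k ω ∧ w a k ω ≤ 1) :
    ∀ᵐ ω ∂μ, ∀ ε : ℝ, 0 < ε → ∃ K : ℝ, 0 < K ∧ ∀ᶠ x : ℕ in atTop, ∀ a ∈ Φ x,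
      |∑ k ∈ Finset.range (M a), w a k ω * In A (k + 1) ω - ∑ k ∈ Finset.range (M a), w a k ω * ρ (k + 1)| ≤
        ε * ∑ k ∈ Finset.range (M a), w a k ω * ρ (k + 1) + K * Real.log x := by
  have hdn : ∀ᵐ ω ∂μ, ∀ n, 0 ≤ dens μ ℱ A n ω ∧ dens μ ℱ A n ω ≤ 1 := ae_all_iff.2 fun n => dens01 hA n
  filter_upwards [pred_law (μ := μ) hA C Φ hΦ w M hw h01, hd, hdn] with ω hω hdω hdn ε hε
  set δ : ℝ := min (ε / 4) 1 with hδ
  have hδ0 : 0 < δ := lt_min (by positivity) one_pos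
  have hδ1 : δ ≤ 1 := min_le_right _ _
  obtain ⟨K, hK0, hK⟩ := hω δ hδ0
  refine ⟨K + 2, by positivity, ?_⟩
  obtain ⟨n₀, hn₀⟩ := eventually_atTop.1 (hdω δ hδ0)
  have tl := Real.tendsto_log_atTop.comp (tendsto_natCast_atTop_atTop (R := ℝ))
  filter_upwards [hK, tl.eventually_ge_atTop (n₀ : ℝ)] with x h1 h2 a ha
  have h2' : (n₀ : ℝ) ≤ Real.log x := h2
  have h4 := h1 a ha
  set E := ∑ k ∈ Finset.range (M a), w a k ω * ρ (k + 1) with hE
  have hE0 : 0 ≤ E := Finset.sum_nonneg fun k _ => mul_nonneg (h01 a k ω).1 (hρ _).1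
  have h5 : |Vp μ ℱ A (w a) (M a) ω - E| ≤ δ * E + n₀ := by
    have h6 : ∀ k ∈ Finset.range (M a), |w a k ω * dens μ ℱ A k ω - w a k ω * ρ (k + 1)| ≤
        δ * (w a k ω * ρ (k + 1)) + (if k < n₀ then (1 : ℝ) else 0) := by
      intro k _
      rw [← mul_sub, abs_mul, abs_of_nonneg (h01 a k ω).1]
      have hw0 := h01 a k ω
      have hr := hρ (k + 1)
      by_cases hk : k < n₀
      · rw [if_pos hk]
        have h7 : |dens μ ℱ A k ω - ρ (k + 1)| ≤ 1 := by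
          have := hdn k
          rw [abs_le]
          constructor <;> linarith
        have h8 : w a k ω * |dens μ ℱ A k ω - ρ (k + 1)| ≤ 1 := mul_le_one₀ hw0.2 (abs_nonneg _) h7
        have h9 : 0 ≤ δ * (w a k ω * ρ (k + 1)) := mul_nonneg hδ0.le (mul_nonneg hw0.1 hr.1)
        linarith
      · rw [if_neg hk, add_zero]
        have h7 := hn₀ k (by omega)
        calc w a k ω * |dens μ ℱ A k ω - ρ (k + 1)| ≤ w a k ω * (δ * ρ (k + 1)) := mul_le_mul_of_nonneg_left h7 hw0.1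
          _ = _ := by ring
    have h7 : |Vp μ ℱ A (w a) (M a) ω - E| ≤ ∑ k ∈ Finset.range (M a), |w a k ω * dens μ ℱ A k ω - w a k ω * ρ (k + 1)| := by
      simp only [Vp, hE]
      rw [← Finset.sum_sub_distrib]
      exact Finset.abs_sum_le_sum_abs _ _
    refine h7.trans ((Finset.sum_le_sum h6).trans ?_)
    rw [Finset.sum_add_distrib, ← Finset.mul_sum]
    refine add_le_add le_rfl ?_
    rw [Finset.sum_ite, Finset.sum_const_zero, add_zero, Finset.sum_const, nsmul_eq_mul, mul_one]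
    have h8 : ((Finset.range (M a)).filter fun k => k < n₀).card ≤ n₀ := by
      calc _ ≤ (Finset.range n₀).card := Finset.card_le_card fun k hk => by
            have := (Finset.mem_filter.1 hk).2
            exact Finset.mem_range.2 this
        _ = n₀ := Finset.card_range _
    exact_mod_cast h8
  have h7 : Sp μ ℱ A (w a) (M a) ω = ∑ k ∈ Finset.range (M a), w a k ω * In A (k + 1) ω - Vp μ ℱ A (w a) (M a) ω := by
    unfold Sp Vp In
    rw [← Finset.sum_sub_distrib]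
    refine Finset.sum_congr rfl fun k _ => ?_
    ring
  have h8 : ∑ k ∈ Finset.range (M a), w a k ω * In A (k + 1) ω - E =
      Sp μ ℱ A (w a) (M a) ω + (Vp μ ℱ A (w a) (M a) ω - E) := by
    rw [h7]
    ring
  rw [h8]
  have h9 := abs_le.1 h5
  have hn0 : (0 : ℝ) ≤ n₀ := Nat.cast_nonneg _
  have h10 : Vp μ ℱ A (w a) (M a) ω ≤ 2 * E + n₀ := by
    nlinarith [h9.2]
  have h11 : δ * Vp μ ℱ A (w a) (M a) ω ≤ δ * (2 * E) + n₀ := by
    have e1 := mul_le_mul_of_nonneg_left h10 hδ0.le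
    have e2 : δ * n₀ ≤ n₀ := mul_le_of_le_one_left hn0 hδ1
    nlinarith
  have h12 : δ * E ≤ ε / 4 * E := mul_le_mul_of_nonneg_right (min_le_left _ _) hE0
  calc _ ≤ |Sp μ ℱ A (w a) (M a) ω| + |Vp μ ℱ A (w a) (M a) ω - E| := abs_add_le _ _
    _ ≤ (δ * Vp μ ℱ A (w a) (M a) ω + K * Real.log x) + (δ * E + n₀) := add_le_add h4 h5
    _ ≤ _ := by nlinarith

/-- predictable weights on pairs -/
theorem twin_pred (hA : ∀ n, MeasurableSet[ℱ n] (A n)) {ρ : ℕ → ℝ} (hρ : ∀ n, 0 ≤ ρ n ∧ ρ n ≤ 1)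
    (hd : ∀ᵐ ω ∂μ, ∀ ε : ℝ, 0 < ε → ∀ᶠ n : ℕ in atTop, |dens μ ℱ A n ω - ρ (n + 1)| ≤ ε * ρ (n + 1))
    (u : ℕ → Ω → ℝ) (hu : ∀ n, StronglyMeasurable[ℱ (n - 1)] (u n)) (hu0 : ∀ ω, u 0 ω = 0)
    (h01 : ∀ n ω, 0 ≤ u n ω ∧ u n ω ≤ 1) :
    ∀ᵐ ω ∂μ, ∀ ε : ℝ, 0 < ε → ∃ K : ℝ, 0 < K ∧ ∀ᶠ x : ℕ in atTop,
      |∑ n ∈ Finset.range x, u n ω * In A n ω * In A (n + 2) ω - ∑ n ∈ Finset.range x, u n ω * ρ n * ρ (n + 2)| ≤
        ε * ∑ n ∈ Finset.range x, u n ω * ρ n * ρ (n + 2) + K * Real.log x := by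
  have hΦ : ∀ᶠ x : ℕ in atTop, (({x} : Finset ℕ)).card ≤ x ^ 1 := by
    filter_upwards [eventually_ge_atTop 1] with x hx
    simpa using hx
  have s1 := pred_prof' (μ := μ) hA hρ hd 1 (fun x => {x}) hΦ
    (fun _ k ω => if k = 0 then 0 else u (k - 1) ω * In A (k - 1) ω) (fun a => a + 1)
    (by
      intro a k
      by_cases hk : k = 0
      · simp only [if_pos hk]
        exact @stronglyMeasurable_const _ _ (ℱ k) _ _
      · simp only [if_neg hk]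
        exact @StronglyMeasurable.mul _ _ _ _ (ℱ k) _ _ _ ((hu (k - 1)).mono (ℱ.mono (by omega))) (In_meas hA (by omega)))
    (by
      intro a k ω
      show 0 ≤ (if k = 0 then 0 else u (k - 1) ω * In A (k - 1) ω) ∧ (if k = 0 then 0 else u (k - 1) ω * In A (k - 1) ω) ≤ 1
      split_ifs
      · exact ⟨le_rfl, zero_le_one⟩
      · exact ⟨mul_nonneg (h01 _ ω).1 (In_nonneg _ _), mul_le_one₀ (h01 _ ω).2 (In_nonneg _ _) (In_le _ _)⟩)
  have s2 := pred_prof' (μ := μ) hA hρ hd 1 (fun x => {x}) hΦ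
    (fun _ k ω => u (k + 1) ω * ρ (k + 3)) (fun a => a - 1)
    (by
      intro a k
      exact @StronglyMeasurable.mul _ _ _ _ (ℱ k) _ _ _ (hu (k + 1)) (@stronglyMeasurable_const _ _ (ℱ k) _ _))
    (by
      intro a k ω
      exact ⟨mul_nonneg (h01 _ ω).1 (hρ _).1, mul_le_one₀ (h01 _ ω).2 (hρ _).1 (hρ _).2⟩)
  filter_upwards [s1, s2] with ω g1 g2 ε hε
  set δ : ℝ := min (ε / 4) 1 with hδ
  have hδ0 : 0 < δ := lt_min (by positivity) one_pos
  have hδ1 : δ ≤ 1 := min_le_right _ _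
  obtain ⟨K1, hK1, k1⟩ := g1 δ hδ0
  obtain ⟨K2, hK2, k2⟩ := g2 δ hδ0
  refine ⟨K1 + 2 * K2, by positivity, ?_⟩
  filter_upwards [k1, k2, eventually_ge_atTop 1] with x h1 h2 hx1
  have h1' := h1 x (Finset.mem_singleton_self x)
  have h2' := h2 x (Finset.mem_singleton_self x)
  obtain ⟨y, rfl⟩ : ∃ y, x = y + 1 := ⟨x - 1, by omega⟩
  rw [Finset.sum_range_succ' _ (y + 1), Finset.sum_range_succ' _ (y + 1)] at h1'
  simp only [Nat.add_eq_zero_iff, one_ne_zero, and_false, if_false, if_true, zero_mul, add_zero, Nat.add_sub_cancel] at h1'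
  simp only [Nat.add_sub_cancel] at h2'
  have e1 : ∑ n ∈ Finset.range (y + 1), u n ω * In A n ω * ρ (n + 2) =
      ∑ k ∈ Finset.range y, u (k + 1) ω * ρ (k + 3) * In A (k + 1) ω := by
    rw [Finset.sum_range_succ', hu0 ω, zero_mul, zero_mul, add_zero]
    refine Finset.sum_congr rfl fun k _ => ?_
    rw [show k + 1 + 2 = k + 3 by ring]
    ring
  have e2 : ∑ n ∈ Finset.range (y + 1), u n ω * ρ n * ρ (n + 2) =
      ∑ k ∈ Finset.range y, u (k + 1) ω * ρ (k + 3) * ρ (k + 1) := by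
    rw [Finset.sum_range_succ', hu0 ω, zero_mul, zero_mul, add_zero]
    refine Finset.sum_congr rfl fun k _ => ?_
    rw [show k + 1 + 2 = k + 3 by ring]
    ring
  rw [← e1, ← e2] at h2'
  set X1 := ∑ n ∈ Finset.range (y + 1), u n ω * In A n ω * In A (n + 2) ω with hX1
  set X2 := ∑ n ∈ Finset.range (y + 1), u n ω * In A n ω * ρ (n + 2) with hX2
  set X3 := ∑ n ∈ Finset.range (y + 1), u n ω * ρ n * ρ (n + 2) with hX3
  have h3 : |X1 - X2| ≤ δ * X2 + K1 * Real.log ((y + 1 : ℕ) : ℝ) := h1'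
  have hX30 : 0 ≤ X3 := Finset.sum_nonneg fun n _ => mul_nonneg (mul_nonneg (h01 n ω).1 (hρ n).1) (hρ _).1
  have hl : 0 ≤ Real.log ((y + 1 : ℕ) : ℝ) := Real.log_natCast_nonneg _
  set L := Real.log ((y + 1 : ℕ) : ℝ) with hL
  have h4 := abs_le.1 h2'
  have h5 : X2 ≤ 2 * X3 + K2 * L := by nlinarith [h4.2]
  have h6 : δ * X2 ≤ δ * (2 * X3) + K2 * L := by
    have e3 := mul_le_mul_of_nonneg_left h5 hδ0.le
    have e4 : δ * (K2 * L) ≤ K2 * L := mul_le_of_le_one_left (by positivity) hδ1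
    nlinarith
  have h7 : δ * X3 ≤ ε / 4 * X3 := mul_le_mul_of_nonneg_right (min_le_left _ _) hX30
  calc |X1 - X3| = |(X1 - X2) + (X2 - X3)| := by ring_nf
    _ ≤ |X1 - X2| + |X2 - X3| := abs_add_le _ _
    _ ≤ (δ * X2 + K1 * L) + (δ * X3 + K2 * L) := add_le_add h3 h2'
    _ ≤ _ := by nlinarith

/-- the pairs of the random set -/
def Tw (A : ℕ → Set Ω) (ω : Ω) : Set ℕ := {n | ω ∈ A n ∧ ω ∈ A (n + 2)}

lemma hist_meas (hA : ∀ n, MeasurableSet[ℱ n] (A n)) (q : ℕ) (as : List ℕ) (N : ℕ) :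
    MeasurableSet[ℱ (N + 1)] {ω | hist q as (Tw A ω) N} := by
  induction as generalizing N with
  | nil =>
    have : {ω | hist q [] (Tw A ω) N} = Set.univ := by
      ext ω
      simp [hist]
    rw [this]
    exact MeasurableSet.univ
  | cons a as ih =>
    have h1 : {ω | hist q (a :: as) (Tw A ω) N} = ⋃ t ∈ Finset.range N, ({ω : Ω | t % q = a} ∩ ((A t ∩ A (t + 2)) ∩
        ((⋂ s ∈ Finset.Ioo t N, (A s ∩ A (s + 2))ᶜ) ∩ {ω | hist q as (Tw A ω) t}))) := by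
      ext ω
      simp only [hist, Tw, Set.mem_ofPred_eq, Set.mem_iUnion, Set.mem_inter_iff, Set.mem_iInter, Finset.mem_range,
        Finset.mem_Ioo, Set.mem_compl_iff, exists_prop]
      constructor
      · rintro ⟨t, h1, h2, h3, h4, h5⟩
        exact ⟨t, h1, h4, h2, fun s hs => h3 s hs.1 hs.2, h5⟩
      · rintro ⟨t, h1, h4, h2, h3, h5⟩
        exact ⟨t, h1, h2, fun s hs1 hs2 => h3 s ⟨hs1, hs2⟩, h4, h5⟩
    rw [h1]
    refine Finset.measurableSet_biUnion _ fun t ht => ?_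
    have ht' := Finset.mem_range.1 ht
    refine MeasurableSet.inter (MeasurableSet.const _) (MeasurableSet.inter ?_ (MeasurableSet.inter ?_ ?_))
    · exact MeasurableSet.inter (ℱ.mono (by omega) _ (hA t)) (ℱ.mono (by omega) _ (hA (t + 2)))
    · refine Finset.measurableSet_biInter _ fun s hs => ?_
      have hs' := Finset.mem_Ioo.1 hs
      exact MeasurableSet.compl (MeasurableSet.inter (ℱ.mono (by omega) _ (hA s)) (ℱ.mono (by omega) _ (hA (s + 2))))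
    · exact ℱ.mono (by omega) _ (ih t)

open Classical in
/-- the predictable weight -/
noncomputable def uu (A : ℕ → Set Ω) (q : ℕ) (as : List ℕ) (b n : ℕ) (ω : Ω) : ℝ :=
  if (2 ≤ n ∧ n % q = b) ∧ hist q as (Tw A ω) (n - 2) then 1 else 0

lemma uu_meas (hA : ∀ n, MeasurableSet[ℱ n] (A n)) (q : ℕ) (as : List ℕ) (b n : ℕ) :
    StronglyMeasurable[ℱ (n - 1)] (uu A q as b n) := by
  classical
  by_cases h : 2 ≤ n ∧ n % q = b
  · have h1 : uu A q as b n = {ω | hist q as (Tw A ω) (n - 2)}.indicator (fun _ => (1 : ℝ)) := by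
      funext ω
      unfold uu
      by_cases h2 : hist q as (Tw A ω) (n - 2)
      · rw [if_pos ⟨h, h2⟩, indicator_of_mem (show ω ∈ {ω | hist q as (Tw A ω) (n - 2)} from h2)]
      · rw [if_neg (fun h3 => h2 h3.2), indicator_of_notMem (show ω ∉ {ω | hist q as (Tw A ω) (n - 2)} from h2)]
    rw [h1]
    have h2 := hist_meas (ℱ := ℱ) hA q as (n - 2)
    rw [show n - 2 + 1 = n - 1 by omega] at h2
    exact (@stronglyMeasurable_const _ _ (ℱ (n - 1)) _ _).indicator h2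
  · have h1 : uu A q as b n = fun _ => (0 : ℝ) := by
      funext ω
      unfold uu
      rw [if_neg (fun h3 => h h3.1)]
    rw [h1]
    exact @stronglyMeasurable_const _ _ (ℱ (n - 1)) _ _

lemma uu_01 (q : ℕ) (as : List ℕ) (b n : ℕ) (ω : Ω) : 0 ≤ uu A q as b n ω ∧ uu A q as b n ω ≤ 1 := by
  unfold uu
  split_ifs <;> norm_num

/-- triples -/
theorem triple_pred (hA : ∀ n, MeasurableSet[ℱ n] (A n)) {ρ : ℕ → ℝ} (hρ : ∀ n, 0 ≤ ρ n ∧ ρ n ≤ 1)
    (hd : ∀ᵐ ω ∂μ, ∀ ε : ℝ, 0 < ε → ∀ᶠ n : ℕ in atTop, |dens μ ℱ A n ω - ρ (n + 1)| ≤ ε * ρ (n + 1)) :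
    ∀ᵐ ω ∂μ, ∃ K : ℝ, 0 < K ∧ ∀ᶠ x : ℕ in atTop,
      ∑ n ∈ Finset.range x, In A n ω * In A (n + 2) ω * In A (n + 4) ω ≤
        2 * ∑ n ∈ Finset.range x, In A n ω * In A (n + 2) ω * ρ (n + 4) + K * Real.log x := by
  have hΦ : ∀ᶠ x : ℕ in atTop, (({x} : Finset ℕ)).card ≤ x ^ 1 := by
    filter_upwards [eventually_ge_atTop 1] with x hx
    simpa using hx
  have s1 := pred_prof' (μ := μ) hA hρ hd 1 (fun x => {x}) hΦ
    (fun _ k ω => if k < 3 then 0 else In A (k - 3) ω * In A (k - 1) ω) (fun a => a + 3)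
    (by
      intro a k
      by_cases hk : k < 3
      · simp only [if_pos hk]
        exact @stronglyMeasurable_const _ _ (ℱ k) _ _
      · simp only [if_neg hk]
        exact @StronglyMeasurable.mul _ _ _ _ (ℱ k) _ _ _ (In_meas hA (by omega)) (In_meas hA (by omega)))
    (by
      intro a k ω
      show 0 ≤ (if k < 3 then 0 else In A (k - 3) ω * In A (k - 1) ω) ∧ (if k < 3 then 0 else In A (k - 3) ω * In A (k - 1) ω) ≤ 1
      split_ifs
      · exact ⟨le_rfl, zero_le_one⟩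
      · exact ⟨mul_nonneg (In_nonneg _ _) (In_nonneg _ _), mul_le_one₀ (In_le _ _) (In_nonneg _ _) (In_le _ _)⟩)
  filter_upwards [s1] with ω g1
  obtain ⟨K, hK, k1⟩ := g1 1 one_pos
  refine ⟨K, hK, ?_⟩
  filter_upwards [k1] with x h1
  have h1' := h1 x (Finset.mem_singleton_self x)
  rw [Finset.sum_range_succ', Finset.sum_range_succ', Finset.sum_range_succ', Finset.sum_range_succ' (fun k => (if k < 3 then 0 else In A (k - 3) ω * In A (k - 1) ω) * ρ (k + 1)), Finset.sum_range_succ', Finset.sum_range_succ'] at h1'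
  have e0 : ∀ k : ℕ, ¬ (k + 1 + 1 + 1 < 3) := fun k => by omega
  simp only [if_neg (e0 _), show (0 : ℕ) < 3 by norm_num, show (0 + 1 : ℕ) < 3 by norm_num, show (0 + 1 + 1 : ℕ) < 3 by norm_num,
    if_true, zero_mul, add_zero] at h1'
  have e1 : ∀ k : ℕ, k + 1 + 1 + 1 - 3 = k := fun k => by omega
  have e2 : ∀ k : ℕ, k + 1 + 1 + 1 - 1 = k + 2 := fun k => by omega
  have e3 : ∀ k : ℕ, k + 1 + 1 + 1 + 1 = k + 4 := fun k => by omega
  simp only [e1, e2, e3] at h1'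
  have h2 := (abs_le.1 h1').2
  linarith

end Pool.Agent.R960.Fam
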