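import Mathlib
import Pool.Agent.R960.Fam.Res

set_option autoImplicit false
set_option linter.unusedSectionVars false

/-! # Equidistribution of the classes of consecutive twins: deterministic lemmas -/

open MeasureTheory Filter Set
open scoped ENNReal Topology

namespace Pool.Agent.R960.Fam

open Pool.Agent.R528.RM

/-- `n` is in the class `b` and `n`, `n + 2` are prime to `W` -/
def gg (q W b n : ℕ) : Prop := n % q = b ∧ Nat.Coprime n W ∧ Nat.Coprime (n + 2) W

/-- admissible classes -/
def adm (q b : ℕ) : Prop := b < q ∧ Nat.Coprime b q ∧ Nat.Coprime (b + 2) q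

lemma gg_shift (Q : Finset ℕ) (hQ : ∀ p ∈ Q, p.Prime) (q : ℕ) (hq0 : 0 < q) (hq : ∀ p, p.Prime → p ∣ q → p ∈ Q)
    {b b' : ℕ} (hb : adm q b) (hb' : adm q b') :
    ∃ s : ℕ, ∀ m, gg q (∏ p ∈ Q, p) b m ↔ gg q (∏ p ∈ Q, p) b' (m + s) := by
  classical
  set W' := ∏ p ∈ Q.filter (fun p => ¬ p ∣ q), p with hW'
  have hcop : Nat.Coprime q W' := by
    rw [hW', Nat.coprime_prod_right_iff]
    intro p hp
    obtain ⟨h1, h2⟩ := Finset.mem_filter.1 hp
    rw [Nat.coprime_comm]
    exact (Nat.Prime.coprime_iff_not_dvd (hQ p h1)).2 h2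
  obtain ⟨s, hs1, hs2⟩ := Nat.chineseRemainder hcop (b' + (q - b)) 0
  refine ⟨s, fun m => ?_⟩
  have hc : ∀ n, Nat.Coprime n (∏ p ∈ Q, p) ↔ ∀ p ∈ Q, ¬ p ∣ n := by
    intro n
    rw [Nat.coprime_prod_right_iff]
    refine forall₂_congr fun p hp => ?_
    rw [Nat.coprime_comm]
    exact Nat.Prime.coprime_iff_not_dvd (hQ p hp)
  have hclass : m % q = b ↔ (m + s) % q = b' := by
    have e1 : m + s ≡ m + (b' + (q - b)) [MOD q] := Nat.ModEq.add_left _ hs1
    have hbq := hb.1
    constructor
    · intro h
      have e2 : m + (b' + (q - b)) ≡ b + (b' + (q - b)) [MOD q] := by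
        refine Nat.ModEq.add_right _ ?_
        rw [← h]
        exact (Nat.mod_modEq m q).symm
      have e3 : b + (b' + (q - b)) = b' + q := by omega
      have e4 : (m + s) % q = (b' + q) % q := by
        have := e1.trans e2
        rw [e3] at this
        exact this
      rw [e4, Nat.add_mod_right, Nat.mod_eq_of_lt hb'.1]
    · intro h
      have e2 : m + (b' + (q - b)) ≡ b' [MOD q] := by
        refine e1.symm.trans ?_
        show (m + s) % q = b' % q
        rw [h, Nat.mod_eq_of_lt hb'.1]
      have e5 : m + q ≡ b [MOD q] := by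
        have e6 : (m + q) + b' ≡ b + b' [MOD q] := by
          have e7 := Nat.ModEq.add_right b e2
          rw [show m + (b' + (q - b)) + b = (m + q) + b' by omega] at e7
          rwa [add_comm b' b] at e7
        exact Nat.ModEq.add_right_cancel' b' e6
      have e8 : (m + q) % q = b % q := e5
      rwa [Nat.add_mod_right, Nat.mod_eq_of_lt hbq] at e8
  unfold gg
  rw [hc, hc, hc, hc, ← hclass]
  refine and_congr_right fun hm => ?_
  have hm' : (m + s) % q = b' := hclass.1 hm
  have key : ∀ p ∈ Q, ((¬ p ∣ m ↔ ¬ p ∣ m + s) ∧ (¬ p ∣ m + 2 ↔ ¬ p ∣ m + s + 2)) := by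
    intro p hp
    have hpp := hQ p hp
    by_cases hpq : p ∣ q
    · have f1 : ∀ (n c : ℕ), n % q = c → ∀ j, (p ∣ n + j ↔ p ∣ c + j) := by
        intro n c hn j
        have e1 : n ≡ c [MOD p] := by
          have e2 : n ≡ c [MOD q] := by
            rw [← hn]
            exact (Nat.mod_modEq n q).symm
          exact e2.of_dvd hpq
        exact (Nat.ModEq.add_right j e1).dvd_iff dvd_rfl
      have f2 : ∀ c, Nat.Coprime c q → ¬ p ∣ c := by
        intro c hc' hd
        have := Nat.dvd_gcd hd hpq
        rw [hc'] at this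
        exact hpp.one_lt.ne' (Nat.dvd_one.1 this)
      have g1 := f1 m b hm 0
      have g2 := f1 m b hm 2
      have g3 := f1 (m + s) b' hm' 0
      have g4 := f1 (m + s) b' hm' 2
      simp only [add_zero] at g1 g3
      have k1 := f2 b hb.2.1
      have k2 := f2 (b + 2) hb.2.2
      have k3 := f2 b' hb'.2.1
      have k4 := f2 (b' + 2) hb'.2.2
      tauto
    · have hps : p ∣ s := by
        have h1 : p ∣ W' := Finset.dvd_prod_of_mem _ (Finset.mem_filter.2 ⟨hp, hpq⟩)
        have h2 : W' ∣ s := (Nat.modEq_zero_iff_dvd).1 hs2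
        exact h1.trans h2
      have e1 : p ∣ m ↔ p ∣ m + s := (Nat.dvd_add_left hps).symm
      have e2 : p ∣ m + 2 ↔ p ∣ m + s + 2 := by
        rw [show m + s + 2 = m + 2 + s by ring]
        exact (Nat.dvd_add_left hps).symm
      tauto
  constructor
  · rintro ⟨h1, h2⟩
    exact ⟨fun p hp => (key p hp).1.1 (h1 p hp), fun p hp => (key p hp).2.1 (h2 p hp)⟩
  · rintro ⟨h1, h2⟩
    exact ⟨fun p hp => (key p hp).1.2 (h1 p hp), fun p hp => (key p hp).2.2 (h2 p hp)⟩

/-- translated predicates have the same counts up to the shift -/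
lemma count_shift (P P' : ℕ → Prop) [DecidablePred P] [DecidablePred P'] {s : ℕ} (h : ∀ m, P m ↔ P' (m + s)) (n : ℕ) :
    |((Nat.count P n : ℝ)) - Nat.count P' n| ≤ s := by
  have h1 : Nat.count P n = Nat.count (fun k => P' (s + k)) n := by
    congr 1
    funext k
    rw [h k, add_comm]
  have h2 : Nat.count P' (s + n) = Nat.count P' s + Nat.count (fun k => P' (s + k)) n := Nat.count_add _ _ _
  have h3 : Nat.count P' (n + s) = Nat.count P' n + Nat.count (fun k => P' (n + k)) s := Nat.count_add _ _ _
  rw [add_comm] at h3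
  have h4 : Nat.count P' s ≤ s := Nat.count_le _
  have h5 : Nat.count (fun k => P' (n + k)) s ≤ s := Nat.count_le _
  rw [h1]
  have h6 : (Nat.count (fun k => P' (s + k)) n : ℝ) + Nat.count P' s = Nat.count P' n + Nat.count (fun k => P' (n + k)) s := by
    exact_mod_cast (by omega : Nat.count (fun k => P' (s + k)) n + Nat.count P' s = Nat.count P' n + Nat.count (fun k => P' (n + k)) s)
  have h4' : (Nat.count P' s : ℝ) ≤ s := by exact_mod_cast h4
  have h5' : (Nat.count (fun k => P' (n + k)) s : ℝ) ≤ s := by exact_mod_cast h5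
  have h7 : (0 : ℝ) ≤ Nat.count P' s := Nat.cast_nonneg _
  have h8 : (0 : ℝ) ≤ Nat.count (fun k => P' (n + k)) s := Nat.cast_nonneg _
  rw [abs_le]
  constructor <;> linarith

/-- summation by parts -/
lemma abel (u d : ℕ → ℝ) {B : ℝ} (hB : ∀ n, |∑ m ∈ Finset.range n, d m| ≤ B) (x : ℕ) :
    |∑ n ∈ Finset.range x, u n * d n| ≤ B * (|u x| + ∑ n ∈ Finset.range x, |u (n + 1) - u n|) := by
  have h1 : ∀ x : ℕ, |∑ n ∈ Finset.range x, u n * d n - u x * ∑ m ∈ Finset.range x, d m| ≤
      B * ∑ n ∈ Finset.range x, |u (n + 1) - u n| := by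
    intro x
    induction x with
    | zero => simp
    | succ x ih =>
      rw [Finset.sum_range_succ (fun n => |u (n + 1) - u n|), mul_add]
      have h2 : ∑ n ∈ Finset.range (x + 1), u n * d n - u (x + 1) * ∑ m ∈ Finset.range (x + 1), d m =
          (∑ n ∈ Finset.range x, u n * d n - u x * ∑ m ∈ Finset.range x, d m) - (u (x + 1) - u x) * ∑ m ∈ Finset.range (x + 1), d m := by
        rw [Finset.sum_range_succ, Finset.sum_range_succ d]
        ring
      rw [h2]
      refine (abs_sub _ _).trans (add_le_add ih ?_)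
      rw [abs_mul, mul_comm]
      exact mul_le_mul_of_nonneg_right (hB (x + 1)) (abs_nonneg _)
  have h2 := h1 x
  have h3 : |u x * ∑ m ∈ Finset.range x, d m| ≤ B * |u x| := by
    rw [abs_mul, mul_comm]
    exact mul_le_mul_of_nonneg_right (hB x) (abs_nonneg _)
  calc |∑ n ∈ Finset.range x, u n * d n| = |(∑ n ∈ Finset.range x, u n * d n - u x * ∑ m ∈ Finset.range x, d m) +
        u x * ∑ m ∈ Finset.range x, d m| := by ring_nf
    _ ≤ _ := abs_add_le _ _
    _ ≤ B * ∑ n ∈ Finset.range x, |u (n + 1) - u n| + B * |u x| := add_le_add h2 h3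
    _ = _ := by ring

/-- the decreasing factor -/
noncomputable def el (c : ℝ) (n : ℕ) : ℝ := bb c n * bb c (n + 2)

lemma el_nonneg {c : ℝ} (hc : 0 ≤ c) (n : ℕ) : 0 ≤ el c n := mul_nonneg (bb_nonneg hc _) (bb_nonneg hc _)

lemma el_le {c : ℝ} (hc : 0 ≤ c) (n : ℕ) : el c n ≤ 1 := mul_le_one₀ (bb_le _ _) (bb_nonneg hc _) (bb_le _ _)

lemma bb_anti {c : ℝ} (hc : 0 ≤ c) {n : ℕ} (hn : 2 ≤ n) : bb c (n + 1) ≤ bb c n := by
  unfold bb
  refine min_le_min le_rfl ?_
  have h1 : (1 : ℝ) < n := by exact_mod_cast (by omega : 1 < n)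
  have h2 : 0 < Real.log (n : ℝ) := Real.log_pos h1
  refine div_le_div_of_nonneg_left hc h2 (Real.log_le_log (by linarith) ?_)
  push_cast
  linarith

lemma el_anti {c : ℝ} (hc : 0 ≤ c) {n : ℕ} (hn : 2 ≤ n) : el c (n + 1) ≤ el c n := by
  unfold el
  refine mul_le_mul (bb_anti hc hn) ?_ (bb_nonneg hc _) (bb_nonneg hc _)
  exact bb_anti hc (by omega)

lemma el_var {c : ℝ} (hc : 0 ≤ c) (x : ℕ) : ∑ n ∈ Finset.range x, |el c (n + 1) - el c n| ≤ 5 := by
  have h1 : ∀ x : ℕ, ∑ n ∈ Finset.range x, |el c (n + 1) - el c n| ≤ 2 * ((min x 2 : ℕ) : ℝ) + 1 - el c x := by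
    intro x
    induction x with
    | zero =>
      have := el_le hc 0
      simp
      exact this
    | succ x ih =>
      rw [Finset.sum_range_succ]
      have a1 := el_nonneg hc (x + 1)
      have a2 := el_le hc (x + 1)
      have a3 := el_nonneg hc x
      have a4 := el_le hc x
      by_cases hx : x < 2
      · have e1 : (min (x + 1) 2 : ℕ) = min x 2 + 1 := by omega
        rw [e1]
        push_cast
        have : |el c (x + 1) - el c x| ≤ 2 + el c x - el c (x + 1) := by
          rw [abs_le]
          constructor <;> linarith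
        push_cast at ih
        linarith
      · have e1 : (min (x + 1) 2 : ℕ) = min x 2 := by omega
        rw [e1]
        have h2 := el_anti hc (by omega : 2 ≤ x)
        rw [abs_of_nonpos (by linarith)]
        linarith
  have h2 := h1 x
  have h3 : ((min x 2 : ℕ) : ℝ) ≤ 2 := by exact_mod_cast min_le_right x 2
  have h4 := el_nonneg hc x
  linarith

lemma el_tendsto (c : ℝ) (hc : 0 ≤ c) : Tendsto (fun n : ℕ => el c n) atTop (𝓝 0) := by
  have h1 : Tendsto (fun n : ℕ => c / Real.log (n : ℝ)) atTop (𝓝 0) :=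
    tendsto_const_nhds.div_atTop (Real.tendsto_log_atTop.comp tendsto_natCast_atTop_atTop)
  refine squeeze_zero (fun n => el_nonneg hc n) (fun n => ?_) h1
  calc el c n ≤ bb c n * 1 := mul_le_mul_of_nonneg_left (bb_le _ _) (bb_nonneg hc _)
    _ = bb c n := mul_one _
    _ ≤ c / Real.log n := min_le_right _ _

lemma rho_el (W n : ℕ) : rhoW W n * rhoW W (n + 2) =
    if Nat.Coprime n W ∧ Nat.Coprime (n + 2) W then el ((W : ℝ) / Nat.totient W) n else 0 := by
  unfold rhoW el bb
  by_cases h1 : Nat.Coprime n W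
  · by_cases h2 : Nat.Coprime (n + 2) W
    · rw [if_pos h1, if_pos h2, if_pos ⟨h1, h2⟩]
    · rw [if_neg h2, mul_zero, if_neg (fun h => h2 h.2)]
  · rw [if_neg h1, zero_mul, if_neg (fun h => h1 h.1)]

/-- the main comparison of two classes -/
lemma two_classes {T : Set ℕ} {q : ℕ} {as : List ℕ} (Q : Finset ℕ) (hQ : ∀ p ∈ Q, p.Prime) (hq0 : 0 < q)
    (hq : ∀ p, p.Prime → p ∣ q → p ∈ Q) {b b' : ℕ} (hb : adm q b) (hb' : adm q b') {ε : ℝ} (hε : 0 < ε) :
    ∃ B : ℝ, ∀ x : ℕ,
      |∑ n ∈ Finset.range x, (open Classical in if (2 ≤ n ∧ n % q = b) ∧ hist q as T (n - 2) then (1 : ℝ) else 0) *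
          rhoW (∏ p ∈ Q, p) n * rhoW (∏ p ∈ Q, p) (n + 2) -
        ∑ n ∈ Finset.range x, (open Classical in if (2 ≤ n ∧ n % q = b') ∧ hist q as T (n - 2) then (1 : ℝ) else 0) *
          rhoW (∏ p ∈ Q, p) n * rhoW (∏ p ∈ Q, p) (n + 2)| ≤ ε * num T (fun _ => True) x + B := by
  classical
  set W := ∏ p ∈ Q, p with hWdef
  have hW : 0 < W := Finset.prod_pos fun q hq => (hQ q hq).pos
  set c := (W : ℝ) / Nat.totient W with hc
  have hcpos : 0 < c := div_pos (by exact_mod_cast hW) (by exact_mod_cast Nat.totient_pos.2 hW)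
  obtain ⟨s, hs⟩ := gg_shift Q hQ q hq0 hq hb hb'
  rw [← hWdef] at hs
  set ind : ℕ → ℝ := fun n => if 2 ≤ n ∧ hist q as T (n - 2) then 1 else 0 with hind
  set u : ℕ → ℝ := fun n => ind n * el c n with hu
  set d : ℕ → ℝ := fun n => (if gg q W b n then (1 : ℝ) else 0) - (if gg q W b' n then 1 else 0) with hd
  have hD : ∀ n, |∑ m ∈ Finset.range n, d m| ≤ (s : ℝ) := by
    intro n
    have h1 := count_shift (gg q W b) (gg q W b') hs n
    have h2 : ∑ m ∈ Finset.range n, d m = (Nat.count (gg q W b) n : ℝ) - Nat.count (gg q W b') n := by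
      simp only [hd]
      rw [Finset.sum_sub_distrib, Finset.sum_boole, Finset.sum_boole, Nat.count_eq_card_filter_range,
        Nat.count_eq_card_filter_range]
    rw [h2]
    exact h1
  have hterm : ∀ b n, (if (2 ≤ n ∧ n % q = b) ∧ hist q as T (n - 2) then (1 : ℝ) else 0) * rhoW W n * rhoW W (n + 2) =
      u n * (if gg q W b n then 1 else 0) := by
    intro b n
    rw [mul_assoc, rho_el]
    simp only [hu, hind, gg, ← hc]
    by_cases h1 : 2 ≤ n <;> by_cases h2 : n % q = b <;> by_cases h3 : hist q as T (n - 2) <;>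
      by_cases h4 : Nat.Coprime n W <;> by_cases h5 : Nat.Coprime (n + 2) W <;> simp [h1, h2, h3, h4, h5]
  obtain ⟨n₀, hn₀⟩ := eventually_atTop.1 ((el_tendsto c hcpos.le).eventually_le_const
    (show (0 : ℝ) < ε / (s + 1) by positivity))
  refine ⟨s * (7 + n₀), fun x => ?_⟩
  have e1 : (∑ n ∈ Finset.range x, (if (2 ≤ n ∧ n % q = b) ∧ hist q as T (n - 2) then (1 : ℝ) else 0) * rhoW W n * rhoW W (n + 2)) -
      (∑ n ∈ Finset.range x, (if (2 ≤ n ∧ n % q = b') ∧ hist q as T (n - 2) then (1 : ℝ) else 0) * rhoW W n * rhoW W (n + 2)) =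
      ∑ n ∈ Finset.range x, u n * d n := by
    rw [← Finset.sum_sub_distrib]
    refine Finset.sum_congr rfl fun n _ => ?_
    rw [hterm, hterm]
    simp only [hd]
    ring
  have key : |∑ n ∈ Finset.range x, u n * d n| ≤ ε * num T (fun _ => True) x + s * (7 + n₀) := by
    refine (abel u d hD x).trans ?_
    have hu1 : |u x| ≤ 1 := by
      simp only [hu, hind]
      have h1 := el_nonneg hcpos.le x
      have h2 := el_le hcpos.le x
      split_ifs
      · rw [one_mul, abs_of_nonneg h1]
        exact h2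
      · simp
    have hvar : ∑ n ∈ Finset.range x, |u (n + 1) - u n| ≤ 6 + (ε / (s + 1) * num T (fun _ => True) x + n₀) := by
      have h1 : ∀ n ∈ Finset.range x, |u (n + 1) - u n| ≤ |el c (n + 1) - el c n| + |ind (n + 1) - ind n| * el c (n + 1) := by
        intro n _
        have e2 : u (n + 1) - u n = ind n * (el c (n + 1) - el c n) + (ind (n + 1) - ind n) * el c (n + 1) := by
          simp only [hu]
          ring
        rw [e2]
        refine (abs_add_le _ _).trans ?_
        rw [abs_mul, abs_mul (ind (n + 1) - ind n), abs_of_nonneg (el_nonneg hcpos.le (n + 1))]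
        refine add_le_add ?_ le_rfl
        have : |ind n| ≤ 1 := by
          simp only [hind]
          split_ifs <;> simp
        exact mul_le_of_le_one_left (abs_nonneg _) this
      have h2 : ∀ n ∈ Finset.range x, |ind (n + 1) - ind n| * el c (n + 1) ≤
          (if n = 1 then (1 : ℝ) else 0) + (if 2 ≤ n ∧ n - 2 ∈ T then el c (n + 1) else 0) := by
        intro n _
        have a1 := el_nonneg hcpos.le (n + 1)
        have a2 := el_le hcpos.le (n + 1)
        have a3 : |ind (n + 1) - ind n| ≤ 1 := by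
          simp only [hind]
          split_ifs <;> norm_num
        rcases Nat.lt_or_ge n 2 with h | h
        · interval_cases n
          · simp [hind]
          · have h3 : |ind (1 + 1) - ind 1| * el c (1 + 1) ≤ 1 := mul_le_one₀ a3 a1 a2
            have h4 : ¬ (2 ≤ 1 ∧ 1 - 2 ∈ T) := by omega
            rw [if_pos rfl, if_neg h4, add_zero]
            exact h3
        · rw [if_neg (by omega : n ≠ 1), zero_add]
          by_cases hT : n - 2 ∈ T
          · rw [if_pos ⟨h, hT⟩]
            exact mul_le_of_le_one_left a1 a3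
          · rw [if_neg (fun h3 => hT h3.2)]
            have h4 : ind (n + 1) = ind n := by
              simp only [hind]
              have h5 := hist_step (q := q) (as := as) hT
              rw [show n - 2 + 1 = n + 1 - 2 by omega] at h5
              have h6 : (2 ≤ n + 1 ∧ hist q as T (n + 1 - 2)) ↔ (2 ≤ n ∧ hist q as T (n - 2)) := by
                rw [h5]
                constructor
                · exact fun h7 => ⟨h, h7.2⟩
                · exact fun h7 => ⟨by omega, h7.2⟩
              simp only [h6]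
            rw [h4]
            simp
      have h3 : ∑ n ∈ Finset.range x, (if 2 ≤ n ∧ n - 2 ∈ T then el c (n + 1) else 0) ≤
          ε / (s + 1) * num T (fun _ => True) x + n₀ := by
        have h4 : ∑ n ∈ Finset.range x, (if 2 ≤ n ∧ n - 2 ∈ T then el c (n + 1) else 0) ≤
            ∑ t ∈ Finset.range x, (if t ∈ T then el c (t + 3) else 0) := by
          have h5 : ∑ n ∈ Finset.range (x + 2), (if 2 ≤ n ∧ n - 2 ∈ T then el c (n + 1) else 0) =
              ∑ t ∈ Finset.range x, (if t ∈ T then el c (t + 3) else 0) := by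
            rw [Finset.sum_range_succ', Finset.sum_range_succ']
            simp
          rw [← h5]
          refine Finset.sum_le_sum_of_subset_of_nonneg (Finset.range_mono (by omega)) fun n _ _ => ?_
          split_ifs
          · exact el_nonneg hcpos.le _
          · exact le_rfl
        refine h4.trans ?_
        have h6 : ∀ t ∈ Finset.range x, (if t ∈ T then el c (t + 3) else 0) ≤
            ε / (s + 1) * (if t ∈ T then (1 : ℝ) else 0) + (if t < n₀ then (1 : ℝ) else 0) := by
          intro t _
          have a2 := el_le hcpos.le (t + 3)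
          by_cases h7 : t ∈ T
          · rw [if_pos h7, if_pos h7, mul_one]
            by_cases h8 : t < n₀
            · rw [if_pos h8]
              have : 0 ≤ ε / ((s : ℝ) + 1) := by positivity
              linarith
            · rw [if_neg h8, add_zero]
              exact hn₀ (t + 3) (by omega)
          · rw [if_neg h7, if_neg h7, mul_zero, zero_add]
            split_ifs <;> norm_num
        refine (Finset.sum_le_sum h6).trans ?_
        rw [Finset.sum_add_distrib, ← Finset.mul_sum, Finset.sum_boole, Finset.sum_boole]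
        have h9 : ((Finset.range x).filter fun t => t ∈ T).card = num T (fun _ => True) x := by
          unfold num
          rw [← Set.ncard_coe_finset]
          congr 1
          ext t
          simp
        rw [h9]
        refine add_le_add le_rfl ?_
        have h10 : ((Finset.range x).filter fun t => t < n₀).card ≤ n₀ := by
          calc _ ≤ (Finset.range n₀).card := Finset.card_le_card fun k hk => by
                have := (Finset.mem_filter.1 hk).2
                exact Finset.mem_range.2 this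
            _ = n₀ := Finset.card_range _
        exact_mod_cast h10
      have h4 : ∑ n ∈ Finset.range x, (if n = 1 then (1 : ℝ) else 0) ≤ 1 := by
        rw [Finset.sum_ite_eq']
        split_ifs <;> norm_num
      calc _ ≤ ∑ n ∈ Finset.range x, (|el c (n + 1) - el c n| + |ind (n + 1) - ind n| * el c (n + 1)) := Finset.sum_le_sum h1
        _ = ∑ n ∈ Finset.range x, |el c (n + 1) - el c n| + ∑ n ∈ Finset.range x, |ind (n + 1) - ind n| * el c (n + 1) :=
            Finset.sum_add_distrib
        _ ≤ 5 + ∑ n ∈ Finset.range x, ((if n = 1 then (1 : ℝ) else 0) + (if 2 ≤ n ∧ n - 2 ∈ T then el c (n + 1) else 0)) :=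
            add_le_add (el_var hcpos.le x) (Finset.sum_le_sum h2)
        _ ≤ _ := by
            rw [Finset.sum_add_distrib]
            linarith
    have hN : (0 : ℝ) ≤ num T (fun _ => True) x := Nat.cast_nonneg _
    have hs0 : (0 : ℝ) ≤ s := Nat.cast_nonneg _
    have h5 : (s : ℝ) * (ε / (s + 1) * num T (fun _ => True) x) ≤ ε * num T (fun _ => True) x := by
      rw [← mul_assoc]
      refine mul_le_mul_of_nonneg_right ?_ hN
      rw [← mul_div_assoc, div_le_iff₀ (by positivity)]
      nlinarith
    calc (s : ℝ) * (|u x| + ∑ n ∈ Finset.range x, |u (n + 1) - u n|)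
        ≤ s * (1 + (6 + (ε / (s + 1) * num T (fun _ => True) x + n₀))) :=
          mul_le_mul_of_nonneg_left (add_le_add hu1 hvar) hs0
      _ = s * (ε / (s + 1) * num T (fun _ => True) x) + s * (7 + n₀) := by ring
      _ ≤ _ := add_le_add h5 le_rfl
  rw [← e1] at key
  exact key

end Pool.Agent.R960.Fam
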