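import Mathlib
import Pool.Agent.R960.Fam.Siev

set_option autoImplicit false
set_option linter.unusedSectionVars false

/-! # Tuples in short intervals in the sieved models -/

open MeasureTheory Filter Set
open scoped ENNReal Topology

namespace Pool.Agent.R960.Fam

open Pool.Agent.R528.RM

variable {Ω : Type} {m0 : MeasurableSpace Ω} {μ : Measure Ω} [IsProbabilityMeasure μ]
  {ℱ : Filtration ℕ m0} {A : ℕ → Set Ω}

/-- number of `m` in `(y, y + h]` with `m + s ∈ S` for all `s ∈ H` -/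
noncomputable def cntI (S : Set ℕ) (H : Finset ℕ) (y h : ℕ) : ℕ := {m | (y < m ∧ m ≤ y + h) ∧ ∀ s ∈ H, m + s ∈ S}.ncard

/-- the edge of `m` -/
noncomputable def sh (H : Finset ℕ) (m : ℕ) : Finset ℕ := H.image (m + ·)

lemma sh_card (H : Finset ℕ) (m : ℕ) : (sh H m).card = H.card :=
  Finset.card_image_of_injective _ (add_right_injective m)

lemma cntI_full (S : Set ℕ) (H : Finset ℕ) (y h : ℕ) : cntI S H y h = full S (Finset.Ioc y (y + h)) (sh H) := by
  unfold cntI full sh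
  congr 1
  ext m
  simp [Finset.mem_Ioc]

lemma gd_interval (Q : Finset ℕ) (hQ : ∀ p ∈ Q, p.Prime) (H : Finset ℕ) (y h : ℕ) :
    |(gd (∏ p ∈ Q, p) (Finset.Ioc y (y + h)) (sh H) : ℝ) -
      h * ((Nat.count (good (PH H) (∏ p ∈ Q, p)) (∏ p ∈ Q, p) : ℝ) / ((∏ p ∈ Q, p : ℕ) : ℝ))| ≤ 2 * (∏ p ∈ Q, p : ℕ) := by
  classical
  set W := ∏ p ∈ Q, p with hWdef
  have hW : 0 < W := Finset.prod_pos fun q hq => (hQ q hq).pos
  have h1 := count_periodic (good (PH H) W) W hW (good_periodic (PH H) W) (y + h + 1)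
  have h2 := count_periodic (good (PH H) W) W hW (good_periodic (PH H) W) (y + 1)
  have h3 : (gd W (Finset.Ioc y (y + h)) (sh H) : ℝ) = (Nat.count (good (PH H) W) (y + h + 1) : ℝ) - Nat.count (good (PH H) W) (y + 1) := by
    have h4 : gd W (Finset.Ioc y (y + h)) (sh H) + Nat.count (good (PH H) W) (y + 1) = Nat.count (good (PH H) W) (y + h + 1) := by
      unfold gd
      rw [full_eq, Nat.count_eq_card_filter_range, Nat.count_eq_card_filter_range, ← Finset.card_union_of_disjoint]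
      · congr 1
        ext m
        simp only [Finset.mem_union, Finset.mem_filter, Finset.mem_Ioc, Finset.mem_range, good_PH, sh, Finset.mem_image,
          forall_exists_index, and_imp, forall_apply_eq_imp_iff₂, Set.mem_ofPred_eq]
        constructor
        · rintro (⟨⟨h5, h6⟩, h7⟩ | ⟨h5, h6⟩)
          · exact ⟨by omega, h7⟩
          · exact ⟨by omega, h6⟩
        · rintro ⟨h5, h6⟩
          by_cases h7 : y < m
          · exact Or.inl ⟨⟨h7, by omega⟩, h6⟩
          · exact Or.inr ⟨by omega, h6⟩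
      · rw [Finset.disjoint_left]
        intro m hm hm'
        have h5 := (Finset.mem_Ioc.1 (Finset.mem_filter.1 hm).1).1
        have h6 := Finset.mem_range.1 (Finset.mem_filter.1 hm').1
        omega
    rw [← h4]
    push_cast
    ring
  rw [h3]
  have e1 := abs_le.1 h1
  have e2 := abs_le.1 h2
  push_cast at e1 e2
  rw [abs_le]
  constructor <;> nlinarith [e1.1, e1.2, e2.1, e2.2]

theorem int_law (hA : ∀ n, MeasurableSet[ℱ n] (A n)) (Q : Finset ℕ) (hQ : ∀ p ∈ Q, p.Prime)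
    (hcop : ∀ n, (∃ p ∈ Q, p ∣ n) → A n = ∅)
    (hd : ∀ᵐ ω ∂μ, Tendsto (fun n : ℕ => dens μ ℱ A n ω * Real.log n)
      (atTop ⊓ 𝓟 {n : ℕ | ∀ p ∈ Q, ¬ p ∣ n + 1}) (𝓝 (∏ p ∈ Q, (1 - 1 / (p : ℝ))⁻¹))) :
    ∀ᵐ ω ∂μ, ∀ H : Finset ℕ, ∀ ε : ℝ, 0 < ε → ∀ᶠ y : ℕ in atTop, ∀ h : ℕ, h ≤ y →
      Real.log y ^ (2 * H.card + 2) ≤ h →
        |(cntI {m | ω ∈ A m} H y h : ℝ) * Real.log y ^ H.card / h - singH Q H| ≤ ε := by
  classical
  rw [ae_all_iff]
  intro H
  set k := H.card with hk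
  set W := ∏ p ∈ Q, p with hWdef
  have hW : 0 < W := Finset.prod_pos fun q hq => (hQ q hq).pos
  set c := (W : ℝ) / Nat.totient W with hc
  have hcpos : 0 < c := div_pos (by exact_mod_cast hW) (by exact_mod_cast Nat.totient_pos.2 hW)
  set Φ : ℕ → Finset (ℕ × ℕ) := fun x => {x} ×ˢ ((Finset.range (x + 1)).filter fun h : ℕ => Real.log x ^ (2 * k + 2) ≤ h) with hΦ
  set I : ℕ × ℕ → Finset ℕ := fun a => Finset.Ioc a.1 (a.1 + a.2) with hI
  set V : ℕ × ℕ → ℕ → Finset ℕ := fun _ m => sh H m with hV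
  set ℓ : ℕ × ℕ → ℝ := fun a => Real.log a.1 with hℓ
  obtain ⟨B, hB⟩ : ∃ B : ℕ, ∀ s ∈ H, s ≤ B := ⟨H.sup id, fun s hs => Finset.le_sup (f := id) hs⟩
  have hmem : ∀ x, ∀ a ∈ Φ x, a.1 = x ∧ a.2 ≤ x ∧ Real.log x ^ (2 * k + 2) ≤ (a.2 : ℝ) := by
    intro x a ha
    obtain ⟨h1, h2⟩ := Finset.mem_product.1 ha
    obtain ⟨h3, h4⟩ := Finset.mem_filter.1 h2
    refine ⟨Finset.mem_singleton.1 h1, ?_, h4⟩
    have := Finset.mem_range.1 h3
    omega
  have c1 : ∀ᶠ x : ℕ in atTop, (Φ x).card ≤ x ^ 2 := by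
    filter_upwards [eventually_ge_atTop 2] with x hx
    have h1 : (Φ x).card ≤ x + 1 := by
      simp only [hΦ, Finset.card_product, Finset.card_singleton, one_mul]
      refine (Finset.card_filter_le _ _).trans ?_
      rw [Finset.card_range]
    nlinarith
  have c2 : ∀ᶠ x : ℕ in atTop, ∀ a ∈ Φ x, ∀ i ∈ I a, (V a i).card = k ∧ ∀ m ∈ V a i, x ≤ m := by
    filter_upwards with x a ha i hi
    refine ⟨sh_card H i, fun m hm => ?_⟩
    obtain ⟨s, _, rfl⟩ := Finset.mem_image.1 hm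
    have h1 := (Finset.mem_Ioc.1 hi).1
    have h2 := (hmem x a ha).1
    show x ≤ i + s
    omega
  have c3 : ∀ᶠ x : ℕ in atTop, ∀ a ∈ Φ x, ∀ m, {i | i ∈ I a ∧ m ∈ V a i}.ncard ≤ k + 1 := by
    filter_upwards with x a _ m
    have h1 : {i | i ∈ I a ∧ m ∈ V a i} ⊆ ((H.image fun s => m - s : Finset ℕ) : Set ℕ) := by
      rintro i ⟨_, h2⟩
      obtain ⟨s, hs, h3⟩ := Finset.mem_image.1 h2
      rw [Finset.mem_coe, Finset.mem_image]
      have h3' : i + s = m := h3
      exact ⟨s, hs, by omega⟩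
    refine (Set.ncard_le_ncard h1 (Finset.finite_toSet _)).trans ?_
    rw [Set.ncard_coe_finset]
    exact Finset.card_image_le.trans (by omega)
  have c4 : ∀ η : ℝ, 0 < η → ∀ᶠ x : ℕ in atTop, ∀ a ∈ Φ x, ∀ i ∈ I a, ∀ m ∈ V a i, |Real.log m - ℓ a| ≤ η * ℓ a := by
    intro η hη
    have h1 : ∀ᶠ x : ℕ in atTop, Real.log 3 / η ≤ Real.log x :=
      (Real.tendsto_log_atTop.comp tendsto_natCast_atTop_atTop).eventually_ge_atTop _
    filter_upwards [h1, eventually_ge_atTop (B + 1)] with x hx1 hx2 a ha i hi m hm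
    obtain ⟨s, hs, h3⟩ := Finset.mem_image.1 hm
    obtain ⟨h4, h5⟩ := Finset.mem_Ioc.1 hi
    obtain ⟨h6, h7, _⟩ := hmem x a ha
    have h8 := hB s hs
    have h3' : i + s = m := h3
    have h9 : x ≤ m := by omega
    have h10 : m ≤ 3 * x := by omega
    have hx0 : (0 : ℝ) < x := by exact_mod_cast (by omega : 0 < x)
    have h11 : Real.log x ≤ Real.log m := Real.log_le_log hx0 (by exact_mod_cast h9)
    have h12 : Real.log m ≤ Real.log 3 + Real.log x := by
      rw [← Real.log_mul (by norm_num) hx0.ne']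
      exact Real.log_le_log (by linarith [show (x : ℝ) ≤ m by exact_mod_cast h9]) (by exact_mod_cast h10)
    simp only [hℓ]
    rw [h6]
    rw [div_le_iff₀ hη] at hx1
    rw [abs_of_nonneg (by linarith)]
    linarith
  have c5 : ∀ K : ℝ, ∀ᶠ x : ℕ in atTop, ∀ a ∈ Φ x, K ≤ ℓ a := by
    intro K
    filter_upwards [(Real.tendsto_log_atTop.comp tendsto_natCast_atTop_atTop).eventually_ge_atTop K] with x hx a ha
    simp only [hℓ]
    rw [(hmem x a ha).1]
    exact hx
  have c6 : ∀ K : ℝ, 0 < K → ∀ᶠ x : ℕ in atTop, ∀ a ∈ Φ x, K * (ℓ a ^ (2 * k) * Real.log x) ≤ (I a).card := by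
    intro K _
    filter_upwards [(Real.tendsto_log_atTop.comp tendsto_natCast_atTop_atTop).eventually_ge_atTop K,
      eventually_ge_atTop 1] with x hx hx1 a ha
    obtain ⟨h6, h7, h8⟩ := hmem x a ha
    simp only [hI, hℓ, Nat.card_Ioc, add_tsub_cancel_left]
    rw [h6]
    have h9 : 0 ≤ Real.log (x : ℝ) := Real.log_natCast_nonneg x
    have hx' : K ≤ Real.log (x : ℝ) := hx
    refine le_trans ?_ h8
    calc K * (Real.log x ^ (2 * k) * Real.log x) ≤ Real.log x * (Real.log x ^ (2 * k) * Real.log x) :=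
          mul_le_mul_of_nonneg_right hx' (by positivity)
      _ = Real.log x ^ (2 * k + 2) := by ring
  have main := siev_fam (μ := μ) hA Q hQ hcop hd k (k + 1) 2 (by omega) Φ c1 I V ℓ id tendsto_id c2 c3 c4 c5 c6
  filter_upwards [main] with ω hω ε hε
  have t1 : ∀ᶠ x : ℕ in atTop, c ^ k * (2 * W) * 2 / ε ≤ Real.log x :=
    (Real.tendsto_log_atTop.comp tendsto_natCast_atTop_atTop).eventually_ge_atTop _
  have t2 : ∀ᶠ x : ℕ in atTop, (1 : ℝ) ≤ Real.log x :=
    (Real.tendsto_log_atTop.comp tendsto_natCast_atTop_atTop).eventually_ge_atTop _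
  filter_upwards [hω (ε / 2) (by positivity), t1, t2] with y hy hy1 hy2 h hh1 hh2
  have ha : (y, h) ∈ Φ y := by
    simp only [hΦ, Finset.mem_product, Finset.mem_singleton, Finset.mem_filter, Finset.mem_range, true_and]
    exact ⟨by omega, hh2⟩
  have h1 := hy (y, h) ha
  have hhl : Real.log y ≤ h := by
    refine le_trans ?_ hh2
    exact le_self_pow₀ hy2 (by omega)
  have hh0 : (0 : ℝ) < h := by linarith
  have e1 : ((I (y, h)).card : ℝ) = h := by
    simp only [hI, Nat.card_Ioc, add_tsub_cancel_left]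
  rw [← hWdef] at h1
  have e2 : full {m | ω ∈ A m} (I (y, h)) (V (y, h)) = cntI {m | ω ∈ A m} H y h := (cntI_full _ H y h).symm
  rw [e1, e2] at h1
  have h2 := gd_interval Q hQ H y h
  rw [← hWdef] at h2
  have e3 : singH Q H = (Nat.count (good (PH H) W) W : ℝ) / W * c ^ k := (singH_eq Q hQ H).symm
  set d := (Nat.count (good (PH H) W) W : ℝ) / W with hd'
  have h3 : |c ^ k * ((gd W (I (y, h)) (V (y, h)) : ℝ) / h) - singH Q H| ≤ ε / 2 := by
    have e4 : c ^ k * ((gd W (I (y, h)) (V (y, h)) : ℝ) / h) - singH Q H =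
        c ^ k * (((gd W (I (y, h)) (V (y, h)) : ℝ) - h * d) / h) := by
      rw [e3]
      field_simp
    rw [e4, abs_mul, abs_of_pos (pow_pos hcpos k), abs_div, abs_of_pos hh0]
    have h4 : |(gd W (I (y, h)) (V (y, h)) : ℝ) - h * d| / h ≤ 2 * W / h := div_le_div_of_nonneg_right h2 hh0.le
    have h5 : c ^ k * (2 * W) * 2 / ε ≤ h := hy1.trans hhl
    calc c ^ k * (|(gd W (I (y, h)) (V (y, h)) : ℝ) - h * d| / h) ≤ c ^ k * (2 * W / h) :=
          mul_le_mul_of_nonneg_left h4 (pow_pos hcpos k).le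
      _ ≤ ε / 2 := by
          rw [← mul_div_assoc, div_le_iff₀ hh0]
          rw [div_le_iff₀ hε] at h5
          linarith
  have h6 := abs_le.1 h1
  have h7 := abs_le.1 h3
  rw [abs_le]
  constructor <;> linarith [h6.1, h6.2, h7.1, h7.2]

end Pool.Agent.R960.Fam
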