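import Mathlib
import Pool.Agent.R960.Fam.Int

set_option autoImplicit false
set_option linter.unusedSectionVars false

/-! # Tuples between consecutive powers -/

open MeasureTheory Filter Set
open scoped ENNReal Topology

namespace Pool.Agent.R960.Fam

open Pool.Agent.R528.RM

/-- the interval law for the pattern `H` -/
def Law (S : Set ℕ) (Q H : Finset ℕ) : Prop :=
  ∀ ε : ℝ, 0 < ε → ∀ᶠ y : ℕ in atTop, ∀ h : ℕ, h ≤ y → Real.log y ^ (2 * H.card + 2) ≤ h →
    |(cntI S H y h : ℝ) * Real.log y ^ H.card / h - singH Q H| ≤ ε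

lemma tendsto_nlog : Tendsto (fun n : ℕ => Real.log n) atTop atTop :=
  Real.tendsto_log_atTop.comp tendsto_natCast_atTop_atTop

/-- a power of the logarithm is smaller than a linear function -/
lemma log_pow_le (j : ℕ) {δ : ℝ} (hδ : 0 < δ) : ∀ᶠ n : ℕ in atTop, Real.log n ^ j ≤ δ * n := by
  have h1 : Tendsto (fun x : ℝ => Real.log x ^ (j : ℝ) / x ^ (1 : ℝ)) atTop (𝓝 0) :=
    (isLittleO_log_rpow_rpow_atTop (j : ℝ) one_pos).tendsto_div_nhds_zero
  have h2 := (h1.comp tendsto_natCast_atTop_atTop).eventually_le_const hδ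
  filter_upwards [h2, eventually_gt_atTop 0] with n hn hn0
  have hn' : (0 : ℝ) < n := by exact_mod_cast hn0
  simp only [Function.comp_apply, Real.rpow_natCast, Real.rpow_one] at hn
  rwa [div_le_iff₀ hn'] at hn

lemma pow_lim {S : Set ℕ} {Q H : Finset ℕ} (hL : Law S Q H) {e : ℕ} (he : 2 ≤ e) {g : ℕ → ℕ} {L : ℝ} (hLp : 0 < L)
    (hg : Tendsto (fun n : ℕ => (g n : ℝ) / (n : ℝ) ^ (e - 1)) atTop (𝓝 L)) :
    Tendsto (fun n : ℕ => (cntI S H (n ^ e) (g n) : ℝ) * Real.log n ^ H.card / (n : ℝ) ^ (e - 1)) atTop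
      (𝓝 (singH Q H * L / (e : ℝ) ^ H.card)) := by
  set k := H.card with hk
  have he0 : (0 : ℝ) < e := by exact_mod_cast (by omega : 0 < e)
  have hpow : Tendsto (fun n : ℕ => n ^ e) atTop atTop := tendsto_pow_atTop (by omega)
  have h1 : Tendsto (fun n : ℕ => (cntI S H (n ^ e) (g n) : ℝ) * Real.log ((n ^ e : ℕ) : ℝ) ^ k / g n) atTop (𝓝 (singH Q H)) := by
    rw [Metric.tendsto_nhds]
    intro ε hε
    have h2 := hpow.eventually (hL (ε / 2) (by positivity))
    have h3 : ∀ᶠ n : ℕ in atTop, (g n : ℝ) / (n : ℝ) ^ (e - 1) ≤ L + 1 := hg.eventually_le_const (by linarith)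
    have h4 : ∀ᶠ n : ℕ in atTop, L / 2 ≤ (g n : ℝ) / (n : ℝ) ^ (e - 1) := hg.eventually_const_le (by linarith)
    have h5 : ∀ᶠ n : ℕ in atTop, L + 1 ≤ (n : ℝ) := tendsto_natCast_atTop_atTop.eventually_ge_atTop _
    have h6 := log_pow_le (2 * k + 2) (show 0 < L / 2 / (e : ℝ) ^ (2 * k + 2) by positivity)
    filter_upwards [h2, h3, h4, h5, h6, eventually_ge_atTop 1] with n n2 n3 n4 n5 n6 n7
    have hn0 : (0 : ℝ) < n := by exact_mod_cast (by omega : 0 < n)
    have hn1 : (1 : ℝ) ≤ n := by exact_mod_cast n7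
    have hp : (0 : ℝ) < (n : ℝ) ^ (e - 1) := by positivity
    rw [div_le_iff₀ hp] at n3
    rw [le_div_iff₀ hp] at n4
    have e1 : (n : ℝ) ^ e = (n : ℝ) ^ (e - 1) * n := by
      rw [← pow_succ]
      congr 1
      omega
    have g1 : g n ≤ n ^ e := by
      have : (g n : ℝ) ≤ ((n ^ e : ℕ) : ℝ) := by
        push_cast
        rw [e1]
        calc (g n : ℝ) ≤ (L + 1) * (n : ℝ) ^ (e - 1) := n3
          _ ≤ n * (n : ℝ) ^ (e - 1) := mul_le_mul_of_nonneg_right n5 hp.le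
          _ = _ := mul_comm _ _
      exact_mod_cast this
    have g2 : Real.log ((n ^ e : ℕ) : ℝ) ^ (2 * k + 2) ≤ g n := by
      push_cast
      rw [Real.log_pow, mul_pow]
      calc (e : ℝ) ^ (2 * k + 2) * Real.log n ^ (2 * k + 2) ≤ (e : ℝ) ^ (2 * k + 2) * (L / 2 / (e : ℝ) ^ (2 * k + 2) * n) :=
            mul_le_mul_of_nonneg_left n6 (by positivity)
        _ = L / 2 * n := by field_simp
        _ ≤ L / 2 * (n : ℝ) ^ (e - 1) := mul_le_mul_of_nonneg_left (le_self_pow₀ hn1 (by omega)) (by positivity)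
        _ ≤ g n := n4
    have h7 := n2 (g n) g1 g2
    rw [Real.dist_eq]
    exact lt_of_le_of_lt h7 (by linarith)
  have h2 := (h1.mul hg).div_const ((e : ℝ) ^ k)
  refine h2.congr' ?_
  filter_upwards [eventually_ge_atTop 1, hg.eventually_const_lt (show 0 < L from hLp)] with n hn hn2
  have hn0 : (0 : ℝ) < n := by exact_mod_cast (by omega : 0 < n)
  have hp : (0 : ℝ) < (n : ℝ) ^ (e - 1) := by positivity
  have hg0 : (0 : ℝ) < g n := by
    by_contra hcon
    push Not at hcon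
    have : (g n : ℝ) / (n : ℝ) ^ (e - 1) ≤ 0 := div_nonpos_of_nonpos_of_nonneg hcon hp.le
    linarith
  push_cast
  rw [Real.log_pow, mul_pow]
  field_simp

end Pool.Agent.R960.Fam
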