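import Mathlib
import Pool.Agent.R960.Fam.Pow

set_option autoImplicit false
set_option linter.unusedSectionVars false

/-! # The length of the intervals between consecutive powers -/

open MeasureTheory Filter Set
open scoped ENNReal Topology

namespace Pool.Agent.R960.Fam

open Pool.Agent.R528.RM

lemma pow_gap (e : ℕ) : Tendsto (fun n : ℕ => (((n : ℝ) + 1) ^ e - (n : ℝ) ^ e) / (n : ℝ) ^ (e - 1)) atTop (𝓝 (e : ℝ)) := by
  have h1 : HasDerivAt (fun x : ℝ => x ^ e) ((e : ℝ) * 1 ^ (e - 1)) 1 := hasDerivAt_pow e 1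
  rw [one_pow, mul_one] at h1
  have h2 := h1.tendsto_slope_zero
  have h3 : Tendsto (fun n : ℕ => 1 / (n : ℝ)) atTop (𝓝[≠] 0) := by
    rw [tendsto_nhdsWithin_iff]
    refine ⟨tendsto_one_div_atTop_nhds_zero_nat, ?_⟩
    filter_upwards [eventually_gt_atTop 0] with n hn
    have : (n : ℝ) ≠ 0 := by exact_mod_cast hn.ne'
    simp [this]
  refine (h2.comp h3).congr' ?_
  filter_upwards [eventually_gt_atTop 0] with n hn
  have hn0 : (0 : ℝ) < n := by exact_mod_cast hn
  simp only [Function.comp_apply, smul_eq_mul, one_div, inv_inv, one_pow]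
  rcases Nat.eq_zero_or_pos e with he | he
  · subst he
    simp
  · have e1 : (n : ℝ) ^ e = (n : ℝ) ^ (e - 1) * n := by
      rw [← pow_succ]
      congr 1
      omega
    have e2 : ((n : ℝ) + 1) ^ e = (1 + (n : ℝ)⁻¹) ^ e * (n : ℝ) ^ e := by
      rw [← mul_pow]
      congr 1
      field_simp
    rw [e2, e1]
    field_simp

lemma gap_lim {e : ℕ} (he : 2 ≤ e) (c : ℕ) :
    Tendsto (fun n : ℕ => (((n + 1) ^ e - c - n ^ e : ℕ) : ℝ) / (n : ℝ) ^ (e - 1)) atTop (𝓝 (e : ℝ)) := by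
  have h1 := pow_gap e
  have h2 : Tendsto (fun n : ℕ => (c : ℝ) / (n : ℝ) ^ (e - 1)) atTop (𝓝 0) := by
    have h3 : Tendsto (fun n : ℕ => (n : ℝ) ^ (e - 1)) atTop atTop :=
      (tendsto_pow_atTop (by omega)).comp tendsto_natCast_atTop_atTop
    exact h3.const_div_atTop (c : ℝ)
  have h3 := h1.sub h2
  rw [sub_zero] at h3
  refine h3.congr' ?_
  have h4 : ∀ᶠ n : ℕ in atTop, (0 : ℝ) < (((n : ℝ) + 1) ^ e - (n : ℝ) ^ e) / (n : ℝ) ^ (e - 1) - (c : ℝ) / (n : ℝ) ^ (e - 1) :=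
    h3.eventually_const_lt (by exact_mod_cast (by omega : 0 < e))
  filter_upwards [h4, eventually_gt_atTop 0] with n hn hn1
  have hn0 : (0 : ℝ) < n := by exact_mod_cast hn1
  rw [← sub_div] at hn
  have h5 : (0 : ℝ) < ((n : ℝ) + 1) ^ e - (n : ℝ) ^ e - c := by
    by_contra hcon
    push Not at hcon
    have := div_nonpos_of_nonpos_of_nonneg hcon (show (0 : ℝ) ≤ (n : ℝ) ^ (e - 1) by positivity)
    linarith
  have h6 : n ^ e + c ≤ (n + 1) ^ e := by
    have : ((n ^ e + c : ℕ) : ℝ) ≤ (((n + 1) ^ e : ℕ) : ℝ) := by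
      push_cast
      linarith
    exact_mod_cast this
  rw [← sub_div]
  congr 1
  rw [Nat.cast_sub (by omega), Nat.cast_sub (by omega)]
  push_cast
  ring

/-- numbers of tuples between consecutive powers -/
lemma between_lim {S : Set ℕ} {Q H : Finset ℕ} (hL : Law S Q H) {e : ℕ} (he : 2 ≤ e) (c : ℕ) :
    Tendsto (fun n : ℕ => (cntI S H (n ^ e) ((n + 1) ^ e - c - n ^ e) : ℝ) * Real.log n ^ H.card / (n : ℝ) ^ (e - 1)) atTop
      (𝓝 (singH Q H * e / (e : ℝ) ^ H.card)) :=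
  pow_lim hL he (by exact_mod_cast (by omega : 0 < e)) (gap_lim he c)

lemma tendsto_of_lim {f : ℕ → ℕ} {k j : ℕ} (hj : 1 ≤ j) {L : ℝ} (hL : 0 < L)
    (h : Tendsto (fun n : ℕ => (f n : ℝ) * Real.log n ^ k / (n : ℝ) ^ j) atTop (𝓝 L)) : Tendsto f atTop atTop := by
  have h3 : Tendsto (fun n : ℕ => (n : ℝ) ^ j / Real.log n ^ k) atTop atTop := by
    rw [tendsto_atTop]
    intro K
    have h4 := log_pow_le k (show (0 : ℝ) < 1 / (|K| + 1) by positivity)
    filter_upwards [h4, eventually_gt_atTop 1] with n hn hn1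
    have hn' : (1 : ℝ) < n := by exact_mod_cast hn1
    have hl : 0 < Real.log (n : ℝ) := Real.log_pos hn'
    rw [le_div_iff₀ (by positivity)]
    have h5 : (|K| + 1) * Real.log n ^ k ≤ n := by
      have := mul_le_mul_of_nonneg_left hn (show (0 : ℝ) ≤ |K| + 1 by positivity)
      rwa [← mul_assoc, mul_one_div_cancel (by positivity), one_mul] at this
    have h6 : K * Real.log n ^ k ≤ (|K| + 1) * Real.log n ^ k :=
      mul_le_mul_of_nonneg_right (by linarith [le_abs_self K]) (by positivity)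
    have h7 : (n : ℝ) ≤ (n : ℝ) ^ j := le_self_pow₀ hn'.le (by omega)
    linarith
  have h5 := h.pos_mul_atTop hL h3
  have h6 : Tendsto (fun n : ℕ => (f n : ℝ)) atTop atTop := by
    refine h5.congr' ?_
    filter_upwards [eventually_gt_atTop 1] with n hn1
    have hn' : (1 : ℝ) < n := by exact_mod_cast hn1
    have hl : 0 < Real.log (n : ℝ) := Real.log_pos hn'
    field_simp
  exact tendsto_natCast_atTop_iff.1 h6

end Pool.Agent.R960.Fam
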