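import Mathlib
import Pool.Agent.R960.Fam.Pow2

set_option autoImplicit false
set_option linter.unusedSectionVars false

/-! # Exact patterns, and a general form of the interval law -/

open MeasureTheory Filter Set
open scoped ENNReal Topology

namespace Pool.Agent.R960.Fam

open Pool.Agent.R528.RM

/-- `f y h` is `(σ + o(1)) h / (log y)^k`, uniformly in `(log y)^j ≤ h ≤ y` -/
def LawF (f : ℕ → ℕ → ℕ) (k j : ℕ) (σ : ℝ) : Prop :=
  ∀ ε : ℝ, 0 < ε → ∀ᶠ y : ℕ in atTop, ∀ h : ℕ, h ≤ y → Real.log y ^ j ≤ h →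
    |(f y h : ℝ) * Real.log y ^ k / h - σ| ≤ ε

lemma powF_lim {f : ℕ → ℕ → ℕ} {k j : ℕ} {σ : ℝ} (hL : LawF f k j σ) {e : ℕ} (he : 2 ≤ e) {g : ℕ → ℕ} {L : ℝ} (hLp : 0 < L)
    (hg : Tendsto (fun n : ℕ => (g n : ℝ) / (n : ℝ) ^ (e - 1)) atTop (𝓝 L)) :
    Tendsto (fun n : ℕ => (f (n ^ e) (g n) : ℝ) * Real.log n ^ k / (n : ℝ) ^ (e - 1)) atTop
      (𝓝 (σ * L / (e : ℝ) ^ k)) := by
  have he0 : (0 : ℝ) < e := by exact_mod_cast (by omega : 0 < e)
  have hpow : Tendsto (fun n : ℕ => n ^ e) atTop atTop := tendsto_pow_atTop (by omega)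
  have h1 : Tendsto (fun n : ℕ => (f (n ^ e) (g n) : ℝ) * Real.log ((n ^ e : ℕ) : ℝ) ^ k / g n) atTop (𝓝 σ) := by
    rw [Metric.tendsto_nhds]
    intro ε hε
    have h2 := hpow.eventually (hL (ε / 2) (by positivity))
    have h3 : ∀ᶠ n : ℕ in atTop, (g n : ℝ) / (n : ℝ) ^ (e - 1) ≤ L + 1 := hg.eventually_le_const (by linarith)
    have h4 : ∀ᶠ n : ℕ in atTop, L / 2 ≤ (g n : ℝ) / (n : ℝ) ^ (e - 1) := hg.eventually_const_le (by linarith)
    have h5 : ∀ᶠ n : ℕ in atTop, L + 1 ≤ (n : ℝ) := tendsto_natCast_atTop_atTop.eventually_ge_atTop _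
    have h6 := log_pow_le j (show 0 < L / 2 / (e : ℝ) ^ j by positivity)
    filter_upwards [h2, h3, h4, h5, h6, eventually_ge_atTop 1] with n n2 n3 n4 n5 n6 n7
    have hn0 : (0 : ℝ) < n := by exact_mod_cast (by omega : 0 < n)
    have hn1 : (1 : ℝ) ≤ n := by exact_mod_cast n7
    have hp : (0 : ℝ) < (n : ℝ) ^ (e - 1) := by positivity
    rw [div_le_iff₀ hp] at n3
    rw [le_div_iff₀ hp] at n4
    have e1 : (n : ℝ) ^ e = (n : ℝ) ^ (e - 1) * n := by
      rw [← pow_succ]
      congr 1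
      omega
    have g1 : g n ≤ n ^ e := by
      have : (g n : ℝ) ≤ ((n ^ e : ℕ) : ℝ) := by
        push_cast
        rw [e1]
        calc (g n : ℝ) ≤ (L + 1) * (n : ℝ) ^ (e - 1) := n3
          _ ≤ n * (n : ℝ) ^ (e - 1) := mul_le_mul_of_nonneg_right n5 hp.le
          _ = _ := mul_comm _ _
      exact_mod_cast this
    have g2 : Real.log ((n ^ e : ℕ) : ℝ) ^ j ≤ g n := by
      push_cast
      rw [Real.log_pow, mul_pow]
      calc (e : ℝ) ^ j * Real.log n ^ j ≤ (e : ℝ) ^ j * (L / 2 / (e : ℝ) ^ j * n) :=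
            mul_le_mul_of_nonneg_left n6 (by positivity)
        _ = L / 2 * n := by field_simp
        _ ≤ L / 2 * (n : ℝ) ^ (e - 1) := mul_le_mul_of_nonneg_left (le_self_pow₀ hn1 (by omega)) (by positivity)
        _ ≤ g n := n4
    have h7 := n2 (g n) g1 g2
    rw [Real.dist_eq]
    exact lt_of_le_of_lt h7 (by linarith)
  have h2 := (h1.mul hg).div_const ((e : ℝ) ^ k)
  refine h2.congr' ?_
  filter_upwards [eventually_ge_atTop 1, hg.eventually_const_lt (show 0 < L from hLp)] with n hn hn2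
  have hn0 : (0 : ℝ) < n := by exact_mod_cast (by omega : 0 < n)
  have hp : (0 : ℝ) < (n : ℝ) ^ (e - 1) := by positivity
  have hg0 : (0 : ℝ) < g n := by
    by_contra hcon
    push Not at hcon
    have : (g n : ℝ) / (n : ℝ) ^ (e - 1) ≤ 0 := div_nonpos_of_nonpos_of_nonneg hcon hp.le
    linarith
  push_cast
  rw [Real.log_pow, mul_pow]
  field_simp

lemma betweenF_lim {f : ℕ → ℕ → ℕ} {k j : ℕ} {σ : ℝ} (hL : LawF f k j σ) {e : ℕ} (he : 2 ≤ e) (c : ℕ) :
    Tendsto (fun n : ℕ => (f (n ^ e) ((n + 1) ^ e - c - n ^ e) : ℝ) * Real.log n ^ k / (n : ℝ) ^ (e - 1)) atTop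
      (𝓝 (σ * e / (e : ℝ) ^ k)) :=
  powF_lim hL he (by exact_mod_cast (by omega : 0 < e)) (gap_lim he c)

/-- number of `m` in `(y, y + h]` with `m + s ∈ S` for `s ∈ H` and `m + s ∉ S` for `s ∈ E` -/
noncomputable def cntX (S : Set ℕ) (H E : Finset ℕ) (y h : ℕ) : ℕ :=
  {m | (y < m ∧ m ≤ y + h) ∧ (∀ s ∈ H, m + s ∈ S) ∧ ∀ s ∈ E, m + s ∉ S}.ncard

lemma fin_set (y h : ℕ) (P : ℕ → Prop) : {m | (y < m ∧ m ≤ y + h) ∧ P m}.Finite :=
  (Set.finite_Ioc y (y + h)).subset fun _ hm => hm.1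

lemma cntX_le (S : Set ℕ) (H E : Finset ℕ) (y h : ℕ) : cntX S H E y h ≤ cntI S H y h :=
  Set.ncard_le_ncard (fun _ hm => ⟨hm.1, hm.2.1⟩) (fin_set y h _)

lemma cntX_ge (S : Set ℕ) (H E : Finset ℕ) (y h : ℕ) :
    cntI S H y h ≤ cntX S H E y h + ∑ s ∈ E, cntI S (insert s H) y h := by
  classical
  induction E using Finset.induction_on with
  | empty =>
    unfold cntX cntI
    simp
  | insert s E hs ih =>
    rw [Finset.sum_insert hs]
    have h1 : cntX S H E y h ≤ cntX S H (insert s E) y h + cntI S (insert s H) y h := by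
      unfold cntX cntI
      rw [← Set.ncard_union_add_ncard_inter _ _ (fin_set y h _) (fin_set y h _)]
      refine le_trans (Set.ncard_le_ncard ?_ ((fin_set y h _).union (fin_set y h _))) (Nat.le_add_right _ _)
      rintro m ⟨h1, h2, h3⟩
      by_cases h4 : m + s ∈ S
      · right
        refine ⟨h1, fun t ht => ?_⟩
        rcases Finset.mem_insert.1 ht with rfl | ht
        · exact h4
        · exact h2 t ht
      · left
        refine ⟨h1, h2, fun t ht => ?_⟩
        rcases Finset.mem_insert.1 ht with rfl | ht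
        · exact h4
        · exact h3 t ht
    omega

/-- the law for exact patterns -/
theorem exact_law {S : Set ℕ} {Q H E : Finset ℕ} (hE : ∀ s ∈ E, s ∉ H) (hL : Law S Q H)
    (hLs : ∀ s ∈ E, Law S Q (insert s H)) : LawF (cntX S H E) H.card (2 * H.card + 4) (singH Q H) := by
  classical
  intro ε hε
  set k := H.card with hk
  have h1 := hL (ε / 2) (by positivity)
  -- bound for the sum over the excluded shifts
  have h2 : ∀ᶠ y : ℕ in atTop, ∀ h : ℕ, h ≤ y → Real.log y ^ (2 * k + 4) ≤ h →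
      ∀ s ∈ E, (cntI S (insert s H) y h : ℝ) * Real.log y ^ k / h ≤ ε / (2 * (E.card + 1)) := by
    have h3 : ∀ s ∈ E, ∀ᶠ y : ℕ in atTop, ∀ h : ℕ, h ≤ y → Real.log y ^ (2 * k + 4) ≤ h →
        (cntI S (insert s H) y h : ℝ) * Real.log y ^ k / h ≤ ε / (2 * (E.card + 1)) := by
      intro s hs
      have hc : (insert s H).card = k + 1 := by rw [Finset.card_insert_of_notMem (hE s hs)]
      have h4 := hLs s hs 1 one_pos
      rw [hc] at h4
      filter_upwards [h4, tendsto_nlog.eventually_ge_atTop ((|singH Q (insert s H)| + 1) / (ε / (2 * (E.card + 1)))),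
        tendsto_nlog.eventually_ge_atTop 1] with y hy hy2 hy3 h hh1 hh2
      have h5 := hy h hh1 (by rw [show 2 * (k + 1) + 2 = 2 * k + 4 by ring]; exact hh2)
      have h6 := (abs_le.1 h5).2
      have hl0 : (0 : ℝ) < Real.log y := by linarith
      have hh0 : (0 : ℝ) < h := lt_of_lt_of_le (by positivity) hh2
      have h7 : (cntI S (insert s H) y h : ℝ) * Real.log y ^ (k + 1) / h ≤ |singH Q (insert s H)| + 1 := by
        linarith [le_abs_self (singH Q (insert s H))]
      have h8 : (cntI S (insert s H) y h : ℝ) * Real.log y ^ k / h = ((cntI S (insert s H) y h : ℝ) * Real.log y ^ (k + 1) / h) / Real.log y := by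
        rw [pow_succ]
        field_simp
      rw [h8, div_le_iff₀ hl0]
      rw [div_le_iff₀ (by positivity)] at hy2
      calc _ ≤ |singH Q (insert s H)| + 1 := h7
        _ ≤ _ := by rw [mul_comm]; exact hy2
    exact (Filter.eventually_all_finset E).2 h3 |>.mono fun y hy h a b s hs => hy s hs h a b
  filter_upwards [h1, h2, tendsto_nlog.eventually_ge_atTop 1] with y y1 y2 y3 h hh1 hh2
  have hl0 : (0 : ℝ) < Real.log y := by linarith
  have hh0 : (0 : ℝ) < h := lt_of_lt_of_le (by positivity) hh2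
  have hh3 : Real.log y ^ (2 * k + 2) ≤ h := le_trans (pow_le_pow_right₀ y3 (by omega)) hh2
  have h5 := abs_le.1 (y1 h hh1 hh3)
  have h6 : (cntX S H E y h : ℝ) ≤ cntI S H y h := by exact_mod_cast cntX_le S H E y h
  have h7 : (cntI S H y h : ℝ) ≤ cntX S H E y h + ∑ s ∈ E, (cntI S (insert s H) y h : ℝ) := by
    exact_mod_cast cntX_ge S H E y h
  have hfac : 0 ≤ Real.log (y : ℝ) ^ k / h := by positivity
  have h8 : (cntX S H E y h : ℝ) * Real.log y ^ k / h ≤ (cntI S H y h : ℝ) * Real.log y ^ k / h := by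
    rw [mul_div_assoc, mul_div_assoc]
    exact mul_le_mul_of_nonneg_right h6 hfac
  have h9 : (cntI S H y h : ℝ) * Real.log y ^ k / h ≤ (cntX S H E y h : ℝ) * Real.log y ^ k / h + ε / 2 := by
    have h10 : (∑ s ∈ E, (cntI S (insert s H) y h : ℝ)) * (Real.log y ^ k / h) ≤ ε / 2 := by
      rw [Finset.sum_mul]
      have h11 : ∑ s ∈ E, (cntI S (insert s H) y h : ℝ) * (Real.log y ^ k / h) ≤ ∑ _s ∈ E, ε / (2 * (E.card + 1)) := by
        refine Finset.sum_le_sum fun s hs => ?_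
        rw [← mul_div_assoc]
        exact y2 h hh1 hh2 s hs
      refine h11.trans ?_
      rw [Finset.sum_const, nsmul_eq_mul, ← mul_div_assoc, div_le_div_iff₀ (by positivity) (by norm_num)]
      nlinarith
    rw [mul_div_assoc, mul_div_assoc]
    have h12 := mul_le_mul_of_nonneg_right h7 hfac
    rw [add_mul] at h12
    linarith
  rw [abs_le]
  constructor <;> linarith [h5.1, h5.2]

end Pool.Agent.R960.Fam
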