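import Mathlib
import Pool.Agent.R960.Fam.Equi

set_option autoImplicit false
set_option linter.unusedSectionVars false

/-! # The classes of consecutive twins form a normal sequence -/

open MeasureTheory Filter Set Polynomial
open scoped ENNReal Topology

namespace Pool.Agent.R960.Fam

open Pool.Agent.R528.RM

lemma E0_lower (Q : Finset ℕ) (hQ : ∀ p ∈ Q, p.Prime) (K : ℝ) :
    ∀ᶠ x : ℕ in atTop, K * Real.log x ≤ ∑ n ∈ Finset.range x, rhoW (∏ p ∈ Q, p) n * rhoW (∏ p ∈ Q, p) (n + 2) := by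
  classical
  set W := ∏ p ∈ Q, p with hWdef
  have hW : 0 < W := Finset.prod_pos fun q hq => (hQ q hq).pos
  have hne : (X : ℤ[X]) ≠ X + C 2 := by
    intro h
    have := congr_arg (fun f => Polynomial.eval 0 f) h
    simp at this
  have hdeg : ∀ f ∈ ({X, X + C 2} : Finset ℤ[X]), 0 < f.natDegree ∧ 0 < f.leadingCoeff := by
    intro f hf
    simp only [Finset.mem_insert, Finset.mem_singleton] at hf
    rcases hf with rfl | rfl
    · simp
    · rw [natDegree_X_add_C, leadingCoeff_X_add_C]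
      norm_num
  have h1 := profile_sum W hW {X, X + C 2} hdeg
  have hpv1 : ∀ n : ℕ, pv (X : ℤ[X]) n = n := by
    intro n
    simp [pv]
  have hpv2 : ∀ n : ℕ, pv (X + C 2 : ℤ[X]) n = n + 2 := by
    intro n
    unfold pv
    rw [eval_add, eval_X, eval_C]
    omega
  have hcard : ({X, X + C 2} : Finset ℤ[X]).card = 2 := Finset.card_pair hne
  have h2 : ∀ n : ℕ, ∏ f ∈ ({X, X + C 2} : Finset ℤ[X]), rhoW W (pv f n) = rhoW W n * rhoW W (n + 2) := by
    intro n
    rw [Finset.prod_pair hne, hpv1, hpv2]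
  simp_rw [h2, hcard] at h1
  set β := bhConst W ({X, X + C 2} : Finset ℤ[X]) with hβ
  have hcnt : 0 < Nat.count (good ({X, X + C 2} : Finset ℤ[X]) W) W := by
    rw [Nat.count_eq_card_filter_range, Finset.card_pos]
    refine ⟨W - 1, Finset.mem_filter.2 ⟨Finset.mem_range.2 (by omega), ?_⟩⟩
    intro f hf
    simp only [Finset.mem_insert, Finset.mem_singleton] at hf
    have hW1 : ((W - 1 : ℕ) : ℤ) = (W : ℤ) - 1 := by
      rw [Nat.cast_sub hW]
      simp
    rcases hf with rfl | rfl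
    · rw [eval_X, hW1]
      have : IsCoprime ((W : ℤ) - 1) (W : ℤ) := ⟨-1, 1, by ring⟩
      exact Int.isCoprime_iff_gcd_eq_one.1 this
    · rw [eval_add, eval_X, eval_C, hW1]
      have : IsCoprime ((W : ℤ) - 1 + 2) (W : ℤ) := ⟨1, -1, by ring⟩
      exact Int.isCoprime_iff_gcd_eq_one.1 this
  have hβ0 : 0 < β := by
    rw [hβ]
    unfold bhConst
    have e1 : (0 : ℝ) < Nat.count (good ({X, X + C 2} : Finset ℤ[X]) W) W := by exact_mod_cast hcnt
    have e2 : (0 : ℝ) < W := by exact_mod_cast hW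
    have e3 : (0 : ℝ) < Nat.totient W := by exact_mod_cast Nat.totient_pos.2 hW
    have e4 : 0 < ∏ f ∈ ({X, X + C 2} : Finset ℤ[X]), ((f.natDegree : ℝ))⁻¹ := Finset.prod_pos fun f hf => by
      have : (0 : ℝ) < f.natDegree := by exact_mod_cast (hdeg f hf).1
      positivity
    positivity
  have h3 : Tendsto (fun x : ℝ => Real.log x ^ (3 : ℝ) / x ^ (1 : ℝ)) atTop (𝓝 0) :=
    (isLittleO_log_rpow_rpow_atTop (3 : ℝ) one_pos).tendsto_div_nhds_zero
  have h4 := h3.comp tendsto_natCast_atTop_atTop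
  have h5 := h1.eventually_const_le (show β / 2 < β by linarith)
  have h6 := h4.eventually_le_const (show (0 : ℝ) < β / 2 / (|K| + 1) by positivity)
  filter_upwards [h5, h6, eventually_gt_atTop 1] with x g1 g2 g3
  have hx : (1 : ℝ) < x := by exact_mod_cast g3
  have hl : 0 < Real.log (x : ℝ) := Real.log_pos hx
  simp only [Function.comp_apply, Real.rpow_one] at g2
  have e3 : Real.log (x : ℝ) ^ (3 : ℝ) = Real.log x ^ 3 := by
    rw [← Real.rpow_natCast]
    norm_num
  rw [e3, div_le_iff₀ (by linarith)] at g2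
  rw [le_div_iff₀ (by linarith)] at g1
  set E := ∑ n ∈ Finset.range x, rhoW W n * rhoW W (n + 2) with hE
  have g4 : Real.log (x : ℝ) ^ 3 * (|K| + 1) ≤ β / 2 * x := by
    have := mul_le_mul_of_nonneg_right g2 (show (0 : ℝ) ≤ |K| + 1 by positivity)
    have e4 : β / 2 / (|K| + 1) * x * (|K| + 1) = β / 2 * x := by field_simp
    linarith
  have g5 : (K * Real.log x) * Real.log x ^ 2 ≤ E * Real.log x ^ 2 := by
    have h7 : K ≤ |K| + 1 := by linarith [le_abs_self K]
    calc (K * Real.log x) * Real.log x ^ 2 = K * Real.log x ^ 3 := by ring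
      _ ≤ (|K| + 1) * Real.log x ^ 3 := mul_le_mul_of_nonneg_right h7 (by positivity)
      _ = Real.log x ^ 3 * (|K| + 1) := by ring
      _ ≤ β / 2 * x := g4
      _ ≤ _ := g1
  exact le_of_mul_le_mul_right g5 (by positivity)

lemma num_card (T : Set ℕ) (P : ℕ → Prop) (x : ℕ) [DecidablePred (· ∈ T)] [DecidablePred P] :
    num T P x = ((Finset.range x).filter fun n => n ∈ T ∧ P n).card := by
  unfold num
  rw [← Set.ncard_coe_finset]
  congr 1
  ext n
  simp

lemma num_sum (T : Set ℕ) (P : ℕ → Prop) (x : ℕ) [DecidablePred (· ∈ T)] [DecidablePred P] :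
    (num T P x : ℝ) = ∑ n ∈ Finset.range x, (if P n then (1 : ℝ) else 0) * (if n ∈ T then 1 else 0) := by
  rw [num_card, ← Finset.sum_boole]
  refine Finset.sum_congr rfl fun n _ => ?_
  by_cases h1 : n ∈ T <;> by_cases h2 : P n <;> simp [h1, h2]

variable {Ω : Type} {m0 : MeasurableSpace Ω} {μ : Measure Ω} [IsProbabilityMeasure μ]
  {ℱ : Filtration ℕ m0} {A : ℕ → Set Ω}

open Classical in
lemma In_pair (n : ℕ) (ω : Ω) : In A n ω * In A (n + 2) ω = if n ∈ Tw A ω then 1 else 0 := by
  unfold In Tw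
  by_cases h1 : ω ∈ A n <;> by_cases h2 : ω ∈ A (n + 2) <;> simp [h1, h2]

/-- the comparison of the classes -/
theorem equi (hA : ∀ n, MeasurableSet[ℱ n] (A n)) (Q : Finset ℕ) (hQ : ∀ p ∈ Q, p.Prime)
    (hcop : ∀ n, (∃ p ∈ Q, p ∣ n) → A n = ∅)
    (hd : ∀ᵐ ω ∂μ, Tendsto (fun n : ℕ => dens μ ℱ A n ω * Real.log n)
      (atTop ⊓ 𝓟 {n : ℕ | ∀ p ∈ Q, ¬ p ∣ n + 1}) (𝓝 (∏ p ∈ Q, (1 - 1 / (p : ℝ))⁻¹))) (h2Q : 2 ∈ Q)
    (q : ℕ) (hq0 : 0 < q) (hq : ∀ p, p.Prime → p ∣ q → p ∈ Q) :
    ∀ᵐ ω ∂μ, Tendsto (fun x => (num (Tw A ω) (fun _ => True) x : ℝ)) atTop atTop ∧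
      ∀ (as : List ℕ) (b b' : ℕ), adm q b → adm q b' → ∀ ε : ℝ, 0 < ε → ∀ᶠ x : ℕ in atTop,
        |(num (Tw A ω) (fun n => n % q = b ∧ hist q as (Tw A ω) n) x : ℝ) -
          num (Tw A ω) (fun n => n % q = b' ∧ hist q as (Tw A ω) n) x| ≤ ε * num (Tw A ω) (fun _ => True) x := by
  classical
  set W := ∏ p ∈ Q, p with hWdef
  have hW : 0 < W := Finset.prod_pos fun q hq => (hQ q hq).pos
  have h2W : 2 ∣ W := Finset.dvd_prod_of_mem _ h2Q
  have hρ : ∀ n, 0 ≤ rhoW W n ∧ rhoW W n ≤ 1 := fun n => ⟨rhoW_nonneg W n, rhoW_le W n⟩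
  have hρ0 : rhoW W 0 = 0 := by
    unfold rhoW
    rw [if_neg]
    intro h
    rw [Nat.coprime_zero_left] at h
    omega
  have hA0 : A 0 = ∅ := hcop 0 ⟨2, h2Q, dvd_zero _⟩
  have hprof := prof (μ := μ) hA Q hQ hcop hd
  have s0 := twin_pred (μ := μ) hA hρ hprof (fun n _ => if n = 0 then 0 else 1)
    (fun n => @stronglyMeasurable_const _ _ (ℱ (n - 1)) _ _) (fun _ => by simp) (fun n _ => by
      show 0 ≤ (if n = 0 then (0 : ℝ) else 1) ∧ (if n = 0 then (0 : ℝ) else 1) ≤ 1
      split_ifs <;> norm_num)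
  have s1 : ∀ᵐ ω ∂μ, ∀ (as : List ℕ) (b : ℕ), ∀ ε : ℝ, 0 < ε → ∃ K : ℝ, 0 < K ∧ ∀ᶠ x : ℕ in atTop,
      |∑ n ∈ Finset.range x, uu A q as b n ω * In A n ω * In A (n + 2) ω -
        ∑ n ∈ Finset.range x, uu A q as b n ω * rhoW W n * rhoW W (n + 2)| ≤
        ε * ∑ n ∈ Finset.range x, uu A q as b n ω * rhoW W n * rhoW W (n + 2) + K * Real.log x := by
    rw [ae_all_iff]
    intro as
    rw [ae_all_iff]
    intro b
    refine twin_pred (μ := μ) hA hρ hprof (fun n => uu A q as b n) (fun n => uu_meas hA q as b n) (fun ω => ?_)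
      (fun n ω => uu_01 q as b n ω)
    unfold uu
    rw [if_neg (by omega)]
  have s2 := triple_pred (μ := μ) hA hρ hprof
  filter_upwards [s0, s1, s2] with ω g0 g1 g2
  set T := Tw A ω with hT
  have tl := Real.tendsto_log_atTop.comp (tendsto_natCast_atTop_atTop (R := ℝ))
  set E : ℕ → ℝ := fun x => ∑ n ∈ Finset.range x, rhoW W n * rhoW W (n + 2) with hE
  have hElow := E0_lower Q hQ
  rw [← hWdef] at hElow
  -- the number of pairs
  have hNsum : ∀ x, (num T (fun _ => True) x : ℝ) = ∑ n ∈ Finset.range x, (if n = 0 then (0 : ℝ) else 1) * In A n ω * In A (n + 2) ω := by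
    intro x
    rw [num_sum]
    refine Finset.sum_congr rfl fun n _ => ?_
    rw [mul_assoc, In_pair, if_pos trivial]
    by_cases hn : n = 0
    · subst hn
      have h0 : 0 ∉ T := by
        intro h
        have h' : ω ∈ A 0 := h.1
        rw [hA0] at h'
        exact h'
      simp [h0]
    · simp [hn, hT]
  have hEsum : ∀ x, E x = ∑ n ∈ Finset.range x, (if n = 0 then (0 : ℝ) else 1) * rhoW W n * rhoW W (n + 2) := by
    intro x
    refine Finset.sum_congr rfl fun n _ => ?_
    by_cases hn : n = 0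
    · subst hn
      simp [hρ0]
    · simp [hn]
  have hNE : ∀ᶠ x : ℕ in atTop, E x ≤ 4 * num T (fun _ => True) x := by
    obtain ⟨K, hK, hk⟩ := g0 (1 / 2) (by norm_num)
    filter_upwards [hk, hElow (4 * K)] with x h1 h2
    rw [← hNsum, ← hEsum] at h1
    have h3 := (abs_le.1 h1).1
    have h4 : 4 * K * Real.log x ≤ E x := h2
    linarith
  have hlogN : ∀ K : ℝ, 0 < K → ∀ᶠ x : ℕ in atTop, K * Real.log x ≤ num T (fun _ => True) x := by
    intro K hK
    filter_upwards [hNE, hElow (4 * K)] with x h1 h2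
    have h4 : 4 * K * Real.log x ≤ E x := h2
    linarith
  have hNinf : Tendsto (fun x => (num T (fun _ => True) x : ℝ)) atTop atTop := by
    refine tendsto_atTop_mono' _ ?_ tl
    filter_upwards [hlogN 1 one_pos] with x hx
    simpa using hx
  refine ⟨hNinf, ?_⟩
  have hN0 : ∀ x, (0 : ℝ) ≤ num T (fun _ => True) x := fun x => Nat.cast_nonneg _
  -- the weighted sums
  set Y : List ℕ → ℕ → ℕ → ℝ := fun as b x => (num T (fun n => (2 ≤ n ∧ n % q = b) ∧ hist q as T (n - 2)) x : ℝ) with hY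
  have hYsum : ∀ as b x, Y as b x = ∑ n ∈ Finset.range x, uu A q as b n ω * In A n ω * In A (n + 2) ω := by
    intro as b x
    simp only [hY]
    rw [num_sum]
    refine Finset.sum_congr rfl fun n _ => ?_
    rw [mul_assoc, In_pair]
    rfl
  have hX : ∀ as b x, ∑ n ∈ Finset.range x, uu A q as b n ω * rhoW W n * rhoW W (n + 2) ≤ E x := by
    intro as b x
    refine Finset.sum_le_sum fun n _ => ?_
    rw [mul_assoc]
    exact mul_le_of_le_one_left (mul_nonneg (hρ n).1 (hρ _).1) (uu_01 q as b n ω).2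
  have hYX : ∀ (as : List ℕ) (b : ℕ), ∀ ε : ℝ, 0 < ε → ∀ᶠ x : ℕ in atTop,
      |Y as b x - ∑ n ∈ Finset.range x, uu A q as b n ω * rhoW W n * rhoW W (n + 2)| ≤ ε * num T (fun _ => True) x := by
    intro as b ε hε
    obtain ⟨K, hK, hk⟩ := g1 as b (ε / 8) (by positivity)
    filter_upwards [hk, hNE, hlogN (2 * K / ε) (by positivity)] with x h1 h2 h3
    rw [← hYsum] at h1
    have h4 := hX as b x
    have h5 : K * Real.log x ≤ ε / 2 * num T (fun _ => True) x := by
      have : K * Real.log x = ε / 2 * (2 * K / ε * Real.log x) := by field_simp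
      rw [this]
      exact mul_le_mul_of_nonneg_left h3 (by positivity)
    have h6 : ε / 8 * ∑ n ∈ Finset.range x, uu A q as b n ω * rhoW W n * rhoW W (n + 2) ≤ ε / 8 * (4 * num T (fun _ => True) x) :=
      mul_le_mul_of_nonneg_left (h4.trans h2) (by positivity)
    linarith
  -- the exceptional triples
  have hR : ∀ ε : ℝ, 0 < ε → ∀ᶠ x : ℕ in atTop, (num T (fun n => 2 ≤ n ∧ n - 2 ∈ T) x : ℝ) ≤ ε * num T (fun _ => True) x := by
    intro ε hε
    obtain ⟨K, hK, hk⟩ := g2
    have hρ4 : Tendsto (fun n : ℕ => rhoW W (n + 4)) atTop (𝓝 0) := by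
      have h1 : Tendsto (fun n : ℕ => ((W : ℝ) / Nat.totient W) / Real.log ((n + 4 : ℕ) : ℝ)) atTop (𝓝 0) :=
        tendsto_const_nhds.div_atTop (tl.comp (tendsto_add_atTop_nat 4))
      refine squeeze_zero (fun n => rhoW_nonneg W _) (fun n => ?_) h1
      unfold rhoW
      split_ifs
      · exact min_le_right _ _
      · exact div_nonneg (by positivity) (Real.log_natCast_nonneg _)
    obtain ⟨n₀, hn₀⟩ := eventually_atTop.1 (hρ4.eventually_le_const (show (0 : ℝ) < ε / 8 by positivity))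
    filter_upwards [hk, hlogN (4 * K / ε) (by positivity), hNinf.eventually_ge_atTop (8 * n₀ / ε)] with x h1 h2 h3
    have h4 : (num T (fun n => 2 ≤ n ∧ n - 2 ∈ T) x : ℝ) ≤ ∑ n ∈ Finset.range x, In A n ω * In A (n + 2) ω * In A (n + 4) ω := by
      rw [num_sum]
      have h5 : ∑ n ∈ Finset.range (x + 2), (if 2 ≤ n ∧ n - 2 ∈ T then (1 : ℝ) else 0) * (if n ∈ T then 1 else 0) =
          ∑ n ∈ Finset.range x, (if n ∈ T then (1 : ℝ) else 0) * (if n + 2 ∈ T then 1 else 0) := by
        rw [Finset.sum_range_succ', Finset.sum_range_succ']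
        simp
      have h6 : ∑ n ∈ Finset.range x, (if 2 ≤ n ∧ n - 2 ∈ T then (1 : ℝ) else 0) * (if n ∈ T then 1 else 0) ≤
          ∑ n ∈ Finset.range (x + 2), (if 2 ≤ n ∧ n - 2 ∈ T then (1 : ℝ) else 0) * (if n ∈ T then 1 else 0) := by
        refine Finset.sum_le_sum_of_subset_of_nonneg (Finset.range_mono (by omega)) fun n _ _ => ?_
        split_ifs <;> norm_num
      refine h6.trans (h5.le.trans (Finset.sum_le_sum fun n _ => ?_))
      rw [In_pair]
      refine mul_le_mul_of_nonneg_left ?_ (by split_ifs <;> norm_num)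
      by_cases h7 : n + 2 ∈ T
      · have h8 : ω ∈ A (n + 2 + 2) := h7.2
        rw [if_pos h7]
        unfold In
        rw [indicator_of_mem h8]
      · rw [if_neg h7]
        exact In_nonneg _ _
    have h5 : ∑ n ∈ Finset.range x, In A n ω * In A (n + 2) ω * rhoW W (n + 4) ≤ ε / 8 * num T (fun _ => True) x + n₀ := by
      have h6 : ∀ n ∈ Finset.range x, In A n ω * In A (n + 2) ω * rhoW W (n + 4) ≤
          ε / 8 * (if n ∈ T then (1 : ℝ) else 0) + (if n < n₀ then (1 : ℝ) else 0) := by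
        intro n _
        rw [In_pair]
        by_cases h7 : n ∈ T
        · rw [if_pos h7, one_mul, mul_one]
          by_cases h8 : n < n₀
          · rw [if_pos h8]
            have := (hρ (n + 4)).2
            have : 0 ≤ ε / 8 := by positivity
            linarith
          · rw [if_neg h8, add_zero]
            exact hn₀ n (by omega)
        · rw [if_neg h7, zero_mul, mul_zero, zero_add]
          split_ifs <;> norm_num
      refine (Finset.sum_le_sum h6).trans ?_
      rw [Finset.sum_add_distrib, ← Finset.mul_sum]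
      refine add_le_add (le_of_eq ?_) ?_
      · rw [num_sum]
        congr 1
        refine Finset.sum_congr rfl fun n _ => ?_
        simp
      · rw [Finset.sum_boole]
        have h10 : ((Finset.range x).filter fun t => t < n₀).card ≤ n₀ := by
          calc _ ≤ (Finset.range n₀).card := Finset.card_le_card fun k hk => by
                have := (Finset.mem_filter.1 hk).2
                exact Finset.mem_range.2 this
            _ = n₀ := Finset.card_range _
        exact_mod_cast h10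
    have h6 : K * Real.log x ≤ ε / 4 * num T (fun _ => True) x := by
      have : K * Real.log x = ε / 4 * (4 * K / ε * Real.log x) := by field_simp
      rw [this]
      exact mul_le_mul_of_nonneg_left h2 (by positivity)
    have h7 : (2 * n₀ : ℝ) ≤ ε / 4 * num T (fun _ => True) x := by
      have : (2 * n₀ : ℝ) = ε / 4 * (8 * n₀ / ε) := by field_simp; ring
      rw [this]
      exact mul_le_mul_of_nonneg_left h3 (by positivity)
    have h8 := hN0 x
    calc _ ≤ _ := h4
      _ ≤ _ := h1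
      _ ≤ 2 * (ε / 8 * num T (fun _ => True) x + n₀) + ε / 4 * num T (fun _ => True) x := by linarith
      _ ≤ _ := by nlinarith
  -- predictable and true histories
  have hoddT : ∀ n, n ∈ T → ¬ 2 ∣ n := by
    intro n hn hdv
    have h1 : ω ∈ A n := hn.1
    rw [hcop n ⟨2, h2Q, hdv⟩] at h1
    exact h1
  have hcmp : ∀ (as : List ℕ) (b x : ℕ), |(num T (fun n => n % q = b ∧ hist q as T n) x : ℝ) - Y as b x| ≤
      2 + num T (fun n => 2 ≤ n ∧ n - 2 ∈ T) x := by
    intro as b x
    have key : ∀ n, 2 ≤ n → n ∈ T → n - 2 ∉ T → (hist q as T n ↔ hist q as T (n - 2)) := by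
      intro n hn hnT hn2
      have h1 : n - 1 ∉ T := by
        intro h
        have := hoddT _ h
        have := hoddT _ hnT
        omega
      have h2 := hist_step (q := q) (as := as) h1
      have h3 := hist_step (q := q) (as := as) hn2
      rw [show n - 1 + 1 = n by omega] at h2
      rw [show n - 2 + 1 = n - 1 by omega] at h3
      exact h2.trans h3
    have f1 : num T (fun n => n % q = b ∧ hist q as T n) x ≤
        num T (fun n => (2 ≤ n ∧ n % q = b) ∧ hist q as T (n - 2)) x + (2 + num T (fun n => 2 ≤ n ∧ n - 2 ∈ T) x) := by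
      rw [num_card, num_card, num_card]
      have h1 : (Finset.range x).filter (fun n => n ∈ T ∧ n % q = b ∧ hist q as T n) ⊆
          (Finset.range x).filter (fun n => n ∈ T ∧ (2 ≤ n ∧ n % q = b) ∧ hist q as T (n - 2)) ∪
            (Finset.range 2 ∪ (Finset.range x).filter (fun n => n ∈ T ∧ 2 ≤ n ∧ n - 2 ∈ T)) := by
        intro n hn
        obtain ⟨a1, a2, a3, a4⟩ := Finset.mem_filter.1 hn
        by_cases h2 : n < 2
        · exact Finset.mem_union_right _ (Finset.mem_union_left _ (Finset.mem_range.2 h2))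
        · by_cases h3 : n - 2 ∈ T
          · exact Finset.mem_union_right _ (Finset.mem_union_right _ (Finset.mem_filter.2 ⟨a1, a2, by omega, h3⟩))
          · exact Finset.mem_union_left _ (Finset.mem_filter.2 ⟨a1, a2, ⟨by omega, a3⟩, (key n (by omega) a2 h3).1 a4⟩)
      refine (Finset.card_le_card h1).trans ((Finset.card_union_le _ _).trans ?_)
      refine Nat.add_le_add_left ((Finset.card_union_le _ _).trans ?_) _
      rw [Finset.card_range]
    have f2 : num T (fun n => (2 ≤ n ∧ n % q = b) ∧ hist q as T (n - 2)) x ≤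
        num T (fun n => n % q = b ∧ hist q as T n) x + (2 + num T (fun n => 2 ≤ n ∧ n - 2 ∈ T) x) := by
      rw [num_card, num_card, num_card]
      have h1 : (Finset.range x).filter (fun n => n ∈ T ∧ (2 ≤ n ∧ n % q = b) ∧ hist q as T (n - 2)) ⊆
          (Finset.range x).filter (fun n => n ∈ T ∧ n % q = b ∧ hist q as T n) ∪
            (Finset.range x).filter (fun n => n ∈ T ∧ 2 ≤ n ∧ n - 2 ∈ T) := by
        intro n hn
        obtain ⟨a1, a2, ⟨a3, a4⟩, a5⟩ := Finset.mem_filter.1 hn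
        by_cases h3 : n - 2 ∈ T
        · exact Finset.mem_union_right _ (Finset.mem_filter.2 ⟨a1, a2, a3, h3⟩)
        · exact Finset.mem_union_left _ (Finset.mem_filter.2 ⟨a1, a2, a4, (key n a3 a2 h3).2 a5⟩)
      refine (Finset.card_le_card h1).trans ((Finset.card_union_le _ _).trans ?_)
      omega
    have f1' : (num T (fun n => n % q = b ∧ hist q as T n) x : ℝ) ≤ Y as b x + (2 + num T (fun n => 2 ≤ n ∧ n - 2 ∈ T) x) := by
      simp only [hY]
      exact_mod_cast f1
    have f2' : Y as b x ≤ num T (fun n => n % q = b ∧ hist q as T n) x + (2 + num T (fun n => 2 ≤ n ∧ n - 2 ∈ T) x) := by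
      simp only [hY]
      exact_mod_cast f2
    rw [abs_le]
    constructor <;> linarith
  intro as b b' hb hb' ε hε
  obtain ⟨B, hB⟩ := two_classes (T := T) (as := as) Q hQ hq0 hq hb hb' (show (0 : ℝ) < ε / 8 by positivity)
  rw [← hWdef] at hB
  filter_upwards [hYX as b (ε / 8) (by positivity), hYX as b' (ε / 8) (by positivity), hR (ε / 8) (by positivity),
    hNinf.eventually_ge_atTop (8 * (|B| + 4) / ε)] with x x1 x2 x3 x4
  have h1 := hB x
  have h2 := hcmp as b x
  have h3 := hcmp as b' x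
  have h4 : |B| + 4 ≤ ε / 8 * num T (fun _ => True) x := by
    have : |B| + 4 = ε / 8 * (8 * (|B| + 4) / ε) := by field_simp
    rw [this]
    exact mul_le_mul_of_nonneg_left x4 (by positivity)
  have h5 := le_abs_self B
  have h1' : |∑ n ∈ Finset.range x, uu A q as b n ω * rhoW W n * rhoW W (n + 2) -
      ∑ n ∈ Finset.range x, uu A q as b' n ω * rhoW W n * rhoW W (n + 2)| ≤ ε / 8 * num T (fun _ => True) x + B := h1
  set X1 := ∑ n ∈ Finset.range x, uu A q as b n ω * rhoW W n * rhoW W (n + 2)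
  set X2 := ∑ n ∈ Finset.range x, uu A q as b' n ω * rhoW W n * rhoW W (n + 2)
  set N1 := (num T (fun n => n % q = b ∧ hist q as T n) x : ℝ)
  set N2 := (num T (fun n => n % q = b' ∧ hist q as T n) x : ℝ)
  have e : N1 - N2 = (N1 - Y as b x) + (Y as b x - X1) + (X1 - X2) - (Y as b' x - X2) - (N2 - Y as b' x) := by ring
  have h6 := abs_le.1 h1'
  have h7 := abs_le.1 h2
  have h8 := abs_le.1 h3
  have h9 := abs_le.1 x1
  have h10 := abs_le.1 x2
  have hN := hN0 x
  rw [abs_le]
  constructor <;> nlinarith [h6.1, h6.2, h7.1, h7.2, h8.1, h8.2, h9.1, h9.2, h10.1, h10.2]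

end Pool.Agent.R960.Fam
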