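import Mathlib
import Pool.Agent.R960.Fam.Norm

set_option autoImplicit false
set_option linter.unusedSectionVars false

/-! # The classes of consecutive twins form a normal sequence: conclusion -/

open MeasureTheory Filter Set
open scoped ENNReal Topology

namespace Pool.Agent.R960.Fam

open Pool.Agent.R528.RM

open Classical in
/-- the admissible classes -/
noncomputable def Adm (q : ℕ) : Finset ℕ := (Finset.range q).filter (adm q)

lemma mem_Adm {q b : ℕ} : b ∈ Adm q ↔ adm q b := by
  classical
  unfold Adm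
  rw [Finset.mem_filter, Finset.mem_range]
  exact ⟨fun h => h.2, fun h => ⟨h.1, h⟩⟩

lemma num_fiber {T : Set ℕ} {q : ℕ} (hadm : ∀ n ∈ T, adm q (n % q)) (P : ℕ → Prop) (x : ℕ) :
    num T P x = ∑ b ∈ Adm q, num T (fun n => n % q = b ∧ P n) x := by
  classical
  rw [num_card, Finset.card_eq_sum_card_fiberwise (t := Adm q) (f := fun n => n % q)]
  · refine Finset.sum_congr rfl fun b _ => ?_
    rw [num_card]
    congr 1
    ext n
    simp only [Finset.mem_filter, Finset.mem_range]
    tauto
  · intro n hn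
    have h1 := (Finset.mem_filter.1 (Finset.mem_coe.1 hn)).2.1
    exact Finset.mem_coe.2 (mem_Adm.2 (hadm n h1))

theorem normal_of_equi {T : Set ℕ} (hT : T.Infinite) {q : ℕ} (hadm : ∀ n ∈ T, adm q (n % q))
    (hinf : Tendsto (fun x => (num T (fun _ => True) x : ℝ)) atTop atTop)
    (h : ∀ (as : List ℕ) (b b' : ℕ), adm q b → adm q b' → ∀ ε : ℝ, 0 < ε → ∀ᶠ x : ℕ in atTop,
        |(num T (fun n => n % q = b ∧ hist q as T n) x : ℝ) -
          num T (fun n => n % q = b' ∧ hist q as T n) x| ≤ ε * num T (fun _ => True) x) :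
    ∀ (r : ℕ) (a : ℕ → ℕ), (∀ i, i ≤ r → adm q (a i)) →
      Tendsto (fun N : ℕ => ({n | n < N ∧ ∀ i, i ≤ r → en T (n + i) % q = a i}.ncard : ℝ) / N) atTop
        (𝓝 (1 / ((Adm q).card : ℝ) ^ (r + 1))) := by
  classical
  set φ : ℝ := ((Adm q).card : ℝ) with hφ
  have hφ0 : 0 < φ := by
    have h1 := hadm _ (en_mem hT 0)
    have h2 : 0 < (Adm q).card := Finset.card_pos.2 ⟨_, mem_Adm.2 h1⟩
    rw [hφ]
    exact Nat.cast_pos.2 h2
  set N : ℕ → ℝ := fun x => (num T (fun _ => True) x : ℝ) with hN
  have hN0 : ∀ x, 0 ≤ N x := fun x => Nat.cast_nonneg _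
  have hNpos : ∀ᶠ x in atTop, 0 < N x := hinf.eventually_gt_atTop 0
  -- one class against all
  have s1 : ∀ (as : List ℕ) (b : ℕ), adm q b → ∀ ε : ℝ, 0 < ε → ∀ᶠ x : ℕ in atTop,
      |φ * (num T (fun n => n % q = b ∧ hist q as T n) x : ℝ) - num T (hist q as T) x| ≤ ε * N x := by
    intro as b hb ε hε
    have h1 : ∀ᶠ x : ℕ in atTop, ∀ b' ∈ Adm q, |(num T (fun n => n % q = b ∧ hist q as T n) x : ℝ) -
          num T (fun n => n % q = b' ∧ hist q as T n) x| ≤ ε / φ * N x := by
      rw [eventually_all_finset]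
      exact fun b' hb' => h as b b' hb (mem_Adm.1 hb') (ε / φ) (by positivity)
    filter_upwards [h1] with x hx
    rw [num_fiber hadm (hist q as T) x]
    push_cast
    have e1 : φ * (num T (fun n => n % q = b ∧ hist q as T n) x : ℝ) = ∑ _b' ∈ Adm q, (num T (fun n => n % q = b ∧ hist q as T n) x : ℝ) := by
      rw [Finset.sum_const, nsmul_eq_mul]
    rw [e1, ← Finset.sum_sub_distrib]
    refine (Finset.abs_sum_le_sum_abs _ _).trans ((Finset.sum_le_sum hx).trans ?_)
    rw [Finset.sum_const, nsmul_eq_mul, ← hφ]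
    refine le_of_eq ?_
    field_simp
  have s2 : ∀ (as : List ℕ) (b : ℕ) (L : ℝ), adm q b →
      Tendsto (fun x => (num T (hist q as T) x : ℝ) / N x) atTop (𝓝 L) →
      Tendsto (fun x => (num T (fun n => n % q = b ∧ hist q as T n) x : ℝ) / N x) atTop (𝓝 (L / φ)) := by
    intro as b L hb hL
    have h1 : Tendsto (fun x => (φ * (num T (fun n => n % q = b ∧ hist q as T n) x : ℝ) - num T (hist q as T) x) / N x) atTop (𝓝 0) := by
      rw [Metric.tendsto_atTop']
      intro ε hε
      obtain ⟨x₀, hx₀⟩ := eventually_atTop.1 ((s1 as b hb (ε / 2) (by positivity)).and hNpos)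
      refine ⟨x₀, fun x hx => ?_⟩
      obtain ⟨g1, g2⟩ := hx₀ x hx.le
      rw [Real.dist_eq, sub_zero, abs_div, abs_of_pos g2, div_lt_iff₀ g2]
      have : ε / 2 * N x < ε * N x := mul_lt_mul_of_pos_right (by linarith) g2
      linarith
    have h2 := (hL.add h1).div_const φ
    rw [add_zero] at h2
    refine h2.congr' ?_
    filter_upwards [hNpos] with x hx
    field_simp
    ring
  have s3 : ∀ (as : List ℕ), (∀ b ∈ as, adm q b) →
      Tendsto (fun x => (num T (hist q as T) x : ℝ) / N x) atTop (𝓝 (1 / φ ^ as.length)) := by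
    intro as
    induction as with
    | nil =>
      intro _
      simp only [List.length_nil, pow_zero, div_one]
      refine tendsto_const_nhds.congr' ?_
      filter_upwards [hNpos] with x hx
      have : num T (hist q [] T) x = num T (fun _ => True) x := by
        unfold num
        simp [hist]
      rw [this]
      exact (div_self hx.ne').symm
    | cons a as ih =>
      intro hall
      have h1 := s2 as a _ (hall a (by simp)) (ih fun b hb => hall b (by simp [hb]))
      have h2 : Tendsto (fun x => ((num T (hist q (a :: as) T) x : ℝ) - num T (fun n => n % q = a ∧ hist q as T n) x) / N x) atTop (𝓝 0) := by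
        have h3 : Tendsto (fun x => 1 / N x) atTop (𝓝 0) := tendsto_const_nhds.div_atTop hinf
        refine squeeze_zero_norm' ?_ h3
        filter_upwards [hNpos] with x hx
        obtain ⟨g1, g2⟩ := num_cons (q := q) (a := a) (as := as) hT x
        rw [Real.norm_eq_abs, abs_div, abs_of_pos hx]
        refine div_le_div_of_nonneg_right ?_ hx.le
        have g1' : (num T (hist q (a :: as) T) x : ℝ) ≤ num T (fun n => n % q = a ∧ hist q as T n) x := by exact_mod_cast g1
        have g2' : (num T (fun n => n % q = a ∧ hist q as T n) x : ℝ) ≤ num T (hist q (a :: as) T) x + 1 := by exact_mod_cast g2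
        rw [abs_le]
        constructor <;> linarith
      have h3 := h1.add h2
      rw [add_zero] at h3
      have e1 : 1 / φ ^ as.length / φ = 1 / φ ^ (a :: as).length := by
        rw [List.length_cons, pow_succ, div_div]
      rw [e1] at h3
      refine h3.congr fun x => ?_
      ring
  intro r a ha
  set as : List ℕ := (List.range r).map (fun i => a (r - 1 - i)) with has
  have hlen : as.length = r := by simp [has]
  have hall : ∀ b ∈ as, adm q b := by
    intro b hb
    rw [has, List.mem_map] at hb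
    obtain ⟨i, hi, rfl⟩ := hb
    have := List.mem_range.1 hi
    exact ha _ (by omega)
  have hget : ∀ i, i < r → as.getD i 0 = a (r - 1 - i) := by
    intro i hi
    rw [List.getD_eq_getElem _ _ (by rw [hlen]; exact hi)]
    simp [has]
  have h1 := s2 as (a r) _ (ha r le_rfl) (s3 as hall)
  rw [hlen] at h1
  have e1 : 1 / φ ^ r / φ = 1 / φ ^ (r + 1) := by rw [pow_succ, div_div]
  rw [e1] at h1
  -- along the elements of `T`
  have hen : Tendsto (fun M : ℕ => en T (M + r)) atTop atTop := (en_mono hT).tendsto_atTop.comp (tendsto_add_atTop_nat r)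
  have h2 := h1.comp hen
  have hNen : ∀ c, N (en T c) = c := by
    intro c
    simp only [hN]
    rw [num_en hT]
    have : {j | j < c ∧ True} = ((Finset.range c : Finset ℕ) : Set ℕ) := by
      ext j
      simp
    rw [this, Set.ncard_coe_finset, Finset.card_range]
  have hlow : ∀ (l : List ℕ) (j : ℕ), hist q l T (en T j) → l.length ≤ j := by
    intro l
    induction l with
    | nil => intro j _; exact Nat.zero_le _
    | cons b l ih =>
      intro j hj
      cases j with
      | zero => exact absurd hj (hist_cons_zero hT)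
      | succ j =>
        have := ih j ((hist_cons_en hT j).1 hj).2
        rw [List.length_cons]
        omega
  have hset : ∀ M : ℕ, num T (fun n => n % q = a r ∧ hist q as T n) (en T (M + r)) =
      {n | n < M ∧ ∀ i, i ≤ r → en T (n + i) % q = a i}.ncard := by
    intro M
    rw [num_en hT]
    have h3 : {j | j < M + r ∧ (en T j % q = a r ∧ hist q as T (en T j))} =
        (fun n => n + r) '' {n | n < M ∧ ∀ i, i ≤ r → en T (n + i) % q = a i} := by
      ext j
      simp only [Set.mem_ofPred_eq, Set.mem_image]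
      constructor
      · rintro ⟨g1, g2, g3⟩
        have g4 := hlow as j g3
        rw [hlen] at g4
        refine ⟨j - r, ⟨by omega, fun i hi => ?_⟩, by omega⟩
        rcases Nat.lt_or_ge i r with hir | hir
        · have g5 : hist q as T (en T ((j - r) + as.length)) := by
            rw [hlen, show j - r + r = j by omega]
            exact g3
          have g6 := (hist_en hT as (j - r)).1 g5 (r - 1 - i) (by rw [hlen]; omega)
          rw [hget _ (by omega), hlen] at g6
          rw [show j - r + r - 1 - (r - 1 - i) = j - r + i by omega, show r - 1 - (r - 1 - i) = i by omega] at g6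
          exact g6
        · have : i = r := by omega
          subst this
          rw [show j - i + i = j by omega]
          exact g2
      · rintro ⟨n, ⟨g1, g2⟩, rfl⟩
        refine ⟨by omega, g2 r le_rfl, ?_⟩
        have g5 := (hist_en hT as n).2 (fun i hi => by
          rw [hlen] at hi
          rw [hget i hi, hlen]
          have := g2 (r - 1 - i) (by omega)
          rwa [show n + (r - 1 - i) = n + r - 1 - i by omega] at this)
        rwa [hlen] at g5
    rw [h3, Set.ncard_image_of_injective _ (add_left_injective r)]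
  have h3 : Tendsto (fun M : ℕ => ({n | n < M ∧ ∀ i, i ≤ r → en T (n + i) % q = a i}.ncard : ℝ) / ((M + r : ℕ) : ℝ)) atTop
      (𝓝 (1 / φ ^ (r + 1))) := by
    refine h2.congr fun M => ?_
    simp only [Function.comp_apply]
    rw [hset, hNen]
  have h4 : Tendsto (fun M : ℕ => ((M + r : ℕ) : ℝ) / M) atTop (𝓝 1) := by
    have h5 : Tendsto (fun M : ℕ => 1 + (r : ℝ) / M) atTop (𝓝 (1 + 0)) :=
      tendsto_const_nhds.add (tendsto_const_nhds.div_atTop tendsto_natCast_atTop_atTop)
    rw [add_zero] at h5
    refine h5.congr' ?_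
    filter_upwards [eventually_gt_atTop 0] with M hM
    have : (M : ℝ) ≠ 0 := by exact_mod_cast hM.ne'
    push_cast
    field_simp
  have h5 := h3.mul h4
  rw [mul_one] at h5
  refine h5.congr' ?_
  filter_upwards [eventually_gt_atTop 0] with M hM
  have e3 : (M : ℝ) ≠ 0 := by exact_mod_cast hM.ne'
  have e4 : ((M + r : ℕ) : ℝ) ≠ 0 := by exact_mod_cast (by omega : M + r ≠ 0)
  field_simp

variable {Ω : Type} {m0 : MeasurableSpace Ω} {μ : Measure Ω} [IsProbabilityMeasure μ]
  {ℱ : Filtration ℕ m0} {A : ℕ → Set Ω}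

theorem equi_all (hA : ∀ n, MeasurableSet[ℱ n] (A n)) (Q : Finset ℕ) (hQ : ∀ p ∈ Q, p.Prime)
    (hcop : ∀ n, (∃ p ∈ Q, p ∣ n) → A n = ∅)
    (hd : ∀ᵐ ω ∂μ, Tendsto (fun n : ℕ => dens μ ℱ A n ω * Real.log n)
      (atTop ⊓ 𝓟 {n : ℕ | ∀ p ∈ Q, ¬ p ∣ n + 1}) (𝓝 (∏ p ∈ Q, (1 - 1 / (p : ℝ))⁻¹))) (h2Q : 2 ∈ Q) :
    ∀ᵐ ω ∂μ, ∀ q : ℕ, 0 < q → (∀ p, p.Prime → p ∣ q → p ∈ Q) →
      Tendsto (fun x => (num (Tw A ω) (fun _ => True) x : ℝ)) atTop atTop ∧
      ∀ (as : List ℕ) (b b' : ℕ), adm q b → adm q b' → ∀ ε : ℝ, 0 < ε → ∀ᶠ x : ℕ in atTop,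
        |(num (Tw A ω) (fun n => n % q = b ∧ hist q as (Tw A ω) n) x : ℝ) -
          num (Tw A ω) (fun n => n % q = b' ∧ hist q as (Tw A ω) n) x| ≤ ε * num (Tw A ω) (fun _ => True) x := by
  rw [ae_all_iff]
  intro q
  by_cases hq0 : 0 < q
  swap
  · exact Eventually.of_forall fun ω h => absurd h hq0
  by_cases hq : ∀ p, p.Prime → p ∣ q → p ∈ Q
  swap
  · exact Eventually.of_forall fun ω _ h => absurd h hq
  filter_upwards [equi (μ := μ) hA Q hQ hcop hd h2Q q hq0 hq] with ω hω _ _
  exact hω

lemma infinite_of_num {T : Set ℕ} (hinf : Tendsto (fun x => (num T (fun _ => True) x : ℝ)) atTop atTop) : T.Infinite := by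
  intro hfin
  obtain ⟨x, hx⟩ := (hinf.eventually_gt_atTop (T.ncard : ℝ)).exists
  have h1 : num T (fun _ => True) x ≤ T.ncard := by
    unfold num
    refine Set.ncard_le_ncard ?_ hfin
    rintro n ⟨_, h2, _⟩
    exact h2
  have h2 : (num T (fun _ => True) x : ℝ) ≤ T.ncard := by exact_mod_cast h1
  linarith

end Pool.Agent.R960.Fam
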