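import Mathlib
import Pool.Agent.R960.Fam.Norm2

set_option autoImplicit false
set_option linter.unusedSectionVars false

/-! # Twins along predictable sets of indices -/

open MeasureTheory Filter Set
open scoped ENNReal Topology

namespace Pool.Agent.R960.Fam

open Pool.Agent.R528.RM

variable {Ω : Type} {m0 : MeasurableSpace Ω} {μ : Measure Ω} [IsProbabilityMeasure μ]
  {ℱ : Filtration ℕ m0} {A : ℕ → Set Ω} {α β : Type}

/-- one stage with deterministic factors -/
theorem one_fam (hA : ∀ n, MeasurableSet[ℱ n] (A n)) {ρ : ℕ → ℝ} (hρ : ∀ n, 0 ≤ ρ n ∧ ρ n ≤ 1)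
    (hd : ∀ᵐ ω ∂μ, ∀ ε : ℝ, 0 < ε → ∀ᶠ n : ℕ in atTop, |dens μ ℱ A n ω - ρ (n + 1)| ≤ ε * ρ (n + 1))
    (C : ℕ) (Φ : ℕ → Finset α) (hΦ : ∀ᶠ x in atTop, (Φ x).card ≤ x ^ C)
    (u : α → ℕ → Ω → ℝ) (hu : ∀ a n, StronglyMeasurable[ℱ (n - 1)] (u a n)) (hu0 : ∀ a ω, u a 0 ω = 0)
    (h01 : ∀ a n ω, 0 ≤ u a n ω ∧ u a n ω ≤ 1) (M : α → ℕ) (hM : ∀ a, 1 ≤ M a)
    (v : ℕ → ℝ) (hv : ∀ n, 0 ≤ v n ∧ v n ≤ 1) :
    ∀ᵐ ω ∂μ, ∀ ε : ℝ, 0 < ε → ∃ K : ℝ, 0 < K ∧ ∀ᶠ x : ℕ in atTop, ∀ a ∈ Φ x,
      |∑ n ∈ Finset.range (M a), u a n ω * In A n ω * v n - ∑ n ∈ Finset.range (M a), u a n ω * ρ n * v n| ≤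
        ε * ∑ n ∈ Finset.range (M a), u a n ω * ρ n * v n + K * Real.log x := by
  have s2 := pred_prof' (μ := μ) hA hρ hd C Φ hΦ
    (fun a k ω => u a (k + 1) ω * v (k + 1)) (fun a => M a - 1)
    (by
      intro a k
      exact @StronglyMeasurable.mul _ _ _ _ (ℱ k) _ _ _ (hu a (k + 1)) (@stronglyMeasurable_const _ _ (ℱ k) _ _))
    (by
      intro a k ω
      exact ⟨mul_nonneg (h01 _ _ ω).1 (hv _).1, mul_le_one₀ (h01 _ _ ω).2 (hv _).1 (hv _).2⟩)
  filter_upwards [s2] with ω g2 ε hε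
  obtain ⟨K, hK, k2⟩ := g2 ε hε
  refine ⟨K, hK, ?_⟩
  filter_upwards [k2] with x h2 a ha
  have h2' := h2 a ha
  obtain ⟨y, hy⟩ : ∃ y, M a = y + 1 := ⟨M a - 1, by have := hM a; omega⟩
  rw [hy] at h2' ⊢
  simp only [Nat.add_sub_cancel] at h2'
  have e1 : ∑ n ∈ Finset.range (y + 1), u a n ω * In A n ω * v n =
      ∑ k ∈ Finset.range y, u a (k + 1) ω * v (k + 1) * In A (k + 1) ω := by
    rw [Finset.sum_range_succ', hu0 a ω, zero_mul, zero_mul, add_zero]
    refine Finset.sum_congr rfl fun k _ => ?_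
    ring
  have e2 : ∑ n ∈ Finset.range (y + 1), u a n ω * ρ n * v n =
      ∑ k ∈ Finset.range y, u a (k + 1) ω * v (k + 1) * ρ (k + 1) := by
    rw [Finset.sum_range_succ', hu0 a ω, zero_mul, zero_mul, add_zero]
    refine Finset.sum_congr rfl fun k _ => ?_
    ring
  rw [e1, e2]
  exact h2'

/-- predictable weights on pairs, families -/
theorem pair_fam (hA : ∀ n, MeasurableSet[ℱ n] (A n)) {ρ : ℕ → ℝ} (hρ : ∀ n, 0 ≤ ρ n ∧ ρ n ≤ 1)
    (hd : ∀ᵐ ω ∂μ, ∀ ε : ℝ, 0 < ε → ∀ᶠ n : ℕ in atTop, |dens μ ℱ A n ω - ρ (n + 1)| ≤ ε * ρ (n + 1))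
    (C : ℕ) (Φ : ℕ → Finset α) (hΦ : ∀ᶠ x in atTop, (Φ x).card ≤ x ^ C)
    (u : α → ℕ → Ω → ℝ) (hu : ∀ a n, StronglyMeasurable[ℱ (n - 1)] (u a n)) (hu0 : ∀ a ω, u a 0 ω = 0)
    (h01 : ∀ a n ω, 0 ≤ u a n ω ∧ u a n ω ≤ 1) (M : α → ℕ) (hM : ∀ a, 1 ≤ M a) :
    ∀ᵐ ω ∂μ, ∀ ε : ℝ, 0 < ε → ∃ K : ℝ, 0 < K ∧ ∀ᶠ x : ℕ in atTop, ∀ a ∈ Φ x,
      |∑ n ∈ Finset.range (M a), u a n ω * In A n ω * In A (n + 2) ω -
        ∑ n ∈ Finset.range (M a), u a n ω * ρ n * ρ (n + 2)| ≤
        ε * ∑ n ∈ Finset.range (M a), u a n ω * ρ n * ρ (n + 2) + K * Real.log x := by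
  have s1 := pred_prof' (μ := μ) hA hρ hd C Φ hΦ
    (fun a k ω => if k = 0 then 0 else u a (k - 1) ω * In A (k - 1) ω) (fun a => M a + 1)
    (by
      intro a k
      by_cases hk : k = 0
      · simp only [if_pos hk]
        exact @stronglyMeasurable_const _ _ (ℱ k) _ _
      · simp only [if_neg hk]
        exact @StronglyMeasurable.mul _ _ _ _ (ℱ k) _ _ _ ((hu a (k - 1)).mono (ℱ.mono (by omega))) (In_meas hA (by omega)))
    (by
      intro a k ω
      show 0 ≤ (if k = 0 then 0 else u a (k - 1) ω * In A (k - 1) ω) ∧ (if k = 0 then 0 else u a (k - 1) ω * In A (k - 1) ω) ≤ 1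
      split_ifs
      · exact ⟨le_rfl, zero_le_one⟩
      · exact ⟨mul_nonneg (h01 _ _ ω).1 (In_nonneg _ _), mul_le_one₀ (h01 _ _ ω).2 (In_nonneg _ _) (In_le _ _)⟩)
  have s2 := one_fam (μ := μ) hA hρ hd C Φ hΦ u hu hu0 h01 M hM (fun n => ρ (n + 2)) (fun n => hρ _)
  filter_upwards [s1, s2] with ω g1 g2 ε hε
  set δ : ℝ := min (ε / 4) 1 with hδ
  have hδ0 : 0 < δ := lt_min (by positivity) one_pos
  have hδ1 : δ ≤ 1 := min_le_right _ _
  obtain ⟨K1, hK1, k1⟩ := g1 δ hδ0
  obtain ⟨K2, hK2, k2⟩ := g2 δ hδ0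
  refine ⟨K1 + 2 * K2, by positivity, ?_⟩
  filter_upwards [k1, k2] with x h1 h2 a ha
  have h1' := h1 a ha
  have h2' := h2 a ha
  rw [Finset.sum_range_succ' _ (M a), Finset.sum_range_succ' _ (M a)] at h1'
  simp only [Nat.add_eq_zero_iff, one_ne_zero, and_false, if_false, if_true, zero_mul, add_zero, Nat.add_sub_cancel] at h1'
  set X1 := ∑ n ∈ Finset.range (M a), u a n ω * In A n ω * In A (n + 2) ω with hX1
  set X2 := ∑ n ∈ Finset.range (M a), u a n ω * In A n ω * ρ (n + 2) with hX2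
  set X3 := ∑ n ∈ Finset.range (M a), u a n ω * ρ n * ρ (n + 2) with hX3
  have h3 : |X1 - X2| ≤ δ * X2 + K1 * Real.log x := h1'
  have hX30 : 0 ≤ X3 := Finset.sum_nonneg fun n _ => mul_nonneg (mul_nonneg (h01 a n ω).1 (hρ n).1) (hρ _).1
  have hl : 0 ≤ Real.log (x : ℝ) := Real.log_natCast_nonneg _
  have h4 := abs_le.1 h2'
  have h5 : X2 ≤ 2 * X3 + K2 * Real.log x := by nlinarith [h4.2]
  have h6 : δ * X2 ≤ δ * (2 * X3) + K2 * Real.log x := by
    have e3 := mul_le_mul_of_nonneg_left h5 hδ0.le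
    have e4 : δ * (K2 * Real.log x) ≤ K2 * Real.log x := mul_le_of_le_one_left (by positivity) hδ1
    nlinarith
  have h7 : δ * X3 ≤ ε / 4 * X3 := mul_le_mul_of_nonneg_right (min_le_left _ _) hX30
  calc |X1 - X3| = |(X1 - X2) + (X2 - X3)| := by ring_nf
    _ ≤ |X1 - X2| + |X2 - X3| := abs_add_le _ _
    _ ≤ (δ * X2 + K1 * Real.log x) + (δ * X3 + K2 * Real.log x) := add_le_add h3 h2'
    _ ≤ _ := by nlinarith

/-- classes modulo `W`: a process which changes only at the elements of `S` does not see the classes -/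
lemma class_diff {W : ℕ} (hW : 0 < W) {c : ℝ} (hc : 0 < c) {δ : ℝ} (hδ : 0 < δ) :
    ∃ B : ℝ, ∀ (S : Set ℕ) (γ : ℕ → ℝ), (∀ m, 0 ≤ γ m ∧ γ m ≤ 1) → (∀ m, m ∉ S → γ (m + 1) = γ m) →
      ∀ (M : ℕ) (b b' : ℕ), b < W → b' < W →
        |∑ m ∈ Finset.range M, γ m * el c m * (if m % W = b then 1 else 0) -
          ∑ m ∈ Finset.range M, γ m * el c m * (if m % W = b' then 1 else 0)| ≤
          δ * (open Classical in ∑ m ∈ Finset.range M, γ m * (if m ∈ S then 1 else 0) * bb c (m + 2)) + B := by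
  classical
  have hbb : Tendsto (fun n : ℕ => bb c (n + 1)) atTop (𝓝 0) := by
    have h1 : Tendsto (fun n : ℕ => c / Real.log ((n + 1 : ℕ) : ℝ)) atTop (𝓝 0) :=
      tendsto_const_nhds.div_atTop ((Real.tendsto_log_atTop.comp tendsto_natCast_atTop_atTop).comp (tendsto_add_atTop_nat 1))
    exact squeeze_zero (fun n => bb_nonneg hc.le _) (fun n => min_le_right _ _) h1
  have hWr : (0 : ℝ) < W := by exact_mod_cast hW
  obtain ⟨n₀, hn₀⟩ := eventually_atTop.1 (hbb.eventually_le_const (show (0 : ℝ) < δ / (2 * W) by positivity))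
  refine ⟨W * (12 + 2 * n₀), ?_⟩
  intro S γ hγ hch M b b' hb hb'
  set u : ℕ → ℝ := fun m => γ m * el c m with hu
  set d : ℕ → ℝ := fun m => (if m % W = b then (1 : ℝ) else 0) - (if m % W = b' then 1 else 0) with hd
  have hD : ∀ n, |∑ m ∈ Finset.range n, d m| ≤ (W : ℝ) := by
    -- compare with full periods
    intro n
    wlog hbb' : b ≤ b' generalizing b b'
    · have := this b' b hb' hb rfl (by omega)
      have e : ∀ m, (if m % W = b then (1 : ℝ) else 0) - (if m % W = b' then 1 else 0) =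
          -((if m % W = b' then (1 : ℝ) else 0) - (if m % W = b then 1 else 0)) := fun m => by ring
      simp only [hd, e, Finset.sum_neg_distrib, abs_neg]
      exact this
    have hs : ∀ m, (m % W = b ↔ (m + (b' - b)) % W = b') := by
      intro m
      constructor
      · intro h
        have e1 : (m + (b' - b)) % W = (m % W + (b' - b)) % W := by rw [Nat.mod_add_mod]
        rw [e1, h, show b + (b' - b) = b' by omega, Nat.mod_eq_of_lt hb']
      · intro h
        have e1 : m + (b' - b) ≡ b + (b' - b) [MOD W] := by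
          show (m + (b' - b)) % W = (b + (b' - b)) % W
          rw [h, show b + (b' - b) = b' by omega, Nat.mod_eq_of_lt hb']
        have e2 : m ≡ b [MOD W] := Nat.ModEq.add_right_cancel' _ e1
        have e3 : m % W = b % W := e2
        rwa [Nat.mod_eq_of_lt hb] at e3
    have h1 := count_shift (fun m => m % W = b) (fun m => m % W = b') hs n
    have h2 : ∑ m ∈ Finset.range n, d m = (Nat.count (fun m => m % W = b) n : ℝ) - Nat.count (fun m => m % W = b') n := by
      simp only [hd]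
      rw [Finset.sum_sub_distrib, Finset.sum_boole, Finset.sum_boole, Nat.count_eq_card_filter_range,
        Nat.count_eq_card_filter_range]
    rw [h2]
    refine h1.trans ?_
    exact_mod_cast (by omega : b' - b ≤ W)
  have e1 : (∑ m ∈ Finset.range M, γ m * el c m * (if m % W = b then (1 : ℝ) else 0)) -
      (∑ m ∈ Finset.range M, γ m * el c m * (if m % W = b' then (1 : ℝ) else 0)) = ∑ m ∈ Finset.range M, u m * d m := by
    rw [← Finset.sum_sub_distrib]
    refine Finset.sum_congr rfl fun m _ => ?_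
    simp only [hu, hd]
    ring
  have hab := abel u d hD M
  set X2 := ∑ m ∈ Finset.range M, γ m * (if m ∈ S then (1 : ℝ) else 0) * bb c (m + 2) with hX2
  have hu1 : |u M| ≤ 1 := by
    simp only [hu]
    rw [abs_of_nonneg (mul_nonneg (hγ M).1 (el_nonneg hc.le M))]
    exact mul_le_one₀ (hγ M).2 (el_nonneg hc.le M) (el_le hc.le M)
  -- ups and downs
  set g : ℕ → ℝ := fun m => γ (m + 1) - γ m with hg
  have hsum : ∑ m ∈ Finset.range M, g m * el c (m + 1) ≤ 6 := by
    have h1 : ∀ M : ℕ, ∑ m ∈ Finset.range M, g m * el c (m + 1) =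
        γ M * el c M - γ 0 * el c 0 + ∑ m ∈ Finset.range M, γ m * (el c m - el c (m + 1)) := by
      intro M
      induction M with
      | zero => simp
      | succ M ih =>
        rw [Finset.sum_range_succ, Finset.sum_range_succ _ M, ih]
        simp only [hg]
        ring
    rw [h1 M]
    have h2 : γ M * el c M ≤ 1 := mul_le_one₀ (hγ M).2 (el_nonneg hc.le M) (el_le hc.le M)
    have h3 : 0 ≤ γ 0 * el c 0 := mul_nonneg (hγ 0).1 (el_nonneg hc.le 0)
    have h4 : ∑ m ∈ Finset.range M, γ m * (el c m - el c (m + 1)) ≤ ∑ m ∈ Finset.range M, |el c (m + 1) - el c m| := by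
      refine Finset.sum_le_sum fun m _ => ?_
      have h5 : el c m - el c (m + 1) ≤ |el c (m + 1) - el c m| := by
        rw [abs_sub_comm]
        exact le_abs_self _
      have h6 := abs_nonneg (el c (m + 1) - el c m)
      have h7 := hγ m
      rcases le_total 0 (el c m - el c (m + 1)) with h8 | h8
      · calc γ m * (el c m - el c (m + 1)) ≤ 1 * (el c m - el c (m + 1)) := mul_le_mul_of_nonneg_right h7.2 h8
          _ ≤ _ := by linarith
      · have : γ m * (el c m - el c (m + 1)) ≤ 0 := mul_nonpos_of_nonneg_of_nonpos h7.1 h8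
        linarith
    have h5 := el_var hc.le M
    linarith
  have hdown : ∀ m, |g m| * el c (m + 1) ≤ g m * el c (m + 1) +
      2 * (γ m * (if m ∈ S then (1 : ℝ) else 0) * el c (m + 1)) := by
    intro m
    have h1 := el_nonneg hc.le (m + 1)
    by_cases hm : m ∈ S
    · rw [if_pos hm, mul_one]
      have h2 : |g m| ≤ g m + 2 * γ m := by
        simp only [hg]
        have := hγ m
        have := hγ (m + 1)
        rw [abs_le]
        constructor <;> linarith
      calc |g m| * el c (m + 1) ≤ (g m + 2 * γ m) * el c (m + 1) := mul_le_mul_of_nonneg_right h2 h1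
        _ = _ := by ring
    · have h2 : g m = 0 := by
        simp only [hg]
        rw [hch m hm, sub_self]
      rw [h2, if_neg hm]
      simp
  have hvar : ∑ m ∈ Finset.range M, |u (m + 1) - u m| ≤ 11 + 2 * (δ / (2 * W) * X2 + n₀) := by
    have h1 : ∀ m ∈ Finset.range M, |u (m + 1) - u m| ≤ |el c (m + 1) - el c m| + |g m| * el c (m + 1) := by
      intro m _
      have e2 : u (m + 1) - u m = γ m * (el c (m + 1) - el c m) + g m * el c (m + 1) := by
        simp only [hu, hg]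
        ring
      rw [e2]
      refine (abs_add_le _ _).trans ?_
      rw [abs_mul, abs_mul (g m), abs_of_nonneg (el_nonneg hc.le (m + 1))]
      refine add_le_add ?_ le_rfl
      have : |γ m| ≤ 1 := by
        rw [abs_of_nonneg (hγ m).1]
        exact (hγ m).2
      exact mul_le_of_le_one_left (abs_nonneg _) this
    have h2 : ∑ m ∈ Finset.range M, γ m * (if m ∈ S then (1 : ℝ) else 0) * el c (m + 1) ≤ δ / (2 * W) * X2 + n₀ := by
      have h3 : ∀ m ∈ Finset.range M, γ m * (if m ∈ S then (1 : ℝ) else 0) * el c (m + 1) ≤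
          δ / (2 * W) * (γ m * (if m ∈ S then (1 : ℝ) else 0) * bb c (m + 2)) + (if m < n₀ then (1 : ℝ) else 0) := by
        intro m _
        have a1 := hγ m
        have a2 := el_nonneg hc.le (m + 1)
        have a3 := el_le hc.le (m + 1)
        have a4 := bb_nonneg hc.le (m + 2)
        by_cases hm : m ∈ S
        · rw [if_pos hm, mul_one]
          by_cases hm0 : m < n₀
          · rw [if_pos hm0]
            have h4 : γ m * el c (m + 1) ≤ 1 := mul_le_one₀ a1.2 a2 a3
            have h5 : 0 ≤ δ / (2 * W) * (γ m * bb c (m + 2)) := mul_nonneg (by positivity) (mul_nonneg a1.1 a4)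
            linarith
          · rw [if_neg hm0, add_zero]
            have h4 : el c (m + 1) ≤ δ / (2 * W) * bb c (m + 2) := by
              unfold el
              refine mul_le_mul (hn₀ m (by omega)) ?_ (bb_nonneg hc.le _) (by positivity)
              exact bb_anti hc.le (by omega : 2 ≤ m + 2)
            calc γ m * el c (m + 1) ≤ γ m * (δ / (2 * W) * bb c (m + 2)) := mul_le_mul_of_nonneg_left h4 a1.1
              _ = _ := by ring
        · rw [if_neg hm]
          simp only [mul_zero, zero_mul, zero_add]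
          split_ifs <;> norm_num
      refine (Finset.sum_le_sum h3).trans ?_
      rw [Finset.sum_add_distrib, ← Finset.mul_sum]
      refine add_le_add le_rfl ?_
      rw [Finset.sum_boole]
      have h10 : ((Finset.range M).filter fun t => t < n₀).card ≤ n₀ := by
        calc _ ≤ (Finset.range n₀).card := Finset.card_le_card fun k hk => by
              have := (Finset.mem_filter.1 hk).2
              exact Finset.mem_range.2 this
          _ = n₀ := Finset.card_range _
      exact_mod_cast h10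
    calc _ ≤ ∑ m ∈ Finset.range M, (|el c (m + 1) - el c m| + |g m| * el c (m + 1)) := Finset.sum_le_sum h1
      _ = ∑ m ∈ Finset.range M, |el c (m + 1) - el c m| + ∑ m ∈ Finset.range M, |g m| * el c (m + 1) := Finset.sum_add_distrib
      _ ≤ 5 + ∑ m ∈ Finset.range M, (g m * el c (m + 1) + 2 * (γ m * (if m ∈ S then (1 : ℝ) else 0) * el c (m + 1))) :=
          add_le_add (el_var hc.le M) (Finset.sum_le_sum fun m _ => hdown m)
      _ = 5 + (∑ m ∈ Finset.range M, g m * el c (m + 1) +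
            2 * ∑ m ∈ Finset.range M, γ m * (if m ∈ S then (1 : ℝ) else 0) * el c (m + 1)) := by
          rw [Finset.sum_add_distrib, Finset.mul_sum]
      _ ≤ _ := by linarith
  rw [e1]
  have hX20 : 0 ≤ X2 := Finset.sum_nonneg fun m _ => mul_nonneg (mul_nonneg (hγ m).1 (by split_ifs <;> norm_num)) (bb_nonneg hc.le _)
  calc |∑ m ∈ Finset.range M, u m * d m| ≤ W * (|u M| + ∑ n ∈ Finset.range M, |u (n + 1) - u n|) := hab
    _ ≤ W * (1 + (11 + 2 * (δ / (2 * W) * X2 + n₀))) := mul_le_mul_of_nonneg_left (add_le_add hu1 hvar) hWr.le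
    _ = δ * X2 + W * (12 + 2 * n₀) := by
        field_simp
        ring

end Pool.Agent.R960.Fam
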