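import Mathlib
import Pool.Agent.R960.Fam.Idx
import Pool.Agent.R960.Fam.Pow

set_option autoImplicit false
set_option linter.unusedSectionVars false

/-! # Large gaps between twins -/

open MeasureTheory Filter Set
open scoped ENNReal Topology

namespace Pool.Agent.R960.Fam

open Pool.Agent.R528.RM

variable {Ω : Type} {m0 : MeasurableSpace Ω} {μ : Measure Ω} [IsProbabilityMeasure μ]
  {ℱ : Filtration ℕ m0} {A B : ℕ → Set Ω} {α β : Type}

/-- no twin is completed at the times in `(t, t + h]` -/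
def NT (B : ℕ → Set Ω) (t h : ℕ) : Set Ω := {ω | ∀ n, t < n + 2 → n + 2 ≤ t + h → ¬ (ω ∈ B n ∧ ω ∈ B (n + 2))}

/-- the price of a chosen integer -/
noncomputable def pe (D : ℝ) (a : Bool) : ℝ := if a then 1 - D else 1

lemma pe_nonneg {D : ℝ} (h : D ≤ 1) (a : Bool) : 0 ≤ pe D a := by
  unfold pe
  split_ifs <;> linarith

lemma pe_le {D : ℝ} (h : 0 ≤ D) (a : Bool) : pe D a ≤ 1 := by
  unfold pe
  split_ifs <;> linarith

lemma NT_meas (hB : ∀ n, MeasurableSet[ℱ n] (B n)) (t h : ℕ) : MeasurableSet[ℱ (t + h)] (NT B t h) := by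
  have h1 : NT B t h = ⋂ n ∈ (Finset.range (t + h)).filter (fun n => t < n + 2 ∧ n + 2 ≤ t + h), (B n ∩ B (n + 2))ᶜ := by
    ext ω
    unfold NT
    simp only [Set.mem_ofPred_eq, Set.mem_iInter, Finset.mem_filter, Finset.mem_range, Set.mem_compl_iff, Set.mem_inter_iff]
    constructor
    · intro h2 n hn
      exact h2 n hn.2.1 hn.2.2
    · intro h2 n hn1 hn2
      exact h2 n ⟨by omega, hn1, hn2⟩
  rw [h1]
  refine Finset.measurableSet_biInter _ fun n hn => ?_
  have h2 := (Finset.mem_filter.1 hn).2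
  exact ((ℱ.mono (by omega) _ (hB n)).inter (ℱ.mono h2.2 _ (hB (n + 2)))).compl

lemma gap_block (hBm : ∀ n, MeasurableSet[ℱ n] (B n)) {D : ℝ} (hD0 : 0 ≤ D) (hD1 : D ≤ 1) (T : ℕ)
    (hB : ∀ n, T ≤ n → ∀ X, MeasurableSet[ℱ n] X → μ.real (X ∩ B (n + 1)) ≤ D * μ.real X) (h : ℕ) :
    ∀ t, T ≤ t → 1 ≤ t → ∀ X, MeasurableSet[ℱ t] X → ∀ a b : Bool, (a = false → ∀ ω ∈ X, ω ∉ B (t - 1)) →
      (b = false → ∀ ω ∈ X, ω ∉ B t) → pe D a * pe D b * (1 - D ^ 2) ^ h * μ.real X ≤ μ.real (X ∩ NT B t h) := by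
  have hr0 : 0 ≤ 1 - D ^ 2 := by nlinarith
  induction h with
  | zero =>
    intro t _ _ X _ a b _ _
    have h1 : X ∩ NT B t 0 = X := by
      refine inter_eq_left.2 fun ω _ n h2 h3 => ?_
      omega
    rw [h1, pow_zero, mul_one]
    have h2 := mul_le_one₀ (pe_le hD0 a) (pe_nonneg hD1 b) (pe_le hD0 b)
    exact mul_le_of_le_one_left measureReal_nonneg h2
  | succ h ih =>
    intro t ht1 ht2 X hX a b ha hb
    have hBt := hBm (t + 1)
    have hBt' : MeasurableSet (B (t + 1)) := ℱ.le _ _ hBt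
    have hX' : MeasurableSet[ℱ (t + 1)] X := ℱ.mono (Nat.le_succ t) _ hX
    have s0 := measureReal_inter_add_sdiff (μ := μ) (s := X) hBt'
    have s1 := measureReal_inter_add_sdiff (μ := μ) (s := X ∩ NT B t (h + 1)) hBt'
    have s2 := hB t ht1 X hX
    have i0 := ih (t + 1) (by omega) (by omega) (X \ B (t + 1)) (hX'.diff hBt) b false
      (fun hb' ω hω => by
        rw [Nat.add_sub_cancel]
        exact hb hb' ω hω.1)
      (fun _ ω hω => hω.2)
    have s3 : μ.real ((X \ B (t + 1)) ∩ NT B (t + 1) h) ≤ μ.real ((X ∩ NT B t (h + 1)) \ B (t + 1)) := by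
      refine measureReal_mono ?_
      rintro ω ⟨⟨h1, h2⟩, h3⟩
      refine ⟨⟨h1, fun n h4 h5 h6 => ?_⟩, h2⟩
      by_cases h7 : n + 2 = t + 1
      · rw [h7] at h6
        exact h2 h6.2
      · exact h3 n (by omega) (by omega) h6
    have hf : pe D false = 1 := rfl
    have ht : pe D true = 1 - D := rfl
    rw [hf, mul_one] at i0
    have hb0 := pe_nonneg hD1 b
    have hrh : 0 ≤ (1 - D ^ 2) ^ h := pow_nonneg hr0 h
    set P := pe D b * (1 - D ^ 2) ^ h with hP
    have hP0 : 0 ≤ P := mul_nonneg hb0 hrh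
    set m := μ.real X with hm
    set m1 := μ.real (X ∩ B (t + 1)) with hm1
    set m2 := μ.real (X \ B (t + 1)) with hm2
    have hm0 : 0 ≤ m := measureReal_nonneg
    cases a with
    | false =>
      have i1 := ih (t + 1) (by omega) (by omega) (X ∩ B (t + 1)) (hX'.inter hBt) b true
        (fun hb' ω hω => by
          rw [Nat.add_sub_cancel]
          exact hb hb' ω hω.1)
        (fun h => by simp at h)
      have s4 : μ.real ((X ∩ B (t + 1)) ∩ NT B (t + 1) h) ≤ μ.real ((X ∩ NT B t (h + 1)) ∩ B (t + 1)) := by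
        refine measureReal_mono ?_
        rintro ω ⟨⟨h1, h2⟩, h3⟩
        refine ⟨⟨h1, fun n h4 h5 h6 => ?_⟩, h2⟩
        by_cases h7 : n + 2 = t + 1
        · have h8 : n = t - 1 := by omega
          rw [h8] at h6
          exact ha rfl ω h1 h6.1
        · exact h3 n (by omega) (by omega) h6
      rw [ht] at i1
      have e1 : pe D b * (1 - D) * (1 - D ^ 2) ^ h * m1 = P * ((1 - D) * m1) := by rw [hP]; ring
      rw [e1] at i1
      have e2 : pe D false * pe D b * (1 - D ^ 2) ^ (h + 1) * m = P * ((1 - D ^ 2) * m) := by rw [hP, hf, pow_succ]; ring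
      rw [e2]
      have e3 : (1 - D ^ 2) * m ≤ m2 + (1 - D) * m1 := by
        have : D * m1 ≤ D * (D * m) := mul_le_mul_of_nonneg_left s2 hD0
        nlinarith
      have e4 := mul_le_mul_of_nonneg_left e3 hP0
      nlinarith
    | true =>
      have e2 : pe D true * pe D b * (1 - D ^ 2) ^ (h + 1) * m = P * ((1 - D) * (1 - D ^ 2) * m) := by rw [hP, ht, pow_succ]; ring
      rw [e2]
      have e3 : (1 - D) * (1 - D ^ 2) * m ≤ m2 := by
        have h1 : (1 - D) * m ≤ m2 := by linarith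
        have h2 : (1 - D ^ 2) ≤ 1 := by nlinarith
        have h3 : 0 ≤ (1 - D) * m := mul_nonneg (by linarith) hm0
        nlinarith
      have e4 := mul_le_mul_of_nonneg_left e3 hP0
      have h5 : 0 ≤ μ.real ((X ∩ NT B t (h + 1)) ∩ B (t + 1)) := measureReal_nonneg
      linarith

lemma bc (y : ℕ → ℕ) (E : ℕ → Set Ω) (hy : Monotone y) (hE : ∀ i, MeasurableSet[ℱ (y (i + 1))] (E i)) (p : ℕ → ℝ) (i₀ : ℕ)
    (hp : ∀ i, i₀ ≤ i → ∀ X, MeasurableSet[ℱ (y i)] X → p i * μ.real X ≤ μ.real (X ∩ E i))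
    (hsum : Tendsto (fun n => ∑ i ∈ Finset.range n, p i) atTop atTop) :
    ∀ᵐ ω ∂μ, ∃ᶠ i in atTop, ω ∈ E i := by
  -- the complement up to `N + k`
  set Z : ℕ → ℕ → Set Ω := fun N k => {ω | ∀ i, N ≤ i → i < N + k → ω ∉ E i} with hZ
  have hZm : ∀ N k, MeasurableSet[ℱ (y (N + k))] (Z N k) := by
    intro N k
    have h1 : Z N k = ⋂ i ∈ Finset.Ico N (N + k), (E i)ᶜ := by
      ext ω
      simp only [hZ, Set.mem_ofPred_eq, Set.mem_iInter, Finset.mem_Ico, Set.mem_compl_iff]
      exact ⟨fun h i hi => h i hi.1 hi.2, fun h i h1 h2 => h i ⟨h1, h2⟩⟩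
    rw [h1]
    refine Finset.measurableSet_biInter _ fun i hi => ?_
    exact (ℱ.mono (hy (by have := (Finset.mem_Ico.1 hi).2; omega)) _ (hE i)).compl
  have hZb : ∀ N, i₀ ≤ N → ∀ k, μ.real (Z N k) ≤ Real.exp (-(∑ i ∈ Finset.range k, p (N + i))) := by
    intro N hN k
    induction k with
    | zero =>
      simp only [Finset.range_zero, Finset.sum_empty, neg_zero, Real.exp_zero]
      exact measureReal_le_one
    | succ k ih =>
      have h1 := hp (N + k) (by omega) (Z N k) (hZm N k)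
      have h2 := measureReal_inter_add_sdiff (μ := μ) (s := Z N k) (ℱ.le _ _ (hE (N + k)))
      have h3 : μ.real (Z N (k + 1)) ≤ μ.real (Z N k \ E (N + k)) := by
        refine measureReal_mono ?_
        intro ω hω
        exact ⟨fun i h4 h5 => hω i h4 (by omega), hω (N + k) (by omega) (by omega)⟩
      rw [Finset.sum_range_succ, neg_add, Real.exp_add]
      have h4 : 1 - p (N + k) ≤ Real.exp (-(p (N + k))) := by
        have := Real.add_one_le_exp (-(p (N + k)))
        linarith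
      have h5 : 0 ≤ μ.real (Z N k) := measureReal_nonneg
      calc μ.real (Z N (k + 1)) ≤ (1 - p (N + k)) * μ.real (Z N k) := by nlinarith
        _ ≤ Real.exp (-(p (N + k))) * μ.real (Z N k) := mul_le_mul_of_nonneg_right h4 h5
        _ ≤ Real.exp (-(p (N + k))) * Real.exp (-(∑ i ∈ Finset.range k, p (N + i))) := mul_le_mul_of_nonneg_left ih (Real.exp_pos _).le
        _ = _ := mul_comm _ _
  have hnull : ∀ N, i₀ ≤ N → μ {ω | ∀ i, N ≤ i → ω ∉ E i} = 0 := by
    intro N hN
    have h1 : Tendsto (fun k => Real.exp (-(∑ i ∈ Finset.range k, p (N + i)))) atTop (𝓝 0) := by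
      refine Real.tendsto_exp_atBot.comp (tendsto_neg_atTop_atBot.comp ?_)
      have h2 : ∀ k, ∑ i ∈ Finset.range k, p (N + i) = ∑ i ∈ Finset.range (N + k), p i - ∑ i ∈ Finset.range N, p i := by
        intro k
        rw [Finset.sum_range_add]
        ring
      simp_rw [h2]
      exact tendsto_atTop_add_const_right _ _ (hsum.comp (tendsto_atTop_mono (fun k => Nat.le_add_left k N) tendsto_id))
    have h3 : μ.real {ω | ∀ i, N ≤ i → ω ∉ E i} ≤ 0 := by
      refine ge_of_tendsto' h1 fun k => ?_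
      have h6 : {ω | ∀ i, N ≤ i → ω ∉ E i} ⊆ Z N k := fun ω hω i h4 _ => hω i h4
      exact (measureReal_mono h6).trans (hZb N hN k)
    have h4 := le_antisymm h3 measureReal_nonneg
    rwa [measureReal_eq_zero_iff] at h4
  have h5 : ∀ᵐ ω ∂μ, ∀ N, i₀ ≤ N → ∃ i, N ≤ i ∧ ω ∈ E i := by
    rw [ae_all_iff]
    intro N
    by_cases hN : i₀ ≤ N
    · have := hnull N hN
      rw [measure_eq_zero_iff_ae_notMem] at this
      filter_upwards [this] with ω hω _
      simp only [not_forall, not_not] at hω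
      obtain ⟨i, hi1, hi2⟩ := hω
      exact ⟨i, hi1, hi2⟩
    · exact Eventually.of_forall fun ω h => absurd h hN
  filter_upwards [h5] with ω hω
  rw [frequently_atTop]
  intro a
  obtain ⟨i, h1, h2⟩ := hω (max a i₀) (le_max_right _ _)
  exact ⟨i, (le_max_left _ _).trans h1, h2⟩

end Pool.Agent.R960.Fam
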