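import Mathlib
import Pool.Agent.R960.Fam.Gap
import Pool.Agent.R960.Fam.Siev

set_option autoImplicit false
set_option linter.unusedSectionVars false

/-! # Large gaps between twins in the sieved models -/

open MeasureTheory Filter Set
open scoped ENNReal Topology

namespace Pool.Agent.R960.Fam

open Pool.Agent.R528.RM

variable {Ω : Type} {m0 : MeasurableSpace Ω} {μ : Measure Ω} [IsProbabilityMeasure μ]
  {ℱ : Filtration ℕ m0} {A B : ℕ → Set Ω} {α β : Type}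

lemma rhoW_bb (W m : ℕ) : rhoW W m ≤ bb ((W : ℝ) / Nat.totient W) m := by
  unfold rhoW bb
  split_ifs
  · exact le_rfl
  · exact bb_nonneg (c := (W : ℝ) / Nat.totient W) (by positivity) m

lemma exp_low {x : ℝ} (h0 : 0 ≤ x) (h1 : x ≤ 1 / 2) : Real.exp (-(2 * x)) ≤ 1 - x := by
  have h2 := Real.add_one_le_exp (2 * x)
  rw [Real.exp_neg]
  have h3 : (Real.exp (2 * x))⁻¹ ≤ (2 * x + 1)⁻¹ := inv_anti₀ (by positivity) h2
  refine h3.trans ?_
  rw [inv_le_iff_one_le_mul₀ (by positivity)]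
  nlinarith

/-- the truncated events -/
def TB (μ : Measure Ω) (ℱ : Filtration ℕ m0) (A : ℕ → Set Ω) (c : ℝ) (n : ℕ) : Set Ω :=
  A n ∩ {ω | dens μ ℱ A (n - 1) ω ≤ 2 * bb c n}

lemma TB_meas (hA : ∀ n, MeasurableSet[ℱ n] (A n)) (c : ℝ) (n : ℕ) : MeasurableSet[ℱ n] (TB μ ℱ A c n) := by
  refine (hA n).inter ?_
  have h1 : StronglyMeasurable[ℱ n] (dens μ ℱ A (n - 1)) := (dens_meas (n - 1)).mono (ℱ.mono (by omega))
  exact h1.measurable measurableSet_Iic

lemma TB_upper (hA : ∀ n, MeasurableSet[ℱ n] (A n)) {c : ℝ} (hc : 0 < c) {T : ℕ} (hT : 2 ≤ T) (n : ℕ) (hn : T ≤ n) (X : Set Ω)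
    (hX : MeasurableSet[ℱ n] X) : μ.real (X ∩ TB μ ℱ A c (n + 1)) ≤ (2 * c / Real.log T) * μ.real X := by
  have hm : MeasurableSet[ℱ n] {ω | dens μ ℱ A n ω ≤ 2 * bb c (n + 1)} := (dens_meas n).measurable measurableSet_Iic
  have h1 : X ∩ TB μ ℱ A c (n + 1) = (X ∩ {ω | dens μ ℱ A n ω ≤ 2 * bb c (n + 1)}) ∩ A (n + 1) := by
    unfold TB
    rw [Nat.add_sub_cancel]
    ext ω
    simp only [Set.mem_inter_iff]
    tauto
  rw [h1]
  have h2 := upper_meas (μ := μ) hA n (hX.inter hm) (u := 2 * bb c (n + 1)) (fun ω hω => hω.2)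
  refine h2.trans ?_
  have hTr : (2 : ℝ) ≤ T := by exact_mod_cast hT
  have hl : 0 < Real.log (T : ℝ) := Real.log_pos (by linarith)
  have h3 : bb c (n + 1) ≤ c / Real.log T := by
    refine (min_le_right _ _).trans ?_
    refine div_le_div_of_nonneg_left hc.le hl ?_
    refine Real.log_le_log (by linarith) ?_
    exact_mod_cast (by omega : T ≤ n + 1)
  have h4 : μ.real (X ∩ {ω | dens μ ℱ A n ω ≤ 2 * bb c (n + 1)}) ≤ μ.real X := measureReal_mono inter_subset_left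
  have h5 : 2 * bb c (n + 1) ≤ 2 * c / Real.log T := by
    rw [mul_div_assoc]
    linarith
  exact mul_le_mul h5 h4 measureReal_nonneg (by positivity)

theorem twin_gaps (hA : ∀ n, MeasurableSet[ℱ n] (A n)) (Q : Finset ℕ) (hQ : ∀ p ∈ Q, p.Prime)
    (hcop : ∀ n, (∃ p ∈ Q, p ∣ n) → A n = ∅)
    (hd : ∀ᵐ ω ∂μ, Tendsto (fun n : ℕ => dens μ ℱ A n ω * Real.log n)
      (atTop ⊓ 𝓟 {n : ℕ | ∀ p ∈ Q, ¬ p ∣ n + 1}) (𝓝 (∏ p ∈ Q, (1 - 1 / (p : ℝ))⁻¹))) :
    ∃ κ : ℝ, 0 < κ ∧ ∀ᵐ ω ∂μ, ∃ᶠ y : ℕ in atTop, ∀ m : ℕ, y < m → (m : ℝ) ≤ y + κ * Real.log y ^ 3 →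
      ¬ (ω ∈ A m ∧ ω ∈ A (m + 2)) := by
  classical
  set W := ∏ p ∈ Q, p with hWdef
  have hW : 0 < W := Finset.prod_pos fun q hq => (hQ q hq).pos
  set c := (W : ℝ) / Nat.totient W with hc
  have hcpos : 0 < c := div_pos (by exact_mod_cast hW) (by exact_mod_cast Nat.totient_pos.2 hW)
  set κ₀ : ℝ := 1 / (16 * c ^ 2) with hκ₀
  have hκ₀p : 0 < κ₀ := by positivity
  refine ⟨κ₀ / 2, by positivity, ?_⟩
  set y : ℕ → ℕ := fun i => (i + 2) ^ 2 with hy
  set hh : ℕ → ℕ := fun i => min ⌊κ₀ * Real.log (y i) ^ 3⌋₊ (2 * i + 5) with hhh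
  set B := TB μ ℱ A c with hB
  have hBm : ∀ n, MeasurableSet[ℱ n] (B n) := fun n => TB_meas hA c n
  have hlogy : ∀ i, Real.log ((y i : ℕ) : ℝ) = 2 * Real.log ((i + 2 : ℕ) : ℝ) := by
    intro i
    simp only [hy]
    push_cast
    rw [Real.log_pow]
    push_cast
    ring
  have tl2 : Tendsto (fun i : ℕ => Real.log ((i + 2 : ℕ) : ℝ)) atTop atTop :=
    (Real.tendsto_log_atTop.comp (tendsto_natCast_atTop_atTop (R := ℝ))).comp (tendsto_add_atTop_nat 2)
  obtain ⟨i₀, hi₀⟩ := eventually_atTop.1 (tl2.eventually_ge_atTop (2 * c + 1))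
  have hymono : Monotone y := fun i j hij => Nat.pow_le_pow_left (by omega) 2
  have main : ∀ᵐ ω ∂μ, ∃ᶠ i in atTop, ω ∈ NT B (y i) (hh i) := by
    refine bc (μ := μ) (ℱ := ℱ) y (fun i => NT B (y i) (hh i)) hymono ?_ (fun i => 1 / 8 * (1 / ((i : ℝ) + 1))) i₀ ?_ ?_
    · intro i
      refine ℱ.mono ?_ _ (NT_meas hBm (y i) (hh i))
      have h1 : hh i ≤ 2 * i + 5 := min_le_right _ _
      simp only [hy]
      nlinarith
    · intro i hi X hX
      have hℓ := hi₀ i hi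
      set ℓ := Real.log ((i + 2 : ℕ) : ℝ) with hℓdef
      have hℓ0 : 0 < ℓ := by linarith
      set D := 2 * c / Real.log ((y i : ℕ) : ℝ) with hD
      have hDe : D = c / ℓ := by
        rw [hD, hlogy i, ← hℓdef]
        exact mul_div_mul_left c ℓ two_ne_zero
      have hD0 : 0 ≤ D := by rw [hDe]; positivity
      have hD1 : D ≤ 1 / 2 := by
        rw [hDe, div_le_iff₀ hℓ0]
        linarith
      have hy4 : 4 ≤ y i := by
        simp only [hy]
        nlinarith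
      have h1 := gap_block (μ := μ) hBm hD0 (by linarith : D ≤ 1) (y i)
        (fun n hn X hX => TB_upper hA hcpos (by omega : 2 ≤ y i) n hn X hX) (hh i) (y i) le_rfl (by omega) X hX true true
        (fun h => by simp at h) (fun h => by simp at h)
      refine le_trans (mul_le_mul_of_nonneg_right ?_ measureReal_nonneg) h1
      have ht : pe D true = 1 - D := rfl
      rw [ht]
      have h2 : (hh i : ℝ) ≤ κ₀ * (8 * ℓ ^ 3) := by
        have h3 : (hh i : ℝ) ≤ (⌊κ₀ * Real.log (y i) ^ 3⌋₊ : ℝ) := by exact_mod_cast min_le_left _ _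
        refine h3.trans ((Nat.floor_le (by rw [hlogy i]; positivity)).trans (le_of_eq ?_))
        rw [hlogy i]
        ring
      have h3 : Real.exp (-ℓ) ≤ (1 - D ^ 2) ^ hh i := by
        have h4 := exp_low (x := D ^ 2) (by positivity) (by nlinarith)
        have h5 := pow_le_pow_left₀ (Real.exp_pos _).le h4 (hh i)
        refine le_trans ?_ h5
        rw [← Real.exp_nat_mul]
        refine Real.exp_le_exp.2 ?_
        have h6 : (hh i : ℝ) * (2 * D ^ 2) ≤ κ₀ * (8 * ℓ ^ 3) * (2 * D ^ 2) := mul_le_mul_of_nonneg_right h2 (by positivity)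
        have h7 : κ₀ * (8 * ℓ ^ 3) * (2 * D ^ 2) = ℓ := by
          rw [hDe, hκ₀]
          field_simp
          ring
        linarith
      have h4 : Real.exp (-ℓ) = 1 / ((i : ℝ) + 2) := by
        rw [hℓdef, Real.exp_neg, Real.exp_log (by positivity)]
        push_cast
        rw [one_div]
      rw [h4] at h3
      have hir : (0 : ℝ) ≤ i := Nat.cast_nonneg i
      have h5 : 1 / 8 * (1 / ((i : ℝ) + 1)) ≤ 1 / 4 * (1 / ((i : ℝ) + 2)) := by
        rw [← div_eq_mul_one_div, ← div_eq_mul_one_div, div_le_div_iff₀ (by positivity) (by positivity)]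
        linarith
      refine h5.trans ?_
      have h6 : 1 / 4 ≤ (1 - D) * (1 - D) := by nlinarith
      exact mul_le_mul h6 h3 (by positivity) (by nlinarith)
    · simp_rw [← Finset.mul_sum]
      exact Real.tendsto_sum_range_one_div_nat_succ_atTop.const_mul_atTop (by norm_num)
  filter_upwards [main, prof (μ := μ) hA Q hQ hcop hd] with ω hω hpr
  have hpr1 := hpr 1 one_pos
  obtain ⟨n₀, hn₀⟩ := eventually_atTop.1 hpr1
  have hAB : ∀ n, n₀ + 1 ≤ n → ω ∈ A n → ω ∈ B n := by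
    intro n hn h
    refine ⟨h, ?_⟩
    have h1 := hn₀ (n - 1) (by omega)
    rw [Nat.sub_add_cancel (by omega : 1 ≤ n)] at h1
    have h2 := (abs_le.1 h1).2
    have h3 := rhoW_bb W n
    show dens μ ℱ A (n - 1) ω ≤ 2 * bb c n
    linarith
  have hytop : Tendsto y atTop atTop := tendsto_atTop_mono (fun i => by simp only [hy]; nlinarith : ∀ i, i ≤ y i) tendsto_id
  have ev1 : ∀ᶠ i : ℕ in atTop, κ₀ * Real.log (y i) ^ 3 ≤ 2 * i + 5 := by
    have h1 := (tendsto_add_atTop_nat 2).eventually (log_pow_le 3 (show 0 < 1 / (8 * κ₀) by positivity))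
    filter_upwards [h1] with i hi
    rw [hlogy i]
    have h2 : κ₀ * (2 * Real.log ((i + 2 : ℕ) : ℝ)) ^ 3 = 8 * κ₀ * Real.log ((i + 2 : ℕ) : ℝ) ^ 3 := by ring
    rw [h2]
    have h3 := mul_le_mul_of_nonneg_left hi (show 0 ≤ 8 * κ₀ by positivity)
    have h4 : 8 * κ₀ * (1 / (8 * κ₀) * ((i + 2 : ℕ) : ℝ)) = ((i + 2 : ℕ) : ℝ) := by field_simp
    rw [h4] at h3
    refine h3.trans ?_
    push_cast
    have : (0 : ℝ) ≤ i := Nat.cast_nonneg i
    linarith
  have ev2 : ∀ᶠ i : ℕ in atTop, 6 ≤ κ₀ * Real.log (y i) ^ 3 := by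
    have tl : Tendsto (fun i : ℕ => κ₀ * Real.log (y i) ^ 3) atTop atTop := by
      refine Tendsto.const_mul_atTop hκ₀p ?_
      exact (tendsto_pow_atTop (by norm_num)).comp ((Real.tendsto_log_atTop.comp (tendsto_natCast_atTop_atTop (R := ℝ))).comp hytop)
    exact tl.eventually_ge_atTop 6
  have fr := hω.and_eventually (ev1.and (ev2.and (hytop.eventually_ge_atTop (n₀ + 1))))
  refine hytop.frequently (fr.mono ?_)
  rintro i ⟨h1, h2, h3, h4⟩ m hm1 hm2 ⟨hA1, hA2⟩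
  have hflo : ⌊κ₀ * Real.log (y i) ^ 3⌋₊ ≤ 2 * i + 5 := by
    have h5 : (⌊κ₀ * Real.log (y i) ^ 3⌋₊ : ℝ) ≤ ((2 * i + 5 : ℕ) : ℝ) := by
      refine (Nat.floor_le (by linarith)).trans ?_
      push_cast
      exact h2
    exact_mod_cast h5
  have hhi : hh i = ⌊κ₀ * Real.log (y i) ^ 3⌋₊ := min_eq_left hflo
  have h5 : κ₀ * Real.log (y i) ^ 3 < hh i + 1 := by
    rw [hhi]
    exact Nat.lt_floor_add_one _
  have h6 : m + 2 ≤ y i + hh i := by
    have h7 : (m : ℝ) + 2 < y i + hh i + 1 := by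
      have : κ₀ / 2 * Real.log (y i) ^ 3 = κ₀ * Real.log (y i) ^ 3 - κ₀ * Real.log (y i) ^ 3 / 2 := by ring
      rw [this] at hm2
      linarith
    have h8 : ((m + 2 : ℕ) : ℝ) < ((y i + hh i + 1 : ℕ) : ℝ) := by
      push_cast
      exact h7
    have h9 : m + 2 < y i + hh i + 1 := by exact_mod_cast h8
    omega
  exact h1 m (by omega) h6 ⟨hAB m (by omega) hA1, hAB (m + 2) (by omega) hA2⟩

end Pool.Agent.R960.Fam
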