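import Mathlib
import Pool.Agent.R960.Fam.Idx
import Pool.Agent.R960.Fam.Int

set_option autoImplicit false
set_option linter.unusedSectionVars false

/-! # Twins in intervals of optimal length -/

open MeasureTheory Filter Set
open scoped ENNReal Topology

namespace Pool.Agent.R960.Fam

open Pool.Agent.R528.RM

variable {Ω : Type} {m0 : MeasurableSpace Ω} {μ : Measure Ω} [IsProbabilityMeasure μ]
  {ℱ : Filtration ℕ m0} {A B : ℕ → Set Ω} {α β : Type}

/-- expected number of twins in the window -/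
noncomputable def xw (W y h : ℕ) : ℝ := ∑ n ∈ Finset.Ioc y (y + h), rhoW W n * rhoW W (n + 2)

lemma xw_asym (Q : Finset ℕ) (hQ : ∀ p ∈ Q, p.Prime) {δ : ℝ} (hδ : 0 < δ) :
    ∀ᶠ y : ℕ in atTop, ∀ h : ℕ, h ≤ y → Real.log y ≤ h →
      |xw (∏ p ∈ Q, p) y h * Real.log y ^ 2 / h - singH Q {0, 2}| ≤ δ := by
  classical
  set W := ∏ p ∈ Q, p with hWdef
  have hW : 0 < W := Finset.prod_pos fun q hq => (hQ q hq).pos
  set c := (W : ℝ) / Nat.totient W with hc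
  have hcpos : 0 < c := div_pos (by exact_mod_cast hW) (by exact_mod_cast Nat.totient_pos.2 hW)
  set σ := singH Q {0, 2} with hσdef
  have e3 : σ = (Nat.count (good (PH {0, 2}) W) W : ℝ) / W * c ^ 2 := (singH_eq Q hQ {0, 2}).symm
  set d := (Nat.count (good (PH {0, 2}) W) W : ℝ) / W with hd
  have hd0 : 0 ≤ d := by positivity
  have hσ0 : 0 ≤ σ := by rw [e3]; positivity
  set η : ℝ := min (1 / 4) (δ / (12 * (σ + 1))) with hη
  have hη0 : 0 < η := lt_min (by norm_num) (by positivity)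
  have hη1 : η ≤ 1 / 4 := min_le_left _ _
  have hη2 : 6 * η * (σ + 1) ≤ δ / 2 := by
    have h1 : η ≤ δ / (12 * (σ + 1)) := min_le_right _ _
    rw [le_div_iff₀ (by positivity)] at h1
    linarith
  set θ : ℝ := min 1 (δ / 2) with hθ
  have hθ0 : 0 < θ := lt_min one_pos (by positivity)
  have tl := Real.tendsto_log_atTop.comp (tendsto_natCast_atTop_atTop (R := ℝ))
  filter_upwards [tl.eventually_ge_atTop (Real.log 4 / η), tl.eventually_ge_atTop (4 * c + 1), tl.eventually_ge_atTop (2 * W * c ^ 2 / θ),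
    eventually_ge_atTop 2] with y g1 g2 g3 g4 h hh1 hh2
  have g1' : Real.log 4 / η ≤ Real.log y := g1
  have g2' : 4 * c + 1 ≤ Real.log y := g2
  have g3' : 2 * W * c ^ 2 / θ ≤ Real.log y := g3
  set ℓ := Real.log (y : ℝ) with hℓ
  have hℓ0 : 0 < ℓ := by linarith
  have hh0 : (0 : ℝ) < h := by linarith
  have hyr : (2 : ℝ) ≤ y := by exact_mod_cast g4
  have hs := sum_rho hW (Finset.Ioc y (y + h)) (sh {0, 2}) (k := 2) (fun i _ => sh_card {0, 2} i) (ℓ := ℓ) (η := η) hη0.le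
    (by linarith) hℓ0 (by nlinarith) (by
      intro i hi m hm
      obtain ⟨s, hs, rfl⟩ := Finset.mem_image.1 hm
      obtain ⟨h4, h5⟩ := Finset.mem_Ioc.1 hi
      have hs2 : s ≤ 2 := by
        simp only [Finset.mem_insert, Finset.mem_singleton] at hs
        omega
      have h9 : y ≤ i + s := by omega
      have h10 : i + s ≤ 4 * y := by omega
      have h11 : ℓ ≤ Real.log ((i + s : ℕ) : ℝ) := Real.log_le_log (by linarith) (by exact_mod_cast h9)
      have h12 : Real.log ((i + s : ℕ) : ℝ) ≤ Real.log 4 + ℓ := by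
        rw [hℓ, ← Real.log_mul (by norm_num) (by linarith)]
        refine Real.log_le_log ?_ (by exact_mod_cast h10)
        have : (y : ℝ) ≤ ((i + s : ℕ) : ℝ) := by exact_mod_cast h9
        linarith
      rw [div_le_iff₀ hη0] at g1'
      rw [abs_of_nonneg (by linarith)]
      linarith)
  have hprod : ∀ i, ∏ m ∈ sh {0, 2} i, rhoW W m = rhoW W i * rhoW W (i + 2) := by
    intro i
    unfold sh
    rw [Finset.prod_image (fun a _ b _ hab => Nat.add_left_cancel hab), Finset.prod_pair (by norm_num), add_zero]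
  simp_rw [hprod] at hs
  have hgd := gd_interval Q hQ {0, 2} y h
  rw [← hWdef, ← hd] at hgd
  set g := (gd W (Finset.Ioc y (y + h)) (sh {0, 2}) : ℝ) with hg
  have hg0 : 0 ≤ g := Nat.cast_nonneg _
  change g * ((c / ℓ) ^ 2 * ((1 + η) ^ 2)⁻¹) ≤ xw W y h ∧ xw W y h ≤ g * ((c / ℓ) ^ 2 * ((1 - η) ^ 2)⁻¹) at hs
  obtain ⟨s1, s2⟩ := hs
  -- the normalized main term
  set v := c ^ 2 * g / h with hv
  have hv0 : 0 ≤ v := by positivity
  have hvσ : |v - σ| ≤ θ := by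
    have e4 : v - σ = c ^ 2 * ((g - h * d) / h) := by
      rw [hv, e3]
      field_simp
    rw [e4, abs_mul, abs_of_pos (by positivity : 0 < c ^ 2), abs_div, abs_of_pos hh0]
    have h4 : |g - h * d| / h ≤ 2 * W / h := div_le_div_of_nonneg_right hgd hh0.le
    have h5 : 2 * W * c ^ 2 / θ ≤ h := g3'.trans hh2
    rw [div_le_iff₀ hθ0] at h5
    calc c ^ 2 * (|g - h * d| / h) ≤ c ^ 2 * (2 * W / h) := mul_le_mul_of_nonneg_left h4 (by positivity)
      _ ≤ θ := by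
          rw [← mul_div_assoc, div_le_iff₀ hh0]
          linarith
  have f1 : v * ((1 + η) ^ 2)⁻¹ ≤ xw W y h * ℓ ^ 2 / h := by
    rw [le_div_iff₀ hh0]
    have := mul_le_mul_of_nonneg_right s1 (by positivity : 0 ≤ ℓ ^ 2)
    have e : g * ((c / ℓ) ^ 2 * ((1 + η) ^ 2)⁻¹) * ℓ ^ 2 = v * ((1 + η) ^ 2)⁻¹ * h := by
      rw [hv]
      field_simp
    linarith
  have f2 : xw W y h * ℓ ^ 2 / h ≤ v * ((1 - η) ^ 2)⁻¹ := by
    rw [div_le_iff₀ hh0]
    have := mul_le_mul_of_nonneg_right s2 (by positivity : 0 ≤ ℓ ^ 2)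
    have h1η : 0 < 1 - η := by linarith
    have e : g * ((c / ℓ) ^ 2 * ((1 - η) ^ 2)⁻¹) * ℓ ^ 2 = v * ((1 - η) ^ 2)⁻¹ * h := by
      rw [hv]
      field_simp
    linarith
  have f3 : 1 - 2 * η ≤ ((1 + η) ^ 2)⁻¹ := by
    rw [← one_div, le_div_iff₀ (by positivity)]
    nlinarith [mul_pos hη0 hη0, mul_pos (mul_pos hη0 hη0) hη0]
  have f4 : ((1 - η) ^ 2)⁻¹ ≤ 1 + 6 * η := by
    have h1η : 0 < 1 - η := by linarith
    rw [inv_le_iff_one_le_mul₀ (by positivity)]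
    nlinarith [mul_pos hη0 hη0, mul_nonneg (mul_nonneg hη0.le hη0.le) (by linarith : (0 : ℝ) ≤ 1 / 4 - η)]
  have hθ1 : θ ≤ 1 := min_le_left _ _
  have hθ2 : θ ≤ δ / 2 := min_le_right _ _
  have k1 := abs_le.1 hvσ
  have f5 := mul_le_mul_of_nonneg_left f3 hv0
  have f6 := mul_le_mul_of_nonneg_left f4 hv0
  have hvle : v ≤ σ + 1 := by linarith [k1.2]
  have f7 : 6 * η * v ≤ δ / 2 := (mul_le_mul_of_nonneg_left hvle (by positivity)).trans hη2
  rw [abs_le]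
  constructor
  · nlinarith
  · nlinarith

theorem twin_sharp (hA : ∀ n, MeasurableSet[ℱ n] (A n)) (Q : Finset ℕ) (hQ : ∀ p ∈ Q, p.Prime)
    (hcop : ∀ n, (∃ p ∈ Q, p ∣ n) → A n = ∅)
    (hd : ∀ᵐ ω ∂μ, Tendsto (fun n : ℕ => dens μ ℱ A n ω * Real.log n)
      (atTop ⊓ 𝓟 {n : ℕ | ∀ p ∈ Q, ¬ p ∣ n + 1}) (𝓝 (∏ p ∈ Q, (1 - 1 / (p : ℝ))⁻¹))) :
    ∀ᵐ ω ∂μ, ∀ ε : ℝ, 0 < ε → ∃ K : ℝ, 0 < K ∧ ∀ᶠ y : ℕ in atTop, ∀ h : ℕ, h ≤ y → K * Real.log y ^ 3 ≤ h →
      |(cntI {n | ω ∈ A n} {0, 2} y h : ℝ) * Real.log y ^ 2 / h - singH Q {0, 2}| ≤ ε := by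
  classical
  set W := ∏ p ∈ Q, p with hWdef
  have hρ : ∀ n, 0 ≤ rhoW W n ∧ rhoW W n ≤ 1 := fun n => ⟨rhoW_nonneg W n, rhoW_le W n⟩
  have hprof := prof (μ := μ) hA Q hQ hcop hd
  set Φ : ℕ → Finset (ℕ × ℕ) := fun n => ({n} : Finset ℕ) ×ˢ Finset.range (n + 1) with hΦ
  have hc : ∀ᶠ n : ℕ in atTop, (Φ n).card ≤ n ^ 2 := by
    filter_upwards [eventually_ge_atTop 2] with x hx
    have h1 : (Φ x).card = x + 1 := by
      simp only [hΦ, Finset.card_product, Finset.card_singleton, one_mul, Finset.card_range]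
    rw [h1]
    nlinarith
  have key := pair_fam (μ := μ) hA hρ hprof 2 Φ hc (fun a n _ => if a.1 < n ∧ n ≤ a.1 + a.2 then 1 else 0)
    (fun a n => @stronglyMeasurable_const _ _ (ℱ (n - 1)) _ _)
    (fun a ω => by
      show (if a.1 < 0 ∧ 0 ≤ a.1 + a.2 then (1 : ℝ) else 0) = 0
      rw [if_neg (by omega)])
    (fun a n ω => by
      show 0 ≤ (if a.1 < n ∧ n ≤ a.1 + a.2 then (1 : ℝ) else 0) ∧ (if a.1 < n ∧ n ≤ a.1 + a.2 then (1 : ℝ) else 0) ≤ 1
      split_ifs <;> norm_num)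
    (fun a => a.1 + a.2 + 1) (fun a => by omega)
  filter_upwards [key] with ω hω ε hε
  set σ := singH Q {0, 2} with hσdef
  have hσ0 : 0 ≤ σ := by
    have e3 : σ = (Nat.count (good (PH {0, 2}) W) W : ℝ) / W * ((W : ℝ) / Nat.totient W) ^ 2 := (singH_eq Q hQ {0, 2}).symm
    rw [e3]
    positivity
  obtain ⟨K₀, hK₀, hk⟩ := hω (ε / (3 * (σ + 2))) (by positivity)
  set δ : ℝ := min 1 (ε / 3) with hδ
  have hδ0 : 0 < δ := lt_min one_pos (by positivity)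
  refine ⟨3 * K₀ / ε + 1, by positivity, ?_⟩
  have tl := Real.tendsto_log_atTop.comp (tendsto_natCast_atTop_atTop (R := ℝ))
  filter_upwards [hk, xw_asym Q hQ hδ0, tl.eventually_ge_atTop 1] with y g1 g2 g3 h hh1 hh2
  have g3' : 1 ≤ Real.log y := g3
  set ℓ := Real.log (y : ℝ) with hℓ
  have hℓ3 : ℓ ≤ ℓ ^ 3 := le_self_pow₀ g3' (by norm_num)
  have hh3 : ℓ ^ 3 ≤ h := by
    refine le_trans ?_ hh2
    have : 0 ≤ 3 * K₀ / ε * ℓ ^ 3 := by positivity
    nlinarith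
  have hh0 : (0 : ℝ) < h := by linarith
  have h1 := g1 (y, h) (by
    simp only [hΦ, Finset.mem_product, Finset.mem_singleton, Finset.mem_range, true_and]
    omega)
  have h2 := g2 h hh1 (hℓ3.trans hh3)
  have eIoc : (Finset.range (y + h + 1)).filter (fun n => y < n ∧ n ≤ y + h) = Finset.Ioc y (y + h) := by
    ext n
    simp only [Finset.mem_filter, Finset.mem_range, Finset.mem_Ioc]
    omega
  have e1 : ∑ n ∈ Finset.range (y + h + 1), (if y < n ∧ n ≤ y + h then (1 : ℝ) else 0) * In A n ω * In A (n + 2) ω =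
      (cntI {n | ω ∈ A n} {0, 2} y h : ℝ) := by
    have s1 : ∀ n, (if y < n ∧ n ≤ y + h then (1 : ℝ) else 0) * In A n ω * In A (n + 2) ω =
        if (y < n ∧ n ≤ y + h) ∧ ω ∈ A n ∧ ω ∈ A (n + 2) then 1 else 0 := by
      intro n
      unfold In
      by_cases q1 : y < n ∧ n ≤ y + h <;> by_cases q2 : ω ∈ A n <;> by_cases q3 : ω ∈ A (n + 2) <;> simp [q1, q2, q3]
    simp_rw [s1]
    rw [Finset.sum_boole]
    congr 1
    unfold cntI
    rw [← Set.ncard_coe_finset]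
    congr 1
    ext n
    simp only [Finset.coe_filter, Finset.mem_range, Set.mem_ofPred_eq, Finset.mem_insert, Finset.mem_singleton, forall_eq_or_imp, forall_eq,
      add_zero]
    constructor
    · rintro ⟨q1, q2, q3⟩
      exact ⟨q2, q3⟩
    · rintro ⟨q2, q3⟩
      exact ⟨by omega, q2, q3⟩
  have e2 : ∑ n ∈ Finset.range (y + h + 1), (if y < n ∧ n ≤ y + h then (1 : ℝ) else 0) * rhoW W n * rhoW W (n + 2) = xw W y h := by
    unfold xw
    rw [← eIoc, Finset.sum_filter]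
    refine Finset.sum_congr rfl fun n _ => ?_
    split_ifs <;> ring
  simp only at h1
  rw [e1, e2] at h1
  set N := (cntI {n | ω ∈ A n} {0, 2} y h : ℝ) with hN
  set X := xw W y h with hX
  have hℓ0 : 0 < ℓ := by linarith
  have hw : 0 < ℓ ^ 2 / h := by positivity
  have h3 : |N * ℓ ^ 2 / h - X * ℓ ^ 2 / h| ≤ ε / (3 * (σ + 2)) * (X * ℓ ^ 2 / h) + ε / 3 := by
    have q1 : N * ℓ ^ 2 / h - X * ℓ ^ 2 / h = (N - X) * (ℓ ^ 2 / h) := by ring
    rw [q1, abs_mul, abs_of_pos hw]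
    have q2 := mul_le_mul_of_nonneg_right h1 hw.le
    refine q2.trans ?_
    have q3 : K₀ * ℓ * (ℓ ^ 2 / h) ≤ ε / 3 := by
      rw [← mul_div_assoc, div_le_iff₀ hh0]
      have q4 : 3 * K₀ / ε * ℓ ^ 3 ≤ h := by
        refine le_trans ?_ hh2
        have : 0 ≤ ℓ ^ 3 := by positivity
        nlinarith
      have q5 : K₀ * ℓ * ℓ ^ 2 = ε / 3 * (3 * K₀ / ε * ℓ ^ 3) := by field_simp
      rw [q5]
      exact mul_le_mul_of_nonneg_left q4 (by positivity)
    have q6 : (ε / (3 * (σ + 2)) * X + K₀ * ℓ) * (ℓ ^ 2 / h) = ε / (3 * (σ + 2)) * (X * ℓ ^ 2 / h) + K₀ * ℓ * (ℓ ^ 2 / h) := by ring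
    rw [q6]
    linarith
  have h4 := abs_le.1 h2
  have hδ1 : δ ≤ 1 := min_le_left _ _
  have hδ2 : δ ≤ ε / 3 := min_le_right _ _
  have h5 : ε / (3 * (σ + 2)) * (X * ℓ ^ 2 / h) ≤ ε / 3 := by
    have q1 : X * ℓ ^ 2 / h ≤ σ + 2 := by linarith [h4.2]
    have q2 := mul_le_mul_of_nonneg_left q1 (by positivity : 0 ≤ ε / (3 * (σ + 2)))
    have q3 : ε / (3 * (σ + 2)) * (σ + 2) = ε / 3 := by field_simp
    linarith
  have h6 := abs_le.1 h3
  rw [abs_le]
  constructor <;> linarith [h6.1, h6.2, h4.1, h4.2]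

end Pool.Agent.R960.Fam
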