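import Mathlib
import Pool.Agent.R960.Fam.Gap2
import Pool.Agent.R960.Fam.Sharp

set_option autoImplicit false
set_option linter.unusedSectionVars false

/-! # The probability of no twins in an interval, sharp bounds -/

open MeasureTheory Filter Set
open scoped ENNReal Topology

namespace Pool.Agent.R960.Fam

open Pool.Agent.R528.RM

variable {Ω : Type} {m0 : MeasurableSpace Ω} {μ : Measure Ω} [IsProbabilityMeasure μ]
  {ℱ : Filtration ℕ m0} {A B : ℕ → Set Ω} {α β : Type}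

/-- the product of the factors `1 - D_s E_{s+2}` over `s ∈ (t, t + h]` -/
noncomputable def Rp (D E : ℕ → ℝ) (t h : ℕ) : ℝ := ∏ s ∈ Finset.Ioc t (t + h), (1 - D s * E (s + 2))

lemma Rp_zero (D E : ℕ → ℝ) (t : ℕ) : Rp D E t 0 = 1 := by
  unfold Rp
  simp

lemma Rp_succ (D E : ℕ → ℝ) (t h : ℕ) : Rp D E t (h + 1) = (1 - D (t + 1) * E (t + 3)) * Rp D E (t + 1) h := by
  unfold Rp
  have h1 : Finset.Ioc t (t + (h + 1)) = insert (t + 1) (Finset.Ioc (t + 1) (t + 1 + h)) := by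
    ext s
    simp only [Finset.mem_Ioc, Finset.mem_insert]
    omega
  rw [h1, Finset.prod_insert (by simp)]

lemma Rp_nonneg {D E : ℕ → ℝ} (h : ∀ s t, D s * E t ≤ 1) (t k : ℕ) : 0 ≤ Rp D E t k :=
  Finset.prod_nonneg fun s _ => by linarith [h s (s + 2)]

theorem gap_lo (hBm : ∀ n, MeasurableSet[ℱ n] (B n)) (D : ℕ → ℝ) (hD0 : ∀ n, 0 ≤ D n) (hD1 : ∀ n, D n ≤ 1) (T : ℕ)
    (hB : ∀ n, T ≤ n → ∀ X, MeasurableSet[ℱ n] X → μ.real (X ∩ B (n + 1)) ≤ D (n + 1) * μ.real X) (h : ℕ) :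
    ∀ t, T ≤ t → 1 ≤ t → ∀ X, MeasurableSet[ℱ t] X → ∀ a b : Bool, (a = false → ∀ ω ∈ X, ω ∉ B (t - 1)) →
      (b = false → ∀ ω ∈ X, ω ∉ B t) → pe (D (t + 1)) a * pe (D (t + 2)) b * Rp D D t h * μ.real X ≤ μ.real (X ∩ NT B t h) := by
  have hDD : ∀ s t, D s * D t ≤ 1 := fun s t => mul_le_one₀ (hD1 s) (hD0 t) (hD1 t)
  induction h with
  | zero =>
    intro t _ _ X _ a b _ _
    have h1 : X ∩ NT B t 0 = X := by
      refine inter_eq_left.2 fun ω _ n h2 h3 => ?_
      omega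
    rw [h1, Rp_zero, mul_one]
    have h2 := mul_le_one₀ (pe_le (hD0 (t + 1)) a) (pe_nonneg (hD1 (t + 2)) b) (pe_le (hD0 (t + 2)) b)
    exact mul_le_of_le_one_left measureReal_nonneg h2
  | succ h ih =>
    intro t ht1 ht2 X hX a b ha hb
    have hBt := hBm (t + 1)
    have hBt' : MeasurableSet (B (t + 1)) := ℱ.le _ _ hBt
    have hX' : MeasurableSet[ℱ (t + 1)] X := ℱ.mono (Nat.le_succ t) _ hX
    have s0 := measureReal_inter_add_sdiff (μ := μ) (s := X) hBt'
    have s1 := measureReal_inter_add_sdiff (μ := μ) (s := X ∩ NT B t (h + 1)) hBt'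
    have s2 := hB t ht1 X hX
    have i0 := ih (t + 1) (by omega) (by omega) (X \ B (t + 1)) (hX'.diff hBt) b false
      (fun hb' ω hω => by
        rw [Nat.add_sub_cancel]
        exact hb hb' ω hω.1)
      (fun _ ω hω => hω.2)
    have s3 : μ.real ((X \ B (t + 1)) ∩ NT B (t + 1) h) ≤ μ.real ((X ∩ NT B t (h + 1)) \ B (t + 1)) := by
      refine measureReal_mono ?_
      rintro ω ⟨⟨h1, h2⟩, h3⟩
      refine ⟨⟨h1, fun n h4 h5 h6 => ?_⟩, h2⟩
      by_cases h7 : n + 2 = t + 1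
      · rw [h7] at h6
        exact h2 h6.2
      · exact h3 n (by omega) (by omega) h6
    have hf : ∀ x, pe x false = 1 := fun x => rfl
    have ht : ∀ x, pe x true = 1 - x := fun x => rfl
    rw [hf, mul_one] at i0
    have hb0 := pe_nonneg (hD1 (t + 2)) b
    have hrh : 0 ≤ Rp D D (t + 1) h := Rp_nonneg hDD _ _
    set P := pe (D (t + 2)) b * Rp D D (t + 1) h with hP
    have hP0 : 0 ≤ P := mul_nonneg hb0 hrh
    change P * μ.real (X \ B (t + 1)) ≤ _ at i0
    set m := μ.real X with hm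
    set m1 := μ.real (X ∩ B (t + 1)) with hm1
    set m2 := μ.real (X \ B (t + 1)) with hm2
    have hm0 : 0 ≤ m := measureReal_nonneg
    have hm10 : 0 ≤ m1 := measureReal_nonneg
    have d1 := hD0 (t + 1)
    have d2 := hD0 (t + 3)
    have d3 := hD1 (t + 1)
    have d4 := hD1 (t + 3)
    cases a with
    | false =>
      have i1 := ih (t + 1) (by omega) (by omega) (X ∩ B (t + 1)) (hX'.inter hBt) b true
        (fun hb' ω hω => by
          rw [Nat.add_sub_cancel]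
          exact hb hb' ω hω.1)
        (fun h => by simp at h)
      have s4 : μ.real ((X ∩ B (t + 1)) ∩ NT B (t + 1) h) ≤ μ.real ((X ∩ NT B t (h + 1)) ∩ B (t + 1)) := by
        refine measureReal_mono ?_
        rintro ω ⟨⟨h1, h2⟩, h3⟩
        refine ⟨⟨h1, fun n h4 h5 h6 => ?_⟩, h2⟩
        by_cases h7 : n + 2 = t + 1
        · have h8 : n = t - 1 := by omega
          rw [h8] at h6
          exact ha rfl ω h1 h6.1
        · exact h3 n (by omega) (by omega) h6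
      rw [ht] at i1
      have e1 : pe (D (t + 1 + 1)) b * (1 - D (t + 1 + 2)) * Rp D D (t + 1) h * m1 = P * ((1 - D (t + 3)) * m1) := by rw [hP]; ring
      rw [e1] at i1
      have e2 : pe (D (t + 1)) false * pe (D (t + 2)) b * Rp D D t (h + 1) * m = P * ((1 - D (t + 1) * D (t + 3)) * m) := by
        rw [hP, hf, Rp_succ]; ring
      rw [e2]
      have e3 : (1 - D (t + 1) * D (t + 3)) * m ≤ m2 + (1 - D (t + 3)) * m1 := by
        have : D (t + 3) * m1 ≤ D (t + 3) * (D (t + 1) * m) := mul_le_mul_of_nonneg_left s2 d2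
        nlinarith
      have e4 := mul_le_mul_of_nonneg_left e3 hP0
      nlinarith
    | true =>
      have e2 : pe (D (t + 1)) true * pe (D (t + 2)) b * Rp D D t (h + 1) * m =
          P * ((1 - D (t + 1)) * (1 - D (t + 1) * D (t + 3)) * m) := by rw [hP, ht, Rp_succ]; ring
      rw [e2]
      have e3 : (1 - D (t + 1)) * (1 - D (t + 1) * D (t + 3)) * m ≤ m2 := by
        have h1 : (1 - D (t + 1)) * m ≤ m2 := by linarith
        have h2 : (1 - D (t + 1) * D (t + 3)) ≤ 1 := by nlinarith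
        have h3 : 0 ≤ (1 - D (t + 1)) * m := mul_nonneg (by linarith) hm0
        nlinarith
      have e4 := mul_le_mul_of_nonneg_left e3 hP0
      have h5 : 0 ≤ μ.real ((X ∩ NT B t (h + 1)) ∩ B (t + 1)) := measureReal_nonneg
      linarith

theorem gap_up (hBm : ∀ n, MeasurableSet[ℱ n] (B n)) (D : ℕ → ℝ) (η : ℝ) (hη0 : 0 ≤ η) (hη1 : η ≤ 1 / 2)
    (hD0 : ∀ n, 0 ≤ D n) (T : ℕ) (hD1 : ∀ n, T ≤ n → D n ≤ η)
    (hB : ∀ n, T ≤ n → ∀ X, MeasurableSet[ℱ n] X → D (n + 1) * μ.real X ≤ μ.real (X ∩ B (n + 1))) (h : ℕ) :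
    ∀ t, T ≤ t → 1 ≤ t → ∀ X, MeasurableSet[ℱ t] X → ∀ a b : Bool, (a = true → ∀ ω ∈ X, ω ∈ B (t - 1)) →
      (b = true → ∀ ω ∈ X, ω ∈ B t) → μ.real (X ∩ NT B t h) ≤
        4 * (pe ((1 - η) * D (t + 1)) a * pe ((1 - η) * D (t + 2)) b * Rp D (fun s => (1 - η) * D s) t h) * μ.real X := by
  set x : ℕ → ℝ := fun s => (1 - η) * D s with hx
  have hx0 : ∀ n, 0 ≤ x n := fun n => mul_nonneg (by linarith) (hD0 n)
  have hxD : ∀ n, x n ≤ D n := fun n => mul_le_of_le_one_left (hD0 n) (by linarith)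
  have hx2 : ∀ n, T ≤ n → x n ≤ 1 / 2 := fun n hn => (hxD n).trans ((hD1 n hn).trans hη1)
  have hR : ∀ t h, T ≤ t → 0 ≤ Rp D x t h := by
    intro t h ht
    refine Finset.prod_nonneg fun s hs => ?_
    have h1 := (Finset.mem_Ioc.1 hs).1
    have h2 := mul_le_one₀ ((hD1 s (by omega)).trans (by linarith : η ≤ 1)) (hx0 (s + 2)) ((hx2 (s + 2) (by omega)).trans (by norm_num))
    linarith
  have hf : ∀ x, pe x false = 1 := fun x => rfl
  have htr : ∀ x, pe x true = 1 - x := fun x => rfl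
  have hpe : ∀ n a, T ≤ n → 1 / 2 ≤ pe (x n) a := by
    intro n a hn
    have := hx2 n hn
    cases a
    · rw [hf]; norm_num
    · rw [htr]; linarith
  change ∀ t, T ≤ t → 1 ≤ t → ∀ X, MeasurableSet[ℱ t] X → ∀ a b : Bool, (a = true → ∀ ω ∈ X, ω ∈ B (t - 1)) →
      (b = true → ∀ ω ∈ X, ω ∈ B t) → μ.real (X ∩ NT B t h) ≤ 4 * (pe (x (t + 1)) a * pe (x (t + 2)) b * Rp D x t h) * μ.real X
  induction h with
  | zero =>
    intro t ht1 ht2 X hX a b ha hb
    have h1 : μ.real (X ∩ NT B t 0) ≤ μ.real X := measureReal_mono inter_subset_left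
    rw [Rp_zero, mul_one]
    have h2 : 1 / 4 ≤ pe (x (t + 1)) a * pe (x (t + 2)) b := by
      have h3 := mul_le_mul (hpe (t + 1) a (by omega)) (hpe (t + 2) b (by omega)) (by norm_num) (by linarith [hpe (t + 1) a (by omega)])
      linarith
    have h4 : 0 ≤ μ.real X := measureReal_nonneg
    nlinarith
  | succ h ih =>
    intro t ht1 ht2 X hX a b ha hb
    have hBt := hBm (t + 1)
    have hBt' : MeasurableSet (B (t + 1)) := ℱ.le _ _ hBt
    have hX' : MeasurableSet[ℱ (t + 1)] X := ℱ.mono (Nat.le_succ t) _ hX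
    have s0 := measureReal_inter_add_sdiff (μ := μ) (s := X) hBt'
    have s1 := measureReal_inter_add_sdiff (μ := μ) (s := X ∩ NT B t (h + 1)) hBt'
    have s2 := hB t ht1 X hX
    have i0 := ih (t + 1) (by omega) (by omega) (X \ B (t + 1)) (hX'.diff hBt) b false
      (fun hb' ω hω => by
        rw [Nat.add_sub_cancel]
        exact hb hb' ω hω.1)
      (fun h => by simp at h)
    have s3 : μ.real ((X ∩ NT B t (h + 1)) \ B (t + 1)) ≤ μ.real ((X \ B (t + 1)) ∩ NT B (t + 1) h) := by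
      refine measureReal_mono ?_
      rintro ω ⟨⟨h1, h2⟩, h3⟩
      exact ⟨⟨h1, h3⟩, fun n h4 h5 => h2 n (by omega) (by omega)⟩
    rw [hf, mul_one] at i0
    have hb0 : 0 ≤ pe (x (t + 2)) b := by linarith [hpe (t + 2) b (by omega)]
    have hrh : 0 ≤ Rp D x (t + 1) h := hR _ _ (by omega)
    set P := pe (x (t + 2)) b * Rp D x (t + 1) h with hP
    have hP0 : 0 ≤ P := mul_nonneg hb0 hrh
    change _ ≤ 4 * P * μ.real (X \ B (t + 1)) at i0
    set m := μ.real X with hm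
    set m1 := μ.real (X ∩ B (t + 1)) with hm1
    set m2 := μ.real (X \ B (t + 1)) with hm2
    have hm0 : 0 ≤ m := measureReal_nonneg
    have hm10 : 0 ≤ m1 := measureReal_nonneg
    have d1 := hD0 (t + 1)
    have d2 := hx0 (t + 3)
    have d3 := hD1 (t + 1) (by omega)
    have d4 := hx2 (t + 3) (by omega)
    have d5 : x (t + 3) ≤ η := (hxD _).trans (hD1 _ (by omega))
    cases a with
    | false =>
      have i1 := ih (t + 1) (by omega) (by omega) (X ∩ B (t + 1)) (hX'.inter hBt) b true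
        (fun hb' ω hω => by
          rw [Nat.add_sub_cancel]
          exact hb hb' ω hω.1)
        (fun _ ω hω => hω.2)
      have s4 : μ.real ((X ∩ NT B t (h + 1)) ∩ B (t + 1)) ≤ μ.real ((X ∩ B (t + 1)) ∩ NT B (t + 1) h) := by
        refine measureReal_mono ?_
        rintro ω ⟨⟨h1, h2⟩, h3⟩
        exact ⟨⟨h1, h3⟩, fun n h4 h5 => h2 n (by omega) (by omega)⟩
      rw [htr] at i1
      have e1 : 4 * (pe (x (t + 1 + 1)) b * (1 - x (t + 1 + 2)) * Rp D x (t + 1) h) * m1 = 4 * P * ((1 - x (t + 3)) * m1) := by rw [hP]; ring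
      rw [e1] at i1
      have e2 : 4 * (pe (x (t + 1)) false * pe (x (t + 2)) b * Rp D x t (h + 1)) * m = 4 * P * ((1 - D (t + 1) * x (t + 3)) * m) := by
        rw [hP, hf, Rp_succ]; ring
      rw [e2]
      have e3 : m2 + (1 - x (t + 3)) * m1 ≤ (1 - D (t + 1) * x (t + 3)) * m := by
        have : x (t + 3) * (D (t + 1) * m) ≤ x (t + 3) * m1 := mul_le_mul_of_nonneg_left s2 d2
        nlinarith
      have e4 := mul_le_mul_of_nonneg_left e3 (by positivity : 0 ≤ 4 * P)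
      nlinarith
    | true =>
      have s4 : μ.real ((X ∩ NT B t (h + 1)) ∩ B (t + 1)) = 0 := by
        have : (X ∩ NT B t (h + 1)) ∩ B (t + 1) = ∅ := by
          refine Set.eq_empty_of_forall_notMem ?_
          rintro ω ⟨⟨h1, h2⟩, h3⟩
          refine h2 (t - 1) (by omega) (by omega) ⟨ha rfl ω h1, ?_⟩
          rw [show t - 1 + 2 = t + 1 by omega]
          exact h3
        rw [this, measureReal_empty]
      have e2 : 4 * (pe (x (t + 1)) true * pe (x (t + 2)) b * Rp D x t (h + 1)) * m =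
          4 * P * ((1 - x (t + 1)) * (1 - D (t + 1) * x (t + 3)) * m) := by rw [hP, htr, Rp_succ]; ring
      rw [e2]
      have e3 : m2 ≤ (1 - x (t + 1)) * (1 - D (t + 1) * x (t + 3)) * m := by
        have h1 : m2 ≤ (1 - D (t + 1)) * m := by linarith
        have h2 : 1 - D (t + 1) ≤ (1 - x (t + 1)) * (1 - D (t + 1) * x (t + 3)) := by
          have h3 : x (t + 1) = (1 - η) * D (t + 1) := rfl
          have h4 : D (t + 1) * x (t + 3) ≤ D (t + 1) * η := mul_le_mul_of_nonneg_left d5 d1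
          have h5 : 0 ≤ x (t + 1) * (D (t + 1) * x (t + 3)) := mul_nonneg (hx0 _) (mul_nonneg d1 d2)
          nlinarith
        exact h1.trans (mul_le_mul_of_nonneg_right h2 hm0)
      have e4 := mul_le_mul_of_nonneg_left e3 (by positivity : 0 ≤ 4 * P)
      linarith

lemma Rp_exp_up {D E : ℕ → ℝ} (t k : ℕ) (h1 : ∀ s ∈ Finset.Ioc t (t + k), D s * E (s + 2) ≤ 1) :
    Rp D E t k ≤ Real.exp (-(∑ s ∈ Finset.Ioc t (t + k), D s * E (s + 2))) := by
  unfold Rp
  rw [← Finset.sum_neg_distrib, Real.exp_sum]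
  refine Finset.prod_le_prod (fun s hs => by linarith [h1 s hs]) fun s _ => ?_
  have := Real.add_one_le_exp (-(D s * E (s + 2)))
  linarith

lemma exp_low' {x θ : ℝ} (h0 : 0 ≤ x) (hθ0 : 0 ≤ θ) (hθ1 : θ ≤ 1) (h1 : 2 * x ≤ θ) : Real.exp (-((1 + θ) * x)) ≤ 1 - x := by
  have h2 := Real.add_one_le_exp ((1 + θ) * x)
  rw [Real.exp_neg]
  have h3 : (Real.exp ((1 + θ) * x))⁻¹ ≤ ((1 + θ) * x + 1)⁻¹ := inv_anti₀ (by positivity) h2
  refine h3.trans ?_
  rw [inv_le_iff_one_le_mul₀ (by positivity)]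
  nlinarith [mul_nonneg hθ0 h0, mul_nonneg h0 h0, mul_nonneg (mul_nonneg hθ0 h0) h0]

lemma Rp_exp_lo {D : ℕ → ℝ} (t k : ℕ) {θ : ℝ} (hθ0 : 0 ≤ θ) (hθ1 : θ ≤ 1) (h0 : ∀ s, 0 ≤ D s)
    (h1 : ∀ s ∈ Finset.Ioc t (t + k), 2 * (D s * D (s + 2)) ≤ θ) :
    Real.exp (-((1 + θ) * ∑ s ∈ Finset.Ioc t (t + k), D s * D (s + 2))) ≤ Rp D D t k := by
  unfold Rp
  rw [Finset.mul_sum, ← Finset.sum_neg_distrib, Real.exp_sum]
  refine Finset.prod_le_prod (fun s _ => (Real.exp_pos _).le) fun s hs => ?_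
  exact exp_low' (mul_nonneg (h0 s) (h0 (s + 2))) hθ0 hθ1 (h1 s hs)

end Pool.Agent.R960.Fam
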