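import Mathlib
import Pool.Agent.R960.Fam.Gap3

set_option autoImplicit false
set_option linter.unusedSectionVars false

/-! # The exact size of the largest gaps between twins, upper bound -/

open MeasureTheory Filter Set
open scoped ENNReal Topology

namespace Pool.Agent.R960.Fam

open Pool.Agent.R528.RM

variable {Ω : Type} {m0 : MeasurableSpace Ω} {μ : Measure Ω} [IsProbabilityMeasure μ]
  {ℱ : Filtration ℕ m0} {A B : ℕ → Set Ω} {α β : Type}

/-- the enlarged events -/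
def LB (μ : Measure Ω) (ℱ : Filtration ℕ m0) (A : ℕ → Set Ω) (D : ℕ → ℝ) (n : ℕ) : Set Ω :=
  A n ∪ {ω | dens μ ℱ A (n - 1) ω < D n}

lemma LB_meas (hA : ∀ n, MeasurableSet[ℱ n] (A n)) (D : ℕ → ℝ) (n : ℕ) : MeasurableSet[ℱ n] (LB μ ℱ A D n) := by
  refine (hA n).union ?_
  have h1 : StronglyMeasurable[ℱ n] (dens μ ℱ A (n - 1)) := (dens_meas (n - 1)).mono (ℱ.mono (by omega))
  exact h1.measurable measurableSet_Iio

lemma LB_lower (hA : ∀ n, MeasurableSet[ℱ n] (A n)) {D : ℕ → ℝ} (hD : ∀ n, D n ≤ 1) (n : ℕ) (X : Set Ω)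
    (hX : MeasurableSet[ℱ n] X) : D (n + 1) * μ.real X ≤ μ.real (X ∩ LB μ ℱ A D (n + 1)) := by
  set Bad := {ω | dens μ ℱ A n ω < D (n + 1)} with hBad
  have hm : MeasurableSet[ℱ n] Bad := (dens_meas n).measurable measurableSet_Iio
  have hm' : MeasurableSet Bad := ℱ.le _ _ hm
  have s0 := measureReal_inter_add_sdiff (μ := μ) (s := X) hm'
  have s1 := measureReal_inter_add_sdiff (μ := μ) (s := X ∩ LB μ ℱ A D (n + 1)) hm'
  have s2 : μ.real (X ∩ Bad) ≤ μ.real ((X ∩ LB μ ℱ A D (n + 1)) ∩ Bad) := by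
    refine measureReal_mono ?_
    rintro ω ⟨h1, h2⟩
    refine ⟨⟨h1, Or.inr ?_⟩, h2⟩
    rw [Nat.add_sub_cancel]
    exact h2
  have s3 : μ.real ((X \ Bad) ∩ A (n + 1)) ≤ μ.real ((X ∩ LB μ ℱ A D (n + 1)) \ Bad) := by
    refine measureReal_mono ?_
    rintro ω ⟨⟨h1, h2⟩, h3⟩
    exact ⟨⟨h1, Or.inl h3⟩, h2⟩
  have s4 := lower_meas (μ := μ) hA n (hX.diff hm) (l := D (n + 1)) (fun ω hω => not_lt.1 hω.2)
  have h1 : 0 ≤ μ.real (X ∩ Bad) := measureReal_nonneg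
  have h2 := hD (n + 1)
  nlinarith

/-- the reduced events -/
def UB (μ : Measure Ω) (ℱ : Filtration ℕ m0) (A : ℕ → Set Ω) (D : ℕ → ℝ) (n : ℕ) : Set Ω :=
  A n ∩ {ω | dens μ ℱ A (n - 1) ω ≤ D n}

lemma UB_meas (hA : ∀ n, MeasurableSet[ℱ n] (A n)) (D : ℕ → ℝ) (n : ℕ) : MeasurableSet[ℱ n] (UB μ ℱ A D n) := by
  refine (hA n).inter ?_
  have h1 : StronglyMeasurable[ℱ n] (dens μ ℱ A (n - 1)) := (dens_meas (n - 1)).mono (ℱ.mono (by omega))
  exact h1.measurable measurableSet_Iic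

lemma UB_upper (hA : ∀ n, MeasurableSet[ℱ n] (A n)) {D : ℕ → ℝ} (hD : ∀ n, 0 ≤ D n) (n : ℕ) (X : Set Ω)
    (hX : MeasurableSet[ℱ n] X) : μ.real (X ∩ UB μ ℱ A D (n + 1)) ≤ min 1 (D (n + 1)) * μ.real X := by
  have hm : MeasurableSet[ℱ n] {ω | dens μ ℱ A n ω ≤ D (n + 1)} := (dens_meas n).measurable measurableSet_Iic
  have h1 : X ∩ UB μ ℱ A D (n + 1) = (X ∩ {ω | dens μ ℱ A n ω ≤ D (n + 1)}) ∩ A (n + 1) := by
    unfold UB
    rw [Nat.add_sub_cancel]
    ext ω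
    simp only [Set.mem_inter_iff]
    tauto
  have h0 : 0 ≤ μ.real X := measureReal_nonneg
  rw [min_mul_of_nonneg _ _ h0, one_mul]
  refine le_min (measureReal_mono inter_subset_left) ?_
  rw [h1]
  have h2 := upper_meas (μ := μ) hA n (hX.inter hm) (u := D (n + 1)) (fun ω hω => hω.2)
  refine h2.trans ?_
  exact mul_le_mul_of_nonneg_left (measureReal_mono inter_subset_left) (hD _)

lemma rho_small (W : ℕ) {η : ℝ} (hη : 0 < η) : ∀ᶠ n : ℕ in atTop, rhoW W n ≤ η := by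
  set c := (W : ℝ) / Nat.totient W with hc
  have hc0 : 0 ≤ c := by positivity
  have tl := Real.tendsto_log_atTop.comp (tendsto_natCast_atTop_atTop (R := ℝ))
  filter_upwards [tl.eventually_ge_atTop (c / η + 1)] with n hn
  have hn' : c / η + 1 ≤ Real.log n := hn
  have h0 : 0 ≤ c / η := by positivity
  refine (rhoW_bb W n).trans ((min_le_right _ _).trans ?_)
  rw [← hc, div_le_iff₀ (by linarith)]
  have h1 : c / η ≤ Real.log n := by linarith
  rw [div_le_iff₀ hη] at h1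
  linarith

/-- twins in all intervals of length `(1 + ε) (log t)³ / 𝔖` -/
theorem twins_exist (hA : ∀ n, MeasurableSet[ℱ n] (A n)) (Q : Finset ℕ) (hQ : ∀ p ∈ Q, p.Prime)
    (hcop : ∀ n, (∃ p ∈ Q, p ∣ n) → A n = ∅)
    (hd : ∀ᵐ ω ∂μ, Tendsto (fun n : ℕ => dens μ ℱ A n ω * Real.log n)
      (atTop ⊓ 𝓟 {n : ℕ | ∀ p ∈ Q, ¬ p ∣ n + 1}) (𝓝 (∏ p ∈ Q, (1 - 1 / (p : ℝ))⁻¹)))
    (hσ : 0 < singH Q {0, 2}) {ε : ℝ} (hε : 0 < ε) (hε1 : ε ≤ 1) :
    ∀ᵐ ω ∂μ, ∀ᶠ t : ℕ in atTop, ∃ n : ℕ, t < n + 2 ∧ n + 2 ≤ t + ⌊(1 + ε) * Real.log t ^ 3 / singH Q {0, 2}⌋₊ ∧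
      ω ∈ A n ∧ ω ∈ A (n + 2) := by
  classical
  set W := ∏ p ∈ Q, p with hWdef
  set σ := singH Q {0, 2} with hσdef
  set δ : ℝ := ε / 16 with hδ
  have hδ0 : 0 < δ := by positivity
  have hδ1 : δ ≤ 1 / 16 := by rw [hδ]; linarith
  set D : ℕ → ℝ := fun n => (1 - δ) * rhoW W n with hD
  have hD0 : ∀ n, 0 ≤ D n := fun n => mul_nonneg (by linarith) (rhoW_nonneg W n)
  have hDle : ∀ n, D n ≤ rhoW W n := fun n => mul_le_of_le_one_left (rhoW_nonneg W n) (by linarith)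
  have hD1 : ∀ n, D n ≤ 1 := fun n => (hDle n).trans (rhoW_le W n)
  set B := LB μ ℱ A D with hB
  have hBm : ∀ n, MeasurableSet[ℱ n] (B n) := fun n => LB_meas hA D n
  set h : ℕ → ℕ := fun t => ⌊(1 + ε) * Real.log t ^ 3 / σ⌋₊ with hh
  obtain ⟨T, hT⟩ := eventually_atTop.1 (rho_small W hδ0)
  have tl := Real.tendsto_log_atTop.comp (tendsto_natCast_atTop_atTop (R := ℝ))
  have hsum : Summable (fun t : ℕ => 4 * (1 / (t : ℝ) ^ (1 + ε / 4))) :=
    (Real.summable_one_div_nat_rpow.2 (by linarith)).mul_left 4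
  have hprob : ∀ᶠ t : ℕ in atTop, μ.real (NT B t (h t)) ≤ 4 * (1 / (t : ℝ) ^ (1 + ε / 4)) := by
    filter_upwards [eventually_ge_atTop (T + 2), xw_asym Q hQ (show 0 < δ * σ by positivity), tl.eventually_ge_atTop 1,
      tl.eventually_ge_atTop (σ / δ), tl.eventually_ge_atTop (2 * σ), log_pow_le 3 (show 0 < σ / 2 by positivity)] with t g1 g2 g3 g4 g4' g5
    have g3' : 1 ≤ Real.log t := g3
    have g4'' : σ / δ ≤ Real.log t := g4
    have g4''' : 2 * σ ≤ Real.log t := g4'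
    set L := Real.log (t : ℝ) with hL
    have hL0 : 0 < L := by linarith
    have ht0 : (0 : ℝ) < t := by exact_mod_cast (by omega : 0 < t)
    have hLL : L ≤ L ^ 3 := le_self_pow₀ g3' (by norm_num)
    have hLL2 : L ^ 2 ≤ L ^ 3 := pow_le_pow_right₀ g3' (by norm_num)
    have hHpos : 0 ≤ (1 + ε) * L ^ 3 / σ := by positivity
    have h1 : (h t : ℝ) ≤ (1 + ε) * L ^ 3 / σ := Nat.floor_le hHpos
    have h2 : (1 + ε) * L ^ 3 / σ < h t + 1 := Nat.lt_floor_add_one _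
    have h3 : h t ≤ t := by
      have : (h t : ℝ) ≤ t := by
        refine h1.trans ?_
        rw [div_le_iff₀ hσ]
        have : (1 + ε) * L ^ 3 ≤ 2 * L ^ 3 := mul_le_mul_of_nonneg_right (by linarith) (by positivity)
        linarith
      exact_mod_cast this
    -- `1 ≤ δ H`
    have h4 : 1 ≤ δ * ((1 + ε) * L ^ 3 / σ) := by
      have e1 : 1 ≤ δ * (L / σ) := by
        rw [div_le_iff₀ hδ0] at g4''
        rw [← mul_div_assoc, le_div_iff₀ hσ]
        linarith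
      refine e1.trans (mul_le_mul_of_nonneg_left ?_ hδ0.le)
      refine div_le_div_of_nonneg_right ?_ hσ.le
      nlinarith [pow_pos hL0 3]
    have h5 : (1 - δ) * ((1 + ε) * L ^ 3 / σ) ≤ h t := by linarith
    have h6 : L ≤ h t := by
      have e1 : 1 / 2 * ((1 + ε) * L ^ 3 / σ) ≤ (1 - δ) * ((1 + ε) * L ^ 3 / σ) := mul_le_mul_of_nonneg_right (by linarith) hHpos
      have e2 : L ≤ 1 / 2 * ((1 + ε) * L ^ 3 / σ) := by
        rw [← mul_div_assoc, le_div_iff₀ hσ]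
        have e3 : 2 * σ ≤ L ^ 2 := by nlinarith
        have e4 : L * (2 * σ) ≤ L * L ^ 2 := mul_le_mul_of_nonneg_left e3 hL0.le
        nlinarith [pow_pos hL0 3]
      linarith
    have hh0 : (0 : ℝ) < h t := by linarith
    have h7 := (abs_le.1 (g2 (h t) h3 h6)).1
    have h8 : (1 - δ) * σ * (h t / L ^ 2) ≤ xw W t (h t) := by
      have e1 : (1 - δ) * σ ≤ xw W t (h t) * L ^ 2 / h t := by linarith
      have e2 := mul_le_mul_of_nonneg_right e1 (by positivity : 0 ≤ (h t : ℝ) / L ^ 2)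
      have e3 : xw W t (h t) * L ^ 2 / h t * (h t / L ^ 2) = xw W t (h t) := by field_simp
      linarith
    have h9 : (1 - δ) ^ 2 * (1 + ε) * L ≤ xw W t (h t) := by
      refine le_trans ?_ h8
      have e1 : (1 - δ) * σ * ((1 - δ) * ((1 + ε) * L ^ 3 / σ) / L ^ 2) = (1 - δ) ^ 2 * (1 + ε) * L := by field_simp
      rw [← e1]
      refine mul_le_mul_of_nonneg_left (div_le_div_of_nonneg_right h5 (by positivity)) ?_
      exact mul_nonneg (by linarith) hσ.le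
    have key := gap_up (μ := μ) hBm D δ hδ0.le (by linarith) hD0 T (fun n hn => (hDle n).trans (hT n hn))
      (fun n _ X hX => LB_lower hA hD1 n X hX) (h t) t (by omega) (by omega) univ MeasurableSet.univ false false
      (fun h => by simp at h) (fun h => by simp at h)
    have hf : ∀ x, pe x false = 1 := fun x => rfl
    rw [hf, hf, univ_inter, one_mul, one_mul, probReal_univ, mul_one] at key
    have k1 : Rp D (fun s => (1 - δ) * D s) t (h t) ≤ Real.exp (-(∑ s ∈ Finset.Ioc t (t + h t), D s * ((1 - δ) * D (s + 2)))) := by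
      refine Rp_exp_up (D := D) (E := fun s => (1 - δ) * D s) t (h t) fun s _ => ?_
      have q1 : (1 - δ) * D (s + 2) ≤ 1 := (mul_le_of_le_one_left (hD0 _) (by linarith)).trans (hD1 _)
      exact mul_le_one₀ (hD1 s) (mul_nonneg (by linarith) (hD0 _)) q1
    have k2 : ∑ s ∈ Finset.Ioc t (t + h t), D s * ((1 - δ) * D (s + 2)) = (1 - δ) ^ 3 * xw W t (h t) := by
      unfold xw
      rw [Finset.mul_sum]
      refine Finset.sum_congr rfl fun s _ => ?_
      simp only [hD]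
      ring
    rw [k2] at k1
    refine key.trans (mul_le_mul_of_nonneg_left (k1.trans ?_) (by norm_num))
    have k3 : (1 + ε / 4) * L ≤ (1 - δ) ^ 3 * xw W t (h t) := by
      have e1 := mul_le_mul_of_nonneg_left h9 (pow_nonneg (by linarith : (0 : ℝ) ≤ 1 - δ) 3)
      refine le_trans ?_ e1
      have e2 : (1 - δ) ^ 3 * ((1 - δ) ^ 2 * (1 + ε) * L) = ((1 - δ) ^ 5 * (1 + ε)) * L := by ring
      rw [e2]
      refine mul_le_mul_of_nonneg_right ?_ hL0.le
      have e3 : 1 - 5 * δ ≤ (1 - δ) ^ 5 := by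
        have := one_add_mul_le_pow (show (-2 : ℝ) ≤ -δ by linarith) 5
        have e4 : (1 : ℝ) + (5 : ℕ) * (-δ) = 1 - 5 * δ := by push_cast; ring
        rw [e4] at this
        simpa [sub_eq_add_neg] using this
      have e5 : (1 - 5 * δ) * (1 + ε) ≤ (1 - δ) ^ 5 * (1 + ε) := mul_le_mul_of_nonneg_right e3 (by linarith)
      refine le_trans ?_ e5
      rw [hδ]
      nlinarith
    have k4 : Real.exp (-((1 + ε / 4) * L)) = 1 / (t : ℝ) ^ (1 + ε / 4) := by
      rw [Real.exp_neg, one_div, Real.rpow_def_of_pos ht0, mul_comm]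
    rw [← k4]
    exact Real.exp_le_exp.2 (by linarith)
  filter_upwards [bc_real (μ := μ) hsum hprob, prof (μ := μ) hA Q hQ hcop hd] with ω hω hpr
  obtain ⟨n₀, hn₀⟩ := eventually_atTop.1 (hpr δ hδ0)
  have hBA : ∀ n, n₀ + 1 ≤ n → ω ∈ B n → ω ∈ A n := by
    intro n hn hb
    rcases hb with hb | hb
    · exact hb
    · exfalso
      have h1 := hn₀ (n - 1) (by omega)
      rw [Nat.sub_add_cancel (by omega : 1 ≤ n)] at h1
      have h2 := (abs_le.1 h1).1
      have hb' : dens μ ℱ A (n - 1) ω < (1 - δ) * rhoW W n := hb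
      linarith
  filter_upwards [hω, eventually_ge_atTop (n₀ + 3)] with t h1 h2
  have h3 : ∃ n, t < n + 2 ∧ n + 2 ≤ t + h t ∧ (ω ∈ B n ∧ ω ∈ B (n + 2)) := by
    by_contra hcon
    push Not at hcon
    exact h1 (fun n q1 q2 q3 => hcon n q1 q2 q3.1 q3.2)
  obtain ⟨n, q1, q2, q3, q4⟩ := h3
  exact ⟨n, q1, q2, hBA n (by omega) q3, hBA (n + 2) (by omega) q4⟩

end Pool.Agent.R960.Fam
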