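import Mathlib
import Pool.Agent.R960.Fam.Gap4

set_option autoImplicit false
set_option linter.unusedSectionVars false

/-! # The exact size of the largest gaps between twins, lower bound -/

open MeasureTheory Filter Set
open scoped ENNReal Topology

namespace Pool.Agent.R960.Fam

open Pool.Agent.R528.RM

variable {Ω : Type} {m0 : MeasurableSpace Ω} {μ : Measure Ω} [IsProbabilityMeasure μ]
  {ℱ : Filtration ℕ m0} {A B : ℕ → Set Ω} {α β : Type}

lemma five_pow {δ : ℝ} (h0 : 0 ≤ δ) (h1 : δ ≤ 1 / 16) : (1 + δ) ^ 5 ≤ 1 + 6 * δ := by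
  have e : (1 + δ) ^ 5 = 1 + 5 * δ + δ * (10 * δ + 10 * δ ^ 2 + 5 * δ ^ 3 + δ ^ 4) := by ring
  rw [e]
  have h2 : δ ^ 2 ≤ 1 / 16 * δ := by nlinarith
  have h3 : δ ^ 3 ≤ 1 / 16 * δ := by
    have : δ ^ 3 = δ ^ 2 * δ := by ring
    nlinarith
  have h4 : δ ^ 4 ≤ 1 / 16 * δ := by
    have : δ ^ 4 = δ ^ 3 * δ := by ring
    nlinarith [pow_nonneg h0 3]
  have h5 : 10 * δ + 10 * δ ^ 2 + 5 * δ ^ 3 + δ ^ 4 ≤ 1 := by nlinarith
  nlinarith

/-- the starting points of the blocks -/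
noncomputable def yb (i : ℕ) : ℕ := ⌊((i : ℝ) + 3) * Real.log ((i : ℝ) + 3) ^ 4⌋₊

lemma log3 (i : ℕ) : 1 ≤ Real.log ((i : ℝ) + 3) := by
  have h1 : Real.exp 1 ≤ (i : ℝ) + 3 := by
    have := Real.exp_one_lt_d9
    have h2 : (0 : ℝ) ≤ i := Nat.cast_nonneg i
    linarith
  rw [← Real.log_exp 1]
  exact Real.log_le_log (Real.exp_pos _) h1

lemma yb_real (i : ℕ) : (yb i : ℝ) ≤ ((i : ℝ) + 3) * Real.log ((i : ℝ) + 3) ^ 4 :=
  Nat.floor_le (by have := log3 i; positivity)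

lemma yb_real' (i : ℕ) : ((i : ℝ) + 3) * Real.log ((i : ℝ) + 3) ^ 4 < yb i + 1 := Nat.lt_floor_add_one _

lemma yb_ge (i : ℕ) : i + 3 ≤ yb i := by
  unfold yb
  refine Nat.le_floor ?_
  push_cast
  have h1 : 1 ≤ Real.log ((i : ℝ) + 3) ^ 4 := one_le_pow₀ (log3 i)
  have h2 : (0 : ℝ) ≤ (i : ℝ) + 3 := by positivity
  nlinarith

lemma yb_mono : Monotone yb := by
  refine monotone_nat_of_le_succ fun i => ?_
  unfold yb
  refine Nat.floor_le_floor ?_
  push_cast
  have h0 : (0 : ℝ) ≤ i := Nat.cast_nonneg i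
  have h1 := log3 i
  have h2 : Real.log ((i : ℝ) + 3) ≤ Real.log ((i : ℝ) + 1 + 3) := Real.log_le_log (by positivity) (by linarith)
  exact mul_le_mul (by linarith) (pow_le_pow_left₀ (by linarith) h2 4) (by positivity) (by positivity)

lemma yb_gap (i : ℕ) : Real.log ((i : ℝ) + 3) ^ 4 - 1 ≤ (yb (i + 1) : ℝ) - yb i := by
  have h1 := yb_real i
  have h2 := yb_real' (i + 1)
  push_cast at h2
  have h0 : (0 : ℝ) ≤ i := Nat.cast_nonneg i
  have h3 := log3 i
  have h4 : Real.log ((i : ℝ) + 3) ≤ Real.log ((i : ℝ) + 1 + 3) := Real.log_le_log (by positivity) (by linarith)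
  have h5 : ((i : ℝ) + 1 + 3) * Real.log ((i : ℝ) + 3) ^ 4 ≤ ((i : ℝ) + 1 + 3) * Real.log ((i : ℝ) + 1 + 3) ^ 4 :=
    mul_le_mul_of_nonneg_left (pow_le_pow_left₀ (by linarith) h4 4) (by positivity)
  nlinarith

/-- twin-free intervals of length `(1 - ε) (log t)³ / 𝔖` -/
theorem twins_absent (hA : ∀ n, MeasurableSet[ℱ n] (A n)) (Q : Finset ℕ) (hQ : ∀ p ∈ Q, p.Prime)
    (hcop : ∀ n, (∃ p ∈ Q, p ∣ n) → A n = ∅)
    (hd : ∀ᵐ ω ∂μ, Tendsto (fun n : ℕ => dens μ ℱ A n ω * Real.log n)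
      (atTop ⊓ 𝓟 {n : ℕ | ∀ p ∈ Q, ¬ p ∣ n + 1}) (𝓝 (∏ p ∈ Q, (1 - 1 / (p : ℝ))⁻¹)))
    (hσ : 0 < singH Q {0, 2}) {ε : ℝ} (hε : 0 < ε) (hε1 : ε ≤ 1 / 2) :
    ∀ᵐ ω ∂μ, ∃ᶠ t : ℕ in atTop, ω ∈ NT A t ⌊(1 - ε) * Real.log t ^ 3 / singH Q {0, 2}⌋₊ := by
  classical
  set W := ∏ p ∈ Q, p with hWdef
  set σ := singH Q {0, 2} with hσdef
  set δ : ℝ := ε / 16 with hδ
  have hδ0 : 0 < δ := by positivity
  have hδ1 : δ ≤ 1 / 16 := by rw [hδ]; linarith
  set D' : ℕ → ℝ := fun n => (1 + δ) * rhoW W n with hD'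
  have hD'0 : ∀ n, 0 ≤ D' n := fun n => mul_nonneg (by linarith) (rhoW_nonneg W n)
  set D : ℕ → ℝ := fun n => min 1 (D' n) with hD
  have hD0 : ∀ n, 0 ≤ D n := fun n => le_min zero_le_one (hD'0 n)
  have hD1 : ∀ n, D n ≤ 1 := fun n => min_le_left _ _
  have hDD' : ∀ n, D n ≤ (1 + δ) * rhoW W n := fun n => min_le_right _ _
  set B := UB μ ℱ A D' with hB
  have hBm : ∀ n, MeasurableSet[ℱ n] (B n) := fun n => UB_meas hA D' n
  set h : ℕ → ℕ := fun t => ⌊(1 - ε) * Real.log t ^ 3 / σ⌋₊ with hh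
  set hi : ℕ → ℕ := fun i => min (h (yb i)) (yb (i + 1) - yb i) with hhi
  obtain ⟨T, hT⟩ := eventually_atTop.1 (rho_small W (show 0 < δ / 4 by positivity))
  have tl := Real.tendsto_log_atTop.comp (tendsto_natCast_atTop_atTop (R := ℝ))
  have tyb : Tendsto yb atTop atTop := tendsto_atTop_mono (fun i => (by have := yb_ge i; omega : i ≤ yb i)) tendsto_id
  have tl3 : Tendsto (fun i : ℕ => Real.log ((i : ℝ) + 3)) atTop atTop :=
    Real.tendsto_log_atTop.comp (tendsto_atTop_add_const_right _ 3 tendsto_natCast_atTop_atTop)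
  have hsmall : ∀ n, T ≤ n → D n ≤ δ / 2 := by
    intro n hn
    have h1 := hT n hn
    have h2 := hDD' n
    have h3 := rhoW_nonneg W n
    nlinarith
  -- the size of the starting points
  have hlogy : ∀ᶠ i : ℕ in atTop, Real.log (yb i) ≤ (1 + ε / 4) * Real.log ((i : ℝ) + 3) := by
    have h1 : Tendsto (fun x : ℝ => Real.log x ^ (1 : ℝ) / x ^ (1 : ℝ)) atTop (𝓝 0) :=
      (isLittleO_log_rpow_rpow_atTop (1 : ℝ) one_pos).tendsto_div_nhds_zero
    have h2 := (h1.comp tl3).eventually_le_const (show 0 < ε / 16 by positivity)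
    filter_upwards [h2] with i h3
    simp only [Function.comp_apply, Real.rpow_one] at h3
    have h4 := log3 i
    rw [div_le_iff₀ (by linarith)] at h3
    have h5 : (0 : ℝ) < yb i := by
      have := yb_ge i
      exact_mod_cast (by omega : 0 < yb i)
    have h6 := Real.log_le_log h5 (yb_real i)
    have h0 : (0 : ℝ) ≤ i := Nat.cast_nonneg i
    rw [Real.log_mul (by positivity) (by positivity), Real.log_pow] at h6
    push_cast at h6
    linarith
  have evI : ∀ᶠ i : ℕ in atTop, Real.log (yb i) ≤ (1 + ε / 4) * Real.log ((i : ℝ) + 3) ∧ T ≤ yb i ∧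
      (∀ k : ℕ, k ≤ yb i → Real.log (yb i) ≤ k → |xw W (yb i) k * Real.log (yb i) ^ 2 / k - σ| ≤ δ * σ) ∧
      1 ≤ Real.log (yb i) ∧ 4 * σ ≤ Real.log (yb i) ∧ Real.log (yb i) ^ 3 ≤ σ * yb i ∧ σ / δ ≤ Real.log (yb i) := by
    filter_upwards [hlogy, tyb.eventually_ge_atTop T, tyb.eventually (xw_asym Q hQ (show 0 < δ * σ by positivity)),
      tyb.eventually (tl.eventually_ge_atTop 1), tyb.eventually (tl.eventually_ge_atTop (4 * σ)),
      tyb.eventually (log_pow_le 3 hσ), tyb.eventually (tl.eventually_ge_atTop (σ / δ))] with i e1 e2 e3 e4 e5 e6 e7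
    exact ⟨e1, e2, e3, e4, e5, e6, e7⟩
  obtain ⟨i₀, hi₀⟩ := eventually_atTop.1 evI
  have hxmono : ∀ t a b, a ≤ b → xw W t a ≤ xw W t b := by
    intro t a b hab
    unfold xw
    refine Finset.sum_le_sum_of_subset_of_nonneg (Finset.Ioc_subset_Ioc_right (by omega)) fun n _ _ => ?_
    exact mul_nonneg (rhoW_nonneg _ _) (rhoW_nonneg _ _)
  have main : ∀ᵐ ω ∂μ, ∃ᶠ i in atTop, ω ∈ NT B (yb i) (hi i) := by
    refine bc (μ := μ) (ℱ := ℱ) yb (fun i => NT B (yb i) (hi i)) yb_mono ?_ (fun i => 1 / 12 * (1 / ((i : ℝ) + 1))) i₀ ?_ ?_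
    · intro i
      refine ℱ.mono ?_ _ (NT_meas hBm (yb i) (hi i))
      have h1 : hi i ≤ yb (i + 1) - yb i := min_le_right _ _
      have h2 := yb_mono (Nat.le_succ i)
      have h2' : yb i ≤ yb (i + 1) := h2
      omega
    · intro i hi1 X hX
      obtain ⟨g1, g2, g3, g4, g5, g6, g7⟩ := hi₀ i hi1
      set t := yb i with ht
      have hti := yb_ge i
      set L := Real.log (t : ℝ) with hL
      have hL0 : 0 < L := by linarith
      have h1 := gap_lo (μ := μ) hBm D hD0 hD1 1 (fun n _ X hX => UB_upper hA hD'0 n X hX) (hi i) t (by omega) (by omega) X hX true true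
        (fun h => by simp at h) (fun h => by simp at h)
      refine le_trans (mul_le_mul_of_nonneg_right ?_ measureReal_nonneg) h1
      have htr : ∀ x, pe x true = 1 - x := fun x => rfl
      rw [htr, htr]
      have s1 := hsmall (t + 1) (by omega)
      have s2 := hsmall (t + 2) (by omega)
      have q1 : 1 / 4 ≤ (1 - D (t + 1)) * (1 - D (t + 2)) := by nlinarith
      have q2 : Real.exp (-((1 + δ) * ∑ s ∈ Finset.Ioc t (t + hi i), D s * D (s + 2))) ≤ Rp D D t (hi i) := by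
        refine Rp_exp_lo t (hi i) hδ0.le (by linarith) hD0 fun s hs => ?_
        have h2 := (Finset.mem_Ioc.1 hs).1
        have h3 := hsmall s (by omega)
        have h4 := hD1 (s + 2)
        have h5 := hD0 s
        have h6 := hD0 (s + 2)
        nlinarith
      have q3 : ∑ s ∈ Finset.Ioc t (t + hi i), D s * D (s + 2) ≤ (1 + δ) ^ 2 * xw W t (h t) := by
        have e1 : ∑ s ∈ Finset.Ioc t (t + hi i), D s * D (s + 2) ≤ (1 + δ) ^ 2 * xw W t (hi i) := by
          unfold xw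
          rw [Finset.mul_sum]
          refine Finset.sum_le_sum fun s _ => ?_
          have e2 := mul_le_mul (hDD' s) (hDD' (s + 2)) (hD0 _) (mul_nonneg (by linarith) (rhoW_nonneg W s))
          linarith
        exact e1.trans (mul_le_mul_of_nonneg_left (hxmono t _ _ (min_le_left _ _)) (by positivity))
      have hHpos : 0 ≤ (1 - ε) * L ^ 3 / σ := div_nonneg (mul_nonneg (by linarith) (by positivity)) hσ.le
      have h2 : (h t : ℝ) ≤ (1 - ε) * L ^ 3 / σ := Nat.floor_le hHpos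
      have h3 : (1 - ε) * L ^ 3 / σ < h t + 1 := Nat.lt_floor_add_one _
      have h4 : h t ≤ t := by
        have : (h t : ℝ) ≤ t := by
          refine h2.trans ?_
          rw [div_le_iff₀ hσ]
          have : (1 - ε) * L ^ 3 ≤ L ^ 3 := mul_le_of_le_one_left (by positivity) (by linarith)
          linarith
        exact_mod_cast this
      have h5 : L ≤ h t := by
        have e0 : 1 ≤ L := g4
        have e1 : 2 * L ≤ (1 - ε) * L ^ 3 / σ := by
          rw [le_div_iff₀ hσ]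
          have e2 : 1 / 2 * L ^ 3 ≤ (1 - ε) * L ^ 3 := mul_le_mul_of_nonneg_right (by linarith) (by positivity)
          have e3 : 4 * σ ≤ L ^ 2 := by nlinarith
          have e4 : L * (4 * σ) ≤ L * L ^ 2 := mul_le_mul_of_nonneg_left e3 hL0.le
          nlinarith
        linarith
      have hh0 : (0 : ℝ) < h t := by linarith
      have h6 := (abs_le.1 (g3 (h t) h4 h5)).2
      have h7 : xw W t (h t) ≤ (1 + δ) * (1 - ε) * L := by
        have e1 : xw W t (h t) * L ^ 2 / h t ≤ (1 + δ) * σ := by linarith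
        have e2 := mul_le_mul_of_nonneg_right e1 (by positivity : 0 ≤ (h t : ℝ) / L ^ 2)
        have e3 : xw W t (h t) * L ^ 2 / h t * (h t / L ^ 2) = xw W t (h t) := by field_simp
        rw [e3] at e2
        refine e2.trans ?_
        have e4 : (1 + δ) * σ * ((1 - ε) * L ^ 3 / σ / L ^ 2) = (1 + δ) * (1 - ε) * L := by field_simp
        rw [← e4]
        exact mul_le_mul_of_nonneg_left (div_le_div_of_nonneg_right h2 (by positivity)) (by positivity)
      have q4 : (1 + δ) * ∑ s ∈ Finset.Ioc t (t + hi i), D s * D (s + 2) ≤ (1 - ε / 2) * L := by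
        have e1 := mul_le_mul_of_nonneg_left (q3.trans (mul_le_mul_of_nonneg_left h7 (by positivity : 0 ≤ (1 + δ) ^ 2)))
          (by linarith : 0 ≤ 1 + δ)
        refine e1.trans ?_
        have e2 : (1 + δ) * ((1 + δ) ^ 2 * ((1 + δ) * (1 - ε) * L)) = ((1 + δ) ^ 4 * (1 - ε)) * L := by ring
        rw [e2]
        refine mul_le_mul_of_nonneg_right ?_ hL0.le
        have e3 := five_pow hδ0.le hδ1
        have e4 : (1 + δ) ^ 4 ≤ (1 + δ) ^ 5 := pow_le_pow_right₀ (by linarith) (by norm_num)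
        have e5 : (1 + δ) ^ 4 * (1 - ε) ≤ (1 + 6 * δ) * (1 - ε) := mul_le_mul_of_nonneg_right (e4.trans e3) (by linarith)
        refine e5.trans ?_
        rw [hδ]
        nlinarith
      have q5 : 1 / ((i : ℝ) + 3) ≤ Rp D D t (hi i) := by
        refine le_trans ?_ q2
        have h0 : (0 : ℝ) < (i : ℝ) + 3 := by positivity
        have e1 : 1 / ((i : ℝ) + 3) = Real.exp (-(Real.log ((i : ℝ) + 3))) := by
          rw [Real.exp_neg, Real.exp_log h0, one_div]
        rw [e1]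
        refine Real.exp_le_exp.2 (neg_le_neg (q4.trans ?_))
        have e2 := log3 i
        have e3 : (1 - ε / 2) * L ≤ (1 - ε / 2) * ((1 + ε / 4) * Real.log ((i : ℝ) + 3)) := mul_le_mul_of_nonneg_left g1 (by linarith)
        refine e3.trans ?_
        have e4 : (1 - ε / 2) * (1 + ε / 4) ≤ 1 := by nlinarith
        nlinarith
      have hir : (0 : ℝ) ≤ i := Nat.cast_nonneg i
      have q6 : 1 / 12 * (1 / ((i : ℝ) + 1)) ≤ 1 / 4 * (1 / ((i : ℝ) + 3)) := by
        rw [← div_eq_mul_one_div, ← div_eq_mul_one_div, div_le_div_iff₀ (by positivity) (by positivity)]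
        linarith
      exact q6.trans (mul_le_mul q1 q5 (by positivity) (by nlinarith))
    · simp_rw [← Finset.mul_sum]
      exact Real.tendsto_sum_range_one_div_nat_succ_atTop.const_mul_atTop (by norm_num)
  filter_upwards [main, prof (μ := μ) hA Q hQ hcop hd] with ω hω hpr
  obtain ⟨n₀, hn₀⟩ := eventually_atTop.1 (hpr δ hδ0)
  have hAB : ∀ n, n₀ + 1 ≤ n → ω ∈ A n → ω ∈ B n := by
    intro n hn hb
    refine ⟨hb, ?_⟩
    have h1 := hn₀ (n - 1) (by omega)
    rw [Nat.sub_add_cancel (by omega : 1 ≤ n)] at h1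
    have h2 := (abs_le.1 h1).2
    show dens μ ℱ A (n - 1) ω ≤ (1 + δ) * rhoW W n
    linarith
  have ev1 : ∀ᶠ i : ℕ in atTop, h (yb i) ≤ yb (i + 1) - yb i := by
    filter_upwards [hlogy, tl3.eventually_ge_atTop (8 / σ + 1)] with i e1 e2
    have e3 := log3 i
    set ℓ := Real.log ((i : ℝ) + 3) with hℓ
    have hy1 : (1 : ℝ) ≤ yb i := by
      have := yb_ge i
      exact_mod_cast (by omega : 1 ≤ yb i)
    have hL0 : 0 ≤ Real.log (yb i : ℝ) := Real.log_nonneg hy1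
    have hHpos : 0 ≤ (1 - ε) * Real.log (yb i) ^ 3 / σ := div_nonneg (mul_nonneg (by linarith) (by positivity)) hσ.le
    have e4 : (h (yb i) : ℝ) ≤ (1 - ε) * Real.log (yb i) ^ 3 / σ := Nat.floor_le hHpos
    have e5 : Real.log (yb i : ℝ) ≤ 2 * ℓ := by nlinarith
    have e6 : (1 - ε) * Real.log (yb i) ^ 3 / σ ≤ 8 / σ * ℓ ^ 3 := by
      rw [div_mul_eq_mul_div]
      refine div_le_div_of_nonneg_right ?_ hσ.le
      have e7 : Real.log (yb i : ℝ) ^ 3 ≤ (2 * ℓ) ^ 3 := pow_le_pow_left₀ hL0 e5 3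
      have e8 : (1 - ε) * Real.log (yb i) ^ 3 ≤ Real.log (yb i) ^ 3 := mul_le_of_le_one_left (by positivity) (by linarith)
      nlinarith
    have e9 := yb_gap i
    rw [← hℓ] at e9
    have e10 : 1 ≤ ℓ ^ 3 := one_le_pow₀ e3
    have e11 : 8 / σ * ℓ ^ 3 ≤ ℓ ^ 4 - 1 := by
      have : (8 / σ + 1) * ℓ ^ 3 ≤ ℓ * ℓ ^ 3 := mul_le_mul_of_nonneg_right e2 (by positivity)
      nlinarith
    have e12 : (h (yb i) : ℝ) + yb i ≤ yb (i + 1) := by linarith
    have e13 : h (yb i) + yb i ≤ yb (i + 1) := by exact_mod_cast e12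
    omega
  have fr := hω.and_eventually (ev1.and (tyb.eventually_ge_atTop (n₀ + 3)))
  refine tyb.frequently (fr.mono ?_)
  rintro i ⟨h1, h2, h3⟩ n hn1 hn2 ⟨hA1, hA2⟩
  have hhe : hi i = h (yb i) := min_eq_left h2
  rw [hhe] at h1
  exact h1 n hn1 hn2 ⟨hAB n (by omega) hA1, hAB (n + 2) (by omega) hA2⟩

end Pool.Agent.R960.Fam
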