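import Mathlib
import Pool.Agent.R960.Fam.Siev

set_option autoImplicit false
set_option linter.unusedSectionVars false

/-! # Families of hypergraphs in the sieved models, vertices of different sizes -/

open MeasureTheory Filter Set
open scoped ENNReal Topology

namespace Pool.Agent.R960.Fam

open Pool.Agent.R528.RM

variable {Ω : Type} {m0 : MeasurableSpace Ω} {μ : Measure Ω} [IsProbabilityMeasure μ]
  {ℱ : Filtration ℕ m0} {A : ℕ → Set Ω} {α β : Type}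

lemma prod_rho_gen {W : ℕ} (hW : 0 < W) {V : Finset ℕ} {k : ℕ} (hk : V.card = k) {Λ η : ℝ} (hη1 : η < 1) (hη0 : 0 < η) (hΛ : 0 < Λ)
    (hc : ∀ m ∈ V, (W : ℝ) / Nat.totient W ≤ Real.log m) (hlog : |∏ m ∈ V, Real.log m - Λ| ≤ η * Λ)
    (hcop : ∀ m ∈ V, Nat.Coprime m W) :
    ((W : ℝ) / Nat.totient W) ^ k / Λ * (1 + η)⁻¹ ≤ ∏ m ∈ V, rhoW W m ∧
      ∏ m ∈ V, rhoW W m ≤ ((W : ℝ) / Nat.totient W) ^ k / Λ * (1 - η)⁻¹ := by
  set c := (W : ℝ) / Nat.totient W with hcdef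
  have hcpos : 0 < c := div_pos (by exact_mod_cast hW) (by exact_mod_cast Nat.totient_pos.2 hW)
  have h1 : ∀ m ∈ V, rhoW W m = c / Real.log m := by
    intro m hm
    have h3 := hc m hm
    unfold rhoW
    rw [if_pos (hcop m hm), min_eq_right]
    rw [div_le_one (lt_of_lt_of_le hcpos h3)]
    exact h3
  rw [Finset.prod_congr rfl h1, Finset.prod_div_distrib, Finset.prod_const, hk]
  set Pd := ∏ m ∈ V, Real.log m with hPd
  have hPd0 : 0 < Pd := Finset.prod_pos fun m hm => lt_of_lt_of_le hcpos (hc m hm)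
  have h2 := abs_le.1 hlog
  have hck : 0 < c ^ k := pow_pos hcpos k
  have e1 : c ^ k / Λ * (1 + η)⁻¹ = c ^ k / (Λ * (1 + η)) := by
    rw [← div_eq_mul_inv, div_div]
  have e2 : c ^ k / Λ * (1 - η)⁻¹ = c ^ k / (Λ * (1 - η)) := by
    rw [← div_eq_mul_inv, div_div]
  rw [e1, e2]
  constructor
  · exact div_le_div_of_nonneg_left hck.le hPd0 (by linarith [h2.2])
  · exact div_le_div_of_nonneg_left hck.le (mul_pos hΛ (by linarith)) (by linarith [h2.1])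

lemma sum_rho_gen {W : ℕ} (hW : 0 < W) {k : ℕ} (I : Finset β) (V : β → Finset ℕ) (hk : ∀ i ∈ I, (V i).card = k)
    {Λ η : ℝ} (hη0 : 0 < η) (hη1 : η < 1) (hΛ : 0 < Λ)
    (hc : ∀ i ∈ I, ∀ m ∈ V i, (W : ℝ) / Nat.totient W ≤ Real.log m)
    (hlog : ∀ i ∈ I, |∏ m ∈ V i, Real.log m - Λ| ≤ η * Λ) :
    gd W I V * (((W : ℝ) / Nat.totient W) ^ k / Λ * (1 + η)⁻¹) ≤ ∑ i ∈ I, ∏ m ∈ V i, rhoW W m ∧
      ∑ i ∈ I, ∏ m ∈ V i, rhoW W m ≤ gd W I V * (((W : ℝ) / Nat.totient W) ^ k / Λ * (1 - η)⁻¹) := by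
  classical
  have h1 : ∑ i ∈ I, ∏ m ∈ V i, rhoW W m = ∑ i ∈ I.filter (fun i => ∀ m ∈ V i, m ∈ {m | Nat.Coprime m W}), ∏ m ∈ V i, rhoW W m := by
    symm
    apply Finset.sum_subset (Finset.filter_subset _ _)
    intro i hi hn
    simp only [Finset.mem_filter, not_and] at hn
    have := hn hi
    push Not at this
    obtain ⟨m, hm, hn⟩ := this
    refine Finset.prod_eq_zero hm ?_
    unfold rhoW
    exact if_neg (fun h => hn h)
  rw [h1]
  unfold gd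
  rw [full_eq, ← nsmul_eq_mul, ← nsmul_eq_mul]
  constructor
  · refine Finset.card_nsmul_le_sum _ _ _ fun i hi => ?_
    obtain ⟨h2, h3⟩ := Finset.mem_filter.1 hi
    exact (prod_rho_gen hW (hk i h2) hη1 hη0 hΛ (hc i h2) (hlog i h2) h3).1
  · refine Finset.sum_le_card_nsmul _ _ _ fun i hi => ?_
    obtain ⟨h2, h3⟩ := Finset.mem_filter.1 hi
    exact (prod_rho_gen hW (hk i h2) hη1 hη0 hΛ (hc i h2) (hlog i h2) h3).2

theorem gen_fam (hA : ∀ n, MeasurableSet[ℱ n] (A n)) (Q : Finset ℕ) (hQ : ∀ p ∈ Q, p.Prime)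
    (hcop : ∀ n, (∃ p ∈ Q, p ∣ n) → A n = ∅)
    (hd : ∀ᵐ ω ∂μ, Tendsto (fun n : ℕ => dens μ ℱ A n ω * Real.log n)
      (atTop ⊓ 𝓟 {n : ℕ | ∀ p ∈ Q, ¬ p ∣ n + 1}) (𝓝 (∏ p ∈ Q, (1 - 1 / (p : ℝ))⁻¹)))
    (k κ C : ℕ) (hκ : 0 < κ) (Φ : ℕ → Finset α) (hΦ : ∀ᶠ x in atTop, (Φ x).card ≤ x ^ C)
    (I : α → Finset β) (V : α → β → Finset ℕ) (Λ : α → ℝ) (mn : ℕ → ℕ) (hmn : Tendsto mn atTop atTop)
    (hmin : ∀ᶠ x in atTop, ∀ a ∈ Φ x, ∀ i ∈ I a, (V a i).card = k ∧ ∀ m ∈ V a i, mn x ≤ m)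
    (hmult : ∀ᶠ x in atTop, ∀ a ∈ Φ x, ∀ m, {i | i ∈ I a ∧ m ∈ V a i}.ncard ≤ κ)
    (hlog : ∀ η : ℝ, 0 < η → ∀ᶠ x in atTop, ∀ a ∈ Φ x, ∀ i ∈ I a, |∏ m ∈ V a i, Real.log m - Λ a| ≤ η * Λ a)
    (hΛ : ∀ᶠ x in atTop, ∀ a ∈ Φ x, 0 < Λ a)
    (hbig : ∀ K : ℝ, 0 < K → ∀ᶠ x : ℕ in atTop, ∀ a ∈ Φ x, K * (Λ a ^ 2 * Real.log x) ≤ (I a).card) :
    ∀ᵐ ω ∂μ, ∀ ε : ℝ, 0 < ε → ∀ᶠ x : ℕ in atTop, ∀ a ∈ Φ x,
      |(full {m | ω ∈ A m} (I a) (V a) : ℝ) * Λ a -
        (((∏ p ∈ Q, p : ℕ) : ℝ) / Nat.totient (∏ p ∈ Q, p)) ^ k * gd (∏ p ∈ Q, p) (I a) (V a)| ≤ ε * (I a).card := by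
  classical
  set W := ∏ p ∈ Q, p with hWdef
  have hW : 0 < W := Finset.prod_pos fun q hq => (hQ q hq).pos
  set c := (W : ℝ) / Nat.totient W with hc
  have hcpos : 0 < c := div_pos (by exact_mod_cast hW) (by exact_mod_cast Nat.totient_pos.2 hW)
  have hρ : ∀ n, 0 ≤ rhoW W n ∧ rhoW W n ≤ 1 := fun n => ⟨rhoW_nonneg W n, rhoW_le W n⟩
  have hcl : ∀ᶠ x in atTop, c ≤ Real.log (mn x) :=
    ((Real.tendsto_log_atTop.comp tendsto_natCast_atTop_atTop).comp hmn).eventually_ge_atTop c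
  filter_upwards [fam_law (μ := μ) hA hρ (prof hA Q hQ hcop hd) k κ C hκ Φ hΦ I V mn hmn hmin hmult] with ω hω ε hε
  -- choice of constants
  set D : ℝ := c ^ k + 1 with hD
  have hD0 : 0 < D := by positivity
  have hDk : c ^ k ≤ D := by linarith
  obtain ⟨e, he0, he1, he2⟩ : ∃ e : ℝ, 0 < e ∧ e ≤ 1 ∧ 4 * e * D ≤ ε := by
    refine ⟨min 1 (ε / (4 * D)), lt_min one_pos (by positivity), min_le_left _ _, ?_⟩
    have := min_le_right 1 (ε / (4 * D))
    calc 4 * min 1 (ε / (4 * D)) * D ≤ 4 * (ε / (4 * D)) * D := by gcongr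
      _ = ε := by field_simp
  set η : ℝ := e / 2 with hη
  have hη0 : 0 < η := by positivity
  have hη1 : η < 1 := by linarith
  have hηa : (1 - η)⁻¹ ≤ 1 + e := by
    rw [inv_le_comm₀ (by linarith) (by linarith), inv_le_iff_one_le_mul₀ (by linarith)]
    nlinarith
  have hηb : 1 - e ≤ (1 + η)⁻¹ := by
    rw [← one_div, le_div_iff₀ (by linarith)]
    nlinarith
  set K : ℝ := 2 * (C + 2) * (2 * k * κ / e) ^ 2 + 1 with hK
  have hK0 : 0 < K := by positivity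
  filter_upwards [hω e he0, hlog η hη0, hΛ, hbig K hK0, hmin, eventually_gt_atTop 1, hcl] with x
    x1 x2 x3 x4 x5 x6 x7 a ha
  have hlx : 0 < Real.log (x : ℝ) := Real.log_pos (by exact_mod_cast x6)
  have hlk : 0 < Λ a := x3 a ha
  have hmn0 : 0 < (mn x : ℝ) := by
    rcases Nat.eq_zero_or_pos (mn x) with h | h
    · rw [h] at x7
      simp only [Nat.cast_zero, Real.log_zero] at x7
      linarith
    · exact_mod_cast h
  have hcl' : ∀ i ∈ I a, ∀ m ∈ V a i, c ≤ Real.log m := by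
    intro i hi m hm
    refine x7.trans (Real.log_le_log hmn0 ?_)
    exact_mod_cast (x5 a ha i hi).2 m hm
  have hI0 : (0 : ℝ) < (I a).card := lt_of_lt_of_le (by positivity) (x4 a ha)
  have hs := sum_rho_gen hW (I a) (V a) (fun i hi => (x5 a ha i hi).1) hη0 hη1 hlk hcl' (x2 a ha)
  have h1 := x1 a ha
  rw [full_sum] at h1
  set N : ℝ := (full {m | ω ∈ A m} (I a) (V a) : ℝ) with hN
  set E : ℝ := ∑ i ∈ I a, ∏ m ∈ V a i, rhoW W m with hE
  set G : ℝ := (gd W (I a) (V a) : ℝ) with hG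
  have hG0 : 0 ≤ G := Nat.cast_nonneg _
  have hGI : G ≤ (I a).card := by
    simp only [hG, gd]
    exact_mod_cast full_le _ _ _
  -- E against G
  have hE1 : E * Λ a ≤ G * c ^ k * (1 + e) := by
    have h2 : E * Λ a ≤ (G * (c ^ k / Λ a * (1 - η)⁻¹)) * Λ a := mul_le_mul_of_nonneg_right hs.2 hlk.le
    have h3 : (G * (c ^ k / Λ a * (1 - η)⁻¹)) * Λ a = G * c ^ k * (1 - η)⁻¹ := by
      field_simp
    rw [h3] at h2
    exact h2.trans (mul_le_mul_of_nonneg_left hηa (by positivity))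
  have hE2 : G * c ^ k * (1 - e) ≤ E * Λ a := by
    have h2 : (G * (c ^ k / Λ a * (1 + η)⁻¹)) * Λ a ≤ E * Λ a := mul_le_mul_of_nonneg_right hs.1 hlk.le
    have h3 : (G * (c ^ k / Λ a * (1 + η)⁻¹)) * Λ a = G * c ^ k * (1 + η)⁻¹ := by
      field_simp
    rw [h3] at h2
    exact (mul_le_mul_of_nonneg_left hηb (by positivity)).trans h2
  have hGc : G * c ^ k ≤ (I a).card * D := mul_le_mul hGI hDk (by positivity) hI0.le
  -- the square root
  have hroot : 2 * k * κ * √(2 * (C + 2) * Real.log x * (I a).card) * Λ a ≤ e * (I a).card := by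
    rcases Nat.eq_zero_or_pos k with hk0 | hk0
    · rw [hk0]
      simp only [Nat.cast_zero, mul_zero, zero_mul]
      positivity
    have hkκ : (0 : ℝ) < 2 * k * κ := by
      have : (0 : ℝ) < k := by exact_mod_cast hk0
      have : (0 : ℝ) < κ := by exact_mod_cast hκ
      positivity
    have h2 : √(2 * (C + 2) * Real.log x * (I a).card) * Λ a ≤ (e / (2 * k * κ)) * (I a).card := by
      rw [← Real.sqrt_sq hlk.le, ← Real.sqrt_mul (by positivity)]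
      apply Real.sqrt_le_iff.2
      refine ⟨by positivity, ?_⟩
      have h3 := x4 a ha
      have h4 : (2 * (C + 2) * (2 * k * κ / e) ^ 2) * (Λ a ^ 2 * Real.log x) ≤ (I a).card := by
        refine le_trans (mul_le_mul_of_nonneg_right ?_ (by positivity)) h3
        rw [hK]
        linarith
      have h5 : 2 * (C + 2) * Real.log x * (I a).card * Λ a ^ 2 =
          (e / (2 * k * κ)) ^ 2 * ((2 * (C + 2) * (2 * k * κ / e) ^ 2) * (Λ a ^ 2 * Real.log x)) * (I a).card := by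
        field_simp
      rw [h5, mul_pow, sq ((I a).card : ℝ), ← mul_assoc ((e / (2 * k * κ)) ^ 2) ((I a).card : ℝ)]
      apply mul_le_mul_of_nonneg_right _ hI0.le
      exact mul_le_mul_of_nonneg_left h4 (by positivity)
    calc 2 * k * κ * √(2 * (C + 2) * Real.log x * (I a).card) * Λ a
        = (2 * k * κ) * (√(2 * (C + 2) * Real.log x * (I a).card) * Λ a) := by ring
      _ ≤ (2 * k * κ) * ((e / (2 * k * κ)) * (I a).card) := mul_le_mul_of_nonneg_left h2 hkκ.le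
      _ = e * (I a).card := by field_simp
  have h6 : |N - E| * Λ a ≤ e * (I a).card + e * (G * c ^ k * (1 + e)) := by
    have h7 := mul_le_mul_of_nonneg_right h1 hlk.le
    calc |N - E| * Λ a ≤ _ := h7
      _ = 2 * k * κ * √(2 * (C + 2) * Real.log x * (I a).card) * Λ a + e * (E * Λ a) := by ring
      _ ≤ _ := add_le_add hroot (mul_le_mul_of_nonneg_left hE1 he0.le)
  have h7 : |E * Λ a - G * c ^ k| ≤ e * (G * c ^ k) := by
    rw [abs_le]
    constructor <;> nlinarith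
  have h8 : N * Λ a - c ^ k * G = ((N - E) * Λ a + (E * Λ a - G * c ^ k)) := by
    ring
  rw [h8]
  refine (abs_add_le _ _).trans ?_
  rw [abs_mul, abs_of_pos hlk]
  have h9 : G * c ^ k * (1 + e) ≤ (I a).card * D * 2 := by
    apply mul_le_mul hGc (by linarith) (by linarith) (by positivity)
  have hD1 : 1 ≤ D := by
    rw [hD]
    linarith [pow_pos hcpos k]
  have e10 : e * (I a).card ≤ e * ((I a).card * D) :=
    mul_le_mul_of_nonneg_left (le_mul_of_one_le_right hI0.le hD1) he0.le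
  have e11 : e * (G * c ^ k * (1 + e)) ≤ e * ((I a).card * D * 2) := mul_le_mul_of_nonneg_left h9 he0.le
  have e12 : e * (G * c ^ k) ≤ e * ((I a).card * D) := mul_le_mul_of_nonneg_left hGc he0.le
  calc |N - E| * Λ a + |E * Λ a - G * c ^ k| ≤
      (e * (I a).card + e * (G * c ^ k * (1 + e))) + e * (G * c ^ k) := add_le_add h6 h7
    _ ≤ 4 * e * D * (I a).card := by nlinarith
    _ ≤ ε * (I a).card := mul_le_mul_of_nonneg_right he2 hI0.le

end Pool.Agent.R960.Fam
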