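import Mathlib
import Pool.Agent.R960.Fam.Idx
import Pool.Agent.R960.Fam.Int

set_option autoImplicit false
set_option linter.unusedSectionVars false

/-! # Twins along predictable sets of indices: the law -/

open MeasureTheory Filter Set
open scoped ENNReal Topology

namespace Pool.Agent.R960.Fam

open Pool.Agent.R528.RM

variable {Ω : Type} {m0 : MeasurableSpace Ω} {μ : Measure Ω} [IsProbabilityMeasure μ]
  {ℱ : Filtration ℕ m0} {A : ℕ → Set Ω} {α β : Type}

/-- number of classes `b` modulo `W` with `b` and `b + 2` prime to `W` -/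
def gdc (W : ℕ) : ℕ := ((Finset.range W).filter fun b => Nat.Coprime b W ∧ Nat.Coprime (b + 2) W).card

theorem idx_law (hA : ∀ n, MeasurableSet[ℱ n] (A n)) (Q : Finset ℕ) (hQ : ∀ p ∈ Q, p.Prime)
    (hcop : ∀ n, (∃ p ∈ Q, p ∣ n) → A n = ∅)
    (hd : ∀ᵐ ω ∂μ, Tendsto (fun n : ℕ => dens μ ℱ A n ω * Real.log n)
      (atTop ⊓ 𝓟 {n : ℕ | ∀ p ∈ Q, ¬ p ∣ n + 1}) (𝓝 (∏ p ∈ Q, (1 - 1 / (p : ℝ))⁻¹)))
    (C : ℕ) (Φ : ℕ → Finset α) (hΦ : ∀ᶠ x in atTop, (Φ x).card ≤ x ^ C)
    (γ : α → ℕ → Ω → ℝ) (hγm : ∀ a n, StronglyMeasurable[ℱ (n - 1)] (γ a n)) (hγ0 : ∀ a ω, γ a 0 ω = 0)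
    (h01 : ∀ a n ω, 0 ≤ γ a n ω ∧ γ a n ω ≤ 1) (hch : ∀ a ω m, ω ∉ A m → γ a (m + 1) ω = γ a m ω)
    (M : α → ℕ) (hM : ∀ a, 1 ≤ M a) :
    ∀ᵐ ω ∂μ, ∀ ε : ℝ, 0 < ε → ∃ K : ℝ, 0 < K ∧ ∀ᶠ x : ℕ in atTop, ∀ a ∈ Φ x,
      |∑ m ∈ Finset.range (M a), γ a m ω * In A m ω * In A (m + 2) ω -
        ((gdc (∏ p ∈ Q, p) : ℝ) / Nat.totient (∏ p ∈ Q, p)) * ∑ m ∈ Finset.range (M a), γ a m ω * In A m ω *
          bb (((∏ p ∈ Q, p : ℕ) : ℝ) / Nat.totient (∏ p ∈ Q, p)) (m + 2)| ≤
        ε * (∑ m ∈ Finset.range (M a), γ a m ω * In A m ω *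
          bb (((∏ p ∈ Q, p : ℕ) : ℝ) / Nat.totient (∏ p ∈ Q, p)) (m + 2)) + K * Real.log x := by
  classical
  set W := ∏ p ∈ Q, p with hWdef
  have hW : 0 < W := Finset.prod_pos fun q hq => (hQ q hq).pos
  have hWr : (0 : ℝ) < W := by exact_mod_cast hW
  set c := (W : ℝ) / Nat.totient W with hc
  have hφpos : (0 : ℝ) < Nat.totient W := by exact_mod_cast Nat.totient_pos.2 hW
  have hcpos : 0 < c := div_pos hWr hφpos
  have hρ : ∀ n, 0 ≤ rhoW W n ∧ rhoW W n ≤ 1 := fun n => ⟨rhoW_nonneg W n, rhoW_le W n⟩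
  have hprof := prof (μ := μ) hA Q hQ hcop hd
  have s1 := pair_fam (μ := μ) hA hρ hprof C Φ hΦ γ hγm hγ0 h01 M hM
  have s2 := one_fam (μ := μ) hA hρ hprof C Φ hΦ γ hγm hγ0 h01 M hM (fun n => bb c (n + 2))
    (fun n => ⟨bb_nonneg hcpos.le _, bb_le _ _⟩)
  filter_upwards [s1, s2] with ω g1 g2 ε hε
  set δ : ℝ := min (ε / (4 + 2 * W)) (1 / 2) with hδ
  have hδ0 : 0 < δ := lt_min (by positivity) (by norm_num)
  have hδ1 : δ ≤ 1 / 2 := min_le_right _ _
  have hδ2 : δ * (4 + 2 * W) ≤ ε := by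
    have := min_le_left (ε / (4 + 2 * W)) (1 / 2)
    rw [← le_div_iff₀ (by positivity)]
    exact this
  obtain ⟨K1, hK1, k1⟩ := g1 δ hδ0
  obtain ⟨K2, hK2, k2⟩ := g2 δ hδ0
  obtain ⟨B, hB⟩ := class_diff hW hcpos hδ0
  refine ⟨K1 + 5 * K2 + 1, by positivity, ?_⟩
  have tl := Real.tendsto_log_atTop.comp (tendsto_natCast_atTop_atTop (R := ℝ))
  filter_upwards [k1, k2, tl.eventually_ge_atTop (2 * W * |B|)] with x h1 h2 h3 a ha
  have h1' := h1 a ha
  have h2' := h2 a ha
  have h3' : 2 * W * |B| ≤ Real.log x := h3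
  have hIn : ∀ m, In A m ω = if m ∈ {n | ω ∈ A n} then (1 : ℝ) else 0 := by
    intro m
    unfold In
    by_cases h : ω ∈ A m
    · rw [indicator_of_mem h, if_pos (show m ∈ {n | ω ∈ A n} from h)]
    · rw [indicator_of_notMem h, if_neg (show m ∉ {n | ω ∈ A n} from h)]
  set X1 := ∑ m ∈ Finset.range (M a), γ a m ω * In A m ω * In A (m + 2) ω with hX1
  set X2 := ∑ m ∈ Finset.range (M a), γ a m ω * In A m ω * bb c (m + 2) with hX2
  set X3 := ∑ m ∈ Finset.range (M a), γ a m ω * rhoW W m * rhoW W (m + 2) with hX3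
  set X4 := ∑ m ∈ Finset.range (M a), γ a m ω * rhoW W m * bb c (m + 2) with hX4
  set D : ℕ → ℝ := fun b => ∑ m ∈ Finset.range (M a), γ a m ω * el c m * (if m % W = b then 1 else 0) with hD
  have hDD : ∀ b < W, ∀ b' < W, |D b - D b'| ≤ δ * X2 + |B| := by
    intro b hb b' hb'
    have h4 := hB {n | ω ∈ A n} (fun m => γ a m ω) (fun m => h01 a m ω) (fun m hm => hch a ω m hm) (M a) b b' hb hb'
    have h5 : ∑ m ∈ Finset.range (M a), γ a m ω * (if m ∈ {n | ω ∈ A n} then (1 : ℝ) else 0) * bb c (m + 2) = X2 := by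
      simp only [hX2]
      refine Finset.sum_congr rfl fun m _ => ?_
      rw [hIn]
    rw [h5] at h4
    exact h4.trans (by linarith [le_abs_self B])
  set Cp := (Finset.range W).filter fun b => Nat.Coprime b W with hCp
  set Gd := (Finset.range W).filter fun b => Nat.Coprime b W ∧ Nat.Coprime (b + 2) W with hGd
  have hCpc : (Cp.card : ℝ) = Nat.totient W := by
    rw [hCp, Nat.totient_eq_card_coprime]
    congr 2
    refine Finset.filter_congr fun b _ => ?_
    exact Nat.coprime_comm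
  have hGdc : (Gd.card : ℝ) = gdc W := rfl
  have hGC : Gd.card ≤ Cp.card := Finset.card_le_card fun b hb => by
    obtain ⟨h5, h6⟩ := Finset.mem_filter.1 hb
    exact Finset.mem_filter.2 ⟨h5, h6.1⟩
  have hcopmod : ∀ m j, Nat.Coprime (m % W + j) W ↔ Nat.Coprime (m + j) W := by
    intro m j
    have e1 : (m % W + j) % W = (m + j) % W := Nat.mod_add_mod m W j
    rw [Nat.coprime_iff_gcd_eq_one, Nat.coprime_iff_gcd_eq_one, Nat.gcd_comm, Nat.gcd_comm (m + j), Nat.gcd_rec, Nat.gcd_rec W (m + j), e1]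
  have hX3D : X3 = ∑ b ∈ Gd, D b := by
    simp only [hX3, hD]
    rw [Finset.sum_comm]
    refine Finset.sum_congr rfl fun m _ => ?_
    rw [mul_assoc, rho_el, ← Finset.mul_sum, Finset.sum_ite_eq]
    have h5 : m % W ∈ Gd ↔ Nat.Coprime m W ∧ Nat.Coprime (m + 2) W := by
      rw [hGd, Finset.mem_filter, Finset.mem_range, hcopmod m 2]
      have h6 := hcopmod m 0
      simp only [add_zero] at h6
      rw [h6]
      exact ⟨fun h => h.2, fun h => ⟨Nat.mod_lt _ hW, h⟩⟩
    by_cases h6 : Nat.Coprime m W ∧ Nat.Coprime (m + 2) W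
    · rw [if_pos h6, if_pos (h5.2 h6)]
      ring
    · rw [if_neg h6, if_neg (fun h => h6 (h5.1 h))]
      ring
  have hX4D : X4 = ∑ b ∈ Cp, D b := by
    simp only [hX4, hD]
    rw [Finset.sum_comm]
    refine Finset.sum_congr rfl fun m _ => ?_
    rw [← Finset.mul_sum, Finset.sum_ite_eq]
    have h5 : m % W ∈ Cp ↔ Nat.Coprime m W := by
      rw [hCp, Finset.mem_filter, Finset.mem_range]
      have h6 := hcopmod m 0
      simp only [add_zero] at h6
      rw [h6]
      exact ⟨fun h => h.2, fun h => ⟨Nat.mod_lt _ hW, h⟩⟩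
    unfold rhoW el bb
    rw [← hc]
    by_cases h6 : Nat.Coprime m W
    · rw [if_pos h6, if_pos (h5.2 h6)]
      ring
    · rw [if_neg h6, if_neg (fun h => h6 (h5.1 h))]
      ring
  have hcomp : |X3 - (gdc W : ℝ) / Nat.totient W * X4| ≤ W * (δ * X2 + |B|) := by
    have e1 : (Nat.totient W : ℝ) * X3 - gdc W * X4 = ∑ b ∈ Gd, ∑ b' ∈ Cp, (D b - D b') := by
      simp_rw [Finset.sum_sub_distrib, Finset.sum_const, nsmul_eq_mul]
      rw [← hGdc, hCpc, ← hX4D, ← Finset.mul_sum, ← hX3D]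
    have e2 : |(Nat.totient W : ℝ) * X3 - gdc W * X4| ≤ gdc W * (Nat.totient W * (δ * X2 + |B|)) := by
      rw [e1]
      refine (Finset.abs_sum_le_sum_abs _ _).trans ?_
      have h5 : ∀ b ∈ Gd, |∑ b' ∈ Cp, (D b - D b')| ≤ Nat.totient W * (δ * X2 + |B|) := by
        intro b hb
        refine (Finset.abs_sum_le_sum_abs _ _).trans ?_
        have h6 : ∀ b' ∈ Cp, |D b - D b'| ≤ δ * X2 + |B| := fun b' hb' =>
          hDD b (Finset.mem_range.1 (Finset.mem_filter.1 hb).1) b' (Finset.mem_range.1 (Finset.mem_filter.1 hb').1)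
        refine (Finset.sum_le_sum h6).trans ?_
        rw [Finset.sum_const, nsmul_eq_mul, hCpc]
      refine (Finset.sum_le_sum h5).trans ?_
      rw [Finset.sum_const, nsmul_eq_mul, hGdc]
    have e3 : X3 - (gdc W : ℝ) / Nat.totient W * X4 = ((Nat.totient W : ℝ) * X3 - gdc W * X4) / Nat.totient W := by
      field_simp
    rw [e3, abs_div, abs_of_pos hφpos, div_le_iff₀ hφpos]
    refine e2.trans ?_
    have h7 : (gdc W : ℝ) ≤ W := by
      have : gdc W ≤ W := by
        unfold gdc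
        exact (Finset.card_filter_le _ _).trans (by simp)
      exact_mod_cast this
    have hX20 : 0 ≤ X2 := Finset.sum_nonneg fun m _ => mul_nonneg (mul_nonneg (h01 a m ω).1 (In_nonneg _ _)) (bb_nonneg hcpos.le _)
    have h8 : 0 ≤ δ * X2 + |B| := by positivity
    calc (gdc W : ℝ) * (Nat.totient W * (δ * X2 + |B|)) ≤ W * (Nat.totient W * (δ * X2 + |B|)) :=
          mul_le_mul_of_nonneg_right h7 (mul_nonneg hφpos.le h8)
      _ = _ := by ring
  have hX20 : 0 ≤ X2 := Finset.sum_nonneg fun m _ => mul_nonneg (mul_nonneg (h01 a m ω).1 (In_nonneg _ _)) (bb_nonneg hcpos.le _)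
  have hX30 : 0 ≤ X3 := Finset.sum_nonneg fun m _ => mul_nonneg (mul_nonneg (h01 a m ω).1 (hρ _).1) (hρ _).1
  have hX40 : 0 ≤ X4 := Finset.sum_nonneg fun m _ => mul_nonneg (mul_nonneg (h01 a m ω).1 (hρ _).1) (bb_nonneg hcpos.le _)
  set L := Real.log (x : ℝ) with hL
  have hL0 : 0 ≤ L := Real.log_natCast_nonneg _
  have hr0 : 0 ≤ (gdc W : ℝ) / Nat.totient W := by positivity
  have hr1 : (gdc W : ℝ) / Nat.totient W ≤ 1 := by
    rw [div_le_one hφpos, ← hGdc, ← hCpc]
    exact_mod_cast hGC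
  set r := (gdc W : ℝ) / Nat.totient W with hr
  have h2'' : |X2 - X4| ≤ δ * X4 + K2 * L := h2'
  have h4 := abs_le.1 h2''
  have hX4b : X4 ≤ 2 * X2 + 2 * (K2 * L) := by nlinarith [h4.1]
  have h5 := abs_le.1 hcomp
  have hX3b : X3 ≤ X4 + W * (δ * X2 + |B|) := by
    have : r * X4 ≤ X4 := mul_le_of_le_one_left hX40 hr1
    linarith [h5.2]
  have h6 : |X1 - X3| ≤ δ * X3 + K1 * L := h1'
  have h7 : X1 - r * X2 = (X1 - X3) + (X3 - r * X4) + r * (X4 - X2) := by ring
  rw [h7]
  have h8 : |r * (X4 - X2)| ≤ δ * X4 + K2 * L := by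
    rw [abs_mul, abs_of_nonneg hr0, abs_sub_comm]
    exact (mul_le_of_le_one_left (abs_nonneg _) hr1).trans h2''
  have h9 : |(X1 - X3) + (X3 - r * X4) + r * (X4 - X2)| ≤ (δ * X3 + K1 * L) + W * (δ * X2 + |B|) + (δ * X4 + K2 * L) :=
    (abs_add_le _ _).trans (add_le_add ((abs_add_le _ _).trans (add_le_add h6 hcomp)) h8)
  refine h9.trans ?_
  have hB0 := abs_nonneg B
  have q0 : 0 ≤ W * (δ * X2 + |B|) := by positivity
  have q1 : δ * X3 ≤ δ * X4 + 1 / 2 * (W * (δ * X2 + |B|)) := by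
    have e1 := mul_le_mul_of_nonneg_left hX3b hδ0.le
    have e2 : δ * (W * (δ * X2 + |B|)) ≤ 1 / 2 * (W * (δ * X2 + |B|)) := mul_le_mul_of_nonneg_right hδ1 q0
    nlinarith
  have q2 : δ * X4 ≤ δ * (2 * X2) + K2 * L := by
    have e1 := mul_le_mul_of_nonneg_left hX4b hδ0.le
    have e2 : δ * (2 * (K2 * L)) ≤ K2 * L := by
      have : 0 ≤ K2 * L := by positivity
      nlinarith
    nlinarith
  have q3 : δ * (4 + 2 * W) * X2 ≤ ε * X2 := mul_le_mul_of_nonneg_right hδ2 hX20
  have q4 : W * (δ * X2) = δ * W * X2 := by ring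
  have q5 : 0 ≤ δ * W * X2 := by positivity
  have q6 : 0 ≤ K2 * L := by positivity
  have q7 : (W : ℝ) * (δ * X2 + |B|) = δ * W * X2 + W * |B| := by ring
  have q8 : δ * (4 + 2 * W) * X2 = 4 * (δ * X2) + 2 * (δ * W * X2) := by ring
  rw [q8] at q3
  rw [q7] at q1
  rw [q7]
  have q9 : δ * (2 * X2) = 2 * (δ * X2) := by ring
  rw [q9] at q2
  have q10 : 2 * W * |B| = 2 * (W * |B|) := by ring
  rw [q10] at h3'
  have q11 : 0 ≤ (W : ℝ) * |B| := by positivity
  have q12 : (K1 + 5 * K2 + 1) * L = K1 * L + 5 * (K2 * L) + L := by ring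
  rw [q12]
  linarith

/-- predicates of the choices below `m` -/
lemma meas_pred (hA : ∀ n, MeasurableSet[ℱ n] (A n)) (m : ℕ) (G : Finset ℕ → Prop) :
    MeasurableSet[ℱ (m - 1)] {ω | open Classical in G ((Finset.range m).filter fun n => ω ∈ A n)} := by
  classical
  have h1 : {ω | G ((Finset.range m).filter fun n => ω ∈ A n)} =
      ⋃ s ∈ (Finset.range m).powerset.filter G, ⋂ n ∈ Finset.range m, (if n ∈ s then A n else (A n)ᶜ) := by
    ext ω
    simp only [Set.mem_ofPred_eq, Set.mem_iUnion, Set.mem_iInter, Finset.mem_filter, Finset.mem_powerset, exists_prop]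
    constructor
    · intro h
      refine ⟨(Finset.range m).filter fun n => ω ∈ A n, ⟨Finset.filter_subset _ _, h⟩, fun n hn => ?_⟩
      by_cases h2 : ω ∈ A n
      · rw [if_pos (Finset.mem_filter.2 ⟨hn, h2⟩)]
        exact h2
      · rw [if_neg (show n ∉ (Finset.range m).filter (fun n => ω ∈ A n) from fun h3 => h2 (Finset.mem_filter.1 h3).2)]
        exact h2
    · rintro ⟨s, ⟨hs, hG⟩, h⟩
      have : (Finset.range m).filter (fun n => ω ∈ A n) = s := by
        ext n
        rw [Finset.mem_filter]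
        constructor
        · rintro ⟨hn, h2⟩
          by_contra h3
          have h4 := h n hn
          rw [if_neg h3] at h4
          exact h4 h2
        · intro hn
          have hn' := hs hn
          refine ⟨hn', ?_⟩
          have h4 := h n hn'
          rwa [if_pos hn] at h4
      rw [this]
      exact hG
  rw [h1]
  refine Finset.measurableSet_biUnion _ fun s _ => Finset.measurableSet_biInter _ fun n hn => ?_
  have hn' := Finset.mem_range.1 hn
  have h2 : MeasurableSet[ℱ (m - 1)] (A n) := ℱ.mono (by omega) _ (hA n)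
  split_ifs
  · exact h2
  · exact h2.compl

/-- the number of elements below `m` -/
noncomputable def cb (S : Set ℕ) (m : ℕ) : ℕ := num S (fun _ => True) m

lemma cb_eq (S : Set ℕ) (m : ℕ) : cb S m = (open Classical in ((Finset.range m).filter fun n => n ∈ S).card) := by
  classical
  unfold cb
  rw [num_card]
  congr 1
  ext n
  simp

lemma cb_en {S : Set ℕ} (hS : S.Infinite) (j : ℕ) : cb S (en S j) = j := by
  unfold cb
  rw [num_en hS]
  have : {i | i < j ∧ True} = ((Finset.range j : Finset ℕ) : Set ℕ) := by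
    ext i
    simp
  rw [this, Set.ncard_coe_finset, Finset.card_range]

lemma cb_succ {S : Set ℕ} {m : ℕ} (hm : m ∉ S) : cb S (m + 1) = cb S m := by
  classical
  rw [cb_eq, cb_eq, Finset.range_add_one, Finset.filter_insert, if_neg hm]

/-- sums over the elements with given indices -/
lemma sum_index {S : Set ℕ} (hS : S.Infinite) (J : Finset ℕ) (f : ℕ → ℝ) {M : ℕ} (hM : ∀ j ∈ J, en S j < M) :
    (open Classical in ∑ m ∈ Finset.range M, (if cb S m ∈ J then (1 : ℝ) else 0) * (if m ∈ S then 1 else 0) * f m) =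
      ∑ j ∈ J, f (en S j) := by
  classical
  have h1 : ∑ m ∈ Finset.range M, (if cb S m ∈ J then (1 : ℝ) else 0) * (if m ∈ S then 1 else 0) * f m =
      ∑ m ∈ (Finset.range M).filter (fun m => cb S m ∈ J ∧ m ∈ S), f m := by
    rw [Finset.sum_filter]
    refine Finset.sum_congr rfl fun m _ => ?_
    by_cases h2 : cb S m ∈ J <;> by_cases h3 : m ∈ S <;> simp [h2, h3]
  have h2 : (Finset.range M).filter (fun m => cb S m ∈ J ∧ m ∈ S) = J.image (en S) := by
    ext m
    rw [Finset.mem_filter, Finset.mem_image, Finset.mem_range]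
    constructor
    · rintro ⟨h3, h4, h5⟩
      obtain ⟨j, rfl⟩ := en_surj h5
      rw [cb_en hS] at h4
      exact ⟨j, h4, rfl⟩
    · rintro ⟨j, hj, rfl⟩
      refine ⟨hM j hj, ?_, en_mem hS j⟩
      rw [cb_en hS]
      exact hj
  rw [h1, h2, Finset.sum_image (fun _ _ _ _ h => (en_mono hS).injective h)]

/-- growth of the elements -/
lemma en_growth {S : Set ℕ} {Q : Finset ℕ} (hQ : ∀ p ∈ Q, p.Prime)
    (h : ∀ H : Finset ℕ, ∀ ε : ℝ, 0 < ε → ∀ᶠ y : ℕ in atTop, ∀ h : ℕ, h ≤ y →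
      Real.log y ^ (2 * H.card + 2) ≤ h → |(cntI S H y h : ℝ) * Real.log y ^ H.card / h - singH Q H| ≤ ε) :
    S.Infinite ∧ ∀ᶠ j : ℕ in atTop, en S j ≤ j ^ 3 := by
  classical
  have h1 : singH Q {0} = 1 := by
    unfold singH
    refine Finset.prod_eq_one fun p hp => ?_
    have h2 : occ {0} p = 1 := by
      unfold occ
      simp
    have h3 : (1 : ℝ) < p := by exact_mod_cast (hQ p hp).one_lt
    have h4 : 1 - 1 / (p : ℝ) ≠ 0 := by
      have : 1 / (p : ℝ) < 1 := by
        rw [div_lt_one (by linarith)]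
        exact h3
      linarith
    rw [h2]
    simp only [Finset.card_singleton, pow_one, Nat.cast_one]
    exact div_self h4
  have h2 := h {0} (1 / 2) (by norm_num)
  rw [h1] at h2
  simp only [Finset.card_singleton, pow_one] at h2
  have tl := Real.tendsto_log_atTop.comp (tendsto_natCast_atTop_atTop (R := ℝ))
  have t4 : ∀ᶠ y : ℕ in atTop, Real.log y ^ 4 ≤ y := by
    have h0 : Tendsto (fun x : ℝ => Real.log x ^ (4 : ℝ) / x ^ (1 : ℝ)) atTop (𝓝 0) :=
      (isLittleO_log_rpow_rpow_atTop (4 : ℝ) one_pos).tendsto_div_nhds_zero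
    filter_upwards [(h0.comp tendsto_natCast_atTop_atTop).eventually_le_const (show (0 : ℝ) < 1 by norm_num),
      eventually_ge_atTop 1] with y hy hy1
    have hy0 : (0 : ℝ) < y := by exact_mod_cast hy1
    simp only [Function.comp_apply, Real.rpow_one] at hy
    rw [div_le_one hy0] at hy
    have e3 : Real.log (y : ℝ) ^ (4 : ℝ) = Real.log y ^ 4 := by
      rw [← Real.rpow_natCast]
      norm_num
    rwa [e3] at hy
  -- many elements in `(y, 2 y]`
  have h3 : ∀ᶠ y : ℕ in atTop, (y : ℝ) ≤ 2 * (cntI S {0} y y : ℝ) * Real.log y := by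
    filter_upwards [h2, t4, eventually_ge_atTop 1] with y g1 g2 g3
    have hy0 : (0 : ℝ) < y := by exact_mod_cast g3
    have g4 := g1 y le_rfl (by norm_num; exact g2)
    have g5 := (abs_le.1 g4).1
    have g6 : 1 / 2 ≤ (cntI S {0} y y : ℝ) * Real.log y / y := by linarith
    rw [le_div_iff₀ hy0] at g6
    linarith
  have hsub : ∀ y, cntI S {0} y y ≤ cb S (2 * y + 1) := by
    intro y
    rw [cb_eq]
    unfold cntI
    rw [← Set.ncard_coe_finset]
    refine Set.ncard_le_ncard ?_ (Finset.finite_toSet _)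
    rintro m ⟨⟨k1, k2⟩, k3⟩
    have k4 := k3 0 (by simp)
    simp only [Finset.coe_filter, Finset.mem_range, Set.mem_ofPred_eq]
    exact ⟨by omega, by simpa using k4⟩
  have hS : S.Infinite := by
    apply infinite_of_num
    have h5 : Tendsto (fun y : ℕ => (y : ℝ) / (2 * Real.log y)) atTop atTop := by
      have h0 : Tendsto (fun x : ℝ => Real.log x ^ (1 : ℝ) / x ^ (1 : ℝ)) atTop (𝓝 0) :=
        (isLittleO_log_rpow_rpow_atTop (1 : ℝ) one_pos).tendsto_div_nhds_zero
      have h6 : Tendsto (fun y : ℕ => 2 * (Real.log (y : ℝ) / y)) atTop (𝓝[>] 0) := by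
        rw [tendsto_nhdsWithin_iff]
        constructor
        · have := (h0.comp tendsto_natCast_atTop_atTop).const_mul 2
          rw [mul_zero] at this
          refine this.congr fun y => ?_
          simp
        · filter_upwards [eventually_gt_atTop 1] with y hy
          have hy' : (1 : ℝ) < y := by exact_mod_cast hy
          have := Real.log_pos hy'
          show 0 < 2 * (Real.log (y : ℝ) / y)
          positivity
      refine (h6.inv_tendsto_nhdsGT_zero).congr fun y => ?_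
      simp only [Pi.inv_apply]
      rw [mul_div_assoc', inv_div]
    have h6 : Tendsto (fun y : ℕ => (cb S (2 * y + 1) : ℝ)) atTop atTop := by
      refine tendsto_atTop_mono' _ ?_ h5
      filter_upwards [h3, eventually_gt_atTop 1] with y g1 g2
      have hy' : (1 : ℝ) < y := by exact_mod_cast g2
      have hl := Real.log_pos hy'
      rw [div_le_iff₀ (by positivity)]
      have : (cntI S {0} y y : ℝ) ≤ cb S (2 * y + 1) := by exact_mod_cast hsub y
      nlinarith
    refine tendsto_atTop.2 fun b => ?_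
    obtain ⟨y, hy⟩ := (h6.eventually_ge_atTop b).exists
    filter_upwards [eventually_ge_atTop (2 * y + 1)] with x hx
    refine hy.trans ?_
    have : cb S (2 * y + 1) ≤ cb S x := by
      rw [cb_eq, cb_eq]
      exact Finset.card_le_card (Finset.filter_subset_filter _ (Finset.range_mono hx))
    exact_mod_cast this
  refine ⟨hS, ?_⟩
  have tsq : Tendsto (fun j : ℕ => j ^ 2) atTop atTop := tendsto_pow_atTop two_ne_zero
  have t5 : ∀ᶠ j : ℕ in atTop, 8 * Real.log j ≤ j := by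
    have h0 : Tendsto (fun x : ℝ => Real.log x ^ (1 : ℝ) / x ^ (1 : ℝ)) atTop (𝓝 0) :=
      (isLittleO_log_rpow_rpow_atTop (1 : ℝ) one_pos).tendsto_div_nhds_zero
    filter_upwards [(h0.comp tendsto_natCast_atTop_atTop).eventually_le_const (show (0 : ℝ) < 1 / 8 by norm_num),
      eventually_ge_atTop 1] with y hy hy1
    have hy0 : (0 : ℝ) < y := by exact_mod_cast hy1
    simp only [Function.comp_apply, Real.rpow_one] at hy
    rw [div_le_iff₀ hy0] at hy
    linarith
  filter_upwards [tsq.eventually h3, t5, eventually_ge_atTop 3] with j g1 g2 g3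
  have hj : (3 : ℝ) ≤ j := by exact_mod_cast g3
  have hlj : 0 < Real.log (j : ℝ) := Real.log_pos (by linarith)
  push_cast at g1
  rw [Real.log_pow] at g1
  push_cast at g1
  have g4 : (j : ℝ) < cntI S {0} (j ^ 2) (j ^ 2) := by
    by_contra hcon
    push Not at hcon
    have g5 : 2 * (cntI S {0} (j ^ 2) (j ^ 2) : ℝ) * (2 * Real.log j) ≤ 2 * j * (2 * Real.log j) := by
      refine mul_le_mul_of_nonneg_right ?_ (by positivity)
      linarith
    nlinarith
  have g5 : j < cb S (2 * j ^ 2 + 1) := by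
    have g6 : j < cntI S {0} (j ^ 2) (j ^ 2) := by exact_mod_cast g4
    exact lt_of_lt_of_le g6 (hsub _)
  have g6 : en S j < 2 * j ^ 2 + 1 := by
    rw [cb_eq, ← Nat.count_eq_card_filter_range] at g5
    exact (Nat.lt_nth_iff_count_lt (p := (· ∈ S)) hS).1 g5
  have : 2 * j ^ 2 ≤ j ^ 3 := by nlinarith
  omega

end Pool.Agent.R960.Fam
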