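import Mathlib
import Pool.Agent.R960.Fam.Idx2

set_option autoImplicit false
set_option linter.unusedSectionVars false

/-! # Twins along deterministic sets of indices -/

open MeasureTheory Filter Set
open scoped ENNReal Topology

namespace Pool.Agent.R960.Fam

open Pool.Agent.R528.RM

variable {Ω : Type} {m0 : MeasurableSpace Ω} {μ : Measure Ω} [IsProbabilityMeasure μ]
  {ℱ : Filtration ℕ m0} {A : ℕ → Set Ω} {α β : Type}

lemma gdc_eq (Q : Finset ℕ) (hQ : ∀ p ∈ Q, p.Prime) :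
    (gdc (∏ p ∈ Q, p) : ℝ) / Nat.totient (∏ p ∈ Q, p) * (((∏ p ∈ Q, p : ℕ) : ℝ) / Nat.totient (∏ p ∈ Q, p)) = singH Q {0, 2} := by
  classical
  rw [← singH_eq Q hQ {0, 2}]
  set W := ∏ p ∈ Q, p with hWdef
  have hW : 0 < W := Finset.prod_pos fun q hq => (hQ q hq).pos
  have h1 : Nat.count (good (PH {0, 2}) W) W = gdc W := by
    rw [Nat.count_eq_card_filter_range]
    unfold gdc
    congr 1
    refine Finset.filter_congr fun b _ => ?_
    rw [good_PH]
    simp
  rw [h1, show ({0, 2} : Finset ℕ).card = 2 from rfl]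
  have e1 : (W : ℝ) ≠ 0 := by exact_mod_cast hW.ne'
  have e2 : (Nat.totient W : ℝ) ≠ 0 := by exact_mod_cast (Nat.totient_pos.2 hW).ne'
  field_simp

open Classical in
/-- the indicator that the next element has an index in `J` -/
noncomputable def gJ (A : ℕ → Set Ω) (J : Finset ℕ) (m : ℕ) (ω : Ω) : ℝ := if cb {n | ω ∈ A n} m ∈ J then 1 else 0

lemma gJ_meas (hA : ∀ n, MeasurableSet[ℱ n] (A n)) (J : Finset ℕ) (m : ℕ) : StronglyMeasurable[ℱ (m - 1)] (gJ A J m) := by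
  classical
  have h1 := meas_pred (ℱ := ℱ) hA m (fun s => s.card ∈ J)
  have h2 : gJ A J m = {ω | ((Finset.range m).filter fun n => ω ∈ A n).card ∈ J}.indicator (fun _ => (1 : ℝ)) := by
    funext ω
    unfold gJ
    rw [cb_eq]
    have e : ((Finset.range m).filter fun n => n ∈ {n | ω ∈ A n}) = (Finset.range m).filter fun n => ω ∈ A n := by
      ext n
      simp
    rw [e]
    by_cases h : ((Finset.range m).filter fun n => ω ∈ A n).card ∈ J
    · rw [if_pos h, indicator_of_mem (show ω ∈ {ω | ((Finset.range m).filter fun n => ω ∈ A n).card ∈ J} from h)]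
    · rw [if_neg h, indicator_of_notMem (show ω ∉ {ω | ((Finset.range m).filter fun n => ω ∈ A n).card ∈ J} from h)]
  rw [h2]
  refine (@stronglyMeasurable_const _ _ (ℱ (m - 1)) _ _).indicator ?_
  convert h1

/-- the law along deterministic sets of indices: uniformly in a family of sets `J` of indices of polynomial size -/
theorem det_idx (hA : ∀ n, MeasurableSet[ℱ n] (A n)) (Q : Finset ℕ) (hQ : ∀ p ∈ Q, p.Prime)
    (hcop : ∀ n, (∃ p ∈ Q, p ∣ n) → A n = ∅)
    (hd : ∀ᵐ ω ∂μ, Tendsto (fun n : ℕ => dens μ ℱ A n ω * Real.log n)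
      (atTop ⊓ 𝓟 {n : ℕ | ∀ p ∈ Q, ¬ p ∣ n + 1}) (𝓝 (∏ p ∈ Q, (1 - 1 / (p : ℝ))⁻¹)))
    (C D : ℕ) (Φ : ℕ → Finset α) (hΦ : ∀ᶠ x in atTop, (Φ x).card ≤ x ^ C) (J : α → Finset ℕ) (mn : ℕ → ℕ)
    (hmn : Tendsto mn atTop atTop) (hJ : ∀ᶠ x in atTop, ∀ a ∈ Φ x, ∀ j ∈ J a, mn x ≤ j ∧ j ≤ x ^ D)
    (hbig : ∀ᶠ x : ℕ in atTop, ∀ a ∈ Φ x, Real.log x ^ 3 ≤ (J a).card) :
    ∀ᵐ ω ∂μ, {n | ω ∈ A n}.Infinite ∧ ∀ ε : ℝ, 0 < ε → ∀ᶠ x : ℕ in atTop, ∀ a ∈ Φ x,
      |({j | j ∈ J a ∧ en {n | ω ∈ A n} j + 2 ∈ {n | ω ∈ A n}}.ncard : ℝ) -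
        singH Q {0, 2} * ∑ j ∈ J a, 1 / Real.log ((en {n | ω ∈ A n} j + 2 : ℕ) : ℝ)| ≤
        ε * ∑ j ∈ J a, 1 / Real.log ((en {n | ω ∈ A n} j + 2 : ℕ) : ℝ) := by
  classical
  set W := ∏ p ∈ Q, p with hWdef
  have hW : 0 < W := Finset.prod_pos fun q hq => (hQ q hq).pos
  have hWr : (0 : ℝ) < W := by exact_mod_cast hW
  set c := (W : ℝ) / Nat.totient W with hc
  have hφpos : (0 : ℝ) < Nat.totient W := by exact_mod_cast Nat.totient_pos.2 hW
  have hcpos : 0 < c := div_pos hWr hφpos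
  -- the family, with the parameter
  set Φ' : ℕ → Finset (ℕ × α) := fun x => ({x} : Finset ℕ) ×ˢ Φ x with hΦ'
  have hΦ'c : ∀ᶠ x in atTop, (Φ' x).card ≤ x ^ C := by
    filter_upwards [hΦ] with x hx
    simpa [hΦ'] using hx
  set M : ℕ × α → ℕ := fun a => (a.1 ^ D) ^ 3 + 1 with hM
  have main := idx_law (μ := μ) hA Q hQ hcop hd C Φ' hΦ'c (fun a m ω => if 0 ∈ J a.2 then 0 else gJ A (J a.2) m ω)
    (by
      intro a n
      by_cases h0 : 0 ∈ J a.2
      · simp only [if_pos h0]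
        exact @stronglyMeasurable_const _ _ (ℱ (n - 1)) _ _
      · simp only [if_neg h0]
        exact gJ_meas hA (J a.2) n)
    (by
      intro a ω
      show (if 0 ∈ J a.2 then (0 : ℝ) else gJ A (J a.2) 0 ω) = 0
      by_cases h0 : 0 ∈ J a.2
      · rw [if_pos h0]
      · rw [if_neg h0]
        unfold gJ
        have : cb {n | ω ∈ A n} 0 = 0 := by
          rw [cb_eq]
          simp
        rw [this, if_neg h0])
    (by
      intro a n ω
      show 0 ≤ (if 0 ∈ J a.2 then (0 : ℝ) else gJ A (J a.2) n ω) ∧ (if 0 ∈ J a.2 then (0 : ℝ) else gJ A (J a.2) n ω) ≤ 1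
      unfold gJ
      split_ifs <;> norm_num)
    (by
      intro a ω m hm
      show (if 0 ∈ J a.2 then (0 : ℝ) else gJ A (J a.2) (m + 1) ω) = (if 0 ∈ J a.2 then (0 : ℝ) else gJ A (J a.2) m ω)
      unfold gJ
      rw [cb_succ (show m ∉ {n | ω ∈ A n} from hm)])
    M (fun a => by simp [hM])
  filter_upwards [main, int_law (μ := μ) hA Q hQ hcop hd] with ω hω hint
  obtain ⟨hS, hgr⟩ := en_growth hQ hint
  set S := {n | ω ∈ A n} with hSdef
  refine ⟨hS, ?_⟩
  intro ε hε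
  obtain ⟨K, hK, hk⟩ := hω (ε / (2 * c)) (by positivity)
  obtain ⟨j₀, hj₀⟩ := eventually_atTop.1 hgr
  have tl := Real.tendsto_log_atTop.comp (tendsto_natCast_atTop_atTop (R := ℝ))
  have hlc := (tl.eventually_ge_atTop c)
  obtain ⟨l₀, hl₀⟩ := eventually_atTop.1 hlc
  filter_upwards [hk, hJ, hbig, hmn.eventually_ge_atTop (j₀ + l₀ + 2), tl.eventually_ge_atTop 1,
    tl.eventually_ge_atTop (2 * K * (3 * D + 2) / ε), eventually_ge_atTop 2] with x h1 h2 h3 h4 h5 h6 hx2 a ha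
  have h1' := h1 (x, a) (Finset.mem_product.2 ⟨Finset.mem_singleton_self x, ha⟩)
  have h5' : 1 ≤ Real.log x := h5
  have h6' : 2 * K * (3 * D + 2) / ε ≤ Real.log x := h6
  have h0 : 0 ∉ J a := fun h => by
    have := (h2 a ha 0 h).1
    omega
  have hMa : ∀ j ∈ J a, en S j < (x ^ D) ^ 3 + 1 := by
    intro j hj
    obtain ⟨g1, g2⟩ := h2 a ha j hj
    have g3 := hj₀ j (by omega)
    have g4 : j ^ 3 ≤ (x ^ D) ^ 3 := Nat.pow_le_pow_left g2 3
    omega
  simp only [if_neg h0] at h1'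
  have hIn : ∀ m, In A m ω = if m ∈ S then (1 : ℝ) else 0 := by
    intro m
    unfold In
    by_cases h : ω ∈ A m
    · rw [indicator_of_mem h, if_pos (show m ∈ S from h)]
    · rw [indicator_of_notMem h, if_neg (show m ∉ S from h)]
  have e1 : ∑ m ∈ Finset.range (M (x, a)), gJ A (J a) m ω * In A m ω * In A (m + 2) ω =
      ({j | j ∈ J a ∧ en S j + 2 ∈ S}.ncard : ℝ) := by
    have s1 := sum_index hS (J a) (fun m => In A (m + 2) ω) (M := (x ^ D) ^ 3 + 1) hMa
    have s2 : ∑ m ∈ Finset.range (M (x, a)), gJ A (J a) m ω * In A m ω * In A (m + 2) ω = ∑ j ∈ J a, In A (en S j + 2) ω := by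
      rw [← s1]
      refine Finset.sum_congr rfl fun m _ => ?_
      unfold gJ
      rw [hIn m]
    rw [s2]
    simp_rw [hIn]
    rw [Finset.sum_boole]
    congr 1
    rw [← Set.ncard_coe_finset]
    congr 1
    ext j
    simp
  have e2 : ∑ m ∈ Finset.range (M (x, a)), gJ A (J a) m ω * In A m ω * bb c (m + 2) =
      c * ∑ j ∈ J a, 1 / Real.log ((en S j + 2 : ℕ) : ℝ) := by
    have s1 := sum_index hS (J a) (fun m => bb c (m + 2)) (M := (x ^ D) ^ 3 + 1) hMa
    have s2 : ∑ m ∈ Finset.range (M (x, a)), gJ A (J a) m ω * In A m ω * bb c (m + 2) = ∑ j ∈ J a, bb c (en S j + 2) := by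
      rw [← s1]
      refine Finset.sum_congr rfl fun m _ => ?_
      unfold gJ
      rw [hIn m]
    rw [s2, Finset.mul_sum]
    refine Finset.sum_congr rfl fun j hj => ?_
    obtain ⟨g1, g2⟩ := h2 a ha j hj
    have g3 : j ≤ en S j := (en_mono hS).le_apply
    have g4 : c ≤ Real.log ((en S j + 2 : ℕ) : ℝ) := hl₀ _ (by omega)
    unfold bb
    rw [min_eq_right ((div_le_one (lt_of_lt_of_le hcpos g4)).2 g4)]
    ring
  rw [e1, e2] at h1'
  set Z := ∑ j ∈ J a, 1 / Real.log ((en S j + 2 : ℕ) : ℝ) with hZ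
  have hr : (gdc W : ℝ) / Nat.totient W * (c * Z) = singH Q {0, 2} * Z := by
    rw [← gdc_eq Q hQ, ← hWdef, ← hc]
    ring
  rw [hr] at h1'
  refine h1'.trans ?_
  have hxr : (2 : ℝ) ≤ x := by exact_mod_cast hx2
  -- lower bound for `Z`
  have hterm : ∀ j ∈ J a, 1 / ((3 * D + 2) * Real.log x) ≤ 1 / Real.log ((en S j + 2 : ℕ) : ℝ) := by
    intro j hj
    obtain ⟨g1, g2⟩ := h2 a ha j hj
    have g3 : j ≤ en S j := (en_mono hS).le_apply
    have g4 : (1 : ℝ) < ((en S j + 2 : ℕ) : ℝ) := by exact_mod_cast (by omega : 1 < en S j + 2)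
    refine one_div_le_one_div_of_le (Real.log_pos g4) ?_
    have g5 : en S j + 2 ≤ x ^ (3 * D + 2) := by
      have g6 := hMa j hj
      have g7 : (x ^ D) ^ 3 = x ^ (3 * D) := by rw [← pow_mul, mul_comm]
      have g8 : x ^ (3 * D + 2) = x ^ (3 * D) * x ^ 2 := pow_add _ _ _
      have g9 : 1 ≤ x ^ (3 * D) := Nat.one_le_pow _ _ (by omega)
      have g10 : 4 ≤ x ^ 2 := by nlinarith
      have g11 := Nat.mul_le_mul_left (x ^ (3 * D)) g10
      omega
    have g6 : (3 * D + 2 : ℝ) * Real.log x = Real.log ((x ^ (3 * D + 2) : ℕ) : ℝ) := by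
      push_cast
      rw [Real.log_pow]
      push_cast
      ring
    rw [g6]
    exact Real.log_le_log (by linarith) (by exact_mod_cast g5)
  have hZlow : Real.log x ^ 2 / (3 * D + 2) ≤ Z := by
    have g1 := Finset.sum_le_sum hterm
    rw [Finset.sum_const, nsmul_eq_mul] at g1
    refine le_trans ?_ g1
    have g2 := h3 a ha
    have g3 : Real.log x ^ 2 / (3 * D + 2) = Real.log x ^ 3 * (1 / ((3 * D + 2) * Real.log x)) := by
      field_simp
    rw [g3]
    exact mul_le_mul_of_nonneg_right g2 (by positivity)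
  have hKZ : K * Real.log x ≤ ε / 2 * Z := by
    refine le_trans ?_ (mul_le_mul_of_nonneg_left hZlow (by positivity))
    have g1 : K * Real.log x = (2 * K * (3 * D + 2) / ε) * (ε / 2 * (Real.log x / (3 * D + 2))) := by field_simp
    have g2 : ε / 2 * (Real.log x ^ 2 / (3 * D + 2)) = Real.log x * (ε / 2 * (Real.log x / (3 * D + 2))) := by ring
    rw [g1, g2]
    exact mul_le_mul_of_nonneg_right h6' (by positivity)
  have hcZ : ε / (2 * c) * (c * Z) = ε / 2 * Z := by field_simp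
  rw [hcZ]
  linarith

end Pool.Agent.R960.Fam
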