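import Mathlib
import Pool.Agent.R960.Fam.Idx3

set_option autoImplicit false
set_option linter.unusedSectionVars false

/-! # Twins along predictable sets of indices -/

open MeasureTheory Filter Set
open scoped ENNReal Topology

namespace Pool.Agent.R960.Fam

open Pool.Agent.R528.RM

variable {Ω : Type} {m0 : MeasurableSpace Ω} {μ : Measure Ω} [IsProbabilityMeasure μ]
  {ℱ : Filtration ℕ m0} {A : ℕ → Set Ω} {α β : Type}

open Classical in
/-- the elements of `S` below `m` -/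
noncomputable def sb (S : Set ℕ) (m : ℕ) : Finset ℕ := (Finset.range m).filter fun n => n ∈ S

lemma cb_sb (S : Set ℕ) (m : ℕ) : cb S m = (sb S m).card := cb_eq S m

lemma sb_card {S : Set ℕ} (hS : S.Infinite) (j : ℕ) : (sb S (en S j)).card = j := by
  rw [← cb_sb, cb_en hS]

lemma sb_succ {S : Set ℕ} {m : ℕ} (hm : m ∉ S) : sb S (m + 1) = sb S m := by
  classical
  unfold sb
  rw [Finset.range_add_one, Finset.filter_insert, if_neg hm]

open Classical in
/-- the indicator of a property of the elements below `m` -/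
noncomputable def gP (A : ℕ → Set Ω) (G : Finset ℕ → Prop) (m : ℕ) (ω : Ω) : ℝ := if G (sb {n | ω ∈ A n} m) then 1 else 0

lemma gP_meas (hA : ∀ n, MeasurableSet[ℱ n] (A n)) (G : Finset ℕ → Prop) (m : ℕ) : StronglyMeasurable[ℱ (m - 1)] (gP A G m) := by
  classical
  have h1 := meas_pred (ℱ := ℱ) hA m G
  have h2 : gP A G m = {ω | G ((Finset.range m).filter fun n => ω ∈ A n)}.indicator (fun _ => (1 : ℝ)) := by
    funext ω
    unfold gP
    have e : sb {n | ω ∈ A n} m = (Finset.range m).filter fun n => ω ∈ A n := by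
      unfold sb
      ext n
      simp
    rw [e]
    by_cases h : G ((Finset.range m).filter fun n => ω ∈ A n)
    · rw [if_pos h, indicator_of_mem (show ω ∈ {ω | G ((Finset.range m).filter fun n => ω ∈ A n)} from h)]
    · rw [if_neg h, indicator_of_notMem (show ω ∉ {ω | G ((Finset.range m).filter fun n => ω ∈ A n)} from h)]
  rw [h2]
  refine (@stronglyMeasurable_const _ _ (ℱ (m - 1)) _ _).indicator ?_
  convert h1

open Classical in
lemma sum_idx {S : Set ℕ} (hS : S.Infinite) (P : ℕ → Prop) (J : Finset ℕ) (hJ : ∀ j, j ∈ J ↔ P (en S j)) (f : ℕ → ℝ) {M : ℕ}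
    (hM : ∀ j ∈ J, en S j < M) :
    ∑ m ∈ Finset.range M, (if P m then (1 : ℝ) else 0) * (if m ∈ S then 1 else 0) * f m = ∑ j ∈ J, f (en S j) := by
  have h1 : ∑ m ∈ Finset.range M, (if P m then (1 : ℝ) else 0) * (if m ∈ S then 1 else 0) * f m =
      ∑ m ∈ (Finset.range M).filter (fun m => P m ∧ m ∈ S), f m := by
    rw [Finset.sum_filter]
    refine Finset.sum_congr rfl fun m _ => ?_
    by_cases h2 : P m <;> by_cases h3 : m ∈ S <;> simp [h2, h3]
  have h2 : (Finset.range M).filter (fun m => P m ∧ m ∈ S) = J.image (en S) := by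
    ext m
    rw [Finset.mem_filter, Finset.mem_image, Finset.mem_range]
    constructor
    · rintro ⟨h3, h4, h5⟩
      obtain ⟨j, rfl⟩ := en_surj h5
      exact ⟨j, (hJ j).2 h4, rfl⟩
    · rintro ⟨j, hj, rfl⟩
      exact ⟨hM j hj, (hJ j).1 hj, en_mem hS j⟩
  rw [h1, h2, Finset.sum_image (fun _ _ _ _ h => (en_mono hS).injective h)]

/-- the law along predictable sets of indices: the set `J` of indices consists of the `j ≤ x ^ D` such that the
elements of index less than `j` have a given property -/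
theorem pred_idx (hA : ∀ n, MeasurableSet[ℱ n] (A n)) (Q : Finset ℕ) (hQ : ∀ p ∈ Q, p.Prime)
    (hcop : ∀ n, (∃ p ∈ Q, p ∣ n) → A n = ∅)
    (hd : ∀ᵐ ω ∂μ, Tendsto (fun n : ℕ => dens μ ℱ A n ω * Real.log n)
      (atTop ⊓ 𝓟 {n : ℕ | ∀ p ∈ Q, ¬ p ∣ n + 1}) (𝓝 (∏ p ∈ Q, (1 - 1 / (p : ℝ))⁻¹)))
    (C D : ℕ) (Φ : ℕ → Finset α) (hΦ : ∀ᶠ x in atTop, (Φ x).card ≤ x ^ C) (G : α → Finset ℕ → Prop) (mn : ℕ → ℕ)
    (hmn : Tendsto mn atTop atTop) :
    ∀ᵐ ω ∂μ, {n | ω ∈ A n}.Infinite ∧ (∀ᶠ j : ℕ in atTop, en {n | ω ∈ A n} j ≤ j ^ 3) ∧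
      ∀ ε : ℝ, 0 < ε → ∀ᶠ x : ℕ in atTop, ∀ a ∈ Φ x, ∀ J : Finset ℕ,
      (∀ j, j ∈ J ↔ j ≤ x ^ D ∧ G a (sb {n | ω ∈ A n} (en {n | ω ∈ A n} j))) → (∀ j ∈ J, mn x ≤ j) →
      Real.log x ^ 3 ≤ J.card →
      |({j | j ∈ J ∧ en {n | ω ∈ A n} j + 2 ∈ {n | ω ∈ A n}}.ncard : ℝ) -
        singH Q {0, 2} * ∑ j ∈ J, 1 / Real.log ((en {n | ω ∈ A n} j + 2 : ℕ) : ℝ)| ≤
        ε * ∑ j ∈ J, 1 / Real.log ((en {n | ω ∈ A n} j + 2 : ℕ) : ℝ) := by
  classical
  set W := ∏ p ∈ Q, p with hWdef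
  have hW : 0 < W := Finset.prod_pos fun q hq => (hQ q hq).pos
  have hWr : (0 : ℝ) < W := by exact_mod_cast hW
  set c := (W : ℝ) / Nat.totient W with hc
  have hφpos : (0 : ℝ) < Nat.totient W := by exact_mod_cast Nat.totient_pos.2 hW
  have hcpos : 0 < c := div_pos hWr hφpos
  -- the family, with the parameter
  set Φ' : ℕ → Finset (ℕ × α) := fun x => ({x} : Finset ℕ) ×ˢ Φ x with hΦ'
  have hΦ'c : ∀ᶠ x in atTop, (Φ' x).card ≤ x ^ C := by
    filter_upwards [hΦ] with x hx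
    simpa [hΦ'] using hx
  set M : ℕ × α → ℕ := fun a => (a.1 ^ D) ^ 3 + 1 with hM
  set G' : ℕ × α → Finset ℕ → Prop := fun a s => s.card ≤ a.1 ^ D ∧ G a.2 s ∧ s ≠ ∅ with hG'
  have main := idx_law (μ := μ) hA Q hQ hcop hd C Φ' hΦ'c (fun a m ω => gP A (G' a) m ω)
    (by
      intro a n
      exact gP_meas hA (G' a) n)
    (by
      intro a ω
      show gP A (G' a) 0 ω = 0
      unfold gP
      rw [if_neg]
      rintro ⟨-, -, h⟩
      exact h rfl)
    (by
      intro a n ω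
      show 0 ≤ gP A (G' a) n ω ∧ gP A (G' a) n ω ≤ 1
      unfold gP
      split_ifs <;> norm_num)
    (by
      intro a ω m hm
      show gP A (G' a) (m + 1) ω = gP A (G' a) m ω
      unfold gP
      rw [sb_succ (show m ∉ {n | ω ∈ A n} from hm)])
    M (fun a => by simp [hM])
  filter_upwards [main, int_law (μ := μ) hA Q hQ hcop hd] with ω hω hint
  obtain ⟨hS, hgr⟩ := en_growth hQ hint
  set S := {n | ω ∈ A n} with hSdef
  refine ⟨hS, hgr, ?_⟩
  intro ε hε
  obtain ⟨K, hK, hk⟩ := hω (ε / (2 * c)) (by positivity)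
  obtain ⟨j₀, hj₀⟩ := eventually_atTop.1 hgr
  have tl := Real.tendsto_log_atTop.comp (tendsto_natCast_atTop_atTop (R := ℝ))
  have hlc := (tl.eventually_ge_atTop c)
  obtain ⟨l₀, hl₀⟩ := eventually_atTop.1 hlc
  filter_upwards [hk, hmn.eventually_ge_atTop (j₀ + l₀ + 2), tl.eventually_ge_atTop 1,
    tl.eventually_ge_atTop (2 * K * (3 * D + 2) / ε), eventually_ge_atTop 2] with x h1 h4 h5 h6 hx2 a ha J hJ hJm hJc
  have h1' := h1 (x, a) (Finset.mem_product.2 ⟨Finset.mem_singleton_self x, ha⟩)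
  have h5' : 1 ≤ Real.log x := h5
  have h6' : 2 * K * (3 * D + 2) / ε ≤ Real.log x := h6
  have hJ' : ∀ j, j ∈ J ↔ G' (x, a) (sb S (en S j)) := by
    intro j
    constructor
    · intro hj
      obtain ⟨g1, g2⟩ := (hJ j).1 hj
      have g3 := hJm j hj
      refine ⟨by rw [sb_card hS]; exact g1, g2, fun g4 => ?_⟩
      have g5 := sb_card hS j
      rw [g4, Finset.card_empty] at g5
      omega
    · rintro ⟨g1, g2, g3⟩
      rw [sb_card hS] at g1
      exact (hJ j).2 ⟨g1, g2⟩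
  have hMa : ∀ j ∈ J, en S j < (x ^ D) ^ 3 + 1 := by
    intro j hj
    obtain ⟨g1, g2⟩ := (hJ j).1 hj
    have g3 := hj₀ j (by have := hJm j hj; omega)
    have g4 : j ^ 3 ≤ (x ^ D) ^ 3 := Nat.pow_le_pow_left g1 3
    omega
  have hIn : ∀ m, In A m ω = if m ∈ S then (1 : ℝ) else 0 := by
    intro m
    unfold In
    by_cases h : ω ∈ A m
    · rw [indicator_of_mem h, if_pos (show m ∈ S from h)]
    · rw [indicator_of_notMem h, if_neg (show m ∉ S from h)]
  have e1 : ∑ m ∈ Finset.range (M (x, a)), gP A (G' (x, a)) m ω * In A m ω * In A (m + 2) ω =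
      ({j | j ∈ J ∧ en S j + 2 ∈ S}.ncard : ℝ) := by
    have s1 := sum_idx hS (fun m => G' (x, a) (sb S m)) J hJ' (fun m => In A (m + 2) ω) (M := (x ^ D) ^ 3 + 1) hMa
    have s2 : ∑ m ∈ Finset.range (M (x, a)), gP A (G' (x, a)) m ω * In A m ω * In A (m + 2) ω = ∑ j ∈ J, In A (en S j + 2) ω := by
      rw [← s1]
      refine Finset.sum_congr rfl fun m _ => ?_
      unfold gP
      rw [hIn m]
    rw [s2]
    simp_rw [hIn]
    rw [Finset.sum_boole]
    congr 1
    rw [← Set.ncard_coe_finset]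
    congr 1
    ext j
    simp
  have e2 : ∑ m ∈ Finset.range (M (x, a)), gP A (G' (x, a)) m ω * In A m ω * bb c (m + 2) =
      c * ∑ j ∈ J, 1 / Real.log ((en S j + 2 : ℕ) : ℝ) := by
    have s1 := sum_idx hS (fun m => G' (x, a) (sb S m)) J hJ' (fun m => bb c (m + 2)) (M := (x ^ D) ^ 3 + 1) hMa
    have s2 : ∑ m ∈ Finset.range (M (x, a)), gP A (G' (x, a)) m ω * In A m ω * bb c (m + 2) = ∑ j ∈ J, bb c (en S j + 2) := by
      rw [← s1]
      refine Finset.sum_congr rfl fun m _ => ?_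
      unfold gP
      rw [hIn m]
    rw [s2, Finset.mul_sum]
    refine Finset.sum_congr rfl fun j hj => ?_
    have g1 := hJm j hj
    have g3 : j ≤ en S j := (en_mono hS).le_apply
    have g4 : c ≤ Real.log ((en S j + 2 : ℕ) : ℝ) := hl₀ _ (by omega)
    unfold bb
    rw [min_eq_right ((div_le_one (lt_of_lt_of_le hcpos g4)).2 g4)]
    ring
  rw [e1, e2] at h1'
  set Z := ∑ j ∈ J, 1 / Real.log ((en S j + 2 : ℕ) : ℝ) with hZ
  have hr : (gdc W : ℝ) / Nat.totient W * (c * Z) = singH Q {0, 2} * Z := by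
    rw [← gdc_eq Q hQ, ← hWdef, ← hc]
    ring
  rw [hr] at h1'
  refine h1'.trans ?_
  have hxr : (2 : ℝ) ≤ x := by exact_mod_cast hx2
  -- lower bound for `Z`
  have hterm : ∀ j ∈ J, 1 / ((3 * D + 2) * Real.log x) ≤ 1 / Real.log ((en S j + 2 : ℕ) : ℝ) := by
    intro j hj
    have g1 := hJm j hj
    have g3 : j ≤ en S j := (en_mono hS).le_apply
    have g4 : (1 : ℝ) < ((en S j + 2 : ℕ) : ℝ) := by exact_mod_cast (by omega : 1 < en S j + 2)
    refine one_div_le_one_div_of_le (Real.log_pos g4) ?_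
    have g5 : en S j + 2 ≤ x ^ (3 * D + 2) := by
      have g6 := hMa j hj
      have g7 : (x ^ D) ^ 3 = x ^ (3 * D) := by rw [← pow_mul, mul_comm]
      have g8 : x ^ (3 * D + 2) = x ^ (3 * D) * x ^ 2 := pow_add _ _ _
      have g9 : 1 ≤ x ^ (3 * D) := Nat.one_le_pow _ _ (by omega)
      have g10 : 4 ≤ x ^ 2 := by nlinarith
      have g11 := Nat.mul_le_mul_left (x ^ (3 * D)) g10
      omega
    have g6 : (3 * D + 2 : ℝ) * Real.log x = Real.log ((x ^ (3 * D + 2) : ℕ) : ℝ) := by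
      push_cast
      rw [Real.log_pow]
      push_cast
      ring
    rw [g6]
    exact Real.log_le_log (by linarith) (by exact_mod_cast g5)
  have hZlow : Real.log x ^ 2 / (3 * D + 2) ≤ Z := by
    have g1 := Finset.sum_le_sum hterm
    rw [Finset.sum_const, nsmul_eq_mul] at g1
    refine le_trans ?_ g1
    have g2 := hJc
    have g3 : Real.log x ^ 2 / (3 * D + 2) = Real.log x ^ 3 * (1 / ((3 * D + 2) * Real.log x)) := by
      field_simp
    rw [g3]
    exact mul_le_mul_of_nonneg_right g2 (by positivity)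
  have hKZ : K * Real.log x ≤ ε / 2 * Z := by
    refine le_trans ?_ (mul_le_mul_of_nonneg_left hZlow (by positivity))
    have g1 : K * Real.log x = (2 * K * (3 * D + 2) / ε) * (ε / 2 * (Real.log x / (3 * D + 2))) := by field_simp
    have g2 : ε / 2 * (Real.log x ^ 2 / (3 * D + 2)) = Real.log x * (ε / 2 * (Real.log x / (3 * D + 2))) := by ring
    rw [g1, g2]
    exact mul_le_mul_of_nonneg_right h6' (by positivity)
  have hcZ : ε / (2 * c) * (c * Z) = ε / 2 * Z := by field_simp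
  rw [hcZ]
  linarith

end Pool.Agent.R960.Fam
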