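import Mathlib
import Pool.Agent.R960.Fam.Idx4
import Pool.Agent.R528.RM.TupQ

set_option autoImplicit false
set_option linter.unusedSectionVars false

/-! # Initial segments, indices of twins -/

open MeasureTheory Filter Set
open scoped ENNReal Topology

namespace Pool.Agent.R960.Fam

open Pool.Agent.R528.RM

variable {Ω : Type} {m0 : MeasurableSpace Ω} {μ : Measure Ω} [IsProbabilityMeasure μ]
  {ℱ : Filtration ℕ m0} {A : ℕ → Set Ω} {α β : Type}

open Classical in
/-- number of elements `m < x` of `S` with `m + 2 ∈ S` -/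
noncomputable def tc (S : Set ℕ) (x : ℕ) : ℕ := ((Finset.range x).filter fun m => m ∈ S ∧ m + 2 ∈ S).card

open Classical in
/-- number of indices `j < K` with `en S j + 2 ∈ S` -/
noncomputable def ti (S : Set ℕ) (K : ℕ) : ℕ := ((Finset.range K).filter fun j => en S j + 2 ∈ S).card

lemma log_div : Tendsto (fun x : ℕ => Real.log x / x) atTop (𝓝 0) := by
  have h0 : Tendsto (fun x : ℝ => Real.log x ^ (1 : ℝ) / x ^ (1 : ℝ)) atTop (𝓝 0) :=
    (isLittleO_log_rpow_rpow_atTop (1 : ℝ) one_pos).tendsto_div_nhds_zero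
  refine (h0.comp tendsto_natCast_atTop_atTop).congr fun y => ?_
  simp

lemma log2_div : Tendsto (fun x : ℕ => Real.log x ^ 2 / x) atTop (𝓝 0) := by
  have h0 : Tendsto (fun x : ℝ => Real.log x ^ (2 : ℝ) / x ^ (1 : ℝ)) atTop (𝓝 0) :=
    (isLittleO_log_rpow_rpow_atTop (2 : ℝ) one_pos).tendsto_div_nhds_zero
  refine (h0.comp tendsto_natCast_atTop_atTop).congr fun y => ?_
  simp

lemma shift_sum (f : ℕ → ℝ) (h : ∀ n, 0 ≤ f n ∧ f n ≤ 1) (x : ℕ) :
    |∑ n ∈ Finset.range x, f n - ∑ n ∈ Finset.range x, f (n + 1)| ≤ 1 := by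
  have h1 := Finset.sum_range_succ f x
  have h2 := Finset.sum_range_succ' f x
  have h3 : ∑ n ∈ Finset.range x, f n - ∑ n ∈ Finset.range x, f (n + 1) = f 0 - f x := by linarith
  rw [h3, abs_le]
  constructor <;> linarith [(h 0).1, (h 0).2, (h x).1, (h x).2]

lemma singH_zero {Q : Finset ℕ} (hQ : ∀ p ∈ Q, p.Prime) : singH Q {0} = 1 := by
  unfold singH
  refine Finset.prod_eq_one fun p hp => ?_
  have h2 : occ {0} p = 1 := by
    unfold occ
    simp
  have h3 : (1 : ℝ) < p := by exact_mod_cast (hQ p hp).one_lt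
  have h4 : 1 - 1 / (p : ℝ) ≠ 0 := by
    have : 1 / (p : ℝ) < 1 := by
      rw [div_lt_one (by linarith)]
      exact h3
    linarith
  rw [h2]
  simp only [Finset.card_singleton, pow_one, Nat.cast_one]
  exact div_self h4

theorem ini_law (hA : ∀ n, MeasurableSet[ℱ n] (A n)) (Q : Finset ℕ) (hQ : ∀ p ∈ Q, p.Prime)
    (hcop : ∀ n, (∃ p ∈ Q, p ∣ n) → A n = ∅)
    (hd : ∀ᵐ ω ∂μ, Tendsto (fun n : ℕ => dens μ ℱ A n ω * Real.log n)
      (atTop ⊓ 𝓟 {n : ℕ | ∀ p ∈ Q, ¬ p ∣ n + 1}) (𝓝 (∏ p ∈ Q, (1 - 1 / (p : ℝ))⁻¹))) :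
    ∀ᵐ ω ∂μ, Tendsto (fun x : ℕ => (cb {n | ω ∈ A n} x : ℝ) * Real.log x / x) atTop (𝓝 1) ∧
      Tendsto (fun x : ℕ => (tc {n | ω ∈ A n} x : ℝ) * Real.log x ^ 2 / x) atTop (𝓝 (singH Q {0, 2})) := by
  classical
  filter_upwards [tup_sieved (μ := μ) hA Q hQ hcop hd] with ω hω
  set W := ∏ p ∈ Q, p with hWdef
  set S := {n | ω ∈ A n} with hS
  have hIn : ∀ m, In A m ω = if m ∈ S then (1 : ℝ) else 0 := by
    intro m
    unfold In
    by_cases h : ω ∈ A m
    · rw [indicator_of_mem h, if_pos (show m ∈ S from h)]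
    · rw [indicator_of_notMem h, if_neg (show m ∉ S from h)]
  have key : ∀ H : Finset ℕ, Tendsto (fun x : ℕ => TN A (rhoW W) x H ∅ ω * Real.log x ^ H.card / x) atTop (𝓝 (singH Q H)) := by
    intro H
    rw [Metric.tendsto_nhds]
    intro ε hε
    filter_upwards [hω H.card (ε / 2) (by positivity), eventually_ge_atTop (H.sup id)] with x h1 h2
    have h3 := h1 H (by
      intro h hh
      rw [Finset.mem_range]
      have : h ≤ H.sup id := Finset.le_sup (f := id) hh
      omega) rfl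
    rw [Real.dist_eq]
    linarith
  have gen : ∀ (f : ℕ → ℝ) (g : ℕ → ℝ) (k : ℕ) (σ : ℝ), (∀ x, |g x - f x| ≤ 1) →
      Tendsto (fun x : ℕ => Real.log x ^ k / (x : ℝ)) atTop (𝓝 0) →
      Tendsto (fun x : ℕ => f x * Real.log x ^ k / x) atTop (𝓝 σ) → Tendsto (fun x : ℕ => g x * Real.log x ^ k / x) atTop (𝓝 σ) := by
    intro f g k σ h1 h2 h3
    have h4 : Tendsto (fun x : ℕ => (g x - f x) * (Real.log x ^ k / x)) atTop (𝓝 0) := by
      refine squeeze_zero_norm' ?_ h2
      filter_upwards [eventually_ge_atTop 1] with x hx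
      have hx' : (1 : ℝ) ≤ x := by exact_mod_cast hx
      have h5 : 0 ≤ Real.log (x : ℝ) ^ k / x := div_nonneg (pow_nonneg (Real.log_nonneg hx') _) (by linarith)
      rw [Real.norm_eq_abs, abs_mul, abs_of_nonneg h5]
      exact mul_le_of_le_one_left h5 (h1 x)
    have h6 := h4.add h3
    rw [zero_add] at h6
    refine h6.congr fun x => ?_
    ring
  constructor
  · have h1 := key {0}
    rw [singH_zero hQ] at h1
    have h2 := gen _ (fun x => (cb S x : ℝ)) ({0} : Finset ℕ).card 1 (fun x => ?_) ?_ h1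
    · simpa using h2
    · have h3 := shift_sum (fun m => if m ∈ S then (1 : ℝ) else 0) (fun m => by beta_reduce; split_ifs <;> norm_num) x
      have h4 : ∑ n ∈ Finset.range x, (if n ∈ S then (1 : ℝ) else 0) = (cb S x : ℝ) := by
        rw [Finset.sum_boole, cb_eq]
      have h5 : TN A (rhoW W) x {0} ∅ ω = ∑ n ∈ Finset.range x, (if n + 1 ∈ S then (1 : ℝ) else 0) := by
        unfold TN
        refine Finset.sum_congr rfl fun n _ => ?_
        rw [Finset.prod_singleton, Finset.prod_empty, mul_one, add_zero, hIn]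
      rw [h5, ← h4]
      exact h3
    · simpa using log_div
  · have h1 := key {0, 2}
    have h2 := gen _ (fun x => (tc S x : ℝ)) ({0, 2} : Finset ℕ).card (singH Q {0, 2}) (fun x => ?_) ?_ h1
    · simpa using h2
    · have h3 := shift_sum (fun m => if m ∈ S ∧ m + 2 ∈ S then (1 : ℝ) else 0) (fun m => by beta_reduce; split_ifs <;> norm_num) x
      have h4 : ∑ n ∈ Finset.range x, (if n ∈ S ∧ n + 2 ∈ S then (1 : ℝ) else 0) = (tc S x : ℝ) := by
        rw [Finset.sum_boole]
        rfl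
      have h5 : TN A (rhoW W) x {0, 2} ∅ ω = ∑ n ∈ Finset.range x, (if n + 1 ∈ S ∧ n + 1 + 2 ∈ S then (1 : ℝ) else 0) := by
        unfold TN
        refine Finset.sum_congr rfl fun n _ => ?_
        rw [Finset.prod_pair (by norm_num), Finset.prod_empty, mul_one, add_zero, hIn, hIn]
        by_cases g1 : n + 1 ∈ S <;> by_cases g2 : n + 1 + 2 ∈ S <;> simp [g1, g2]
      rw [h5, ← h4]
      exact h3
    · simpa using log2_div

section det

variable {S : Set ℕ}

lemma en_atTop (hS : S.Infinite) : Tendsto (en S) atTop atTop := (en_mono hS).tendsto_atTop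

lemma log_cb (h : Tendsto (fun x : ℕ => (cb S x : ℝ) * Real.log x / x) atTop (𝓝 1)) :
    Tendsto (fun x : ℕ => Real.log (cb S x) / Real.log x) atTop (𝓝 1) := by
  have tl := Real.tendsto_log_atTop.comp (tendsto_natCast_atTop_atTop (R := ℝ))
  have h1 : Tendsto (fun x : ℕ => Real.log ((cb S x : ℝ) * Real.log x / x)) atTop (𝓝 0) := by
    have := h.log one_ne_zero
    rwa [Real.log_one] at this
  have h2 : Tendsto (fun x : ℕ => Real.log ((cb S x : ℝ) * Real.log x / x) / Real.log x) atTop (𝓝 0) :=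
    h1.div_atTop tl
  have h3 : Tendsto (fun x : ℕ => Real.log (Real.log x) / Real.log x) atTop (𝓝 0) := by
    have h0 : Tendsto (fun x : ℝ => Real.log x ^ (1 : ℝ) / x ^ (1 : ℝ)) atTop (𝓝 0) :=
      (isLittleO_log_rpow_rpow_atTop (1 : ℝ) one_pos).tendsto_div_nhds_zero
    refine (h0.comp tl).congr fun y => ?_
    simp
  have h4 := (h2.sub h3).add_const 1
  rw [sub_zero, zero_add] at h4
  refine h4.congr' ?_
  filter_upwards [tl.eventually_ge_atTop 1, h.eventually (lt_mem_nhds (show (0 : ℝ) < 1 by norm_num)), eventually_ge_atTop 1] with x g1 g2 g3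
  have g1' : 1 ≤ Real.log x := g1
  have hx : (0 : ℝ) < x := by exact_mod_cast g3
  have hl : 0 < Real.log (x : ℝ) := by linarith
  have hc : 0 < (cb S x : ℝ) := by
    rcases (Nat.cast_nonneg (α := ℝ) (cb S x)).eq_or_lt with h5 | h5
    · rw [← h5] at g2
      simp at g2
    · exact h5
  rw [Real.log_div (by positivity) (by positivity), Real.log_mul hc.ne' hl.ne']
  field_simp
  ring

lemma log_en (hS : S.Infinite) (h : Tendsto (fun x : ℕ => (cb S x : ℝ) * Real.log x / x) atTop (𝓝 1)) :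
    Tendsto (fun j : ℕ => Real.log j / Real.log (en S j)) atTop (𝓝 1) := by
  refine ((log_cb h).comp (en_atTop hS)).congr fun j => ?_
  simp only [Function.comp_apply, cb_en hS]

lemma en_upper (hS : S.Infinite) (h : Tendsto (fun x : ℕ => (cb S x : ℝ) * Real.log x / x) atTop (𝓝 1)) {δ : ℝ} (hδ : 0 < δ) :
    ∀ᶠ j : ℕ in atTop, Real.log (en S j) ≤ (1 + δ) * Real.log j := by
  have h1 : 1 / (1 + δ) < 1 := by
    rw [div_lt_one (by positivity)]
    linarith
  filter_upwards [(log_en hS h).eventually (lt_mem_nhds h1), eventually_ge_atTop 2] with j h2 h3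
  have h4 : j ≤ en S j := (en_mono hS).le_apply
  have h5 : (2 : ℝ) ≤ en S j := by exact_mod_cast (by omega : 2 ≤ en S j)
  have h6 : 0 < Real.log (en S j : ℝ) := Real.log_pos (by linarith)
  rw [div_lt_div_iff₀ (by positivity) h6] at h2
  linarith

lemma en_double (hS : S.Infinite) (h : Tendsto (fun x : ℕ => (cb S x : ℝ) * Real.log x / x) atTop (𝓝 1)) :
    ∀ᶠ j : ℕ in atTop, 2 * j ≤ en S j := by
  have tl := Real.tendsto_log_atTop.comp (tendsto_natCast_atTop_atTop (R := ℝ))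
  have h1 : ∀ᶠ x : ℕ in atTop, 2 * cb S x ≤ x := by
    filter_upwards [h.eventually (gt_mem_nhds (show (1 : ℝ) < 2 by norm_num)), tl.eventually_ge_atTop 4, eventually_ge_atTop 1] with x g1 g2 g3
    have g2' : 4 ≤ Real.log x := g2
    have hx : (0 : ℝ) < x := by exact_mod_cast g3
    rw [div_lt_iff₀ hx] at g1
    have hc := Nat.cast_nonneg (α := ℝ) (cb S x)
    have : 2 * (cb S x : ℝ) ≤ x := by nlinarith
    exact_mod_cast this
  filter_upwards [(en_atTop hS).eventually h1] with j hj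
  rwa [cb_en hS] at hj

lemma ti_tc (hS : S.Infinite) (K : ℕ) : ti S K = tc S (en S K) := by
  classical
  unfold ti tc
  rw [← Finset.card_image_of_injective _ (en_mono hS).injective]
  congr 1
  ext m
  simp only [Finset.mem_image, Finset.mem_filter, Finset.mem_range]
  constructor
  · rintro ⟨j, ⟨h1, h2⟩, rfl⟩
    exact ⟨(en_mono hS) h1, en_mem hS j, h2⟩
  · rintro ⟨h1, h2, h3⟩
    obtain ⟨j, rfl⟩ := en_surj h2
    exact ⟨j, ⟨(en_mono hS).lt_iff_lt.1 h1, h3⟩, rfl⟩

lemma ti_law (hS : S.Infinite) (h : Tendsto (fun x : ℕ => (cb S x : ℝ) * Real.log x / x) atTop (𝓝 1)) {σ : ℝ}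
    (h2 : Tendsto (fun x : ℕ => (tc S x : ℝ) * Real.log x ^ 2 / x) atTop (𝓝 σ)) :
    Tendsto (fun K : ℕ => (ti S K : ℝ) * Real.log K / K) atTop (𝓝 σ) := by
  have g1 := h2.comp (en_atTop hS)
  have g2 := (h.comp (en_atTop hS)).inv₀ one_ne_zero
  have g3 := log_en hS h
  have g4 := (g1.mul g2).mul g3
  rw [inv_one, mul_one, mul_one] at g4
  refine g4.congr' ?_
  filter_upwards [eventually_ge_atTop 2] with K hK
  simp only [Function.comp_apply, cb_en hS, ← ti_tc hS]
  have h4 : K ≤ en S K := (en_mono hS).le_apply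
  have h5 : (2 : ℝ) ≤ en S K := by exact_mod_cast (by omega : 2 ≤ en S K)
  have h6 : 0 < Real.log (en S K : ℝ) := Real.log_pos (by linarith)
  have h7 : (2 : ℝ) ≤ K := by exact_mod_cast hK
  field_simp

/-- the size of `p_{p_i}` -/
lemma en_en (hS : S.Infinite) (h : Tendsto (fun x : ℕ => (cb S x : ℝ) * Real.log x / x) atTop (𝓝 1)) {δ : ℝ} (hδ : 0 < δ)
    (hδ1 : δ ≤ 1) :
    ∀ᶠ n : ℕ in atTop, ∀ i : ℕ, n ≤ 2 * (i + 1) → i + 1 ≤ n →
      Real.log n - Real.log 2 ≤ Real.log ((en S (en S i - 1) + 2 : ℕ) : ℝ) ∧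
      Real.log ((en S (en S i - 1) + 2 : ℕ) : ℝ) ≤ (1 + δ) * Real.log n := by
  have hδ8 : 0 < δ / 8 := by positivity
  obtain ⟨j₀, hj₀⟩ := eventually_atTop.1 (en_upper hS h hδ8)
  have tl := Real.tendsto_log_atTop.comp (tendsto_natCast_atTop_atTop (R := ℝ))
  filter_upwards [eventually_ge_atTop (2 * j₀ + 8), tl.eventually_ge_atTop (4 * Real.log 2 / δ)] with n hn hn2 i hi1 hi2
  have hn2' : 4 * Real.log 2 / δ ≤ Real.log n := hn2
  rw [div_le_iff₀ hδ] at hn2'
  have hnr : (8 : ℝ) ≤ n := by exact_mod_cast (by omega : 8 ≤ n)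
  have hln : 0 < Real.log (n : ℝ) := Real.log_pos (by linarith)
  have e1 : i ≤ en S i := (en_mono hS).le_apply
  have e2 : en S i - 1 ≤ en S (en S i - 1) := (en_mono hS).le_apply
  set c := en S i with hc
  set x := en S (c - 1) with hx
  have hir : (1 : ℝ) ≤ i := by exact_mod_cast (by omega : 1 ≤ i)
  constructor
  · have h1 : n ≤ 2 * (x + 2) := by omega
    have h1' : (n : ℝ) ≤ 2 * ((x + 2 : ℕ) : ℝ) := by exact_mod_cast h1
    have h2 : Real.log (n : ℝ) ≤ Real.log (2 * ((x + 2 : ℕ) : ℝ)) := Real.log_le_log (by linarith) h1'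
    have h3 : (0 : ℝ) < ((x + 2 : ℕ) : ℝ) := by positivity
    rw [Real.log_mul (by norm_num) h3.ne'] at h2
    linarith
  · have h1 := hj₀ i (by omega)
    have h2 := hj₀ (c - 1) (by omega)
    rw [← hc] at h1
    rw [← hx] at h2
    have hcr : (1 : ℝ) ≤ ((c - 1 : ℕ) : ℝ) := by exact_mod_cast (by omega : 1 ≤ c - 1)
    have h3 : Real.log ((c - 1 : ℕ) : ℝ) ≤ Real.log c := Real.log_le_log (by linarith) (by exact_mod_cast Nat.sub_le _ _)
    have h4 : Real.log (i : ℝ) ≤ Real.log n := Real.log_le_log (by linarith) (by exact_mod_cast (by omega : i ≤ n))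
    have h5 : Real.log ((x + 2 : ℕ) : ℝ) ≤ Real.log x + Real.log 2 := by
      have h6 : (2 : ℝ) ≤ x := by exact_mod_cast (by omega : 2 ≤ x)
      rw [← Real.log_mul (by linarith) (by norm_num)]
      refine Real.log_le_log (by positivity) ?_
      push_cast
      linarith
    have h6 : Real.log (c : ℝ) ≤ (1 + δ / 8) * Real.log n := h1.trans (mul_le_mul_of_nonneg_left h4 (by positivity))
    have h7 : Real.log (x : ℝ) ≤ (1 + δ / 8) * ((1 + δ / 8) * Real.log n) := by
      refine h2.trans (mul_le_mul_of_nonneg_left (h3.trans h6) (by positivity))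
    have h8 : (1 + δ / 8) * ((1 + δ / 8) * Real.log n) ≤ (1 + δ / 2) * Real.log n := by
      have : (1 + δ / 8) * (1 + δ / 8) ≤ 1 + δ / 2 := by nlinarith
      nlinarith
    nlinarith

end det

end Pool.Agent.R960.Fam
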