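import Mathlib
import Pool.Agent.R960.Fam.Idx5
import Pool.Agent.R960.Fam.Pow

set_option autoImplicit false
set_option linter.unusedSectionVars false

/-! # Splittings into indices of twins and prime indices of twins -/

open MeasureTheory Filter Set
open scoped ENNReal Topology

namespace Pool.Agent.R960.Fam

open Pool.Agent.R528.RM

variable {Ω : Type} {m0 : MeasurableSpace Ω} {μ : Measure Ω} [IsProbabilityMeasure μ]
  {ℱ : Filtration ℕ m0} {A : ℕ → Set Ω} {α β : Type}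

open Classical in
/-- the indices `i < K` with `en S i + 2 ∈ S` -/
noncomputable def kset (S : Set ℕ) (K : ℕ) : Finset ℕ := (Finset.range K).filter fun i => en S i + 2 ∈ S

/-- the corresponding indices of indices -/
noncomputable def jset (S : Set ℕ) (n K : ℕ) : Finset ℕ := (kset S K).image fun i => en S (n - i - 2) - 1

open Classical in
/-- the splittings -/
noncomputable def spl (S : Set ℕ) (n K : ℕ) : ℕ :=
  ((Finset.range K).filter fun i => en S i + 2 ∈ S ∧ en S (en S (n - i - 2) - 1) + 2 ∈ S).card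

/-- the property of the elements below -/
def GG (a : ℕ × ℕ) (s : Finset ℕ) : Prop :=
  ∃ i c d, i < a.2 ∧ c ∈ s ∧ (s.filter (· < c)).card = a.1 - i - 2 ∧ c = s.card + 1 ∧ d ∈ s ∧ (s.filter (· < d)).card = i ∧ d + 2 ∈ s

lemma sb_filter (S : Set ℕ) {m c : ℕ} (hc : c ≤ m) : ((sb S m).filter (· < c)).card = cb S c := by
  classical
  rw [cb_eq]
  unfold sb
  congr 1
  ext n
  simp only [Finset.mem_filter, Finset.mem_range]
  constructor
  · rintro ⟨⟨h1, h2⟩, h3⟩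
    exact ⟨h3, h2⟩
  · rintro ⟨h1, h2⟩
    exact ⟨⟨by omega, h2⟩, h1⟩

lemma mem_sb {S : Set ℕ} {m c : ℕ} : c ∈ sb S m ↔ c < m ∧ c ∈ S := by
  classical
  unfold sb
  rw [Finset.mem_filter, Finset.mem_range]

lemma en_cb {S : Set ℕ} (hS : S.Infinite) {c : ℕ} (hc : c ∈ S) : en S (cb S c) = c := by
  obtain ⟨i, rfl⟩ := en_surj hc
  rw [cb_en hS]

lemma jset_iff {S : Set ℕ} (hS : S.Infinite) {j₀ j₁ n K : ℕ} (h0 : ∀ j, j₀ ≤ j → en S j ≤ j ^ 3) (h1 : ∀ j, j₁ ≤ j → 2 * j ≤ en S j)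
    (hn : 2 * (j₀ + j₁) + 20 ≤ n) (hK : 2 * K ≤ n) (j : ℕ) :
    j ∈ jset S n K ↔ j ≤ n ^ 3 ∧ GG (n, K) (sb S (en S j)) := by
  classical
  unfold jset kset GG
  simp only [Finset.mem_image, Finset.mem_filter, Finset.mem_range]
  constructor
  · rintro ⟨i, ⟨hi, hi2⟩, rfl⟩
    set l := n - i - 2 with hl
    have hl1 : n ≤ 2 * (l + 1) := by omega
    have hl2 : l ≤ n := by omega
    have hil : i ≤ l := by omega
    have e1 : l ≤ en S l := (en_mono hS).le_apply
    set c := en S l with hc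
    have e2 := h1 (c - 1) (by omega)
    have e3 : en S i ≤ c := (en_mono hS).monotone hil
    have e4 : c ≤ l ^ 3 := h0 l (by omega)
    have e5 : l ^ 3 ≤ n ^ 3 := Nat.pow_le_pow_left hl2 3
    refine ⟨by omega, i, c, en S i, hi, mem_sb.2 ⟨by omega, en_mem hS l⟩, ?_, ?_, mem_sb.2 ⟨by omega, en_mem hS i⟩, ?_,
      mem_sb.2 ⟨by omega, hi2⟩⟩
    · rw [sb_filter S (by omega), hc, cb_en hS]
    · rw [sb_card hS]
      omega
    · rw [sb_filter S (by omega), cb_en hS]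
  · rintro ⟨g1, i, c, d, g2, g3, g4, g5, g6, g7, g8⟩
    obtain ⟨g3a, g3b⟩ := mem_sb.1 g3
    obtain ⟨g6a, g6b⟩ := mem_sb.1 g6
    rw [sb_filter S (by omega)] at g4 g7
    rw [sb_card hS] at g5
    have e1 := en_cb hS g3b
    have e2 := en_cb hS g6b
    rw [g4] at e1
    rw [g7] at e2
    refine ⟨i, ⟨g2, by rw [e2]; exact (mem_sb.1 g8).2⟩, ?_⟩
    change en S (n - i - 2) = c at e1
    rw [e1]
    omega

lemma jset_inj {S : Set ℕ} (hS : S.Infinite) {n K : ℕ} (hn : 6 ≤ n) (hK : 2 * K ≤ n) :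
    Set.InjOn (fun i => en S (n - i - 2) - 1) (Finset.range K : Finset ℕ) := by
  intro i hi i' hi' h
  have h1 := Finset.mem_range.1 (Finset.mem_coe.1 hi)
  have h2 := Finset.mem_range.1 (Finset.mem_coe.1 hi')
  have e1 : n - i - 2 ≤ en S (n - i - 2) := (en_mono hS).le_apply
  have e2 : n - i' - 2 ≤ en S (n - i' - 2) := (en_mono hS).le_apply
  have h' : en S (n - i - 2) - 1 = en S (n - i' - 2) - 1 := h
  have h3 : en S (n - i - 2) = en S (n - i' - 2) := by omega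
  have h4 := (en_mono hS).injective h3
  omega

lemma jset_card {S : Set ℕ} (hS : S.Infinite) {n K : ℕ} (hn : 6 ≤ n) (hK : 2 * K ≤ n) : (jset S n K).card = ti S K := by
  classical
  unfold jset
  rw [Finset.card_image_of_injOn]
  · rfl
  · refine (jset_inj hS hn hK).mono ?_
    unfold kset
    exact Finset.coe_subset.2 (Finset.filter_subset _ _)

lemma jset_spl {S : Set ℕ} (hS : S.Infinite) {n K : ℕ} (hn : 6 ≤ n) (hK : 2 * K ≤ n) :
    {j | j ∈ jset S n K ∧ en S j + 2 ∈ S}.ncard = spl S n K := by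
  classical
  have h1 : {j | j ∈ jset S n K ∧ en S j + 2 ∈ S} =
      ((((Finset.range K).filter fun i => en S i + 2 ∈ S ∧ en S (en S (n - i - 2) - 1) + 2 ∈ S).image fun i => en S (n - i - 2) - 1 : Finset ℕ) : Set ℕ) := by
    ext j
    unfold jset kset
    simp only [Finset.coe_image, Finset.mem_image, Finset.mem_filter, Finset.mem_range, Set.mem_ofPred_eq, Set.mem_image, Finset.mem_coe]
    constructor
    · rintro ⟨⟨i, ⟨h1, h2⟩, rfl⟩, h3⟩
      exact ⟨i, ⟨h1, h2, h3⟩, rfl⟩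
    · rintro ⟨i, ⟨h1, h2, h3⟩, rfl⟩
      exact ⟨⟨i, ⟨h1, h2⟩, rfl⟩, h3⟩
  rw [h1, Set.ncard_coe_finset, Finset.card_image_of_injOn]
  · rfl
  · exact (jset_inj hS hn hK).mono (Finset.coe_subset.2 (Finset.filter_subset _ _))

lemma ti_big {S : Set ℕ} {σ : ℝ} (hσ : 0 < σ) (h : Tendsto (fun K : ℕ => (ti S K : ℝ) * Real.log K / K) atTop (𝓝 σ)) :
    ∀ᶠ K : ℕ in atTop, (K : ℝ) ^ 3 ≤ (ti S K : ℝ) ^ 4 := by
  filter_upwards [h.eventually (lt_mem_nhds (show σ / 2 < σ by linarith)), log_pow_le 4 (show 0 < σ ^ 4 / 16 by positivity),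
    eventually_ge_atTop 2] with K h1 h2 h3
  have hK : (2 : ℝ) ≤ K := by exact_mod_cast h3
  have hl : 0 < Real.log (K : ℝ) := Real.log_pos (by linarith)
  rw [lt_div_iff₀ (by linarith)] at h1
  have h4 : (σ / 2 * K) ^ 4 ≤ ((ti S K : ℝ) * Real.log K) ^ 4 := pow_le_pow_left₀ (by positivity) h1.le 4
  have h5 : ((ti S K : ℝ) * Real.log K) ^ 4 ≤ (ti S K : ℝ) ^ 4 * (σ ^ 4 / 16 * K) := by
    rw [mul_pow]
    exact mul_le_mul_of_nonneg_left h2 (by positivity)
  have h6 := h4.trans h5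
  have h7 : (σ / 2 * K) ^ 4 = (σ ^ 4 / 16 * K) * (K : ℝ) ^ 3 := by ring
  rw [h7, mul_comm] at h6
  exact le_of_mul_le_mul_right h6 (by positivity)

lemma three_prod {u v w σ δ : ℝ} (hσ : 0 < σ) (hδ : 0 < δ) (hδ1 : δ ≤ 1) (hu : |u - σ| ≤ δ) (hv : |v - 1| ≤ δ) (hw : |w - σ| ≤ δ) :
    |u * v * w - σ ^ 2| ≤ δ * (σ ^ 2 + 4 * σ + 2) := by
  have hv2 : |v| ≤ 2 := by
    have := abs_le.1 hv
    rw [abs_le]
    constructor <;> linarith
  have hw2 : |w| ≤ σ + 1 := by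
    have := abs_le.1 hw
    rw [abs_le]
    constructor <;> linarith
  have e : u * v * w - σ ^ 2 = (u - σ) * v * w + σ * (v - 1) * w + σ * (w - σ) := by ring
  rw [e]
  have h1 : |(u - σ) * v * w| ≤ δ * 2 * (σ + 1) := by
    rw [abs_mul, abs_mul]
    exact mul_le_mul (mul_le_mul hu hv2 (abs_nonneg _) hδ.le) hw2 (abs_nonneg _) (by positivity)
  have h2 : |σ * (v - 1) * w| ≤ σ * δ * (σ + 1) := by
    rw [abs_mul, abs_mul, abs_of_pos hσ]
    exact mul_le_mul (mul_le_mul_of_nonneg_left hv hσ.le) hw2 (abs_nonneg _) (by positivity)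
  have h3 : |σ * (w - σ)| ≤ σ * δ := by
    rw [abs_mul, abs_of_pos hσ]
    exact mul_le_mul_of_nonneg_left hw hσ.le
  have h4 := (abs_add_le ((u - σ) * v * w + σ * (v - 1) * w) (σ * (w - σ))).trans
    (add_le_add ((abs_add_le _ _).trans (add_le_add h1 h2)) h3)
  refine h4.trans (le_of_eq ?_)
  ring

theorem split_law (hA : ∀ n, MeasurableSet[ℱ n] (A n)) (Q : Finset ℕ) (hQ : ∀ p ∈ Q, p.Prime)
    (hcop : ∀ n, (∃ p ∈ Q, p ∣ n) → A n = ∅)
    (hd : ∀ᵐ ω ∂μ, Tendsto (fun n : ℕ => dens μ ℱ A n ω * Real.log n)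
      (atTop ⊓ 𝓟 {n : ℕ | ∀ p ∈ Q, ¬ p ∣ n + 1}) (𝓝 (∏ p ∈ Q, (1 - 1 / (p : ℝ))⁻¹)))
    (hσ : 0 < singH Q {0, 2}) :
    ∀ᵐ ω ∂μ, {n | ω ∈ A n}.Infinite ∧ ∀ ε : ℝ, 0 < ε → ∀ᶠ n : ℕ in atTop, ∀ K : ℕ, 2 * K ≤ n → Real.log n ^ 4 ≤ K →
      |(spl {n | ω ∈ A n} n K : ℝ) * Real.log K * Real.log n / K - singH Q {0, 2} ^ 2| ≤ ε := by
  classical
  set σ := singH Q {0, 2} with hσdef
  set Φ : ℕ → Finset (ℕ × ℕ) := fun n => ({n} : Finset ℕ) ×ˢ Finset.range (n + 1) with hΦ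
  have hc : ∀ᶠ n : ℕ in atTop, (Φ n).card ≤ n ^ 2 := by
    filter_upwards [eventually_ge_atTop 2] with x hx
    have h1 : (Φ x).card = x + 1 := by
      simp only [hΦ, Finset.card_product, Finset.card_singleton, one_mul, Finset.card_range]
    rw [h1]
    nlinarith
  have tmn : Tendsto (fun n : ℕ => n / 2 - 2) atTop atTop :=
    (tendsto_sub_atTop_nat 2).comp (Nat.tendsto_div_const_atTop (by norm_num))
  have key := pred_idx (μ := μ) hA Q hQ hcop hd 2 3 Φ hc GG (fun n => n / 2 - 2) tmn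
  filter_upwards [key, ini_law (μ := μ) hA Q hQ hcop hd] with ω hω hini
  obtain ⟨hS, hgr, hlaw⟩ := hω
  obtain ⟨hcb, htc⟩ := hini
  set S := {n | ω ∈ A n} with hSdef
  refine ⟨hS, ?_⟩
  intro ε hε
  set δ : ℝ := min 1 (ε / (σ ^ 2 + 4 * σ + 2)) with hδ
  have hδ0 : 0 < δ := lt_min one_pos (by positivity)
  have hδ1 : δ ≤ 1 := min_le_left _ _
  have hδ2 : δ * (σ ^ 2 + 4 * σ + 2) ≤ ε := by
    have := min_le_right 1 (ε / (σ ^ 2 + 4 * σ + 2))
    rw [← le_div_iff₀ (by positivity)]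
    exact this
  obtain ⟨j₀, hj₀⟩ := eventually_atTop.1 hgr
  obtain ⟨j₁, hj₁⟩ := eventually_atTop.1 (en_double hS hcb)
  have hti := ti_law hS hcb htc
  have hti' : ∀ᶠ K : ℕ in atTop, |(ti S K : ℝ) * Real.log K / K - σ| ≤ δ := by
    rw [Metric.tendsto_nhds] at hti
    filter_upwards [hti δ hδ0] with K hK
    rw [Real.dist_eq] at hK
    exact hK.le
  obtain ⟨K₀, hK₀⟩ := eventually_atTop.1 (hti'.and ((ti_big hσ hti).and (eventually_ge_atTop 2)))
  have tl := Real.tendsto_log_atTop.comp (tendsto_natCast_atTop_atTop (R := ℝ))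
  filter_upwards [hlaw δ hδ0, en_en hS hcb hδ0 hδ1, eventually_ge_atTop (2 * (j₀ + j₁) + 20), tl.eventually_ge_atTop (K₀ + 1),
    tl.eventually_ge_atTop (2 * Real.log 2 / δ + Real.log 2 + 1)] with n g1 g2 g3 g4 g5 K hK1 hK2
  have g4' : (K₀ : ℝ) + 1 ≤ Real.log n := g4
  have g5' : 2 * Real.log 2 / δ + Real.log 2 + 1 ≤ Real.log n := g5
  have hl2 : 0 < Real.log 2 := Real.log_pos (by norm_num)
  set L := Real.log (n : ℝ) with hL
  have hL1 : 1 ≤ L := by
    have : 0 ≤ 2 * Real.log 2 / δ := by positivity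
    linarith
  have hKK : K₀ ≤ K := by
    have h1 : L ≤ L ^ 4 := by
      have : 1 ≤ L ^ 3 := one_le_pow₀ hL1
      nlinarith
    have h2 : (K₀ : ℝ) ≤ K := by linarith
    exact_mod_cast h2
  obtain ⟨k1, k2, k3⟩ := hK₀ K hKK
  have hKr : (2 : ℝ) ≤ K := by exact_mod_cast k3
  have hlK : 0 < Real.log (K : ℝ) := Real.log_pos (by linarith)
  have hcard := jset_card hS (by omega : 6 ≤ n) hK1
  have hbig : L ^ 3 ≤ (ti S K : ℝ) := by
    by_contra hcon
    push Not at hcon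
    have h1 : (ti S K : ℝ) ^ 4 < (L ^ 3) ^ 4 := pow_lt_pow_left₀ hcon (Nat.cast_nonneg _) (by norm_num)
    have h2 : (L ^ 4) ^ 3 ≤ (K : ℝ) ^ 3 := pow_le_pow_left₀ (by positivity) hK2 3
    have h3 : (L ^ 3) ^ 4 = (L ^ 4) ^ 3 := by ring
    linarith
  have main := g1 (n, K) (by
      simp only [hΦ, Finset.mem_product, Finset.mem_singleton, Finset.mem_range, true_and]
      omega) (jset S n K) (jset_iff hS hj₀ hj₁ g3 hK1)
    (by
      intro j hj
      unfold jset kset at hj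
      obtain ⟨i, hi, rfl⟩ := Finset.mem_image.1 hj
      have hi2 := Finset.mem_range.1 (Finset.mem_filter.1 hi).1
      have e1 : n - i - 2 ≤ en S (n - i - 2) := (en_mono hS).le_apply
      omega)
    (by rw [hcard]; exact hbig)
  have hspl : {j | j ∈ jset S n K ∧ ω ∈ A (en S j + 2)}.ncard = spl S n K := jset_spl hS (by omega : 6 ≤ n) hK1
  have main' : |(spl S n K : ℝ) - σ * ∑ j ∈ jset S n K, 1 / Real.log ((en S j + 2 : ℕ) : ℝ)| ≤
      δ * ∑ j ∈ jset S n K, 1 / Real.log ((en S j + 2 : ℕ) : ℝ) := by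
    rw [← hspl]
    exact main
  set Z := ∑ j ∈ jset S n K, 1 / Real.log ((en S j + 2 : ℕ) : ℝ) with hZ
  set t := (ti S K : ℝ) with ht
  have ht0 : 0 < t := lt_of_lt_of_le (by positivity) hbig
  have hterm : ∀ j ∈ jset S n K, 1 / ((1 + δ) * L) ≤ 1 / Real.log ((en S j + 2 : ℕ) : ℝ) ∧
      1 / Real.log ((en S j + 2 : ℕ) : ℝ) ≤ 1 / (L - Real.log 2) := by
    intro j hj
    unfold jset kset at hj
    obtain ⟨i, hi, rfl⟩ := Finset.mem_image.1 hj
    have hi2 := Finset.mem_range.1 (Finset.mem_filter.1 hi).1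
    obtain ⟨e1, e2⟩ := g2 (n - i - 2) (by omega) (by omega)
    have h0 : 0 < L - Real.log 2 := by
      have : 0 ≤ 2 * Real.log 2 / δ := by positivity
      linarith
    exact ⟨one_div_le_one_div_of_le (by linarith) e2, one_div_le_one_div_of_le h0 e1⟩
  have hZ1 : t * (1 / ((1 + δ) * L)) ≤ Z := by
    have h1 := Finset.sum_le_sum fun j hj => (hterm j hj).1
    rw [Finset.sum_const, nsmul_eq_mul, hcard] at h1
    exact h1
  have hZ2 : Z ≤ t * (1 / (L - Real.log 2)) := by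
    have h1 := Finset.sum_le_sum fun j hj => (hterm j hj).2
    rw [Finset.sum_const, nsmul_eq_mul, hcard] at h1
    exact h1
  have hL0 : 0 < L := by linarith
  have hZ0 : 0 < Z := lt_of_lt_of_le (by positivity) hZ1
  have hLl : 0 < L - Real.log 2 := by
    have : 0 ≤ 2 * Real.log 2 / δ := by positivity
    linarith
  have hu : |(spl S n K : ℝ) / Z - σ| ≤ δ := by
    have e : (spl S n K : ℝ) / Z - σ = ((spl S n K : ℝ) - σ * Z) / Z := by field_simp
    rw [e, abs_div, abs_of_pos hZ0, div_le_iff₀ hZ0]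
    exact main'
  have hv : |Z * L / t - 1| ≤ δ := by
    rw [abs_le]
    constructor
    · have h1 : 1 / (1 + δ) ≤ Z * L / t := by
        rw [le_div_iff₀ ht0]
        have h2 := mul_le_mul_of_nonneg_right hZ1 hL0.le
        have h3 : t * (1 / ((1 + δ) * L)) * L = 1 / (1 + δ) * t := by field_simp
        linarith
      have h2 : 1 - δ ≤ 1 / (1 + δ) := by
        rw [le_div_iff₀ (by positivity)]
        nlinarith
      linarith
    · have h1 : Z * L / t ≤ L / (L - Real.log 2) := by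
        rw [div_le_iff₀ ht0]
        have h2 := mul_le_mul_of_nonneg_right hZ2 hL0.le
        have h3 : t * (1 / (L - Real.log 2)) * L = L / (L - Real.log 2) * t := by field_simp
        linarith
      have h2 : L / (L - Real.log 2) ≤ 1 + δ := by
        rw [div_le_iff₀ hLl]
        have h3 : 2 * Real.log 2 / δ ≤ L := by linarith
        rw [div_le_iff₀ hδ0] at h3
        nlinarith
      linarith
  have hfin := three_prod hσ hδ0 hδ1 hu hv k1
  have e : (spl S n K : ℝ) / Z * (Z * L / t) * (t * Real.log K / K) = (spl S n K : ℝ) * Real.log K * L / K := by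
    field_simp
  rw [e] at hfin
  exact hfin.trans hδ2

end Pool.Agent.R960.Fam
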