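import Mathlib
import Pool.Agent.R960.Fam.Gen

set_option autoImplicit false
set_option linter.unusedSectionVars false

/-! # Polynomial values in short windows in the sieved models, uniformly in families -/

open MeasureTheory Filter Set Polynomial
open scoped ENNReal Topology

namespace Pool.Agent.R960.Fam

open Pool.Agent.R528.RM

variable {Ω : Type} {m0 : MeasurableSpace Ω} {μ : Measure Ω} [IsProbabilityMeasure μ]
  {ℱ : Filtration ℕ m0} {A : ℕ → Set Ω} {α : Type}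

/-- the window `(y, y + h]` without the exceptional integers -/
def win (y h : ℕ) (bad : Finset ℕ) : Finset ℕ := Finset.Ioc y (y + h) \ bad

/-- the vertices -/
noncomputable def vx (P : Finset ℤ[X]) (i : ℕ) : Finset ℕ := P.image fun f => (f.eval (i : ℤ)).toNat

/-- the factor of the sieving primes -/
noncomputable def sg (Q : Finset ℕ) (k : ℕ) (P : Finset ℤ[X]) : ℝ :=
  ∏ p ∈ Q, (1 - (omegaF P p : ℝ) / p) / (1 - 1 / (p : ℝ)) ^ k

lemma sg_eq (Q : Finset ℕ) (hQ : ∀ p ∈ Q, p.Prime) (P : Finset ℤ[X]) :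
    ((Nat.count (good P (∏ p ∈ Q, p)) (∏ p ∈ Q, p) : ℝ) / ((∏ p ∈ Q, p : ℕ) : ℝ)) *
      (((∏ p ∈ Q, p : ℕ) : ℝ) / Nat.totient (∏ p ∈ Q, p)) ^ P.card = sg Q P.card P := by
  rw [const_prod P Q hQ]
  unfold sg
  refine Finset.prod_congr rfl fun p hp => ?_
  have h4 := omega_good P (hQ p hp)
  have h5 : (Nat.count (good P p) p : ℝ) + omegaF P p = p := by exact_mod_cast h4
  have h6 : (0 : ℝ) < p := by exact_mod_cast (hQ p hp).pos
  have h7 : (Nat.count (good P p) p : ℝ) / p = 1 - (omegaF P p : ℝ) / p := by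
    field_simp
    linarith
  rw [h7, inv_pow]
  exact (div_eq_mul_inv _ _).symm

lemma win_card_le (y h : ℕ) (bad : Finset ℕ) : (win y h bad).card ≤ h := by
  unfold win
  refine (Finset.card_le_card Finset.sdiff_subset).trans ?_
  simp

lemma win_card_ge (y h : ℕ) (bad : Finset ℕ) : h ≤ (win y h bad).card + bad.card := by
  unfold win
  have := Finset.le_card_sdiff bad (Finset.Ioc y (y + h))
  simp only [Nat.card_Ioc, add_tsub_cancel_left] at this
  omega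

lemma gd_win (Q : Finset ℕ) (hQ : ∀ p ∈ Q, p.Prime) (P : Finset ℤ[X]) (y h : ℕ) (bad : Finset ℕ)
    (hpos : ∀ i ∈ win y h bad, ∀ f ∈ P, 0 ≤ f.eval (i : ℤ)) :
    |(gd (∏ p ∈ Q, p) (win y h bad) (vx P) : ℝ) -
      h * ((Nat.count (good P (∏ p ∈ Q, p)) (∏ p ∈ Q, p) : ℝ) / ((∏ p ∈ Q, p : ℕ) : ℝ))| ≤ 2 * (∏ p ∈ Q, p : ℕ) + bad.card := by
  classical
  set W := ∏ p ∈ Q, p with hWdef
  have hW : 0 < W := Finset.prod_pos fun q hq => (hQ q hq).pos
  have h1 := count_periodic (good P W) W hW (good_periodic P W) (y + h + 1)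
  have h2 := count_periodic (good P W) W hW (good_periodic P W) (y + 1)
  have hg : gd W (win y h bad) (vx P) = ((win y h bad).filter (good P W)).card := by
    unfold gd
    rw [full_eq]
    congr 1
    refine Finset.filter_congr fun i hi => ?_
    unfold good vx
    simp only [Finset.mem_image, forall_exists_index, and_imp, forall_apply_eq_imp_iff₂, Set.mem_ofPred_eq]
    refine forall₂_congr fun f hf => ?_
    have h3 : (((f.eval (i : ℤ)).toNat : ℕ) : ℤ) = f.eval (i : ℤ) := Int.toNat_of_nonneg (hpos i hi f hf)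
    conv_rhs => rw [← h3]
    rw [Int.gcd_natCast_natCast]
  have h4 : ((Finset.Ioc y (y + h)).filter (good P W)).card + Nat.count (good P W) (y + 1) = Nat.count (good P W) (y + h + 1) := by
    rw [Nat.count_eq_card_filter_range, Nat.count_eq_card_filter_range, ← Finset.card_union_of_disjoint]
    · congr 1
      ext m
      simp only [Finset.mem_union, Finset.mem_filter, Finset.mem_Ioc, Finset.mem_range]
      constructor
      · rintro (⟨⟨h5, h6⟩, h7⟩ | ⟨h5, h6⟩)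
        · exact ⟨by omega, h7⟩
        · exact ⟨by omega, h6⟩
      · rintro ⟨h5, h6⟩
        by_cases h7 : y < m
        · exact Or.inl ⟨⟨h7, by omega⟩, h6⟩
        · exact Or.inr ⟨by omega, h6⟩
    · rw [Finset.disjoint_left]
      intro m hm hm'
      have h5 := (Finset.mem_Ioc.1 (Finset.mem_filter.1 hm).1).1
      have h6 := Finset.mem_range.1 (Finset.mem_filter.1 hm').1
      omega
  have h5 : ((win y h bad).filter (good P W)).card ≤ ((Finset.Ioc y (y + h)).filter (good P W)).card :=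
    Finset.card_le_card (Finset.filter_subset_filter _ Finset.sdiff_subset)
  have h6 : ((Finset.Ioc y (y + h)).filter (good P W)).card ≤ ((win y h bad).filter (good P W)).card + bad.card := by
    rw [← Finset.card_union_add_card_inter]
    refine le_trans (Finset.card_le_card ?_) (Nat.le_add_right _ _)
    intro i hi
    obtain ⟨h7, h8⟩ := Finset.mem_filter.1 hi
    by_cases h9 : i ∈ bad
    · exact Finset.mem_union_right _ h9
    · exact Finset.mem_union_left _ (Finset.mem_filter.2 ⟨Finset.mem_sdiff.2 ⟨h7, h9⟩, h8⟩)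
  rw [hg]
  set G := ((win y h bad).filter (good P W)).card
  set G' := ((Finset.Ioc y (y + h)).filter (good P W)).card
  have h5' : (G : ℝ) ≤ G' := by exact_mod_cast h5
  have h6' : (G' : ℝ) ≤ G + bad.card := by exact_mod_cast h6
  have h4' : (G' : ℝ) + Nat.count (good P W) (y + 1) = Nat.count (good P W) (y + h + 1) := by exact_mod_cast h4
  have e1 := abs_le.1 h1
  have e2 := abs_le.1 h2
  push_cast at e1 e2
  rw [abs_le]
  constructor <;> nlinarith [e1.1, e1.2, e2.1, e2.2]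

theorem poly_win (hA : ∀ n, MeasurableSet[ℱ n] (A n)) (Q : Finset ℕ) (hQ : ∀ p ∈ Q, p.Prime)
    (hcop : ∀ n, (∃ p ∈ Q, p ∣ n) → A n = ∅)
    (hd : ∀ᵐ ω ∂μ, Tendsto (fun n : ℕ => dens μ ℱ A n ω * Real.log n)
      (atTop ⊓ 𝓟 {n : ℕ | ∀ p ∈ Q, ¬ p ∣ n + 1}) (𝓝 (∏ p ∈ Q, (1 - 1 / (p : ℝ))⁻¹)))
    (k κ C B : ℕ) (hκ : 0 < κ) (Φ : ℕ → Finset α) (hΦ : ∀ᶠ x in atTop, (Φ x).card ≤ x ^ C)
    (P : α → Finset ℤ[X]) (y h : α → ℕ) (bad : α → Finset ℕ) (Λ : α → ℝ) (mn : ℕ → ℕ) (hmn : Tendsto mn atTop atTop)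
    (hPk : ∀ᶠ x in atTop, ∀ a ∈ Φ x, (P a).card = k ∧ (bad a).card ≤ B)
    (hmin : ∀ᶠ x in atTop, ∀ a ∈ Φ x, ∀ i ∈ win (y a) (h a) (bad a), (∀ f ∈ P a, (mn x : ℤ) ≤ f.eval (i : ℤ)) ∧
      Set.InjOn (fun f : ℤ[X] => f.eval (i : ℤ)) (P a))
    (hmult : ∀ᶠ x in atTop, ∀ a ∈ Φ x, ∀ m, {i | i ∈ win (y a) (h a) (bad a) ∧ m ∈ vx (P a) i}.ncard ≤ κ)
    (hlog : ∀ η : ℝ, 0 < η → ∀ᶠ x in atTop, ∀ a ∈ Φ x, ∀ i ∈ win (y a) (h a) (bad a),
      |∏ f ∈ P a, Real.log ((f.eval (i : ℤ)).toNat : ℝ) - Λ a| ≤ η * Λ a)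
    (hΛ : ∀ᶠ x in atTop, ∀ a ∈ Φ x, 0 < Λ a)
    (hbig : ∀ K : ℝ, 0 < K → ∀ᶠ x : ℕ in atTop, ∀ a ∈ Φ x, K * (Λ a ^ 2 * Real.log x) ≤ h a)
    (hh : ∀ K : ℝ, ∀ᶠ x : ℕ in atTop, ∀ a ∈ Φ x, K ≤ h a) :
    ∀ᵐ ω ∂μ, ∀ ε : ℝ, 0 < ε → ∀ᶠ x : ℕ in atTop, ∀ a ∈ Φ x,
      |(full {m | ω ∈ A m} (win (y a) (h a) (bad a)) (vx (P a)) : ℝ) * Λ a / h a - sg Q k (P a)| ≤ ε := by
  classical
  set W := ∏ p ∈ Q, p with hWdef
  have hW : 0 < W := Finset.prod_pos fun q hq => (hQ q hq).pos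
  set c := (W : ℝ) / Nat.totient W with hc
  have hcpos : 0 < c := div_pos (by exact_mod_cast hW) (by exact_mod_cast Nat.totient_pos.2 hW)
  have hinj : ∀ᶠ x in atTop, ∀ a ∈ Φ x, ∀ i ∈ win (y a) (h a) (bad a),
      Set.InjOn (fun f : ℤ[X] => (f.eval (i : ℤ)).toNat) (P a) := by
    filter_upwards [hmin] with x hx a ha i hi f hf g hg hfg
    obtain ⟨h1, h2⟩ := hx a ha i hi
    refine h2 hf hg ?_
    have h3 : (0 : ℤ) ≤ f.eval (i : ℤ) := le_trans (by positivity) (h1 f hf)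
    have h4 : (0 : ℤ) ≤ g.eval (i : ℤ) := le_trans (by positivity) (h1 g hg)
    have h5 : (f.eval (i : ℤ)).toNat = (g.eval (i : ℤ)).toNat := hfg
    have h6 : (((f.eval (i : ℤ)).toNat : ℕ) : ℤ) = (((g.eval (i : ℤ)).toNat : ℕ) : ℤ) := by rw [h5]
    rwa [Int.toNat_of_nonneg h3, Int.toNat_of_nonneg h4] at h6
  have c2 : ∀ᶠ x in atTop, ∀ a ∈ Φ x, ∀ i ∈ win (y a) (h a) (bad a), (vx (P a) i).card = k ∧ ∀ m ∈ vx (P a) i, mn x ≤ m := by
    filter_upwards [hmin, hinj, hPk] with x hx1 hx2 hx3 a ha i hi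
    refine ⟨?_, ?_⟩
    · unfold vx
      rw [Finset.card_image_of_injOn (hx2 a ha i hi)]
      exact (hx3 a ha).1
    · intro m hm
      unfold vx at hm
      obtain ⟨f, hf, rfl⟩ := Finset.mem_image.1 hm
      have h1 := (hx1 a ha i hi).1 f hf
      exact Int.le_toNat (le_trans (by positivity) h1) |>.2 h1
  have c4 : ∀ η : ℝ, 0 < η → ∀ᶠ x in atTop, ∀ a ∈ Φ x, ∀ i ∈ win (y a) (h a) (bad a),
      |∏ m ∈ vx (P a) i, Real.log m - Λ a| ≤ η * Λ a := by
    intro η hη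
    filter_upwards [hlog η hη, hinj] with x hx1 hx2 a ha i hi
    have h1 := hx1 a ha i hi
    unfold vx
    rw [Finset.prod_image (fun f hf g hg hfg => hx2 a ha i hi hf hg hfg)]
    exact h1
  have hcard : ∀ᶠ x in atTop, ∀ a ∈ Φ x, (h a : ℝ) / 2 ≤ (win (y a) (h a) (bad a)).card := by
    filter_upwards [hh (2 * B), hPk] with x hx1 hx2 a ha
    have h1 := win_card_ge (y a) (h a) (bad a)
    have h2 : (h a : ℝ) ≤ (win (y a) (h a) (bad a)).card + (bad a).card := by exact_mod_cast h1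
    have h3 : ((bad a).card : ℝ) ≤ B := by exact_mod_cast (hx2 a ha).2
    have h4 := hx1 a ha
    linarith
  have c6 : ∀ K : ℝ, 0 < K → ∀ᶠ x : ℕ in atTop, ∀ a ∈ Φ x, K * (Λ a ^ 2 * Real.log x) ≤ (win (y a) (h a) (bad a)).card := by
    intro K hK
    filter_upwards [hbig (2 * K) (by positivity), hcard] with x hx1 hx2 a ha
    have h1 := hx1 a ha
    have h2 := hx2 a ha
    nlinarith
  have main := gen_fam (μ := μ) hA Q hQ hcop hd k κ C hκ Φ hΦ (fun a => win (y a) (h a) (bad a)) (fun a => vx (P a)) Λ mn hmn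
    c2 hmult c4 hΛ c6
  filter_upwards [main] with ω hω ε hε
  filter_upwards [hω (ε / 2) (by positivity), hh (c ^ k * (2 * W + B) * 2 / ε + 1), hPk, hmin] with x x1 x2 x3 x4 a ha
  have h1 := x1 a ha
  have h2 := x2 a ha
  obtain ⟨h3, h3'⟩ := x3 a ha
  have hh0 : (0 : ℝ) < h a := lt_of_lt_of_le (by positivity) h2
  rw [← hWdef] at h1
  rw [← hc] at h1
  have h5 := gd_win Q hQ (P a) (y a) (h a) (bad a) (fun i hi f hf => le_trans (by positivity) ((x4 a ha i hi).1 f hf))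
  rw [← hWdef] at h5
  have e3 : sg Q k (P a) = (Nat.count (good (P a) W) W : ℝ) / W * c ^ k := by
    rw [← h3]
    exact (sg_eq Q hQ (P a)).symm
  set d := (Nat.count (good (P a) W) W : ℝ) / W with hd'
  set N := (full {m | ω ∈ A m} (win (y a) (h a) (bad a)) (vx (P a)) : ℝ)
  set G := (gd W (win (y a) (h a) (bad a)) (vx (P a)) : ℝ)
  have hB : ((bad a).card : ℝ) ≤ B := by exact_mod_cast h3'
  have hI : ((win (y a) (h a) (bad a)).card : ℝ) ≤ h a := by exact_mod_cast win_card_le _ _ _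
  have e4 : N * Λ a / h a - sg Q k (P a) = ((N * Λ a - c ^ k * G) + c ^ k * (G - h a * d)) / h a := by
    rw [e3]
    field_simp
    ring
  rw [e4, abs_div, abs_of_pos hh0, div_le_iff₀ hh0]
  refine (abs_add_le _ _).trans ?_
  rw [abs_mul, abs_of_pos (pow_pos hcpos k)]
  have h6 : c ^ k * |G - h a * d| ≤ c ^ k * (2 * W + B) := mul_le_mul_of_nonneg_left (h5.trans (by linarith)) (pow_pos hcpos k).le
  have h7 : c ^ k * (2 * W + B) ≤ ε / 2 * h a := by
    have h8 : c ^ k * (2 * W + B) * 2 / ε ≤ h a := by linarith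
    rw [div_le_iff₀ hε] at h8
    linarith
  have h9 : ε / 2 * (win (y a) (h a) (bad a)).card ≤ ε / 2 * h a := mul_le_mul_of_nonneg_left hI (by positivity)
  linarith

end Pool.Agent.R960.Fam
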