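import Mathlib
import Pool.Agent.R960.Fam.PolyW

set_option autoImplicit false
set_option linter.unusedSectionVars false

/-! # Small lemmas for the windows of polynomial values -/

open MeasureTheory Filter Set Polynomial
open scoped ENNReal Topology

namespace Pool.Agent.R960.Fam

open Pool.Agent.R528.RM

lemma prod_near {ι : Type} (s : Finset ι) (u v : ι → ℝ) {L c : ℝ} (hL : 0 < L) (hc : 0 ≤ c)
    (hv : ∀ i ∈ s, L ≤ v i) (huv : ∀ i ∈ s, v i ≤ u i) (hvu : ∀ i ∈ s, u i ≤ v i + c) :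
    |∏ i ∈ s, u i - ∏ i ∈ s, v i| ≤ ((1 + c / L) ^ s.card - 1) * ∏ i ∈ s, v i := by
  have h1 : ∏ i ∈ s, v i ≤ ∏ i ∈ s, u i := Finset.prod_le_prod (fun i hi => hL.le.trans (hv i hi)) huv
  have h2 : ∏ i ∈ s, u i ≤ ∏ i ∈ s, ((1 + c / L) * v i) := by
    refine Finset.prod_le_prod (fun i hi => (hL.le.trans (hv i hi)).trans (huv i hi)) fun i hi => ?_
    refine (hvu i hi).trans ?_
    have h3 : c ≤ c / L * v i := by
      rw [div_mul_eq_mul_div, le_div_iff₀ hL]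
      exact mul_le_mul_of_nonneg_left (hv i hi) hc
    linarith
  rw [Finset.prod_mul_distrib, Finset.prod_const] at h2
  rw [abs_of_nonneg (by linarith)]
  linarith

lemma near_ev (c : ℝ) (k : ℕ) {η : ℝ} (hη : 0 < η) : ∀ᶠ L : ℝ in atTop, (1 + c / L) ^ k - 1 ≤ η := by
  have h1 : Tendsto (fun L : ℝ => (1 + c / L) ^ k) atTop (𝓝 ((1 + 0) ^ k)) :=
    (tendsto_const_nhds.add (tendsto_const_nhds.div_atTop tendsto_id)).pow k
  rw [add_zero, one_pow] at h1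
  filter_upwards [h1.eventually_le_const (show (1 : ℝ) < 1 + η by linarith)] with L hL
  linarith

lemma mult_inj (P : Finset ℤ[X]) (I : Finset ℕ)
    (h : ∀ f ∈ P, Set.InjOn (fun i : ℕ => (f.eval (i : ℤ)).toNat) I) (m : ℕ) :
    {i | i ∈ I ∧ m ∈ vx P i}.ncard ≤ P.card := by
  classical
  have h1 : ∀ i : ℕ, ∃ f : ℤ[X], (i ∈ I ∧ m ∈ vx P i) → f ∈ P ∧ (f.eval (i : ℤ)).toNat = m := by
    intro i
    by_cases hi : i ∈ I ∧ m ∈ vx P i
    · obtain ⟨f, hf, hf2⟩ := Finset.mem_image.1 hi.2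
      exact ⟨f, fun _ => ⟨hf, hf2⟩⟩
    · exact ⟨0, fun h2 => absurd h2 hi⟩
  choose g hg using h1
  rw [← Set.ncard_coe_finset P]
  refine Set.ncard_le_ncard_of_injOn g (fun i hi => (hg i hi).1) ?_ (Finset.finite_toSet P)
  intro i hi j hj hij
  have h2 := hg i hi
  have h3 := hg j hj
  refine h (g i) h2.1 hi.1 hj.1 ?_
  show ((g i).eval (i : ℤ)).toNat = ((g i).eval (j : ℤ)).toNat
  rw [h2.2, hij, h3.2]

/-- number of `i` in `(y, y + h]` all of whose polynomial values are in `S` -/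
noncomputable def cntP (S : Set ℕ) (P : Finset ℤ[X]) (y h : ℕ) : ℕ :=
  {i : ℕ | (y < i ∧ i ≤ y + h) ∧ ∀ f ∈ P, (f.eval (i : ℤ)).toNat ∈ S}.ncard

lemma cntP_full (S : Set ℕ) (P : Finset ℤ[X]) (y h : ℕ) (bad : Finset ℕ) :
    full S (win y h bad) (vx P) ≤ cntP S P y h ∧ cntP S P y h ≤ full S (win y h bad) (vx P) + bad.card := by
  classical
  have e1 : cntP S P y h = full S (Finset.Ioc y (y + h)) (vx P) := by
    unfold cntP full vx
    congr 1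
    ext m
    simp [Finset.mem_Ioc]
  rw [e1, full_eq, full_eq]
  constructor
  · exact Finset.card_le_card (Finset.filter_subset_filter _ Finset.sdiff_subset)
  · rw [← Finset.card_union_add_card_inter]
    refine le_trans (Finset.card_le_card ?_) (Nat.le_add_right _ _)
    intro i hi
    obtain ⟨h7, h8⟩ := Finset.mem_filter.1 hi
    by_cases h9 : i ∈ bad
    · exact Finset.mem_union_right _ h9
    · exact Finset.mem_union_left _ (Finset.mem_filter.2 ⟨Finset.mem_sdiff.2 ⟨h7, h9⟩, h8⟩)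

variable {Ω : Type} {m0 : MeasurableSpace Ω} {μ : Measure Ω} [IsProbabilityMeasure μ]
  {ℱ : Filtration ℕ m0} {A : ℕ → Set Ω} {α : Type}

theorem poly_win' (hA : ∀ n, MeasurableSet[ℱ n] (A n)) (Q : Finset ℕ) (hQ : ∀ p ∈ Q, p.Prime)
    (hcop : ∀ n, (∃ p ∈ Q, p ∣ n) → A n = ∅)
    (hd : ∀ᵐ ω ∂μ, Tendsto (fun n : ℕ => dens μ ℱ A n ω * Real.log n)
      (atTop ⊓ 𝓟 {n : ℕ | ∀ p ∈ Q, ¬ p ∣ n + 1}) (𝓝 (∏ p ∈ Q, (1 - 1 / (p : ℝ))⁻¹)))
    (k κ C B : ℕ) (hκ : 0 < κ) (Φ : ℕ → Finset α) (hΦ : ∀ᶠ x in atTop, (Φ x).card ≤ x ^ C)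
    (P : α → Finset ℤ[X]) (y h : α → ℕ) (bad : α → Finset ℕ) (Λ : α → ℝ) (mn : ℕ → ℕ) (hmn : Tendsto mn atTop atTop)
    (hPk : ∀ᶠ x in atTop, ∀ a ∈ Φ x, (P a).card = k ∧ (bad a).card ≤ B)
    (hmin : ∀ᶠ x in atTop, ∀ a ∈ Φ x, ∀ i ∈ win (y a) (h a) (bad a), (∀ f ∈ P a, (mn x : ℤ) ≤ f.eval (i : ℤ)) ∧
      Set.InjOn (fun f : ℤ[X] => f.eval (i : ℤ)) (P a))
    (hmult : ∀ᶠ x in atTop, ∀ a ∈ Φ x, ∀ m, {i | i ∈ win (y a) (h a) (bad a) ∧ m ∈ vx (P a) i}.ncard ≤ κ)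
    (hlog : ∀ η : ℝ, 0 < η → ∀ᶠ x in atTop, ∀ a ∈ Φ x, ∀ i ∈ win (y a) (h a) (bad a),
      |∏ f ∈ P a, Real.log ((f.eval (i : ℤ)).toNat : ℝ) - Λ a| ≤ η * Λ a)
    (hΛ : ∀ᶠ x in atTop, ∀ a ∈ Φ x, 1 ≤ Λ a)
    (hbig : ∀ K : ℝ, 0 < K → ∀ᶠ x : ℕ in atTop, ∀ a ∈ Φ x, K * (Λ a ^ 2 * Real.log x) ≤ h a) :
    ∀ᵐ ω ∂μ, ∀ ε : ℝ, 0 < ε → ∀ᶠ x : ℕ in atTop, ∀ a ∈ Φ x,
      |(cntP {m | ω ∈ A m} (P a) (y a) (h a) : ℝ) * Λ a / h a - sg Q k (P a)| ≤ ε := by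
  have hl1 : ∀ᶠ x : ℕ in atTop, (1 : ℝ) ≤ Real.log x :=
    (Real.tendsto_log_atTop.comp tendsto_natCast_atTop_atTop).eventually_ge_atTop _
  have hh : ∀ K : ℝ, ∀ᶠ x : ℕ in atTop, ∀ a ∈ Φ x, K ≤ h a := by
    intro K
    filter_upwards [hbig (max K 1) (by positivity), hΛ, hl1] with x h1 h2 h3 a ha
    have h4 := h1 a ha
    have h5 := h2 a ha
    have h6 : 1 ≤ Λ a ^ 2 * Real.log x := one_le_mul_of_one_le_of_one_le (one_le_pow₀ h5) h3
    calc K ≤ max K 1 := le_max_left _ _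
      _ ≤ max K 1 * (Λ a ^ 2 * Real.log x) := le_mul_of_one_le_right (by positivity) h6
      _ ≤ h a := h4
  filter_upwards [poly_win (μ := μ) hA Q hQ hcop hd k κ C B hκ Φ hΦ P y h bad Λ mn hmn hPk hmin hmult hlog
    (by filter_upwards [hΛ] with x hx a ha; exact lt_of_lt_of_le one_pos (hx a ha)) hbig hh] with ω hω ε hε
  filter_upwards [hω (ε / 2) (by positivity), hΛ, hl1, hbig ((B + 1) * 2 / ε) (by positivity), hPk, hh 1] with x
    x1 x2 x3 x4 x5 x6 a ha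
  have h1 := x1 a ha
  have h2 := x2 a ha
  have h4 := x4 a ha
  have h5 : ((bad a).card : ℝ) ≤ B := by exact_mod_cast (x5 a ha).2
  have hh0 : (0 : ℝ) < h a := lt_of_lt_of_le one_pos (x6 a ha)
  obtain ⟨h7, h8⟩ := cntP_full {m | ω ∈ A m} (P a) (y a) (h a) (bad a)
  set F := full {m | ω ∈ A m} (win (y a) (h a) (bad a)) (vx (P a))
  set G := cntP {m | ω ∈ A m} (P a) (y a) (h a)
  have h7' : (F : ℝ) ≤ G := by exact_mod_cast h7
  have h8' : (G : ℝ) ≤ F + (bad a).card := by exact_mod_cast h8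
  have h9 : Λ a ≤ Λ a ^ 2 * Real.log x := by
    calc Λ a = Λ a * 1 * 1 := by ring
      _ ≤ Λ a * Λ a * Real.log x := by
          refine mul_le_mul (mul_le_mul_of_nonneg_left h2 (by linarith)) x3 zero_le_one (by positivity)
      _ = _ := by ring
  have h10 : (G - F : ℝ) * Λ a / h a ≤ ε / 2 := by
    rw [div_le_iff₀ hh0]
    have h11 : (G - F : ℝ) * Λ a ≤ (B + 1) * Λ a := mul_le_mul_of_nonneg_right (by linarith) (by linarith)
    have h12 : (B + 1 : ℝ) * 2 / ε * Λ a ≤ h a := le_trans (mul_le_mul_of_nonneg_left h9 (by positivity)) h4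
    have h13 : (B + 1 : ℝ) * Λ a = ε / 2 * ((B + 1 : ℝ) * 2 / ε * Λ a) := by field_simp
    calc _ ≤ _ := h11
      _ = _ := h13
      _ ≤ _ := mul_le_mul_of_nonneg_left h12 (by positivity)
  have h11 : 0 ≤ (G - F : ℝ) * Λ a / h a := div_nonneg (mul_nonneg (by linarith) (by linarith)) hh0.le
  have h12 : (G : ℝ) * Λ a / h a - sg Q k (P a) = ((F : ℝ) * Λ a / h a - sg Q k (P a)) + (G - F : ℝ) * Λ a / h a := by ring
  rw [h12]
  refine (abs_add_le _ _).trans ?_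
  rw [abs_of_nonneg h11]
  linarith

/-- residues killed by a pair of linear forms of slopes `1` and `-1` -/
lemma pair_res (u v : ℤ) {p : ℕ} (hp : p.Prime) :
    {r : ℕ | r < p ∧ (p : ℤ) ∣ ((r : ℤ) + u) * (v - r)}.ncard = if (p : ℤ) ∣ u + v then 1 else 2 := by
  have hp0 : (0 : ℤ) < p := by exact_mod_cast hp.pos
  have hpi : Prime (p : ℤ) := Nat.prime_iff_prime_int.1 hp
  have key : ∀ (w : ℤ) (r : ℕ), r < p → ((p : ℤ) ∣ w - r ↔ r = (w % p).toNat) := by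
    intro w r hr
    have h0 : 0 ≤ w % p := Int.emod_nonneg _ hp0.ne'
    rw [← Int.modEq_iff_dvd]
    unfold Int.ModEq
    rw [Int.emod_eq_of_lt (by positivity) (by exact_mod_cast hr : (r : ℤ) < p)]
    constructor
    · intro h
      rw [← h]
      simp
    · intro h
      rw [h, Int.toNat_of_nonneg h0]
  have h2 : {r : ℕ | r < p ∧ (p : ℤ) ∣ ((r : ℤ) + u) * (v - r)} = {((-u) % p).toNat, (v % p).toNat} := by
    ext r
    simp only [Set.mem_ofPred_eq, Set.mem_insert_iff, Set.mem_singleton_iff]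
    have hneg : ((p : ℤ) ∣ (r : ℤ) + u) ↔ (p : ℤ) ∣ -u - r := by
      rw [← dvd_neg]
      congr! 1
      ring
    constructor
    · rintro ⟨h3, h4⟩
      rcases hpi.dvd_or_dvd h4 with h5 | h5
      · exact Or.inl ((key _ r h3).1 (hneg.1 h5))
      · exact Or.inr ((key _ r h3).1 h5)
    · intro h3
      have h4 : r < p := by
        have g1 := Int.emod_lt_of_pos (-u) hp0
        have g2 := Int.emod_lt_of_pos v hp0
        have g3 := Int.emod_nonneg (-u) hp0.ne'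
        have g4 := Int.emod_nonneg v hp0.ne'
        rcases h3 with h | h <;> rw [h] <;> omega
      refine ⟨h4, ?_⟩
      rcases h3 with h | h
      · exact Dvd.dvd.mul_right (hneg.2 ((key _ r h4).2 h)) _
      · exact Dvd.dvd.mul_left ((key _ r h4).2 h) _
  rw [h2]
  have h0 : 0 ≤ (-u) % (p : ℤ) := Int.emod_nonneg _ hp0.ne'
  have h0' : 0 ≤ v % (p : ℤ) := Int.emod_nonneg _ hp0.ne'
  have h3 : ((-u) % (p : ℤ)).toNat = (v % (p : ℤ)).toNat ↔ (p : ℤ) ∣ u + v := by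
    have h4 : ((p : ℤ) ∣ u + v) ↔ (-u) % (p : ℤ) = v % (p : ℤ) := by
      have h5 : u + v = v - (-u) := by ring
      rw [h5, ← Int.modEq_iff_dvd]
      rfl
    rw [h4]
    constructor
    · intro h
      omega
    · intro h
      rw [h]
  split_ifs with h
  · rw [h3.2 h]
    simp
  · rw [Set.ncard_pair]
    exact fun h5 => h (h3.1 h5)

end Pool.Agent.R960.Fam
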