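import Mathlib
import Pool.Agent.R960.Fam.Lg

set_option autoImplicit false
set_option linter.unusedSectionVars false

/-! # Systems of linear forms with large coefficients in the sieved models -/

open MeasureTheory Filter Set Polynomial
open scoped ENNReal Topology

namespace Pool.Agent.R960.Fam

open Pool.Agent.R528.RM

/-- the polynomials of a system of linear forms `a x + b` -/
noncomputable def LF (F : Finset (ℕ × ℕ)) : Finset ℤ[X] := F.image fun f => C (f.1 : ℤ) * X + C (f.2 : ℤ)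

lemma LF_inj : Function.Injective fun f : ℕ × ℕ => (C (f.1 : ℤ) * X + C (f.2 : ℤ) : ℤ[X]) := by
  intro f g h
  have h0 := congr_arg (fun q => Polynomial.eval 0 q) h
  have h1 := congr_arg (fun q => Polynomial.eval 1 q) h
  simp only [eval_add, eval_mul, eval_C, eval_X, mul_zero, zero_add, mul_one] at h0 h1
  ext
  · omega
  · omega

lemma LF_card (F : Finset (ℕ × ℕ)) : (LF F).card = F.card := Finset.card_image_of_injective _ LF_inj

lemma LF_prod {M : Type} [CommMonoid M] (F : Finset (ℕ × ℕ)) (g : ℤ[X] → M) :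
    ∏ f ∈ LF F, g f = ∏ f ∈ F, g (C (f.1 : ℤ) * X + C (f.2 : ℤ)) :=
  Finset.prod_image fun _ _ _ _ h => LF_inj h

lemma LF_eval (f : ℕ × ℕ) (i : ℕ) : (C (f.1 : ℤ) * X + C (f.2 : ℤ) : ℤ[X]).eval (i : ℤ) = ((f.1 * i + f.2 : ℕ) : ℤ) := by
  simp

/-- number of residues at which one of the forms is divisible by `p` -/
noncomputable def nuF (F : Finset (ℕ × ℕ)) (p : ℕ) : ℕ := {r : ℕ | r < p ∧ ∃ f ∈ F, p ∣ f.1 * r + f.2}.ncard

lemma omega_LF (F : Finset (ℕ × ℕ)) {p : ℕ} (hp : p.Prime) : omegaF (LF F) p = nuF F p := by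
  unfold omegaF nuF
  congr 1
  ext r
  simp only [Set.mem_ofPred_eq]
  refine and_congr_right fun _ => ?_
  rw [LF_prod]
  simp only [LF_eval]
  have hpi : Prime (p : ℤ) := Nat.prime_iff_prime_int.1 hp
  rw [hpi.dvd_finset_prod_iff]
  simp only [Int.natCast_dvd_natCast]

/-- the factor of the sieving primes for a system of forms -/
noncomputable def sgF (Q : Finset ℕ) (F : Finset (ℕ × ℕ)) : ℝ :=
  ∏ p ∈ Q, (1 - (nuF F p : ℝ) / p) / (1 - 1 / (p : ℝ)) ^ F.card

lemma sg_LF (Q : Finset ℕ) (hQ : ∀ p ∈ Q, p.Prime) (F : Finset (ℕ × ℕ)) : sg Q F.card (LF F) = sgF Q F := by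
  unfold sg sgF
  refine Finset.prod_congr rfl fun p hp => ?_
  rw [omega_LF F (hQ p hp)]

/-- the factor is bounded below for systems without local obstruction in `Q` -/
lemma sgF_lower (Q : Finset ℕ) (hQ : ∀ p ∈ Q, p.Prime) (F : Finset (ℕ × ℕ))
    (h : ∀ p ∈ Q, ∃ n : ℕ, ∀ f ∈ F, ¬ p ∣ f.1 * n + f.2) : ∏ p ∈ Q, (1 / (p : ℝ)) ≤ sgF Q F := by
  unfold sgF
  refine Finset.prod_le_prod (fun p _ => by positivity) fun p hp => ?_
  have hp2 := (hQ p hp).two_le
  have hp0 : (2 : ℝ) ≤ p := by exact_mod_cast hp2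
  have h1 : nuF F p + 1 ≤ p := by
    obtain ⟨n, hn⟩ := h p hp
    unfold nuF
    have h2 : {r : ℕ | r < p ∧ ∃ f ∈ F, p ∣ f.1 * r + f.2} ⊆ (((Finset.range p).erase (n % p) : Finset ℕ) : Set ℕ) := by
      rintro r ⟨hr, f, hf, hd⟩
      simp only [Finset.coe_erase, Finset.coe_range, Set.mem_diff, Set.mem_Iio, Set.mem_singleton_iff]
      refine ⟨hr, ?_⟩
      rintro rfl
      apply hn f hf
      have h3 : f.1 * n + f.2 ≡ f.1 * (n % p) + f.2 [MOD p] :=
        Nat.ModEq.add_right _ (Nat.ModEq.mul_left _ (Nat.mod_modEq n p).symm)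
      exact (h3.dvd_iff dvd_rfl).2 hd
    have h4 := Set.ncard_le_ncard h2 (Finset.finite_toSet _)
    rw [Set.ncard_coe_finset, Finset.card_erase_of_mem (Finset.mem_range.2 (Nat.mod_lt _ (by omega))), Finset.card_range] at h4
    omega
  have h1' : (nuF F p : ℝ) + 1 ≤ p := by exact_mod_cast h1
  have h5 : 0 < 1 - 1 / (p : ℝ) := by
    rw [sub_pos, div_lt_one (by linarith)]
    linarith
  have h6 : 1 - 1 / (p : ℝ) ≤ 1 := by
    have : 0 ≤ 1 / (p : ℝ) := by positivity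
    linarith
  have h7 : 1 / (p : ℝ) ≤ 1 - (nuF F p : ℝ) / p := by
    rw [div_le_iff₀ (by linarith)]
    have h8 : (1 - (nuF F p : ℝ) / p) * p = p - nuF F p := by
      field_simp
    linarith
  rw [le_div_iff₀ (pow_pos h5 _)]
  refine le_trans ?_ h7
  exact mul_le_of_le_one_right (by positivity) (pow_le_one₀ h5.le h6)

/-- the exceptional integers -/
noncomputable def badF (F : Finset (ℕ × ℕ)) (y h : ℕ) : Finset ℕ := by
  classical
  exact (Finset.Ioc y (y + h)).filter fun i => ¬ Set.InjOn (fun f : ℕ × ℕ => f.1 * i + f.2) F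

lemma badF_card (F : Finset (ℕ × ℕ)) (y h : ℕ) : (badF F y h).card ≤ F.card * F.card := by
  classical
  have h1 : ∀ i : ℕ, ∃ fg : (ℕ × ℕ) × (ℕ × ℕ), i ∈ badF F y h → fg.1 ∈ F ∧ fg.2 ∈ F ∧ fg.1 ≠ fg.2 ∧
      fg.1.1 * i + fg.1.2 = fg.2.1 * i + fg.2.2 := by
    intro i
    by_cases hi : i ∈ badF F y h
    · unfold badF at hi
      have h2 := (Finset.mem_filter.1 hi).2
      unfold Set.InjOn at h2
      push Not at h2
      obtain ⟨f, hf, g, hg, h3, h4⟩ := h2
      exact ⟨(f, g), fun _ => ⟨hf, hg, h4, h3⟩⟩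
    · exact ⟨((0, 0), (0, 0)), fun h2 => absurd h2 hi⟩
  choose g hg using h1
  rw [← Finset.card_product]
  refine Finset.card_le_card_of_injOn g (fun i hi => ?_) ?_
  · have h2 := hg i hi
    exact Finset.mem_coe.2 (Finset.mem_product.2 ⟨h2.1, h2.2.1⟩)
  · intro i hi j hj hij
    have h2 := hg i hi
    have h3 := hg j hj
    rw [← hij] at h3
    obtain ⟨_, _, h4, h5⟩ := h2
    obtain ⟨_, _, _, h6⟩ := h3
    by_contra hne
    apply h4
    have e1 : ((g i).1.1 : ℤ) * i + (g i).1.2 = (g i).2.1 * i + (g i).2.2 := by exact_mod_cast h5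
    have e2 : ((g i).1.1 : ℤ) * j + (g i).1.2 = (g i).2.1 * j + (g i).2.2 := by exact_mod_cast h6
    have e3 : (((g i).1.1 : ℤ) - (g i).2.1) * ((i : ℤ) - j) = 0 := by linarith
    rcases mul_eq_zero.1 e3 with h7 | h7
    · have h8 : (g i).1.1 = (g i).2.1 := by
        have : ((g i).1.1 : ℤ) = (g i).2.1 := by linarith
        exact_mod_cast this
      rw [h8] at h5
      ext
      · exact h8
      · omega
    · exact absurd (by have : (i : ℤ) = j := by linarith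
                       exact_mod_cast this) hne

/-- number of `n` in `(y, y + h]` at which all forms are in `S` -/
noncomputable def cntF (S : Set ℕ) (F : Finset (ℕ × ℕ)) (y h : ℕ) : ℕ :=
  {n : ℕ | (y < n ∧ n ≤ y + h) ∧ ∀ f ∈ F, f.1 * n + f.2 ∈ S}.ncard

lemma cntP_LF (S : Set ℕ) (F : Finset (ℕ × ℕ)) (y h : ℕ) : cntP S (LF F) y h = cntF S F y h := by
  unfold cntP cntF LF
  congr 1
  ext n
  simp only [Finset.mem_image, forall_exists_index, and_imp, forall_apply_eq_imp_iff₂, LF_eval, Int.toNat_natCast]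

variable {Ω : Type} {m0 : MeasurableSpace Ω} {μ : Measure Ω} [IsProbabilityMeasure μ]
  {ℱ : Filtration ℕ m0} {A : ℕ → Set Ω} {α : Type}

/-- windows `(y, y + h]` for families of systems of linear forms -/
theorem lin_win (hA : ∀ n, MeasurableSet[ℱ n] (A n)) (Q : Finset ℕ) (hQ : ∀ p ∈ Q, p.Prime)
    (hcop : ∀ n, (∃ p ∈ Q, p ∣ n) → A n = ∅)
    (hd : ∀ᵐ ω ∂μ, Tendsto (fun n : ℕ => dens μ ℱ A n ω * Real.log n)
      (atTop ⊓ 𝓟 {n : ℕ | ∀ p ∈ Q, ¬ p ∣ n + 1}) (𝓝 (∏ p ∈ Q, (1 - 1 / (p : ℝ))⁻¹)))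
    (k C : ℕ) (Φ : ℕ → Finset α) (hΦ : ∀ᶠ x in atTop, (Φ x).card ≤ x ^ C)
    (F : α → Finset (ℕ × ℕ)) (y h : α → ℕ) (Λ : α → ℝ) (mn : ℕ → ℕ) (hmn : Tendsto mn atTop atTop)
    (hFk : ∀ᶠ x in atTop, ∀ a ∈ Φ x, (F a).card = k ∧ ∀ f ∈ F a, 1 ≤ f.1)
    (hmin : ∀ᶠ x in atTop, ∀ a ∈ Φ x, mn x ≤ y a)
    (hlog : ∀ η : ℝ, 0 < η → ∀ᶠ x in atTop, ∀ a ∈ Φ x, ∀ i ∈ Finset.Ioc (y a) (y a + h a),
      |∏ f ∈ F a, Real.log ((f.1 * i + f.2 : ℕ) : ℝ) - Λ a| ≤ η * Λ a)
    (hΛ : ∀ᶠ x in atTop, ∀ a ∈ Φ x, 1 ≤ Λ a)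
    (hbig : ∀ K : ℝ, 0 < K → ∀ᶠ x : ℕ in atTop, ∀ a ∈ Φ x, K * (Λ a ^ 2 * Real.log x) ≤ h a) :
    ∀ᵐ ω ∂μ, ∀ ε : ℝ, 0 < ε → ∀ᶠ x : ℕ in atTop, ∀ a ∈ Φ x,
      |(cntF {m | ω ∈ A m} (F a) (y a) (h a) : ℝ) * Λ a / h a - sgF Q (F a)| ≤ ε := by
  classical
  have hwin : ∀ a, ∀ i ∈ win (y a) (h a) (badF (F a) (y a) (h a)), i ∈ Finset.Ioc (y a) (y a + h a) ∧
      Set.InjOn (fun f : ℕ × ℕ => f.1 * i + f.2) (F a) := by
    intro a i hi
    obtain ⟨h4, h5⟩ := Finset.mem_sdiff.1 hi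
    refine ⟨h4, ?_⟩
    by_contra hne
    apply h5
    unfold badF
    exact Finset.mem_filter.2 ⟨h4, hne⟩
  have main := poly_win' (μ := μ) hA Q hQ hcop hd k (k + 1) C (k * k) (by omega) Φ hΦ
    (fun a => LF (F a)) y h (fun a => badF (F a) (y a) (h a)) Λ mn hmn
    (by
      filter_upwards [hFk] with x hx a ha
      refine ⟨by rw [LF_card]; exact (hx a ha).1, ?_⟩
      have := badF_card (F a) (y a) (h a)
      rw [(hx a ha).1] at this
      exact this)
    (by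
      filter_upwards [hFk, hmin] with x hx1 hx2 a ha i hi
      obtain ⟨h1, h2⟩ := hwin a i hi
      have h3 := (Finset.mem_Ioc.1 h1).1
      refine ⟨?_, ?_⟩
      · intro f hf
        unfold LF at hf
        obtain ⟨g, hg, rfl⟩ := Finset.mem_image.1 hf
        rw [LF_eval]
        have h4 := (hx1 a ha).2 g hg
        have h5 := hx2 a ha
        have h6 : i ≤ g.1 * i := Nat.le_mul_of_pos_left i h4
        exact_mod_cast (by omega : mn x ≤ g.1 * i + g.2)
      · intro f hf g hg hfg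
        unfold LF at hf hg
        obtain ⟨f', hf', rfl⟩ := Finset.mem_image.1 (Finset.mem_coe.1 hf)
        obtain ⟨g', hg', rfl⟩ := Finset.mem_image.1 (Finset.mem_coe.1 hg)
        simp only [LF_eval] at hfg
        have h4 : f' = g' := h2 hf' hg' (by exact_mod_cast hfg)
        rw [h4])
    (by
      filter_upwards [hFk] with x hx a ha m
      have h0 := mult_inj (LF (F a)) (win (y a) (h a) (badF (F a) (y a) (h a))) (by
        intro f hf i hi j hj hij
        unfold LF at hf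
        obtain ⟨g, hg, rfl⟩ := Finset.mem_image.1 hf
        simp only [LF_eval, Int.toNat_natCast] at hij
        have h4 := (hx a ha).2 g hg
        exact Nat.eq_of_mul_eq_mul_left h4 (by omega)) m
      rw [LF_card, (hx a ha).1] at h0
      omega)
    (by
      intro η hη
      filter_upwards [hlog η hη] with x hx a ha i hi
      rw [LF_prod]
      simp only [LF_eval, Int.toNat_natCast]
      exact hx a ha i (hwin a i hi).1)
    hΛ hbig
  filter_upwards [main] with ω hω ε hε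
  filter_upwards [hω ε hε, hFk] with x hx1 hx2 a ha
  have h1 := hx1 a ha
  simp only [cntP_LF] at h1
  rw [← (hx2 a ha).1, sg_LF Q hQ] at h1
  exact h1

end Pool.Agent.R960.Fam
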