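import Mathlib
import Pool.Agent.R960.Fam.Lin

set_option autoImplicit false
set_option linter.unusedSectionVars false

/-! # Systems of linear forms in the sieved models, uniformly in the coefficients -/

open MeasureTheory Filter Set Polynomial
open scoped ENNReal Topology

namespace Pool.Agent.R960.Fam

open Pool.Agent.R528.RM

variable {Ω : Type} {m0 : MeasurableSpace Ω} {μ : Measure Ω} [IsProbabilityMeasure μ]
  {ℱ : Filtration ℕ m0} {A : ℕ → Set Ω}

/-- uniformly in the coefficients -/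
def UniF (S : Set ℕ) (Q : Finset ℕ) (k : ℕ) : Prop :=
  ∀ ε : ℝ, 0 < ε → ∀ᶠ x : ℕ in atTop, ∀ N : ℕ, N ≤ x → Real.log x ^ (2 * k + 2) ≤ N →
    ∀ F : Finset (ℕ × ℕ), F.card = k → (∀ f ∈ F, 1 ≤ f.1 ∧ f.1 ≤ x ∧ f.2 ≤ x) →
      |(cntF S F N N : ℝ) * (∏ f ∈ F, Real.log ((f.1 * N + f.2 : ℕ) : ℝ)) / N - sgF Q F| ≤ ε

theorem lin_uniform (hA : ∀ n, MeasurableSet[ℱ n] (A n)) (Q : Finset ℕ) (hQ : ∀ p ∈ Q, p.Prime)
    (hcop : ∀ n, (∃ p ∈ Q, p ∣ n) → A n = ∅)
    (hd : ∀ᵐ ω ∂μ, Tendsto (fun n : ℕ => dens μ ℱ A n ω * Real.log n)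
      (atTop ⊓ 𝓟 {n : ℕ | ∀ p ∈ Q, ¬ p ∣ n + 1}) (𝓝 (∏ p ∈ Q, (1 - 1 / (p : ℝ))⁻¹))) :
    ∀ᵐ ω ∂μ, ∀ k : ℕ, UniF {m | ω ∈ A m} Q k := by
  classical
  rw [ae_all_iff]
  intro k
  set Φ : ℕ → Finset (Finset (ℕ × ℕ) × ℕ) := fun x =>
    ((((Finset.range (x + 1) ×ˢ Finset.range (x + 1)).powersetCard k) ×ˢ Finset.range (x + 1)).filter
      fun a : Finset (ℕ × ℕ) × ℕ => (∀ f ∈ a.1, 1 ≤ f.1) ∧ Real.log x ^ (2 * k + 2) ≤ a.2) with hΦ
  have hmem : ∀ x, ∀ a ∈ Φ x, a.1.card = k ∧ (∀ f ∈ a.1, 1 ≤ f.1) ∧ Real.log x ^ (2 * k + 2) ≤ (a.2 : ℝ) ∧ a.2 ≤ x ∧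
      ∀ f ∈ a.1, f.1 ≤ x ∧ f.2 ≤ x := by
    intro x a ha
    obtain ⟨h1, h2, h3⟩ := Finset.mem_filter.1 ha
    obtain ⟨h4, h5⟩ := Finset.mem_product.1 h1
    refine ⟨(Finset.mem_powersetCard.1 h4).2, h2, h3, by have := Finset.mem_range.1 h5; omega, fun f hf => ?_⟩
    have h6 := (Finset.mem_powersetCard.1 h4).1 hf
    have h7 := Finset.mem_range.1 (Finset.mem_product.1 h6).1
    have h8 := Finset.mem_range.1 (Finset.mem_product.1 h6).2
    omega
  have c1 : ∀ᶠ x : ℕ in atTop, (Φ x).card ≤ x ^ (2 * (2 * k + 1)) := by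
    filter_upwards [eventually_ge_atTop 2] with x hx
    have h1 : (Φ x).card ≤ ((x + 1) * (x + 1)) ^ k * (x + 1) := by
      refine (Finset.card_filter_le _ _).trans ?_
      rw [Finset.card_product, Finset.card_powersetCard, Finset.card_product, Finset.card_range]
      exact Nat.mul_le_mul_right _ (Nat.choose_le_pow _ _)
    refine h1.trans ?_
    have h2 : ((x + 1) * (x + 1)) ^ k * (x + 1) = (x + 1) ^ (2 * k + 1) := by
      rw [← sq, ← pow_mul, pow_succ]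
    rw [h2, pow_mul]
    exact Nat.pow_le_pow_left (by nlinarith) _
  have tl := Real.tendsto_log_atTop.comp (tendsto_natCast_atTop_atTop (R := ℝ))
  have tll : Tendsto (fun x : ℕ => Real.log (Real.log x)) atTop atTop := Real.tendsto_log_atTop.comp tl
  have t1 : ∀ᶠ x : ℕ in atTop, (1 : ℝ) ≤ Real.log x := tl.eventually_ge_atTop _
  have t2 : ∀ᶠ x : ℕ in atTop, (1 : ℝ) ≤ Real.log (Real.log x) := tll.eventually_ge_atTop _
  -- lower bound for the logarithms
  have hlow : ∀ x : ℕ, 1 ≤ Real.log x → ∀ a ∈ Φ x, Real.log x ≤ a.2 ∧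
      ∀ f ∈ a.1, Real.log (Real.log x) ≤ Real.log ((f.1 * a.2 + f.2 : ℕ) : ℝ) := by
    intro x hx a ha
    obtain ⟨h0, h1, h2, h3, h4⟩ := hmem x a ha
    have h5 : Real.log x ≤ a.2 := (le_self_pow₀ hx (by omega)).trans h2
    refine ⟨h5, fun f hf => ?_⟩
    refine Real.log_le_log (by linarith) (h5.trans ?_)
    have h6 := (h1 f hf)
    have h7 : a.2 ≤ f.1 * a.2 := Nat.le_mul_of_pos_left a.2 (by omega)
    exact_mod_cast (by omega : a.2 ≤ f.1 * a.2 + f.2)
  have main := lin_win (μ := μ) hA Q hQ hcop hd k (2 * (2 * k + 1)) Φ c1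
    (fun a => a.1) (fun a => a.2) (fun a => a.2) (fun a => ∏ f ∈ a.1, Real.log ((f.1 * a.2 + f.2 : ℕ) : ℝ))
    (fun x => ⌊Real.log x⌋₊) (tendsto_nat_floor_atTop.comp tl)
    (by
      filter_upwards with x a ha
      obtain ⟨h0, h1, h2, h3, h4⟩ := hmem x a ha
      exact ⟨h0, h1⟩)
    (by
      filter_upwards [t1] with x hx a ha
      have h5 := (hlow x hx a ha).1
      exact Nat.floor_le_of_le h5)
    (by
      intro η hη
      filter_upwards [t1, t2, tll.eventually (near_ev (Real.log 2) k hη)] with x hx1 hx2 hx3 a ha i hi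
      obtain ⟨h0, h1, h2, h3, h4⟩ := hmem x a ha
      obtain ⟨h5, h6⟩ := hlow x hx1 a ha
      obtain ⟨h7, h8⟩ := Finset.mem_Ioc.1 hi
      have hN : 1 ≤ a.2 := by
        have : (1 : ℝ) ≤ a.2 := hx1.trans h5
        exact_mod_cast this
      have h9 := prod_near a.1 (fun f => Real.log ((f.1 * i + f.2 : ℕ) : ℝ))
        (fun f => Real.log ((f.1 * a.2 + f.2 : ℕ) : ℝ)) (L := Real.log (Real.log x)) (c := Real.log 2) (by linarith)
        (Real.log_nonneg (by norm_num)) h6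
        (fun f hf => by
          have h10 := h1 f hf
          have h11 : 0 < f.1 * a.2 := Nat.mul_pos (by omega) hN
          refine Real.log_le_log (by exact_mod_cast (by omega : 0 < f.1 * a.2 + f.2)) ?_
          have : f.1 * a.2 ≤ f.1 * i := Nat.mul_le_mul_left _ (by omega)
          exact_mod_cast (by omega : f.1 * a.2 + f.2 ≤ f.1 * i + f.2))
        (fun f hf => by
          have h10 := h1 f hf
          have h11 : 0 < f.1 * a.2 := Nat.mul_pos (by omega) hN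
          have h12 : f.1 * i + f.2 ≤ 2 * (f.1 * a.2 + f.2) := by
            have e1 : f.1 * i ≤ f.1 * (a.2 + a.2) := Nat.mul_le_mul_left _ h8
            nlinarith
          have h13 : 0 < f.1 * i + f.2 := by
            have : 0 < f.1 * i := Nat.mul_pos (by omega) (by omega)
            omega
          rw [← Real.log_mul (by exact_mod_cast (by omega : f.1 * a.2 + f.2 ≠ 0)) (by norm_num)]
          refine Real.log_le_log (by exact_mod_cast h13) ?_
          have h14 : ((f.1 * i + f.2 : ℕ) : ℝ) ≤ ((2 * (f.1 * a.2 + f.2) : ℕ) : ℝ) := by exact_mod_cast h12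
          push_cast at h14 ⊢
          linarith)
      rw [h0] at h9
      refine h9.trans (mul_le_mul_of_nonneg_right hx3 ?_)
      exact Finset.prod_nonneg fun f hf => Real.log_natCast_nonneg _)
    (by
      filter_upwards [t1, t2] with x hx1 hx2 a ha
      obtain ⟨h5, h6⟩ := hlow x hx1 a ha
      have h7 := Finset.prod_le_prod (s := a.1) (f := fun _ => (1 : ℝ)) (g := fun f => Real.log ((f.1 * a.2 + f.2 : ℕ) : ℝ))
        (fun _ _ => zero_le_one) (fun f hf => hx2.trans (h6 f hf))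
      rw [Finset.prod_const_one] at h7
      exact h7)
    (by
      intro K hK
      filter_upwards [t1, tl.eventually_ge_atTop (K * 9 ^ k)] with x hx1 hx2 a ha
      obtain ⟨h0, h1, h2, h3, h4⟩ := hmem x a ha
      obtain ⟨h5, h6⟩ := hlow x hx1 a ha
      have hx2' : K * 9 ^ k ≤ Real.log x := hx2
      have hN : 1 ≤ a.2 := by
        have : (1 : ℝ) ≤ a.2 := hx1.trans h5
        exact_mod_cast this
      have hxe : (2 : ℝ) ≤ x := by
        by_contra hlt
        push Not at hlt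
        have h7 : Real.log (x : ℝ) < 1 := by
          have hx0 : (0 : ℝ) < x := by
            have : (0 : ℕ) < x := by omega
            exact_mod_cast this
          have := Real.log_le_sub_one_of_pos hx0
          linarith
        linarith
      have hx2n : 2 ≤ x := by exact_mod_cast hxe
      have hx0 : (0 : ℝ) < x := by linarith
      have h7 : ∏ f ∈ a.1, Real.log ((f.1 * a.2 + f.2 : ℕ) : ℝ) ≤ (3 * Real.log x) ^ k := by
        have h8 := Finset.prod_le_prod (s := a.1) (f := fun f => Real.log ((f.1 * a.2 + f.2 : ℕ) : ℝ)) (g := fun _ => 3 * Real.log x)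
          (fun _ _ => Real.log_natCast_nonneg _) (fun f hf => by
            have h10 := h1 f hf
            have h11 : 0 < f.1 * a.2 := Nat.mul_pos (by omega) hN
            have h12 : f.1 * a.2 + f.2 ≤ x ^ 3 := by
              have e1 : f.1 * a.2 ≤ x * x := Nat.mul_le_mul (h4 f hf).1 h3
              have e2 := (h4 f hf).2
              have e3 : x ^ 3 = x * x * x := by ring
              nlinarith [Nat.mul_le_mul_left (x * x) hx2n]
            have h13 : 3 * Real.log (x : ℝ) = Real.log (((x ^ 3 : ℕ)) : ℝ) := by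
              push_cast
              rw [Real.log_pow]
              norm_num
            rw [h13]
            exact Real.log_le_log (by exact_mod_cast (by omega : 0 < f.1 * a.2 + f.2)) (by exact_mod_cast h12))
        rw [Finset.prod_const, h0] at h8
        exact h8
      have h9 : 0 ≤ ∏ f ∈ a.1, Real.log ((f.1 * a.2 + f.2 : ℕ) : ℝ) := Finset.prod_nonneg fun f hf => Real.log_natCast_nonneg _
      have h10 : (∏ f ∈ a.1, Real.log ((f.1 * a.2 + f.2 : ℕ) : ℝ)) ^ 2 ≤ ((3 * Real.log x) ^ k) ^ 2 := pow_le_pow_left₀ h9 h7 2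
      refine le_trans ?_ h2
      calc K * ((∏ f ∈ a.1, Real.log ((f.1 * a.2 + f.2 : ℕ) : ℝ)) ^ 2 * Real.log x)
          ≤ K * (((3 * Real.log x) ^ k) ^ 2 * Real.log x) :=
            mul_le_mul_of_nonneg_left (mul_le_mul_of_nonneg_right h10 (by linarith)) hK.le
        _ = (K * 9 ^ k) * Real.log x ^ (2 * k + 1) := by
            rw [mul_pow, mul_pow, ← pow_mul, ← pow_mul, mul_comm k 2, pow_mul 3 2 k]
            ring
        _ ≤ Real.log x * Real.log x ^ (2 * k + 1) := mul_le_mul_of_nonneg_right hx2' (by positivity)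
        _ = Real.log x ^ (2 * k + 2) := by ring)
  filter_upwards [main] with ω hω
  intro ε hε
  filter_upwards [hω ε hε] with x hx N hN1 hN2 F hF1 hF2
  refine hx (F, N) ?_
  simp only [hΦ, Finset.mem_filter, Finset.mem_product, Finset.mem_powersetCard, Finset.mem_range]
  refine ⟨⟨⟨fun f hf => ?_, hF1⟩, by omega⟩, fun f hf => (hF2 f hf).1, hN2⟩
  have h2 := hF2 f hf
  exact Finset.mem_product.2 ⟨Finset.mem_range.2 (by omega), Finset.mem_range.2 (by omega)⟩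

/-- the least `n` at which all forms are in `S` -/
theorem lin_least {S : Set ℕ} {Q : Finset ℕ} (hQ : ∀ p ∈ Q, p.Prime) {k : ℕ} (L1 : UniF S Q k) :
    ∃ γ : ℝ, 0 < γ ∧ ∀ F : Finset (ℕ × ℕ), F.card = k → (∀ f ∈ F, 1 ≤ f.1) →
      (∀ p ∈ Q, ∃ n : ℕ, ∀ f ∈ F, ¬ p ∣ f.1 * n + f.2) → ∀ X : ℕ, 1 ≤ X → (∀ f ∈ F, f.1 ≤ X ∧ f.2 ≤ X) →
        ∃ n : ℕ, 1 ≤ n ∧ (n : ℝ) ≤ γ * (1 + Real.log X) ^ (2 * k + 2) ∧ ∀ f ∈ F, f.1 * n + f.2 ∈ S := by
  classical
  have tl := Real.tendsto_log_atTop.comp (tendsto_natCast_atTop_atTop (R := ℝ))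
  have t1 : ∀ᶠ x : ℕ in atTop, (1 : ℝ) ≤ Real.log x := tl.eventually_ge_atTop _
  set δ : ℝ := ∏ p ∈ Q, (1 / (p : ℝ)) with hδ
  have hδ0 : 0 < δ := Finset.prod_pos fun p hp => by
    have : (0 : ℝ) < p := by exact_mod_cast (hQ p hp).pos
    positivity
  have t3 : ∀ᶠ x : ℕ in atTop, Real.log x ^ (2 * k + 2) + 1 ≤ x := by
    have h0 : Tendsto (fun x : ℝ => Real.log x ^ ((2 * k + 2 : ℕ) : ℝ) / x ^ (1 : ℝ)) atTop (𝓝 0) :=
      (isLittleO_log_rpow_rpow_atTop ((2 * k + 2 : ℕ) : ℝ) one_pos).tendsto_div_nhds_zero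
    have h1 := h0.comp tendsto_natCast_atTop_atTop
    filter_upwards [h1.eventually_le_const (show (0 : ℝ) < 1 / 2 by norm_num), eventually_ge_atTop 2] with N hN hN4
    have hN0 : (2 : ℝ) ≤ N := by exact_mod_cast hN4
    simp only [Function.comp_apply, Real.rpow_one, Real.rpow_natCast] at hN
    rw [div_le_iff₀ (by linarith)] at hN
    linarith
  obtain ⟨x₀, hx₀⟩ := eventually_atTop.1 ((L1 (δ / 2) (by positivity)).and (t3.and t1))
  have key : ∀ x, x₀ ≤ x → ∀ N : ℕ, N ≤ x → Real.log x ^ (2 * k + 2) ≤ N → ∀ F : Finset (ℕ × ℕ), F.card = k →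
      (∀ f ∈ F, 1 ≤ f.1) → (∀ f ∈ F, f.1 ≤ x ∧ f.2 ≤ x) → (∀ p ∈ Q, ∃ n : ℕ, ∀ f ∈ F, ¬ p ∣ f.1 * n + f.2) →
      ∃ n : ℕ, 1 ≤ n ∧ n ≤ N + N ∧ ∀ f ∈ F, f.1 * n + f.2 ∈ S := by
    intro x hx N hN1 hN2 F hF0 hF1 hF2 hF3
    have h1 := (hx₀ x hx).1 N hN1 hN2 F hF0 (fun f hf => ⟨hF1 f hf, hF2 f hf⟩)
    have h2 : cntF S F N N ≠ 0 := by
      intro h9
      rw [h9] at h1
      simp only [Nat.cast_zero, zero_mul, zero_div, zero_sub, abs_neg] at h1
      have h11 : δ ≤ sgF Q F := sgF_lower Q hQ F hF3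
      have h12 := le_abs_self (sgF Q F)
      linarith
    have h9 : {n : ℕ | (N < n ∧ n ≤ N + N) ∧ ∀ f ∈ F, f.1 * n + f.2 ∈ S}.Nonempty := by
      by_contra hne
      rw [Set.not_nonempty_iff_eq_empty] at hne
      apply h2
      unfold cntF
      rw [hne, Set.ncard_empty]
    obtain ⟨n, ⟨hn1, hn2⟩, hn3⟩ := h9
    exact ⟨n, by omega, hn2, hn3⟩
  refine ⟨4 + 2 * x₀, by positivity, ?_⟩
  intro F hF0 hF hF3 X hX1 hX
  have hXr : (1 : ℝ) ≤ X := by exact_mod_cast hX1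
  have hlX : 0 ≤ Real.log (X : ℝ) := Real.log_nonneg hXr
  have hLpos : 1 ≤ (1 + Real.log (X : ℝ)) ^ (2 * k + 2) := one_le_pow₀ (by linarith)
  by_cases hcase : x₀ ≤ X
  · obtain ⟨_, h2, h3⟩ := hx₀ X hcase
    set N := ⌈Real.log (X : ℝ) ^ (2 * k + 2)⌉₊ with hN
    have h4 : Real.log (X : ℝ) ^ (2 * k + 2) ≤ N := Nat.le_ceil _
    have h5 : (N : ℝ) < Real.log (X : ℝ) ^ (2 * k + 2) + 1 := Nat.ceil_lt_add_one (by positivity)
    have h6 : N ≤ X := by
      have : (N : ℝ) ≤ X := by linarith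
      exact_mod_cast this
    obtain ⟨n, hn1, hn2, hn3⟩ := key X hcase N h6 h4 F hF0 hF hX hF3
    refine ⟨n, hn1, ?_, hn3⟩
    have h7 : (n : ℝ) ≤ N + N := by exact_mod_cast hn2
    have h9 : Real.log (X : ℝ) ^ (2 * k + 2) ≤ (1 + Real.log X) ^ (2 * k + 2) :=
      pow_le_pow_left₀ hlX (by linarith) _
    have h10 : 0 ≤ 2 * x₀ * (1 + Real.log (X : ℝ)) ^ (2 * k + 2) := by positivity
    rw [add_mul]
    linarith
  · obtain ⟨_, h2, _⟩ := hx₀ x₀ le_rfl
    obtain ⟨n, hn1, hn2, hn3⟩ := key x₀ le_rfl x₀ le_rfl (by linarith) F hF0 hF (fun f hf => by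
      have := hX f hf
      omega) hF3
    refine ⟨n, hn1, ?_, hn3⟩
    have h7 : (n : ℝ) ≤ x₀ + x₀ := by exact_mod_cast hn2
    have h8 : (2 * x₀ : ℝ) ≤ 2 * x₀ * (1 + Real.log X) ^ (2 * k + 2) :=
      le_mul_of_one_le_right (by positivity) hLpos
    rw [add_mul]
    linarith

end Pool.Agent.R960.Fam
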